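import Pool.Agent.H50.GW.Stm
import Pool.Agent.H50.BF.MMB

set_option autoImplicit false
set_option linter.unusedVariables false
set_option linter.unusedSectionVars false

/-! # GW-EXPW (helper13) -/

open MeasureTheory Filter ProbabilityTheory
open scoped Topology ENNReal

namespace Pool.Agent.H50.GW

open Pool.Agent.H50.BF

namespace EXPWaux

lemma tlog : Tendsto (fun n : ℕ => Real.log n) atTop atTop :=
  Real.tendsto_log_atTop.comp tendsto_natCast_atTop_atTop

lemma tll : Tendsto (fun n : ℕ => Real.log (Real.log n)) atTop atTop :=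
  Real.tendsto_log_atTop.comp tlog

lemma tB {B : ℕ} (hB : 1 ≤ B) : Tendsto (fun n : ℕ => B * n) atTop atTop :=
  tendsto_id.const_mul_atTop' (by omega)

/-- `log (B n) / log n → 1` -/
lemma log_B {B : ℕ} (hB : 1 ≤ B) :
    Tendsto (fun n : ℕ => Real.log ((B * n : ℕ) : ℝ) / Real.log n) atTop (𝓝 1) := by
  have h1 : Tendsto (fun n : ℕ => Real.log B / Real.log n + 1) atTop (𝓝 (0 + 1)) :=
    (tlog.const_div_atTop _).add tendsto_const_nhds
  rw [zero_add] at h1
  refine h1.congr' ?_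
  filter_upwards [tlog.eventually_ge_atTop 1, eventually_ge_atTop 1] with n hn hn1
  have hn0 : (n : ℝ) ≠ 0 := by
    have : n ≠ 0 := by omega
    exact_mod_cast this
  have hB0 : (B : ℝ) ≠ 0 := by
    have : B ≠ 0 := by omega
    exact_mod_cast this
  have hL : Real.log n ≠ 0 := by linarith
  push_cast
  rw [Real.log_mul hB0 hn0]
  field_simp

/-- `log log (B n) / log log n → 1` -/
lemma ll_B {B : ℕ} (hB : 1 ≤ B) :
    Tendsto (fun n : ℕ => Real.log (Real.log ((B * n : ℕ) : ℝ)) / Real.log (Real.log n)) atTop (𝓝 1) := by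
  have h0 : Tendsto (fun n : ℕ => Real.log (Real.log ((B * n : ℕ) : ℝ) / Real.log n)) atTop (𝓝 0) := by
    have := (log_B hB).log one_ne_zero
    rwa [Real.log_one] at this
  have h1 : Tendsto (fun n : ℕ => Real.log (Real.log ((B * n : ℕ) : ℝ) / Real.log n) /
      Real.log (Real.log n) + 1) atTop (𝓝 (0 + 1)) :=
    (h0.div_atTop tll).add tendsto_const_nhds
  rw [zero_add] at h1
  refine h1.congr' ?_
  filter_upwards [tlog.eventually_ge_atTop 1, tll.eventually_ge_atTop 1,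
    (tlog.comp (tB hB)).eventually_ge_atTop 1] with n hn hn1 hn2
  simp only [Function.comp] at hn2
  rw [Real.log_div (by linarith) (by linarith)]
  have : Real.log (Real.log n) ≠ 0 := by linarith
  field_simp
  ring

section z

variable {z : ℕ → ℕ}

lemma lev_B (hz : Tendsto (fun n : ℕ => Real.log (z n) / Real.log (Real.log n)) atTop (𝓝 1)) {B : ℕ}
    (hB : 1 ≤ B) :
    Tendsto (fun n : ℕ => Real.log (z (B * n)) / Real.log (Real.log n)) atTop (𝓝 1) := by
  have h1 := (hz.comp (tB hB)).mul (ll_B hB)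
  rw [one_mul] at h1
  refine h1.congr' ?_
  filter_upwards [(tll.comp (tB hB)).eventually_ge_atTop 1] with n hn2
  simp only [Function.comp] at hn2 ⊢
  have : Real.log (Real.log ((B * n : ℕ) : ℝ)) ≠ 0 := by linarith
  field_simp

lemma logz_tendsto (hz : Tendsto (fun n : ℕ => Real.log (z n) / Real.log (Real.log n)) atTop (𝓝 1)) :
    Tendsto (fun n : ℕ => Real.log (z n)) atTop atTop := by
  have h1 := hz.pos_mul_atTop one_pos tll
  refine h1.congr' ?_
  filter_upwards [tll.eventually_ge_atTop 1] with n hn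
  have : Real.log (Real.log n) ≠ 0 := by linarith
  field_simp

lemma z_tendsto (hz : Tendsto (fun n : ℕ => Real.log (z n) / Real.log (Real.log n)) atTop (𝓝 1)) :
    Tendsto z atTop atTop := by
  refine tendsto_atTop.2 fun b => ?_
  filter_upwards [(logz_tendsto hz).eventually_ge_atTop (Real.log b + 1),
    (logz_tendsto hz).eventually_ge_atTop 1] with n hn hn1
  by_contra hcon
  push Not at hcon
  have h0 : 0 < z n := by
    rcases Nat.eq_zero_or_pos (z n) with h | h
    · rw [h] at hn1; simp at hn1; linarith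
    · exact h
  have h1 : Real.log (z n) ≤ Real.log b :=
    Real.log_le_log (by exact_mod_cast h0) (by exact_mod_cast hcon.le)
  linarith

lemma MM_z (hMERT : S_MERT)
    (hz : Tendsto (fun n : ℕ => Real.log (z n) / Real.log (Real.log n)) atTop (𝓝 1)) {B : ℕ}
    (hB : 1 ≤ B) :
    Tendsto (fun n : ℕ => MM (z (B * n)) / Real.log (Real.log n)) atTop
      (𝓝 (Real.exp Real.eulerMascheroniConstant)) := by
  have h0 : Tendsto (fun n : ℕ => z (B * n)) atTop atTop := (z_tendsto hz).comp (tB hB)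
  have h1 := (hMERT.comp h0).mul (lev_B hz hB)
  rw [mul_one] at h1
  refine h1.congr' ?_
  filter_upwards [((logz_tendsto hz).comp (tB hB)).eventually_ge_atTop 1,
    tll.eventually_ge_atTop 1] with n hn1 hn2
  simp only [Function.comp] at hn1 ⊢
  have h3 : Real.log ((z (B * n) : ℕ) : ℝ) ≠ 0 := by linarith
  have h4 : Real.log (Real.log n) ≠ 0 := by linarith
  field_simp

lemma MM_ratio (hMERT : S_MERT)
    (hz : Tendsto (fun n : ℕ => Real.log (z n) / Real.log (Real.log n)) atTop (𝓝 1)) {B : ℕ}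
    (hB : 1 ≤ B) : Tendsto (fun n : ℕ => MM (z (B * n)) / MM (z n)) atTop (𝓝 1) := by
  have h1 := MM_z hMERT hz hB
  have h2 := MM_z hMERT hz (B := 1) le_rfl
  have h3 := h1.div h2 (Real.exp_pos _).ne'
  rw [div_self (Real.exp_pos _).ne'] at h3
  refine h3.congr' ?_
  filter_upwards [tll.eventually_ge_atTop 1] with n hn2
  have h4 : Real.log (Real.log n) ≠ 0 := by linarith
  have h5 := (MM_pos (z n)).ne'
  simp only [Pi.div_apply, one_mul]
  field_simp

lemma z_range (hz : Tendsto (fun n : ℕ => Real.log (z n) / Real.log (Real.log n)) atTop (𝓝 1)) {B : ℕ}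
    (hB : 1 ≤ B) {η : ℝ} (hη : 0 < η) :
    ∀ᶠ n : ℕ in atTop, Real.log n ^ (1 - η) ≤ z (B * n) ∧ (z (B * n) : ℝ) ≤ Real.log n ^ (1 + η) := by
  have h1 := lev_B hz hB
  filter_upwards [h1.eventually_const_le (show 1 - η < 1 by linarith),
    h1.eventually_le_const (show 1 < 1 + η by linarith), tlog.eventually_ge_atTop 1,
    tll.eventually_ge_atTop 1, ((z_tendsto hz).comp (tB hB)).eventually_ge_atTop 1]
    with n hn1 hn2 hL hLL hz1
  simp only [Function.comp] at hz1
  have hz0 : (0 : ℝ) < z (B * n) := by exact_mod_cast hz1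
  have hLL0 : 0 < Real.log (Real.log n) := by linarith
  rw [le_div_iff₀ hLL0] at hn1
  rw [div_le_iff₀ hLL0] at hn2
  have hL0 : 0 < Real.log n := by linarith
  constructor
  · rw [Real.rpow_def_of_pos hL0, ← Real.le_log_iff_exp_le hz0]
    linarith
  · rw [Real.rpow_def_of_pos hL0, ← Real.log_le_iff_le_exp hz0]
    linarith

end z

section prob

variable {Ω : Type} [MeasurableSpace Ω] {P : Measure Ω} {A : ℕ → Set Ω} {z : ℕ → ℕ}

lemma rou_mono {v v' n : ℕ} (h : v ≤ v') (hr : Rou v' n) : Rou v n :=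
  fun p hp hpv => hr p hp (hpv.trans h)

/-- the density bounds, uniformly -/
lemma dens_range (hM : GMod P A z) {δ : ℝ} (hδ : 0 < δ) : ∀ᶠ N : ℕ in atTop, Rou (z N) N →
    1 - δ ≤ (P (A N)).toReal * (Real.log N / MM (z N)) ∧
      (P (A N)).toReal * (Real.log N / MM (z N)) ≤ 1 + δ := by
  have h1 := hM.dens.eventually (Icc_mem_nhds (show 1 - δ < 1 by linarith) (show 1 < 1 + δ by linarith))
  rw [eventually_inf_principal] at h1
  filter_upwards [h1] with N hN hR
  exact hN hR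

lemma prob_range (hMERT : S_MERT) (hM : GMod P A z) {B : ℕ} (hB : 1 ≤ B) {δ : ℝ} (hδ : 0 < δ) :
    ∀ᶠ n : ℕ in atTop, ∀ N : ℕ, n ≤ N → N ≤ B * n → Rou (z N) N →
      1 - δ ≤ (P (A N)).toReal * (Real.log n / MM (z n)) ∧
        (P (A N)).toReal * (Real.log n / MM (z n)) ≤ 1 + δ := by
  obtain ⟨e, he⟩ : ∃ e : ℝ, e = min 1 (δ / 3) := ⟨_, rfl⟩
  have he0 : 0 < e := by rw [he]; positivity
  have he1 : e ≤ 1 := by rw [he]; exact min_le_left _ _
  have he2 : 3 * e ≤ δ := by
    have : e ≤ δ / 3 := by rw [he]; exact min_le_right _ _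
    linarith
  have h1 := eventually_forall_ge_atTop.2 (dens_range hM he0)
  have h2 := MM_ratio hMERT hM.lev hB
  have h3 := log_B hB
  filter_upwards [h1, h2.eventually_le_const (show 1 < 1 + e by linarith),
    h3.eventually_le_const (show 1 < 1 + e by linarith), tlog.eventually_ge_atTop 1,
    eventually_ge_atTop 1] with n g1 g2 g3 hL hn1 N hN1 hN2 hR
  obtain ⟨x1, x2⟩ := g1 N hN1 hR
  have hn0 : (0 : ℝ) < n := by exact_mod_cast hn1
  have hN0 : (0 : ℝ) < N := by exact_mod_cast (by omega : 0 < N)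
  have l1 : Real.log n ≤ Real.log N := Real.log_le_log hn0 (by exact_mod_cast hN1)
  have l2 : Real.log N ≤ Real.log ((B * n : ℕ) : ℝ) := Real.log_le_log hN0 (by exact_mod_cast hN2)
  have hL0 : 0 < Real.log n := by linarith
  rw [div_le_iff₀ hL0] at g3
  have m0 := MM_pos (z n)
  have m0' := MM_pos (z N)
  rw [div_le_iff₀ m0] at g2
  have m1 : MM (z n) ≤ MM (z N) := MM_mono (hM.mono hN1)
  have m2 : MM (z N) ≤ MM (z (B * n)) := MM_mono (hM.mono hN2)
  obtain ⟨y, hy⟩ : ∃ y, y = Real.log n / Real.log N := ⟨_, rfl⟩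
  obtain ⟨w, hw⟩ : ∃ w, w = MM (z N) / MM (z n) := ⟨_, rfl⟩
  have hlN : 0 < Real.log N := by linarith
  have y1 : y ≤ 1 := by rw [hy, div_le_one hlN]; exact l1
  have y0 : 0 < y := by rw [hy]; positivity
  have y2 : 1 - e ≤ y := by
    rw [hy, le_div_iff₀ hlN]
    have : Real.log N ≤ (1 + e) * Real.log n := l2.trans g3
    nlinarith
  have w1 : 1 ≤ w := by rw [hw, one_le_div m0]; exact m1
  have w2 : w ≤ 1 + e := by rw [hw, div_le_iff₀ m0]; exact m2.trans g2
  have e1 : (P (A N)).toReal * (Real.log n / MM (z n)) =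
      (P (A N)).toReal * (Real.log N / MM (z N)) * y * w := by
    rw [hy, hw]; field_simp
  rw [e1]
  generalize (P (A N)).toReal * (Real.log N / MM (z N)) = x at *
  have x0 : 0 ≤ x := by linarith
  constructor
  · calc 1 - δ ≤ (1 - e) * (1 - e) * 1 := by nlinarith
      _ ≤ x * y * w := by
        have : 0 ≤ 1 - e := by linarith
        gcongr
  · calc x * y * w ≤ (1 + e) * 1 * (1 + e) := by gcongr
      _ ≤ 1 + δ := by nlinarith

lemma pow_up (k : ℕ) {e : ℝ} (he : 0 ≤ e) (he1 : e ≤ 1) : (1 + e) ^ k ≤ 1 + 3 ^ k * e := by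
  induction k with
  | zero => simp; exact he
  | succ k ih =>
    have h3 : (1 : ℝ) ≤ 3 ^ k := one_le_pow₀ (by norm_num)
    calc (1 + e) ^ (k + 1) = (1 + e) ^ k * (1 + e) := pow_succ _ _
      _ ≤ (1 + 3 ^ k * e) * (1 + e) := by gcongr
      _ = 1 + e + 3 ^ k * e + 3 ^ k * (e * e) := by ring
      _ ≤ 1 + 3 ^ k * e + 3 ^ k * e + 3 ^ k * (e * 1) := by
          have : e ≤ 3 ^ k * e := by nlinarith
          gcongr
      _ = 1 + 3 ^ (k + 1) * e := by rw [pow_succ]; ring

lemma pow_dn (k : ℕ) {e : ℝ} (he : 0 ≤ e) (he1 : e ≤ 1) : 1 - 3 ^ k * e ≤ (1 - e) ^ k := by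
  induction k with
  | zero => simp; exact he
  | succ k ih =>
    have h3 : (1 : ℝ) ≤ 3 ^ k := one_le_pow₀ (by norm_num)
    have h4 : (1 - e) ^ k ≤ 1 := pow_le_one₀ (by linarith) (by linarith)
    have h5 : e ≤ 3 ^ k * e := by nlinarith
    calc 1 - 3 ^ (k + 1) * e = 1 - 3 ^ k * e - 2 * (3 ^ k * e) := by rw [pow_succ]; ring
      _ ≤ (1 - e) ^ k - e * (1 - e) ^ k := by
          have : e * (1 - e) ^ k ≤ e * 1 := by gcongr
          linarith
      _ = (1 - e) ^ (k + 1) := by rw [pow_succ]; ring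

/-- bounds for the values of the forms -/
lemma forms {k : ℕ} {c d : Fin k → ℕ} (hS : Sys c d) : ∃ B : ℕ, 1 ≤ B ∧ ∀ n m : ℕ, 1 ≤ n → n ≤ m →
    m ≤ 2 * n → ∀ i, n ≤ c i * m + d i ∧ c i * m + d i ≤ B * n := by
  refine ⟨1 + ∑ i, (2 * c i + d i), by omega, fun n m hn hnm hm i => ?_⟩
  have hc := hS.pos i
  constructor
  · calc n ≤ m := hnm
      _ = 1 * m := (one_mul m).symm
      _ ≤ c i * m := Nat.mul_le_mul_right m hc
      _ ≤ _ := by omega
  · have h1 : 2 * c i + d i ≤ ∑ i, (2 * c i + d i) :=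
      Finset.single_le_sum (f := fun i => 2 * c i + d i) (fun _ _ => Nat.zero_le _) (Finset.mem_univ i)
    calc c i * m + d i ≤ c i * (2 * n) + d i * n := by
          have h2 : c i * m ≤ c i * (2 * n) := Nat.mul_le_mul_left _ hm
          have h3 : d i * 1 ≤ d i * n := Nat.mul_le_mul_left _ hn
          omega
      _ = (2 * c i + d i) * n := by ring
      _ ≤ (1 + ∑ i, (2 * c i + d i)) * n := Nat.mul_le_mul_right n (by omega)

open Classical in
/-- the sum of the probabilities of the hits -/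
lemma sum_range (hIND : S_IND) (hMERT : S_MERT) (hM : GMod P A z) {k : ℕ} {c d : Fin k → ℕ}
    (hS : Sys c d) {B : ℕ} (hB : 1 ≤ B) (hf : ∀ n m : ℕ, 1 ≤ n → n ≤ m → m ≤ 2 * n →
      ∀ i, n ≤ c i * m + d i ∧ c i * m + d i ≤ B * n) {δ : ℝ} (hδ : 0 < δ) (hδ1 : δ ≤ 1) :
    ∀ᶠ n : ℕ in atTop, ∀ U : ℕ, U ≤ n →
      (1 - δ) * (sy c d (z (B * n)) n U : ℝ) ≤
        (∑ j ∈ Finset.range U, (P (Hit c d A (n + j + 1))).toReal) * (Real.log n / MM (z n)) ^ k ∧
      (∑ j ∈ Finset.range U, (P (Hit c d A (n + j + 1))).toReal) * (Real.log n / MM (z n)) ^ k ≤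
        (1 + δ) * (sy c d (z n) n U : ℝ) := by
  obtain ⟨e, he⟩ : ∃ e : ℝ, e = δ / 3 ^ k := ⟨_, rfl⟩
  have h3 : (1 : ℝ) ≤ 3 ^ k := one_le_pow₀ (by norm_num)
  have he0 : 0 < e := by rw [he]; positivity
  have he1 : e ≤ 1 := by
    rw [he, div_le_one (by positivity)]; linarith
  have he2 : 3 ^ k * e = δ := by rw [he]; field_simp
  obtain ⟨n0, hn0, -⟩ := hIND Ω P A z hM k c d hS
  filter_upwards [prob_range hMERT hM hB he0, eventually_ge_atTop n0, eventually_ge_atTop 1,
    tlog.eventually_ge_atTop 1] with n h1 h2 hn1 hL U hU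
  have m0 := MM_pos (z n)
  have hL0 : 0 < Real.log n := by linarith
  have key : ∀ j ∈ Finset.range U,
      (1 - δ) * (if ∀ i : Fin k, Rou (z (B * n)) (c i * (n + j + 1) + d i) then (1 : ℝ) else 0) ≤
        (P (Hit c d A (n + j + 1))).toReal * (Real.log n / MM (z n)) ^ k ∧
      (P (Hit c d A (n + j + 1))).toReal * (Real.log n / MM (z n)) ^ k ≤
        (1 + δ) * (if ∀ i : Fin k, Rou (z n) (c i * (n + j + 1) + d i) then (1 : ℝ) else 0) := by
    intro j hj
    rw [Finset.mem_range] at hj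
    have hm := hf n (n + j + 1) hn1 (by omega) (by omega)
    by_cases hall : ∀ i : Fin k, Rou (z (c i * (n + j + 1) + d i)) (c i * (n + j + 1) + d i)
    · rw [hn0 (n + j + 1) (by omega), ENNReal.toReal_prod]
      have e1 : (∏ i, (P (A (c i * (n + j + 1) + d i))).toReal) * (Real.log n / MM (z n)) ^ k =
          ∏ i, ((P (A (c i * (n + j + 1) + d i))).toReal * (Real.log n / MM (z n))) := by
        rw [Finset.prod_mul_distrib, Finset.prod_const, Finset.card_univ, Fintype.card_fin]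
      rw [e1]
      have hb : ∀ i, 1 - e ≤ (P (A (c i * (n + j + 1) + d i))).toReal * (Real.log n / MM (z n)) ∧
          (P (A (c i * (n + j + 1) + d i))).toReal * (Real.log n / MM (z n)) ≤ 1 + e :=
        fun i => h1 _ (hm i).1 (hm i).2 (hall i)
      have hlo : 1 - δ ≤ ∏ i, ((P (A (c i * (n + j + 1) + d i))).toReal * (Real.log n / MM (z n))) := by
        calc 1 - δ = 1 - 3 ^ k * e := by rw [he2]
          _ ≤ (1 - e) ^ k := pow_dn k he0.le he1
          _ = ∏ i : Fin k, (1 - e) := by rw [Finset.prod_const, Finset.card_univ, Fintype.card_fin]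
          _ ≤ _ := Finset.prod_le_prod (fun i _ => by linarith) (fun i _ => (hb i).1)
      have hhi : ∏ i, ((P (A (c i * (n + j + 1) + d i))).toReal * (Real.log n / MM (z n))) ≤ 1 + δ := by
        calc _ ≤ ∏ i : Fin k, (1 + e) :=
              Finset.prod_le_prod (fun i _ => by positivity) (fun i _ => (hb i).2)
          _ = (1 + e) ^ k := by rw [Finset.prod_const, Finset.card_univ, Fintype.card_fin]
          _ ≤ 1 + 3 ^ k * e := pow_up k he0.le he1
          _ = 1 + δ := by rw [he2]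
      have hall' : ∀ i : Fin k, Rou (z n) (c i * (n + j + 1) + d i) :=
        fun i => rou_mono (hM.mono (hm i).1) (hall i)
      rw [if_pos hall', mul_one]
      refine ⟨?_, hhi⟩
      split_ifs
      · rw [mul_one]; exact hlo
      · rw [mul_zero]; linarith
    · have hnot : ¬ ∀ i : Fin k, Rou (z (B * n)) (c i * (n + j + 1) + d i) :=
        fun h => hall fun i => rou_mono (hM.mono (hm i).2) (h i)
      rw [if_neg hnot, mul_zero]
      have hz : (P (Hit c d A (n + j + 1))).toReal = 0 := by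
        push Not at hall
        obtain ⟨i, hi⟩ := hall
        have h5 : Hit c d A (n + j + 1) = ∅ := by
          rw [Set.eq_empty_iff_forall_notMem]
          intro ω hω
          have := Set.mem_iInter.1 hω i
          rw [hM.empty _ hi] at this
          exact this
        rw [h5]; simp
      rw [hz, zero_mul]
      refine ⟨le_rfl, ?_⟩
      split_ifs
      · linarith
      · simp
  have hsy : ∀ v : ℕ, (sy c d v n U : ℝ) = ∑ j ∈ Finset.range U,
      (if ∀ i : Fin k, Rou v (c i * (n + j + 1) + d i) then (1 : ℝ) else 0) := by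
    intro v
    unfold sy
    rw [Finset.card_filter]
    push_cast
    rfl
  rw [hsy, hsy, Finset.mul_sum, Finset.mul_sum, Finset.sum_mul]
  exact ⟨Finset.sum_le_sum fun j hj => (key j hj).1, Finset.sum_le_sum fun j hj => (key j hj).2⟩

/-- the probabilities tend to `0` -/
lemma prob_small (hMERT : S_MERT) (hM : GMod P A z) {ε : ℝ} (hε : 0 < ε) :
    ∀ᶠ N : ℕ in atTop, (P (A N)).toReal ≤ ε := by
  have h1 := MM_z hMERT hM.lev (B := 1) le_rfl
  have h2 : Tendsto (fun n : ℕ => Real.log (Real.log n) / Real.log n) atTop (𝓝 0) := by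
    have := (Real.tendsto_pow_log_div_mul_add_atTop 1 0 1 one_ne_zero).comp tlog
    refine this.congr fun n => ?_
    simp
  have h3 : Tendsto (fun n : ℕ => 2 * (MM (z (1 * n)) / Real.log (Real.log n) *
      (Real.log (Real.log n) / Real.log n))) atTop (𝓝 0) := by
    have := (h1.mul h2).const_mul 2
    simpa using this
  filter_upwards [h3.eventually_le_const hε, dens_range hM one_pos, tlog.eventually_ge_atTop 1,
    tll.eventually_ge_atTop 1] with N g1 g2 hL hLL
  by_cases hR : Rou (z N) N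
  · obtain ⟨-, g3⟩ := g2 hR
    have m0 := MM_pos (z N)
    have hL0 : 0 < Real.log N := by linarith
    have hLL0 : Real.log (Real.log N) ≠ 0 := by linarith
    have e1 : 2 * (MM (z (1 * N)) / Real.log (Real.log N) * (Real.log (Real.log N) / Real.log N)) =
        2 * MM (z N) / Real.log N := by
      rw [one_mul]; field_simp
    rw [e1] at g1
    refine le_trans ?_ g1
    rw [le_div_iff₀ hL0]
    have e2 : (P (A N)).toReal * Real.log N =
        (P (A N)).toReal * (Real.log N / MM (z N)) * MM (z N) := by field_simp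
    rw [e2]
    have : (P (A N)).toReal * (Real.log N / MM (z N)) * MM (z N) ≤ (1 + 1) * MM (z N) := by gcongr
    linarith
  · rw [hM.empty N hR]; simp; exact hε.le

end prob

/-- the parameter `w = ⌊log n / C⌋` -/
lemma w_tendsto {C : ℝ} (hC : 1 ≤ C) : Tendsto (fun n : ℕ => ⌊Real.log n / C⌋₊) atTop atTop :=
  tendsto_nat_floor_atTop.comp (tlog.atTop_div_const (by linarith))

lemma w_range (k : ℕ) (hk : 1 ≤ k) {C η : ℝ} (hC : 1 ≤ C) (hη : 0 < η) (hη1 : η ≤ 1 / 2) :
    ∀ᶠ n : ℕ in atTop, (∀ U : ℕ, Real.log n ^ (k + 1) / C ≤ U →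
      ((⌊Real.log n / C⌋₊ : ℕ) : ℝ) ^ 2 / 2 ≤ U) ∧
    ∀ v : ℕ, Real.log n ^ (1 - η / 2) ≤ v → (v : ℝ) ≤ Real.log n ^ (1 + η / 2) →
      ((⌊Real.log n / C⌋₊ : ℕ) : ℝ) ^ (1 - η) ≤ v ∧ (v : ℝ) ≤ ((⌊Real.log n / C⌋₊ : ℕ) : ℝ) ^ (1 + η) ∧
      Real.sqrt ((⌊Real.log n / C⌋₊ : ℕ) : ℝ) ≤ v ∧ (v : ℝ) ≤ ((⌊Real.log n / C⌋₊ : ℕ) : ℝ) ^ 2 := by
  have hC0 : 0 < C := by linarith
  have h1 : Tendsto (fun n : ℕ => Real.log n ^ (η / 2)) atTop atTop :=
    (tendsto_rpow_atTop (by positivity)).comp tlog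
  filter_upwards [h1.eventually_ge_atTop ((2 * C) ^ (1 + η)), tlog.eventually_ge_atTop 1,
    tlog.eventually_ge_atTop (2 * C)] with n g1 hL hL2
  clear h1
  generalize Real.log (n : ℝ) = L at *
  have hL0 : 0 < L := by linarith
  obtain ⟨w, hw⟩ : ∃ w : ℕ, w = ⌊L / C⌋₊ := ⟨_, rfl⟩
  rw [← hw]
  have w1 : (w : ℝ) ≤ L / C := by rw [hw]; exact Nat.floor_le (by positivity)
  have w1' : (w : ℝ) ≤ L := w1.trans (div_le_self hL0.le hC)
  have w2 : L / C < w + 1 := by rw [hw]; exact Nat.lt_floor_add_one _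
  have w3 : L / (2 * C) ≤ w := by
    have h2 : 2 ≤ L / C := by rw [le_div_iff₀ hC0]; exact hL2
    have h3 : L / (2 * C) = L / C / 2 := by field_simp
    rw [h3]; linarith
  have w4 : (1 : ℝ) ≤ w := by
    refine le_trans ?_ w3
    rw [le_div_iff₀ (by positivity)]; linarith
  have w0 : (0 : ℝ) < w := by linarith
  refine ⟨fun U hU => ?_, fun v hv1 hv2 => ?_⟩
  · refine le_trans ?_ hU
    have e1 : L ^ 2 ≤ L ^ (k + 1) := pow_le_pow_right₀ hL (by omega)
    have e2 : (w : ℝ) ^ 2 ≤ (L / C) ^ 2 := pow_le_pow_left₀ w0.le w1 2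
    calc (w : ℝ) ^ 2 / 2 ≤ (w : ℝ) ^ 2 := by
          have : 0 ≤ (w : ℝ) ^ 2 := by positivity
          linarith
      _ ≤ (L / C) ^ 2 := e2
      _ = L ^ 2 / (C * C) := by rw [div_pow]; ring
      _ ≤ L ^ 2 / (C * 1) := by gcongr
      _ = L ^ 2 / C := by rw [mul_one]
      _ ≤ L ^ (k + 1) / C := by gcongr
  · have a1 : (w : ℝ) ^ (1 - η) ≤ v := by
      calc (w : ℝ) ^ (1 - η) ≤ L ^ (1 - η) := Real.rpow_le_rpow w0.le w1' (by linarith)
        _ ≤ L ^ (1 - η / 2) := Real.rpow_le_rpow_of_exponent_le hL (by linarith)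
        _ ≤ v := hv1
    have a2 : (v : ℝ) ≤ (w : ℝ) ^ (1 + η) := by
      have e1 : L ^ (1 + η / 2) * L ^ (η / 2) = L ^ (1 + η) := by
        rw [← Real.rpow_add hL0]; congr 1; ring
      have e2 : 0 < L ^ (1 + η / 2) := by positivity
      have e3 : L ^ (1 + η / 2) * (2 * C) ^ (1 + η) ≤ L ^ (1 + η) := by
        rw [← e1]; gcongr
      calc (v : ℝ) ≤ L ^ (1 + η / 2) := hv2
        _ ≤ L ^ (1 + η) / (2 * C) ^ (1 + η) := by
            rw [le_div_iff₀ (by positivity)]; exact e3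
        _ = (L / (2 * C)) ^ (1 + η) := by rw [Real.div_rpow hL0.le (by positivity)]
        _ ≤ (w : ℝ) ^ (1 + η) := Real.rpow_le_rpow (by positivity) w3 (by linarith)
    refine ⟨a1, a2, ?_, ?_⟩
    · rw [Real.sqrt_eq_rpow]
      exact (Real.rpow_le_rpow_of_exponent_le w4 (by linarith)).trans a1
    · refine a2.trans ?_
      calc (w : ℝ) ^ (1 + η) ≤ (w : ℝ) ^ (2 : ℝ) := Real.rpow_le_rpow_of_exponent_le w4 (by linarith)
        _ = (w : ℝ) ^ 2 := by norm_cast

lemma U_small (k : ℕ) (C : ℝ) : ∀ᶠ n : ℕ in atTop, C * Real.log n ^ (k + 1) ≤ n := by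
  have h1 : Tendsto (fun n : ℕ => C * (Real.log n ^ (k + 1) / (1 * (n : ℝ) + 0))) atTop (𝓝 (C * 0)) :=
    ((Real.tendsto_pow_log_div_mul_add_atTop 1 0 (k + 1) one_ne_zero).comp
      tendsto_natCast_atTop_atTop).const_mul C
  rw [mul_zero] at h1
  filter_upwards [h1.eventually_le_const one_pos, eventually_ge_atTop 1] with n hn hn1
  have hn0 : (0 : ℝ) < n := by exact_mod_cast hn1
  rw [one_mul, add_zero, ← mul_div_assoc, div_le_one hn0] at hn
  exact hn

/-- the final estimate -/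
lemma fin_est {S L M M' u U D D1 D2 s1 s2 δ C C2 e : ℝ} {k : ℕ} (hL : 0 < L) (hM : 0 < M)
    (hM' : 0 < M') (hU : 0 < U) (hu : u = U / L ^ (k + 1)) (huC : u ≤ C) (hC : 0 < C)
    (hD1 : D1 = s1 * M ^ k / U) (hD2 : D2 = s2 * M' ^ k / U) (h10 : 0 ≤ D1) (h20 : 0 ≤ D2)
    (h1C : D1 ≤ C2) (h2C : D2 ≤ C2) (hδ : 0 ≤ δ) (hδ1 : δ ≤ 1)
    (hlo : (1 - δ) * s2 ≤ S * (L / M) ^ k) (hhi : S * (L / M) ^ k ≤ (1 + δ) * s1)
    (hr : 1 - δ ≤ (M / M') ^ k) (he1 : |D1 - D| ≤ e) (he2 : |D2 - D| ≤ e) :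
    |S / L - u * D| ≤ C * (e + 2 * δ * C2) := by
  have hu0 : 0 < u := by rw [hu]; positivity
  have hC2 : 0 ≤ C2 := h10.trans h1C
  have e0 : S / L = S * (L / M) ^ k * (M ^ k / L ^ (k + 1)) := by
    rw [div_pow, pow_succ]; field_simp
  have hf : 0 < M ^ k / L ^ (k + 1) := by positivity
  have up : S / L ≤ (1 + δ) * D1 * u := by
    rw [e0]
    calc S * (L / M) ^ k * (M ^ k / L ^ (k + 1)) ≤ (1 + δ) * s1 * (M ^ k / L ^ (k + 1)) := by gcongr
      _ = (1 + δ) * D1 * u := by rw [hD1, hu]; field_simp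
  have dn : (1 - δ) * ((1 - δ) * D2) * u ≤ S / L := by
    rw [e0]
    calc (1 - δ) * ((1 - δ) * D2) * u ≤ (1 - δ) * ((M / M') ^ k * D2) * u := by
          have : 0 ≤ 1 - δ := by linarith
          gcongr
      _ = (1 - δ) * s2 * (M ^ k / L ^ (k + 1)) := by rw [hD2, hu, div_pow]; field_simp
      _ ≤ S * (L / M) ^ k * (M ^ k / L ^ (k + 1)) := by gcongr
  have a1 := abs_le.1 he1
  have a2 := abs_le.1 he2
  have he : 0 ≤ e := (abs_nonneg _).trans he1
  rw [abs_le]
  constructor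
  · have h1 : -(e + 2 * δ * C2) ≤ (1 - δ) * ((1 - δ) * D2) - D := by
      have h2 : (1 - δ) * ((1 - δ) * D2) = D2 - 2 * δ * D2 + δ ^ 2 * D2 := by ring
      have h3 : 0 ≤ δ ^ 2 * D2 := by positivity
      have h4 : 2 * δ * D2 ≤ 2 * δ * C2 := by gcongr
      rw [h2]; linarith
    have h2 : C * (-(e + 2 * δ * C2)) ≤ u * (-(e + 2 * δ * C2)) := by
      have : 0 ≤ e + 2 * δ * C2 := by positivity
      nlinarith
    have h3 : u * (-(e + 2 * δ * C2)) ≤ u * ((1 - δ) * ((1 - δ) * D2) - D) := by gcongr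
    linarith
  · have h1 : (1 + δ) * D1 - D ≤ e + 2 * δ * C2 := by
      have h4 : δ * D1 ≤ δ * C2 := by gcongr
      have h5 : 0 ≤ δ * C2 := by positivity
      linarith
    have h3 : u * ((1 + δ) * D1 - D) ≤ u * (e + 2 * δ * C2) := by gcongr
    have h2 : u * (e + 2 * δ * C2) ≤ C * (e + 2 * δ * C2) := by
      have : 0 ≤ e + 2 * δ * C2 := by positivity
      gcongr
    linarith

end EXPWaux

open EXPWaux in
theorem expw : S_IND → S_TRK → S_SBK → S_MERT → S_EXPW := by
  intro hIND hTRK hSBK hMERT Ω _ P A z hM k c d hS C ε hC hε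
  obtain ⟨C1, hC1, hT⟩ := hTRK k c d hS
  obtain ⟨C2, hC2, hB2⟩ := hSBK k c d hS
  obtain ⟨B, hB, hf⟩ := forms hS
  have hC0 : 0 < C := by linarith
  obtain ⟨η, hη⟩ : ∃ η : ℝ, η = min (1 / 2) (ε / (2 * C * C1)) := ⟨_, rfl⟩
  have hη0 : 0 < η := by rw [hη]; positivity
  have hη1 : η ≤ 1 / 2 := by rw [hη]; exact min_le_left _ _
  have hη2 : C * (C1 * η) ≤ ε / 2 := by
    have : η ≤ ε / (2 * C * C1) := by rw [hη]; exact min_le_right _ _
    calc C * (C1 * η) ≤ C * (C1 * (ε / (2 * C * C1))) := by gcongr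
      _ = ε / 2 := by field_simp
  obtain ⟨δ, hδ⟩ : ∃ δ : ℝ, δ = min 1 (ε / (4 * C * C2)) := ⟨_, rfl⟩
  have hδ0 : 0 < δ := by rw [hδ]; positivity
  have hδ1 : δ ≤ 1 := by rw [hδ]; exact min_le_left _ _
  have hδ2 : C * (2 * δ * C2) ≤ ε / 2 := by
    have : δ ≤ ε / (4 * C * C2) := by rw [hδ]; exact min_le_right _ _
    calc C * (2 * δ * C2) ≤ C * (2 * (ε / (4 * C * C2)) * C2) := by gcongr
      _ = ε / 2 := by field_simp; norm_num
  refine ⟨η / 2, by positivity, by linarith, ?_⟩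
  have hrat : Tendsto (fun n : ℕ => (MM (z n) / MM (z (B * n))) ^ k) atTop (𝓝 1) := by
    have h1 := ((MM_ratio hMERT hM.lev hB).inv₀ one_ne_zero).pow k
    rw [inv_one, one_pow] at h1
    refine h1.congr fun n => ?_
    rw [inv_div]
  have hps := eventually_forall_ge_atTop.2 (prob_small hMERT hM hε)
  have hz1 := z_range hM.lev (B := 1) le_rfl (η := η / 2) (by positivity)
  have hz2 := z_range hM.lev hB (η := η / 2) (by positivity)
  filter_upwards [sum_range hIND hMERT hM hS hB hf hδ0 hδ1, w_range k hS.one hC hη0 hη1,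
    (w_tendsto hC).eventually (hT η hη0 hη1), (w_tendsto hC).eventually (hB2 1 one_pos le_rfl),
    hz1, hz2, U_small k C, tlog.eventually_ge_atTop 1, eventually_ge_atTop 1,
    hrat.eventually_const_le (show 1 - δ < 1 by linarith), hps] with n g1 g2 g3 g4 g5 g6 g7 hL hn1 g8 g9
  rw [one_mul] at g5
  have hL0 : 0 < Real.log n := by linarith
  constructor
  · intro U v hU1 hU2 hv1 hv2
    obtain ⟨g2a, g2b⟩ := g2
    have hw := g2a U hU1
    have hU0 : (0 : ℝ) < U := lt_of_lt_of_le (by positivity) hU1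
    have hUn : U ≤ n := by exact_mod_cast hU2.trans g7
    obtain ⟨s1, s2⟩ := g1 U hUn
    obtain ⟨v1, v2, v3, v4⟩ := g2b v hv1 hv2
    obtain ⟨p1, p2, p3, p4⟩ := g2b (z n) g5.1 g5.2
    obtain ⟨q1, q2, q3, q4⟩ := g2b (z (B * n)) g6.1 g6.2
    have hUU : (U : ℝ) ≤ (1 + 1) * U := by linarith
    have D1 := (g4 (z n) n U U p3 p4 hw le_rfl hUU).2
    have D2 := (g4 (z (B * n)) n U U q3 q4 hw le_rfl hUU).2
    have d1 : |DS c d (z n) n U - DS c d v n U| ≤ C1 * η := by
      rcases le_total (z n) v with h | h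
      · exact g3 _ _ n U p1 h v2 hw
      · rw [abs_sub_comm]; exact g3 _ _ n U v1 h p2 hw
    have d2 : |DS c d (z (B * n)) n U - DS c d v n U| ≤ C1 * η := by
      rcases le_total (z (B * n)) v with h | h
      · exact g3 _ _ n U q1 h v2 hw
      · rw [abs_sub_comm]; exact g3 _ _ n U v1 h q2 hw
    have hDn : ∀ v : ℕ, 0 ≤ DS c d v n U := by
      intro v
      unfold DS
      have := MM_pos v
      positivity
    have huC : (U : ℝ) / Real.log n ^ (k + 1) ≤ C := by
      rw [div_le_iff₀ (by positivity)]; exact hU2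
    have hfin := fin_est (S := ∑ j ∈ Finset.range U, (P (Hit c d A (n + j + 1))).toReal)
      (L := Real.log n) (M := MM (z n)) (M' := MM (z (B * n))) (U := U)
      (D := DS c d v n U) (D1 := DS c d (z n) n U) (D2 := DS c d (z (B * n)) n U)
      (s1 := sy c d (z n) n U) (s2 := sy c d (z (B * n)) n U) (k := k) hL0 (MM_pos _) (MM_pos _) hU0
      rfl huC hC0 rfl rfl (hDn _) (hDn _) D1 D2 hδ0.le hδ1 s1 s2 g8 d1 d2
    refine hfin.trans ?_
    linarith [hη2, hδ2, mul_add C (C1 * η) (2 * δ * C2)]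
  · have := hM.prob
    have i0 : Fin k := ⟨0, hS.one⟩
    have h1 := (hf n n hn1 le_rfl (by omega) i0).1
    refine le_trans ?_ (g9 _ h1)
    refine ENNReal.toReal_mono (measure_ne_top _ _) (measure_mono ?_)
    exact Set.iInter_subset _ i0

end Pool.Agent.H50.GW
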