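import Pool.Agent.H50.GW.Stm

/-! GW-EXDK (helper39) -/

set_option autoImplicit false

namespace Pool.Agent.H50.GW

open Pool.Agent.H50.BF Filter
open scoped Topology

namespace EXaux

lemma MM_pos' (w : ℕ) : 0 < MM w := by
  unfold MM
  refine Finset.prod_pos (fun p hp => inv_pos.2 ?_)
  rw [Finset.mem_filter] at hp
  have : (1 : ℝ) < p := by exact_mod_cast hp.2.one_lt
  have := inv_lt_one_of_one_lt₀ this
  linarith

lemma sy_le {k : ℕ} (c d : Fin k → ℕ) (v n U : ℕ) : sy c d v n U ≤ U := by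
  classical
  unfold sy
  exact (Finset.card_filter_le _ _).trans (by simp)

lemma sy_mono {k : ℕ} (c d : Fin k → ℕ) (v n : ℕ) {U U' : ℕ} (h : U ≤ U') :
    sy c d v n U ≤ sy c d v n U' := by
  classical
  unfold sy
  exact Finset.card_le_card (Finset.filter_subset_filter _ (Finset.range_subset_range.2 h))

lemma DS_nonneg {k : ℕ} (c d : Fin k → ℕ) (v n U : ℕ) : 0 ≤ DS c d v n U := by
  unfold DS
  have := MM_pos' v
  positivity

lemma lok_le {k : ℕ} (c d : Fin k → ℕ) (w t : ℕ) : lok c d w ≤ DS c d w t (w ^ (k + 1)) := by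
  unfold lok
  refine ciInf_le ⟨0, ?_⟩ t
  rintro _ ⟨t, rfl⟩
  exact DS_nonneg _ _ _ _ _

lemma bdd_above' {k : ℕ} (c d : Fin k → ℕ) (w : ℕ) :
    BddAbove (Set.range fun t : ℕ => DS c d w t (w ^ (k + 1))) := by
  have := MM_pos' w
  refine ⟨((w ^ (k + 1) : ℕ) : ℝ) * MM w ^ k / ((w ^ (k + 1) : ℕ) : ℝ), ?_⟩
  rintro _ ⟨t, rfl⟩
  unfold DS
  have h := sy_le c d w t (w ^ (k + 1))
  have h' : (sy c d w t (w ^ (k + 1)) : ℝ) ≤ ((w ^ (k + 1) : ℕ) : ℝ) := Nat.cast_le.2 h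
  simp only []
  rw [mul_div_assoc, mul_div_assoc]
  exact mul_le_mul_of_nonneg_right h' (by positivity)

lemma le_hik {k : ℕ} (c d : Fin k → ℕ) (w t : ℕ) : DS c d w t (w ^ (k + 1)) ≤ hik c d w := by
  unfold hik
  exact le_ciSup (bdd_above' c d w) t

/-- the density changes little if the interval is slightly prolonged -/
lemma dens_close' {S S' M U U' δ C1 : ℝ} (hM : 0 ≤ M) (hU : 0 < U) (hUU : U ≤ U')
    (hU' : U' ≤ (1 + δ) * U) (hδ : 0 ≤ δ) (hS : 0 ≤ S) (hSS : S ≤ S')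
    (h1 : (S' - S) * (M / U) ≤ C1 * δ) (h2 : S * (M / U) ≤ C1) :
    |S' * (M / U') - S * (M / U)| ≤ C1 * δ := by
  have hU'0 : 0 < U' := lt_of_lt_of_le hU hUU
  have hMU : 0 ≤ M / U := by positivity
  rw [abs_le]
  constructor
  · have e1 : S * (M / U) * (U / U') ≤ S' * (M / U') := by
      have : S * (M / U) * (U / U') = S * (M / U') := by
        field_simp
      rw [this]
      exact mul_le_mul_of_nonneg_right hSS (by positivity)
    have e2 : 1 - δ ≤ U / U' := by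
      rw [le_div_iff₀ hU'0]
      rcases le_total δ 1 with h | h
      · calc (1 - δ) * U' ≤ (1 - δ) * ((1 + δ) * U) := mul_le_mul_of_nonneg_left hU' (by linarith)
          _ = U - δ ^ 2 * U := by ring
          _ ≤ U := by
            have : 0 ≤ δ ^ 2 * U := by positivity
            linarith
      · have : (1 - δ) * U' ≤ 0 := mul_nonpos_of_nonpos_of_nonneg (by linarith) hU'0.le
        linarith
    have e3 : S * (M / U) * (1 - δ) ≤ S * (M / U) * (U / U') :=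
      mul_le_mul_of_nonneg_left e2 (by positivity)
    have e4 : S * (M / U) * δ ≤ C1 * δ := mul_le_mul_of_nonneg_right h2 hδ
    linarith
  · have e1 : S' * (M / U') ≤ S' * (M / U) := by
      refine mul_le_mul_of_nonneg_left ?_ (hS.trans hSS)
      exact div_le_div_of_nonneg_left hM hU hUU
    linarith

/-- comparison of the powers of `w` and `L` -/
lemma lev' {D η : ℝ} (hD : 1 ≤ D) (hη : 0 < η) (hη1 : η ≤ 1 / 2) : ∀ᶠ L : ℝ in atTop,
    ∀ w : ℝ, L / D ≤ w → w ≤ D * L →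
      w ^ (1 - η) ≤ L ^ (1 - η / 4) ∧ L ^ (1 + η / 4) ≤ w ^ (1 + η) := by
  have h1 : Tendsto (fun L : ℝ => L ^ (3 * η / 4)) atTop atTop :=
    tendsto_rpow_atTop (by positivity)
  filter_upwards [h1.eventually_ge_atTop (D ^ 2), eventually_ge_atTop 1] with L hL hL1 w hw1 hw2
  have hL0 : 0 < L := by linarith
  have hD0 : 0 < D := by linarith
  have hw0 : 0 < w := lt_of_lt_of_le (by positivity) hw1
  have hDD : D ≤ D ^ 2 := by nlinarith
  constructor
  · calc w ^ (1 - η) ≤ (D * L) ^ (1 - η) := Real.rpow_le_rpow hw0.le hw2 (by linarith)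
      _ = D ^ (1 - η) * L ^ (1 - η) := Real.mul_rpow hD0.le hL0.le
      _ ≤ L ^ (3 * η / 4) * L ^ (1 - η) := by
          apply mul_le_mul_of_nonneg_right _ (Real.rpow_nonneg hL0.le _)
          calc D ^ (1 - η) ≤ D ^ (1 : ℝ) := Real.rpow_le_rpow_of_exponent_le hD (by linarith)
            _ = D := Real.rpow_one D
            _ ≤ _ := hDD.trans hL
      _ = L ^ (1 - η / 4) := by
          rw [← Real.rpow_add hL0]; congr 1; ring
  · have h2 : L ^ (1 + η / 4) * L ^ (3 * η / 4) = L ^ (1 + η) := by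
      rw [← Real.rpow_add hL0]; congr 1; ring
    have h3 : (L / D) ^ (1 + η) ≤ w ^ (1 + η) :=
      Real.rpow_le_rpow (by positivity) hw1 (by linarith)
    refine le_trans ?_ h3
    rw [Real.div_rpow hL0.le hD0.le, le_div_iff₀ (Real.rpow_pos_of_pos hD0 _), ← h2]
    apply mul_le_mul_of_nonneg_left _ (Real.rpow_nonneg hL0.le _)
    calc D ^ (1 + η) ≤ D ^ (2 : ℝ) := Real.rpow_le_rpow_of_exponent_le hD (by linarith)
      _ = D ^ 2 := Real.rpow_two D
      _ ≤ _ := hL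

lemma tendsto_log_nat' : Tendsto (fun n : ℕ => Real.log n) atTop atTop :=
  Real.tendsto_log_atTop.comp tendsto_natCast_atTop_atTop

lemma one_add_pow (k : ℕ) {δ : ℝ} (hδ : 0 < δ) : ∀ᶠ w : ℕ in atTop,
    (1 + 1 / (w : ℝ)) ^ (k + 1) ≤ 1 + δ := by
  have h1 : Tendsto (fun w : ℕ => (1 : ℝ) / (w : ℝ)) atTop (𝓝 0) :=
    tendsto_one_div_atTop_nhds_zero_nat
  have h2 : Tendsto (fun w : ℕ => (1 + 1 / (w : ℝ)) ^ (k + 1)) atTop (𝓝 ((1 + 0) ^ (k + 1))) :=
    (h1.const_add 1).pow (k + 1)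
  rw [add_zero, one_pow] at h2
  exact (h2.eventually (gt_mem_nhds (by linarith : (1 : ℝ) < 1 + δ))).mono (fun w hw => hw.le)

/-- two levels -/
lemma two_lev' {k : ℕ} {c d : Fin k → ℕ} {C0 η : ℝ} {w : ℕ}
    (h : ∀ v v' n U : ℕ, (w : ℝ) ^ (1 - η) ≤ v → v ≤ v' → (v' : ℝ) ≤ (w : ℝ) ^ (1 + η) →
      (w : ℝ) ^ 2 / 2 ≤ U → |DS c d v n U - DS c d v' n U| ≤ C0 * η)
    (v v' n U : ℕ) (h1 : (w : ℝ) ^ (1 - η) ≤ v) (h1' : (w : ℝ) ^ (1 - η) ≤ v')
    (h2 : (v : ℝ) ≤ (w : ℝ) ^ (1 + η)) (h2' : (v' : ℝ) ≤ (w : ℝ) ^ (1 + η))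
    (h3 : (w : ℝ) ^ 2 / 2 ≤ U) : |DS c d v n U - DS c d v' n U| ≤ C0 * η := by
  rcases le_total v v' with hle | hle
  · exact h v v' n U h1 hle h2' h3
  · rw [abs_sub_comm]
    exact h v' v n U h1' hle h2 h3

/-- bounds for the root -/
lemma rt_bd {k U : ℕ} {C L : ℝ} (hC : 1 ≤ C) (hL : 2 * C ≤ L) (h1 : L ^ (k + 1) / C ≤ U)
    (h2 : (U : ℝ) ≤ C * L ^ (k + 1)) :
    L / (2 * C) ≤ (rt k U : ℝ) ∧ (rt k U : ℝ) ≤ 2 * C * L ∧ (rt k U) ^ (k + 1) ≤ U ∧
      (U : ℝ) < ((rt k U : ℝ) + 1) ^ (k + 1) := by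
  have hC0 : 0 < C := by linarith
  have hL0 : 0 < L := by linarith
  have hU0 : (0 : ℝ) ≤ U := Nat.cast_nonneg U
  set x : ℝ := (U : ℝ) ^ ((1 : ℝ) / ((k : ℝ) + 1)) with hx
  have hx0 : 0 ≤ x := Real.rpow_nonneg hU0 _
  have hxp : x ^ (k + 1) = U := by
    rw [hx, ← Real.rpow_natCast, ← Real.rpow_mul hU0]
    push_cast
    rw [one_div, inv_mul_cancel₀ (by positivity), Real.rpow_one]
  have hfl : (rt k U : ℝ) ≤ x := Nat.floor_le hx0
  have hfl2 : x < (rt k U : ℝ) + 1 := Nat.lt_floor_add_one x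
  have hCp : C ≤ C ^ (k + 1) := by
    have : 1 ≤ C ^ k := one_le_pow₀ hC
    rw [pow_succ]; nlinarith
  have hx1 : L / C ≤ x := by
    have : (L / C) ^ (k + 1) ≤ x ^ (k + 1) := by
      rw [hxp, div_pow]
      refine le_trans ?_ h1
      exact div_le_div_of_nonneg_left (by positivity) hC0 hCp
    exact le_of_pow_le_pow_left₀ (by omega) hx0 this
  have hx2 : x ≤ C * L := by
    have : x ^ (k + 1) ≤ (C * L) ^ (k + 1) := by
      rw [hxp, mul_pow]
      refine h2.trans ?_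
      exact mul_le_mul_of_nonneg_right hCp (by positivity)
    exact le_of_pow_le_pow_left₀ (by omega) (by positivity) this
  refine ⟨?_, ?_, ?_, ?_⟩
  · have h3 : L / C = 2 * (L / (2 * C)) := by field_simp
    have h4 : 1 ≤ L / (2 * C) := by
      rw [le_div_iff₀ (by positivity)]; linarith
    linarith
  · have : C * L ≤ 2 * C * L := by nlinarith [mul_pos hC0 hL0]
    linarith
  · have : ((rt k U : ℝ)) ^ (k + 1) ≤ U := by
      rw [← hxp]
      exact pow_le_pow_left₀ (Nat.cast_nonneg _) hfl _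
    exact_mod_cast this
  · rw [← hxp]
    exact pow_lt_pow_left₀ hfl2 hx0 (by omega)

end EXaux

open EXaux

theorem exdk : S_TRK → S_SBK → S_EXDK := by
  intro htr hsb k c d hs C ε hC hε
  obtain ⟨C0, hC0, htrans⟩ := htr k c d hs
  obtain ⟨C1, hC1, hsub⟩ := hsb k c d hs
  have hk := hs.one
  set η : ℝ := min (1 / 2) (ε / (2 * C0)) with hηd
  have hη : 0 < η := lt_min (by norm_num) (by positivity)
  have hη1 : η ≤ 1 / 2 := min_le_left _ _
  have hηε : C0 * η ≤ ε / 2 := by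
    calc C0 * η ≤ C0 * (ε / (2 * C0)) := mul_le_mul_of_nonneg_left (min_le_right _ _) hC0.le
      _ = ε / 2 := by field_simp
  set δ : ℝ := min 1 (ε / (2 * C1)) with hδd
  have hδ : 0 < δ := lt_min (by norm_num) (by positivity)
  have hδ1 : δ ≤ 1 := min_le_left _ _
  have hδε : C1 * δ ≤ ε / 2 := by
    calc C1 * δ ≤ C1 * (ε / (2 * C1)) := mul_le_mul_of_nonneg_left (min_le_right _ _) hC1.le
      _ = ε / 2 := by field_simp
  refine ⟨η / 4, by positivity, by linarith, ?_⟩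
  obtain ⟨N0, hN0⟩ := eventually_atTop.1 (htrans η hη hη1)
  obtain ⟨N1, hN1⟩ := eventually_atTop.1 (hsub δ hδ hδ1)
  obtain ⟨N2, hN2⟩ := eventually_atTop.1 (one_add_pow k hδ)
  filter_upwards [tendsto_log_nat'.eventually (lev' (D := 2 * C) (by linarith) hη hη1),
    tendsto_log_nat'.eventually_ge_atTop (2 * C * (N0 + N1 + N2 + 1))] with n h2 h3
  intro m U v hU1 hU2 hv1 hv2
  have hN : (0 : ℝ) ≤ N0 := Nat.cast_nonneg _
  have hN' : (0 : ℝ) ≤ N1 := Nat.cast_nonneg _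
  have hN'' : (0 : ℝ) ≤ N2 := Nat.cast_nonneg _
  have hCp : 0 < C := by linarith
  have hL2 : 2 * C ≤ Real.log n := by
    refine le_trans ?_ h3
    have : 0 ≤ 2 * C * (N0 + N1 + N2) := by positivity
    linarith
  have hL1 : 1 ≤ Real.log n := by linarith
  obtain ⟨b1, b2, b3, b4⟩ := rt_bd hC hL2 hU1 hU2
  set L := Real.log n with hLd
  set w := rt k U with hwd
  have hwb : N0 + N1 + N2 + 1 ≤ (w : ℝ) := by
    refine le_trans ?_ b1
    rw [le_div_iff₀ (by linarith)]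
    linarith
  have hwN : N0 ≤ w := by
    have : (N0 : ℝ) ≤ w := by linarith
    exact_mod_cast this
  have hwN1 : N1 ≤ w := by
    have : (N1 : ℝ) ≤ w := by linarith
    exact_mod_cast this
  have hwN2 : N2 ≤ w := by
    have : (N2 : ℝ) ≤ w := by linarith
    exact_mod_cast this
  have hw1 : (1 : ℝ) ≤ w := by linarith
  have hw0 : (0 : ℝ) < w := by linarith
  obtain ⟨c1, c2⟩ := h2 w b1 b2
  have hv0 : (w : ℝ) ^ (1 - η) ≤ v := c1.trans hv1
  have hv3 : (v : ℝ) ≤ (w : ℝ) ^ (1 + η) := hv2.trans c2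
  have hww1 : (w : ℝ) ^ (1 - η) ≤ w := by
    calc (w : ℝ) ^ (1 - η) ≤ (w : ℝ) ^ (1 : ℝ) := Real.rpow_le_rpow_of_exponent_le hw1 (by linarith)
      _ = w := Real.rpow_one _
  have hww2 : (w : ℝ) ≤ (w : ℝ) ^ (1 + η) := by
    calc (w : ℝ) = (w : ℝ) ^ (1 : ℝ) := (Real.rpow_one _).symm
      _ ≤ (w : ℝ) ^ (1 + η) := Real.rpow_le_rpow_of_exponent_le hw1 (by linarith)
  have hwp : (w : ℝ) ^ 2 ≤ (w : ℝ) ^ (k + 1) := pow_le_pow_right₀ hw1 (by omega)
  have hWU : ((w ^ (k + 1) : ℕ) : ℝ) ≤ U := by exact_mod_cast b3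
  have hWc : ((w ^ (k + 1) : ℕ) : ℝ) = (w : ℝ) ^ (k + 1) := by push_cast; ring
  have hw2p : (0 : ℝ) ≤ (w : ℝ) ^ 2 := by positivity
  have hw2 : (w : ℝ) ^ 2 / 2 ≤ U := by
    rw [hWc] at hWU
    linarith
  have hw2' : (w : ℝ) ^ 2 / 2 ≤ ((w ^ (k + 1) : ℕ) : ℝ) := by
    rw [hWc]; linarith
  have h5 := two_lev' (hN0 w hwN) v w m U hv0 hww1 hv3 hww2 hw2
  have hsq1 : Real.sqrt w ≤ w := by
    rw [Real.sqrt_le_left (by linarith)]
    nlinarith
  have hww3 : (w : ℝ) ≤ (w : ℝ) ^ 2 := by nlinarith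
  have hU' : (U : ℝ) ≤ (1 + δ) * ((w ^ (k + 1) : ℕ) : ℝ) := by
    rw [hWc]
    refine b4.le.trans ?_
    have h6 : ((w : ℝ) + 1) ^ (k + 1) = (1 + 1 / (w : ℝ)) ^ (k + 1) * (w : ℝ) ^ (k + 1) := by
      rw [← mul_pow]; congr 1; field_simp
    rw [h6]
    exact mul_le_mul_of_nonneg_right (hN2 w hwN2) (by positivity)
  have h6 := hN1 w hwN1 w m (w ^ (k + 1)) U hsq1 hww3 hw2' b3 hU'
  have hMM := MM_pos' w
  have h62 : (sy c d w m (w ^ (k + 1)) : ℝ) * (MM w ^ k / ((w ^ (k + 1) : ℕ) : ℝ)) ≤ C1 := by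
    have := h6.2
    unfold DS at this
    rw [mul_div_assoc] at this
    exact this
  have h7 := dens_close' (U := ((w ^ (k + 1) : ℕ) : ℝ)) (U' := (U : ℝ)) (pow_pos hMM k).le
    (by rw [hWc]; positivity) hWU hU' hδ.le (Nat.cast_nonneg _)
    (Nat.cast_le.2 (sy_mono c d w m b3)) h6.1 h62
  have h7' : |DS c d w m U - DS c d w m (w ^ (k + 1))| ≤ C1 * δ := by
    unfold DS
    rw [mul_div_assoc, mul_div_assoc]
    exact h7
  have h8 := lok_le c d w m
  have h9 := le_hik c d w m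
  rw [abs_le] at h5 h7'
  constructor <;> linarith [h5.1, h5.2, h7'.1, h7'.2]

end Pool.Agent.H50.GW
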