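import Pool.Agent.H50.GW.Stm

set_option autoImplicit false
set_option linter.unusedVariables false
set_option linter.unusedSectionVars false

/-! # GW-GEX (helper13) -/

open MeasureTheory Filter ProbabilityTheory
open scoped Topology ENNReal

namespace Pool.Agent.H50.GW

open Pool.Agent.H50.BF

namespace GEXaux

lemma tlog : Tendsto (fun X : ℕ => Real.log X) atTop atTop :=
  Real.tendsto_log_atTop.comp tendsto_natCast_atTop_atTop

lemma log_range {X n : ℕ} (hX : 1 ≤ X) (h1 : X ≤ n) (h2 : n ≤ 2 * X) :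
    Real.log X ≤ Real.log n ∧ Real.log n ≤ Real.log X + 1 := by
  have hX0 : (0 : ℝ) < X := by exact_mod_cast hX
  have hn0 : (0 : ℝ) < n := by exact_mod_cast (by omega : 0 < n)
  constructor
  · exact Real.log_le_log hX0 (by exact_mod_cast h1)
  · have h3 : Real.log n ≤ Real.log (2 * X) := Real.log_le_log hn0 (by exact_mod_cast h2)
    rw [Real.log_mul two_ne_zero hX0.ne'] at h3
    have := Real.log_two_lt_d9
    linarith

lemma ratio (k : ℕ) {C : ℝ} (hC : 0 < C) {U : ℕ → ℕ}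
    (hU : Tendsto (fun n : ℕ => (U n : ℝ) / Real.log n ^ (k + 1)) atTop (𝓝 C)) {ε : ℝ}
    (hε : 0 < ε) : ∀ᶠ X : ℕ in atTop, ∀ n : ℕ, X ≤ n → n ≤ 2 * X →
      |(U X : ℝ) / Real.log n ^ (k + 1) * (Real.log n / Real.log X) - C| ≤ ε := by
  have h1 : Tendsto (fun X : ℕ => 1 + 1 / Real.log X) atTop (𝓝 (1 + 0)) :=
    tendsto_const_nhds.add (tlog.const_div_atTop 1)
  have h2 : Tendsto (fun X : ℕ => ((1 + 1 / Real.log X) ^ k)⁻¹) atTop (𝓝 1) := by
    have := (h1.pow k).inv₀ (by simp)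
    simpa using this
  have h3 : Tendsto (fun X : ℕ => |(U X : ℝ) / Real.log X ^ (k + 1) - C| +
      C * (1 - ((1 + 1 / Real.log X) ^ k)⁻¹)) atTop (𝓝 0) := by
    have e0 : Tendsto (fun X : ℕ => 1 - ((1 + 1 / Real.log X) ^ k)⁻¹) atTop (𝓝 (1 - 1)) :=
      tendsto_const_nhds.sub h2
    have e1 := ((hU.sub_const C).abs).add (e0.const_mul C)
    simpa using e1
  filter_upwards [h3.eventually_le_const hε, tlog.eventually_ge_atTop 1, eventually_ge_atTop 1]
    with X hX hL hX1 n hn1 hn2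
  refine le_trans ?_ hX
  obtain ⟨L, hLd⟩ : ∃ L, L = Real.log X := ⟨_, rfl⟩
  obtain ⟨l1, l2⟩ := log_range hX1 hn1 hn2
  rw [← hLd] at hL l1 l2 ⊢
  obtain ⟨ρ, hρ⟩ : ∃ ρ, ρ = Real.log n / L := ⟨_, rfl⟩
  have hL0 : 0 < L := by linarith
  have hlog : Real.log n = ρ * L := by rw [hρ]; field_simp
  have hρ1 : 1 ≤ ρ := by rw [hρ, one_le_div hL0]; exact l1
  have hρ2 : ρ ≤ 1 + 1 / L := by
    rw [hρ, div_le_iff₀ hL0]
    have : (1 + 1 / L) * L = L + 1 := by field_simp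
    rw [this]; exact l2
  have hρ0 : 0 < ρ := by linarith
  have e1 : (U X : ℝ) / Real.log n ^ (k + 1) * (Real.log n / L) =
      (U X : ℝ) / L ^ (k + 1) * (ρ ^ k)⁻¹ := by
    rw [hlog, mul_pow, pow_succ ρ k]
    field_simp
  rw [e1]
  have b1 : (ρ ^ k)⁻¹ ≤ 1 := inv_le_one_of_one_le₀ (one_le_pow₀ hρ1)
  have b0 : 0 < (ρ ^ k)⁻¹ := by positivity
  have b2 : ((1 + 1 / L) ^ k)⁻¹ ≤ (ρ ^ k)⁻¹ := by
    apply inv_anti₀ (by positivity)
    exact pow_le_pow_left₀ hρ0.le hρ2 k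
  generalize (U X : ℝ) / L ^ (k + 1) = a
  generalize (ρ ^ k)⁻¹ = b at b0 b1 b2
  generalize ((1 + 1 / L) ^ k)⁻¹ = e at b2
  calc |a * b - C| = |(a - C) * b + C * (b - 1)| := by ring_nf
    _ ≤ |(a - C) * b| + |C * (b - 1)| := abs_add_le _ _
    _ = |a - C| * b + C * (1 - b) := by
        rw [abs_mul, abs_of_pos b0, abs_mul, abs_of_pos hC, abs_of_nonpos (by linarith : b - 1 ≤ 0)]
        ring
    _ ≤ |a - C| * 1 + C * (1 - e) := by
        gcongr
    _ = _ := by ring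

lemma vrange {κ η : ℝ} (hκ : 0 < κ) (hκ1 : κ ≤ 1) (hη : 0 < η) (hη1 : η ≤ 1 / 2) :
    ∀ᶠ X : ℕ in atTop, ∀ n : ℕ, X ≤ n → n ≤ 2 * X →
      Real.log n ^ (1 - η) ≤ (⌊κ * Real.log X⌋₊ : ℝ) ∧
      (⌊κ * Real.log X⌋₊ : ℝ) ≤ Real.log n ^ (1 + η) := by
  have h1 : Tendsto (fun X : ℕ => Real.log X ^ η) atTop atTop := (tendsto_rpow_atTop hη).comp tlog
  filter_upwards [h1.eventually_ge_atTop (4 / κ), tlog.eventually_ge_atTop 1,
    tlog.eventually_ge_atTop (2 / κ), eventually_ge_atTop 1] with X h2 hL hL2 hX1 n hn1 hn2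
  obtain ⟨l1, l2⟩ := log_range hX1 hn1 hn2
  clear h1
  generalize Real.log (X : ℝ) = L at *
  have hL0 : 0 < L := by linarith
  constructor
  · have e1 : Real.log n ^ (1 - η) ≤ (2 * L) ^ (1 - η) :=
      Real.rpow_le_rpow (by linarith) (by linarith) (by linarith)
    have e2 : (2 * L) ^ (1 - η) ≤ 2 * L ^ (1 - η) := by
      rw [Real.mul_rpow (by norm_num) hL0.le]
      refine mul_le_mul_of_nonneg_right ?_ (by positivity)
      calc (2 : ℝ) ^ (1 - η) ≤ 2 ^ (1 : ℝ) :=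
            Real.rpow_le_rpow_of_exponent_le (by norm_num) (by linarith)
        _ = 2 := Real.rpow_one 2
    have e3 : L ^ (1 - η) * L ^ η = L := by
      rw [← Real.rpow_add hL0]; simp
    have e4 : 0 < L ^ (1 - η) := by positivity
    have e5 : L ^ (1 - η) * (4 / κ) ≤ L := by
      calc L ^ (1 - η) * (4 / κ) ≤ L ^ (1 - η) * L ^ η := by gcongr
        _ = L := e3
    have e6 : 2 * L ^ (1 - η) ≤ κ * L / 2 := by
      have : L ^ (1 - η) * 4 ≤ κ * L := by
        rw [mul_div_assoc', div_le_iff₀ hκ] at e5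
        linarith
      linarith
    have e7 : 2 ≤ κ * L := by
      rw [div_le_iff₀ hκ] at hL2; linarith
    have e8 := Nat.lt_floor_add_one (κ * L)
    linarith
  · have e1 : (⌊κ * L⌋₊ : ℝ) ≤ κ * L := Nat.floor_le (by positivity)
    have e2 : κ * L ≤ L := by nlinarith
    calc (⌊κ * L⌋₊ : ℝ) ≤ Real.log n ^ (1 : ℝ) := by rw [Real.rpow_one]; linarith
      _ ≤ Real.log n ^ (1 + η) := Real.rpow_le_rpow_of_exponent_le (by linarith) (by linarith)

/-- exponentials against powers -/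
lemma exp_pow (k : ℕ) {s D : ℝ} (hs : 0 < s) (hD : 0 < D) :
    Tendsto (fun X : ℕ => Real.exp (s * Real.log X) / (D * Real.log X ^ (k + 1))) atTop atTop := by
  have h1 : Tendsto (fun X : ℕ => s * Real.log X) atTop atTop := tlog.const_mul_atTop hs
  have h2 := (Real.tendsto_exp_div_pow_atTop (k + 1)).comp h1
  have h3 := h2.const_mul_atTop (show 0 < s ^ (k + 1) / D by positivity)
  refine h3.congr' ?_
  filter_upwards [tlog.eventually_ge_atTop 1] with X hL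
  have hL0 : 0 < Real.log X := by linarith
  simp only [Function.comp]
  rw [mul_pow]
  field_simp

lemma prim_le {b : ℝ} (hb : 0 < b) {X : ℕ} (hL : 0 ≤ Real.log X) :
    (primorial ⌊b / 2 * Real.log X⌋₊ : ℝ) ≤ Real.exp (b * Real.log X) := by
  have h1 : (primorial ⌊b / 2 * Real.log X⌋₊ : ℝ) ≤ (4 : ℝ) ^ ⌊b / 2 * Real.log X⌋₊ := by
    exact_mod_cast primorial_le_four_pow _
  refine h1.trans ?_
  have h2 : (4 : ℝ) ^ ⌊b / 2 * Real.log X⌋₊ = Real.exp (⌊b / 2 * Real.log X⌋₊ * Real.log 4) := by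
    rw [mul_comm ((⌊b / 2 * Real.log X⌋₊ : ℕ) : ℝ), Real.exp_mul, Real.exp_log (by norm_num),
      Real.rpow_natCast]
  rw [h2, Real.exp_le_exp]
  have h3 : (⌊b / 2 * Real.log X⌋₊ : ℝ) ≤ b / 2 * Real.log X := Nat.floor_le (by positivity)
  have h4 : Real.log 4 ≤ 2 := by
    have : (4 : ℝ) = 2 ^ 2 := by norm_num
    rw [this, Real.log_pow]
    have := Real.log_two_lt_d9
    push_cast
    linarith
  have h5 : 0 ≤ Real.log 4 := Real.log_nonneg (by norm_num)
  calc (⌊b / 2 * Real.log X⌋₊ : ℝ) * Real.log 4 ≤ (b / 2 * Real.log X) * 2 := by gcongr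
    _ = b * Real.log X := by ring

/-- the number of windows -/
lemma count (k : ℕ) {C r b : ℝ} (hC : 0 < C) (hb : 0 < b) (hb1 : b ≤ 1 / 2)
    (hb2 : b ≤ (1 - r) / 2) (hr : r < 1) {U : ℕ → ℕ}
    (hU : Tendsto (fun n : ℕ => (U n : ℝ) / Real.log n ^ (k + 1)) atTop (𝓝 C)) :
    (∀ᶠ X : ℕ in atTop, 4 * primorial ⌊b / 2 * Real.log X⌋₊ ≤ X) ∧
    Tendsto (fun X : ℕ => ((X / (4 * (primorial ⌊b / 2 * Real.log X⌋₊ * (U X + 1))) : ℕ) : ℝ) *
      Real.exp (-(r * Real.log X))) atTop atTop := by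
  have hexp : ∀ X : ℕ, 1 ≤ X → (X : ℝ) = Real.exp (Real.log X) := fun X hX =>
    (Real.exp_log (by exact_mod_cast hX)).symm
  constructor
  · have h1 := exp_pow 0 (s := 1 / 2) (D := 1) (by norm_num) one_pos
    filter_upwards [h1.eventually_ge_atTop 4, tlog.eventually_ge_atTop 1, eventually_ge_atTop 1]
      with X h2 hL hX1
    have h3 := prim_le hb (X := X) (by linarith)
    have h4 : Real.exp (b * Real.log X) ≤ Real.exp (1 / 2 * Real.log X) := by
      rw [Real.exp_le_exp]; exact mul_le_mul_of_nonneg_right hb1 (by linarith)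
    have h5 : 4 ≤ Real.exp (1 / 2 * Real.log X) := by
      rw [le_div_iff₀ (by positivity)] at h2
      nlinarith
    have h6 : (4 * (primorial ⌊b / 2 * Real.log X⌋₊ : ℝ)) ≤ X := by
      have h7 : (X : ℝ) = Real.exp (1 / 2 * Real.log X) * Real.exp (1 / 2 * Real.log X) := by
        rw [← Real.exp_add]
        nth_rewrite 1 [hexp X hX1]
        congr 1; ring
      have h8 := Real.exp_pos (1 / 2 * Real.log X)
      calc 4 * (primorial ⌊b / 2 * Real.log X⌋₊ : ℝ) ≤ 4 * Real.exp (1 / 2 * Real.log X) := by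
            linarith [h3.trans h4]
        _ ≤ Real.exp (1 / 2 * Real.log X) * Real.exp (1 / 2 * Real.log X) := by gcongr
        _ = X := h7.symm
    exact_mod_cast h6
  · have hD : 0 < 16 * (2 * C + 1) := by positivity
    have h1 := exp_pow k (s := 1 - b) (D := 16 * (2 * C + 1)) (by linarith) hD
    have h2 := exp_pow k (s := 1 - b - r) (D := 16 * (2 * C + 1)) (by linarith) hD
    refine tendsto_atTop_mono' _ ?_ h2
    filter_upwards [h1.eventually_ge_atTop 1, tlog.eventually_ge_atTop 1, eventually_ge_atTop 1,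
      hU.eventually_le_const (show C < 2 * C by linarith)] with X h3 hL hX1 hUX
    have hXe := hexp X hX1
    have hpr := prim_le hb (X := X) (by linarith)
    clear h1 h2 hexp hU
    generalize Real.log (X : ℝ) = L at *
    have hL1 : 1 ≤ L ^ (k + 1) := one_le_pow₀ hL
    have hL0 : 0 < L ^ (k + 1) := by linarith
    have hU1 : (U X : ℝ) + 1 ≤ (2 * C + 1) * L ^ (k + 1) := by
      rw [div_le_iff₀ hL0] at hUX
      linarith
    obtain ⟨D, hDd⟩ : ∃ D : ℕ, D = 4 * (primorial ⌊b / 2 * L⌋₊ * (U X + 1)) := ⟨_, rfl⟩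
    have hD0 : 0 < D := by
      rw [hDd]; have := primorial_pos ⌊b / 2 * L⌋₊; positivity
    have hDr : (D : ℝ) ≤ 4 * (Real.exp (b * L) * ((2 * C + 1) * L ^ (k + 1))) := by
      rw [hDd]; push_cast
      gcongr
    rw [← hDd]
    have hM : (X : ℝ) < D * ((X / D : ℕ) + 1) := by
      have := Nat.lt_mul_div_succ X hD0
      exact_mod_cast this
    have hD0r : (0 : ℝ) < D := by exact_mod_cast hD0
    -- `X / D ≥ 4`
    have e1 : Real.exp ((1 - b) * L) / (16 * (2 * C + 1) * L ^ (k + 1)) * (4 * D) ≤ X := by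
      rw [hXe]
      calc Real.exp ((1 - b) * L) / (16 * (2 * C + 1) * L ^ (k + 1)) * (4 * D) ≤
          Real.exp ((1 - b) * L) / (16 * (2 * C + 1) * L ^ (k + 1)) *
            (4 * (4 * (Real.exp (b * L) * ((2 * C + 1) * L ^ (k + 1))))) := by gcongr
        _ = Real.exp ((1 - b) * L) * Real.exp (b * L) := by
            field_simp
            norm_num
        _ = Real.exp L := by rw [← Real.exp_add]; congr 1; ring
    have e2 : 4 * Real.exp ((1 - b) * L) / (16 * (2 * C + 1) * L ^ (k + 1)) <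
        (X / D : ℕ) + 1 := by
      have e3 : 4 * Real.exp ((1 - b) * L) / (16 * (2 * C + 1) * L ^ (k + 1)) * D <
          ((X / D : ℕ) + 1) * D := by
        have e4 : 4 * Real.exp ((1 - b) * L) / (16 * (2 * C + 1) * L ^ (k + 1)) * D =
            Real.exp ((1 - b) * L) / (16 * (2 * C + 1) * L ^ (k + 1)) * (4 * D) := by ring
        rw [e4]
        linarith
      exact lt_of_mul_lt_mul_right e3 hD0r.le
    have e5 : Real.exp ((1 - b) * L) / (16 * (2 * C + 1) * L ^ (k + 1)) ≤ ((X / D : ℕ) : ℝ) := by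
      have e6 : 4 * Real.exp ((1 - b) * L) / (16 * (2 * C + 1) * L ^ (k + 1)) =
          4 * (Real.exp ((1 - b) * L) / (16 * (2 * C + 1) * L ^ (k + 1))) := by ring
      rw [e6] at e2
      linarith
    calc Real.exp ((1 - b - r) * L) / (16 * (2 * C + 1) * L ^ (k + 1)) =
        Real.exp ((1 - b) * L) / (16 * (2 * C + 1) * L ^ (k + 1)) * Real.exp (-(r * L)) := by
          rw [div_mul_eq_mul_div, ← Real.exp_add]
          congr 2; ring
      _ ≤ _ := by gcongr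


lemma urange (k : ℕ) {C : ℝ} (hC : 0 < C) {U : ℕ → ℕ}
    (hU : Tendsto (fun n : ℕ => (U n : ℝ) / Real.log n ^ (k + 1)) atTop (𝓝 C)) {C' : ℝ}
    (h1 : 2 * C ≤ C') (h2 : 2 ^ (k + 2) / C ≤ C') :
    ∀ᶠ X : ℕ in atTop, ∀ n : ℕ, X ≤ n → n ≤ 2 * X →
      Real.log n ^ (k + 1) / C' ≤ (U X : ℝ) ∧ (U X : ℝ) ≤ C' * Real.log n ^ (k + 1) := by
  filter_upwards [hU.eventually_le_const (show C < 2 * C by linarith),
    hU.eventually_const_le (show C / 2 < C by linarith), tlog.eventually_ge_atTop 1,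
    eventually_ge_atTop 1] with X hu1 hu2 hL hX1 n hn1 hn2
  obtain ⟨l1, l2⟩ := log_range hX1 hn1 hn2
  generalize Real.log (X : ℝ) = L at *
  have hL0 : 0 < L := by linarith
  have hLp : 0 < L ^ (k + 1) := by positivity
  have hC' : 0 < C' := by linarith
  rw [div_le_iff₀ hLp] at hu1
  rw [le_div_iff₀ hLp] at hu2
  constructor
  · rw [div_le_iff₀ hC']
    have e1 : Real.log n ^ (k + 1) ≤ (2 * L) ^ (k + 1) :=
      pow_le_pow_left₀ (by linarith) (by linarith) _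
    have e2 : 2 ^ (k + 2) ≤ C' * C := by
      rw [div_le_iff₀ hC] at h2; exact h2
    calc Real.log n ^ (k + 1) ≤ (2 * L) ^ (k + 1) := e1
      _ = 2 ^ (k + 2) / 2 * L ^ (k + 1) := by rw [mul_pow, pow_succ 2 (k + 1)]; ring
      _ ≤ (C' * C) / 2 * L ^ (k + 1) := by gcongr
      _ = (C / 2 * L ^ (k + 1)) * C' := by ring
      _ ≤ (U X : ℝ) * C' := by gcongr
  · calc (U X : ℝ) ≤ 2 * C * L ^ (k + 1) := hu1
      _ ≤ C' * Real.log n ^ (k + 1) := by gcongr

/-- the place for the parameter `w` -/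
noncomputable def XX (c0 : ℝ) (w : ℕ) : ℕ := ⌈Real.exp (w / c0)⌉₊

lemma XX_tendsto {c0 : ℝ} (hc : 0 < c0) : Tendsto (XX c0) atTop atTop := by
  unfold XX
  refine tendsto_nat_ceil_atTop.comp (Real.tendsto_exp_atTop.comp ?_)
  exact tendsto_natCast_atTop_atTop.atTop_div_const hc

lemma XX_log {c0 : ℝ} (hc : 0 < c0) :
    Tendsto (fun w : ℕ => Real.log (XX c0 w) / w) atTop (𝓝 (1 / c0)) := by
  have hlo : ∀ w : ℕ, (w : ℝ) / c0 ≤ Real.log (XX c0 w) := by
    intro w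
    rw [Real.le_log_iff_exp_le]
    · exact Nat.le_ceil _
    · have : 0 < XX c0 w := Nat.ceil_pos.2 (Real.exp_pos _)
      exact_mod_cast this
  have hhi : ∀ w : ℕ, Real.log (XX c0 w) ≤ (w : ℝ) / c0 + 1 := by
    intro w
    have h0 : 0 < XX c0 w := Nat.ceil_pos.2 (Real.exp_pos _)
    rw [Real.log_le_iff_le_exp (by exact_mod_cast h0), Real.exp_add]
    have h1 : (XX c0 w : ℝ) < Real.exp (w / c0) + 1 := Nat.ceil_lt_add_one (Real.exp_pos _).le
    have h2 : 1 ≤ Real.exp ((w : ℝ) / c0) := Real.one_le_exp (by positivity)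
    have h3 := Real.add_one_le_exp (1 : ℝ)
    nlinarith
  have h1 : Tendsto (fun w : ℕ => 1 / c0 + 1 / (w : ℝ)) atTop (𝓝 (1 / c0 + 0)) :=
    tendsto_const_nhds.add (tendsto_natCast_atTop_atTop.const_div_atTop 1)
  rw [add_zero] at h1
  refine tendsto_of_tendsto_of_tendsto_of_le_of_le' tendsto_const_nhds h1 ?_ ?_
  · filter_upwards [eventually_ge_atTop 1] with w hw
    have hw0 : (0 : ℝ) < w := by exact_mod_cast hw
    rw [le_div_iff₀ hw0]
    have := hlo w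
    calc 1 / c0 * w = w / c0 := by ring
      _ ≤ _ := this
  · filter_upwards [eventually_ge_atTop 1] with w hw
    have hw0 : (0 : ℝ) < w := by exact_mod_cast hw
    rw [div_le_iff₀ hw0]
    have := hhi w
    calc Real.log (XX c0 w) ≤ (w : ℝ) / c0 + 1 := this
      _ = (1 / c0 + 1 / (w : ℝ)) * w := by field_simp

lemma XX_U (k : ℕ) {C c0 : ℝ} (hC : 0 < C) (hc : 0 < c0) (hcC : c0 ^ (k + 1) = C) {U : ℕ → ℕ}
    (hU : Tendsto (fun n : ℕ => (U n : ℝ) / Real.log n ^ (k + 1)) atTop (𝓝 C)) {η : ℝ} (hη : 0 < η) :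
    ∀ᶠ w : ℕ in atTop, |(U (XX c0 w) : ℝ) - (w : ℝ) ^ (k + 1)| ≤ η * (w : ℝ) ^ (k + 1) := by
  have h1 : Tendsto (fun w : ℕ => (U (XX c0 w) : ℝ) / Real.log (XX c0 w) ^ (k + 1) *
      (Real.log (XX c0 w) / w) ^ (k + 1)) atTop (𝓝 (C * (1 / c0) ^ (k + 1))) :=
    (hU.comp (XX_tendsto hc)).mul ((XX_log hc).pow (k + 1))
  have h2 : C * (1 / c0) ^ (k + 1) = 1 := by
    rw [one_div, inv_pow, hcC, mul_inv_cancel₀ hC.ne']
  rw [h2] at h1
  have h3 : Tendsto (fun w : ℕ => |(U (XX c0 w) : ℝ) / Real.log (XX c0 w) ^ (k + 1) *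
      (Real.log (XX c0 w) / w) ^ (k + 1) - 1|) atTop (𝓝 0) := by
    simpa using (h1.sub_const 1).abs
  filter_upwards [h3.eventually_le_const hη, eventually_ge_atTop 1,
    (tlog.comp (XX_tendsto hc)).eventually_ge_atTop 1] with w hw hw1 hL
  simp only [Function.comp] at hL
  have hw0 : (0 : ℝ) < w := by exact_mod_cast hw1
  have hwp : 0 < (w : ℝ) ^ (k + 1) := by positivity
  have hL0 : 0 < Real.log (XX c0 w) := by linarith
  have e1 : (U (XX c0 w) : ℝ) / Real.log (XX c0 w) ^ (k + 1) *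
      (Real.log (XX c0 w) / w) ^ (k + 1) = (U (XX c0 w) : ℝ) / (w : ℝ) ^ (k + 1) := by
    rw [div_pow]; field_simp
  rw [e1] at hw
  have e2 : (U (XX c0 w) : ℝ) - (w : ℝ) ^ (k + 1) =
      ((U (XX c0 w) : ℝ) / (w : ℝ) ^ (k + 1) - 1) * (w : ℝ) ^ (k + 1) := by
    field_simp
  rw [e2, abs_mul, abs_of_pos hwp]
  gcongr

lemma est {L l C σ η S a D e : ℝ} (hL : 1 ≤ L) (hl1 : L ≤ l) (hl2 : l ≤ L + 1) (hC : 0 < C)
    (hσ : 0 ≤ σ) (hη : 0 < η) (h1 : |S / l - a * D| ≤ η / 8)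
    (h2 : |a * (l / L) - C| ≤ η / (4 * (σ + 1))) (h3 : |D - σ| ≤ 2 * e) (he1 : e ≤ 1 / 2)
    (he2 : e ≤ η / (8 * C)) : |S - C * σ * L| ≤ η * L := by
  have hL0 : 0 < L := by linarith
  have hl0 : 0 < l := by linarith
  obtain ⟨ρ, hρ⟩ : ∃ ρ, ρ = l / L := ⟨_, rfl⟩
  have hρ0 : 0 < ρ := by rw [hρ]; positivity
  have hρ2 : ρ ≤ 2 := by rw [hρ, div_le_iff₀ hL0]; linarith
  have hlρ : l = ρ * L := by rw [hρ]; field_simp
  rw [← hρ] at h2
  have e0 : S - C * σ * L = ((S / l - a * D) * ρ + (a * ρ - C) * D + C * (D - σ)) * L := by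
    have : S / l * ρ * L = S := by
      rw [hlρ]; field_simp
    calc S - C * σ * L = S / l * ρ * L - C * σ * L := by rw [this]
      _ = _ := by ring
  rw [e0, abs_mul, abs_of_pos hL0]
  refine mul_le_mul_of_nonneg_right ?_ hL0.le
  have hD : |D| ≤ σ + 1 := by
    have : |D| ≤ |D - σ| + |σ| := by
      calc |D| = |(D - σ) + σ| := by ring_nf
        _ ≤ _ := abs_add_le _ _
    rw [abs_of_nonneg hσ] at this
    linarith
  have t1 : |(S / l - a * D) * ρ| ≤ η / 4 := by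
    rw [abs_mul, abs_of_pos hρ0]
    calc |S / l - a * D| * ρ ≤ η / 8 * 2 := by gcongr
      _ = η / 4 := by ring
  have t2 : |(a * ρ - C) * D| ≤ η / 4 := by
    rw [abs_mul]
    calc |a * ρ - C| * |D| ≤ η / (4 * (σ + 1)) * (σ + 1) := by gcongr
      _ = η / 4 := by field_simp
  have t3 : |C * (D - σ)| ≤ η / 4 := by
    rw [abs_mul, abs_of_pos hC]
    calc C * |D - σ| ≤ C * (2 * (η / (8 * C))) := by gcongr; linarith
      _ = η / 4 := by field_simp; norm_num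
  calc |(S / l - a * D) * ρ + (a * ρ - C) * D + C * (D - σ)| ≤
      |(S / l - a * D) * ρ| + |(a * ρ - C) * D| + |C * (D - σ)| := abs_add_three _ _ _
    _ ≤ η := by linarith

section meas

variable {Ω : Type} [MeasurableSpace Ω] {P : Measure Ω} {A : ℕ → Set Ω} {z : ℕ → ℕ}

lemma hit_meas {k : ℕ} (c d : Fin k → ℕ) (hA : ∀ n, MeasurableSet (A n)) (m : ℕ) :
    MeasurableSet (Hit c d A m) := MeasurableSet.iInter fun i => hA _

lemma ht_meas {k : ℕ} (c d : Fin k → ℕ) (hA : ∀ n, MeasurableSet (A n)) (n U : ℕ) :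
    Measurable (fun ω => ht c d A ω n U) := by
  classical
  have h1 : (fun ω => ht c d A ω n U) =
      fun ω => ∑ j ∈ Finset.range U, (Hit c d A (n + j + 1)).indicator (fun _ => 1) ω := by
    funext ω
    unfold ht
    rw [Finset.card_filter]
    refine Finset.sum_congr rfl fun j _ => ?_
    simp [Set.indicator_apply]
  rw [h1]
  exact Finset.measurable_sum _ fun j _ => measurable_const.indicator (hit_meas c d hA _)

lemma core (hWND : S_WND) (hEXPW : S_EXPW) (hEXWK : S_EXWK) (hPOSK : S_POSK) (hM : GMod P A z)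
    {k : ℕ} {c d : Fin k → ℕ} (hS : Sys c d) {C σ : ℝ} (hC : 0 < C) (hσ : 0 ≤ σ) {U : ℕ → ℕ}
    (hU : Tendsto (fun n : ℕ => (U n : ℝ) / Real.log n ^ (k + 1)) atTop (𝓝 C))
    {G : ℕ → Set ℕ} {r η : ℝ} (hr : r < 1) (hη : 0 < η)
    (hgood : ∀ᶠ X : ℕ in atTop, ∀ n : ℕ, X ≤ n → n + U X ≤ 2 * X →
      |(∑ j ∈ Finset.range (U X), (P (Hit c d A (n + j + 1))).toReal) - C * σ * Real.log X| ≤
        η * Real.log X →
      (∀ j < U X, (P (Hit c d A (n + j + 1))).toReal ≤ η) →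
      ENNReal.ofReal (Real.exp (-(r * Real.log X))) ≤ P {ω | ht c d A ω n (U X) ∈ G X}) :
    ∃ c0 e : ℝ, 0 < c0 ∧ 0 < e ∧ ∀ ε : ℝ, 0 < ε → ∀ᶠ w : ℕ in atTop,
      (|hik c d w - σ| ≤ e ∨ |lok c d w - σ| ≤ e) →
      P {ω | ¬ ∃ n : ℕ, XX c0 w ≤ n ∧ n ≤ 2 * XX c0 w ∧ ht c d A ω n (U (XX c0 w)) ∈ G (XX c0 w)} ≤
        ENNReal.ofReal ε := by
  have := hM.prob
  obtain ⟨c0, hc0⟩ : ∃ c0 : ℝ, c0 = C ^ ((1 : ℝ) / ((k : ℝ) + 1)) := ⟨_, rfl⟩
  have hc : 0 < c0 := by rw [hc0]; positivity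
  have hcC : c0 ^ (k + 1) = C := by
    rw [hc0, ← Real.rpow_natCast, ← Real.rpow_mul hC.le]
    have : (1 : ℝ) / ((k : ℝ) + 1) * ((k + 1 : ℕ) : ℝ) = 1 := by
      push_cast; field_simp
    rw [this, Real.rpow_one]
  obtain ⟨e, he⟩ : ∃ e : ℝ, e = min (1 / 2) (η / (8 * C)) := ⟨_, rfl⟩
  have he0 : 0 < e := by rw [he]; positivity
  have he1 : e ≤ 1 / 2 := by rw [he]; exact min_le_left _ _
  have he2 : e ≤ η / (8 * C) := by rw [he]; exact min_le_right _ _
  obtain ⟨b, hb⟩ : ∃ b : ℝ, b = min (1 / 2) ((1 - r) / 2) := ⟨_, rfl⟩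
  have hb0 : 0 < b := by rw [hb]; exact lt_min (by norm_num) (by linarith)
  have hb1 : b ≤ 1 / 2 := by rw [hb]; exact min_le_left _ _
  have hb2 : b ≤ (1 - r) / 2 := by rw [hb]; exact min_le_right _ _
  obtain ⟨C', hC'⟩ : ∃ C' : ℝ, C' = max 1 (max (2 * C) (2 ^ (k + 2) / C)) := ⟨_, rfl⟩
  have hC'1 : 1 ≤ C' := by rw [hC']; exact le_max_left _ _
  have hC'2 : 2 * C ≤ C' := by rw [hC']; exact (le_max_left _ _).trans (le_max_right _ _)
  have hC'3 : 2 ^ (k + 2) / C ≤ C' := by rw [hC']; exact (le_max_right _ _).trans (le_max_right _ _)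
  obtain ⟨η1, hη1, hη1', hE1⟩ := hEXPW Ω P A z hM k c d hS C' (η / 8) hC'1 (by positivity)
  obtain ⟨η2, hη2, hη2', hE2⟩ := hEXWK k c d hS C' e hC'1 he0
  obtain ⟨n0, hn0⟩ := hWND Ω P A z hM k c d hS
  obtain ⟨hcnt1, hcnt2⟩ := count k hC hb0 hb1 hb2 hr hU
  have hur := urange k hC hU hC'2 hC'3
  have hv1 := vrange (κ := b / 2) (by linarith) (by linarith) hη1 hη1'
  have hv2 := vrange (κ := b / 2) (by linarith) (by linarith) hη2 hη2'
  have hrat := ratio k hC hU (ε := η / (4 * (σ + 1))) (by positivity)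
  refine ⟨c0, e, hc, he0, fun ε hε => ?_⟩
  have hbig := hcnt2.eventually_ge_atTop (-Real.log ε)
  have hall := ((((hgood.and (eventually_forall_ge_atTop.2 hE1)).and (hE2.and hur)).and
    ((hv1.and hv2).and (hrat.and hcnt1))).and ((hbig.and (eventually_ge_atTop n0)).and
    ((tlog.eventually_ge_atTop 1).and (eventually_ge_atTop 1))))
  filter_upwards [(XX_tendsto hc).eventually hall, XX_U k hC hc hcC hU hη2] with w hw hUw hfr
  generalize XX c0 w = X at hw hUw ⊢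
  obtain ⟨⟨⟨⟨a1, a2⟩, a3, a4⟩, ⟨a5, a6⟩, a7, a8⟩, ⟨a9, a10⟩, a11, a12⟩ := hw
  obtain ⟨v, hv⟩ : ∃ v : ℕ, v = ⌊b / 2 * Real.log X⌋₊ := ⟨_, rfl⟩
  rw [← hv] at a5 a6 a8 a9
  obtain ⟨M, hMd⟩ : ∃ M : ℕ, M = X / (4 * (primorial v * (U X + 1))) := ⟨_, rfl⟩
  rw [← hMd] at a9
  have hXX : X ≤ 2 * X := by omega
  -- the place `t`
  obtain ⟨t, hDt⟩ : ∃ t : ℕ, |DS c d v t (U X) - σ| ≤ 2 * e := by
    obtain ⟨⟨m1, h1⟩, m2, h2⟩ := a3 w (U X) v (a4 X le_rfl hXX).1 (a4 X le_rfl hXX).2 hUw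
      (a6 X le_rfl hXX).1 (a6 X le_rfl hXX).2
    rcases hfr with h | h
    · refine ⟨m1, ?_⟩
      calc |DS c d v m1 (U X) - σ| = |(DS c d v m1 (U X) - hik c d w) + (hik c d w - σ)| := by ring_nf
        _ ≤ _ := abs_add_le _ _
        _ ≤ 2 * e := by linarith
    · refine ⟨m2, ?_⟩
      calc |DS c d v m2 (U X) - σ| = |(DS c d v m2 (U X) - lok c d w) + (lok c d w - σ)| := by ring_nf
        _ ≤ _ := abs_add_le _ _
        _ ≤ 2 * e := by linarith
  have hMX : 4 * (M * (primorial v * (U X + 1))) ≤ X := by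
    have := Nat.div_mul_le_self X (4 * (primorial v * (U X + 1)))
    rw [← hMd] at this
    calc 4 * (M * (primorial v * (U X + 1))) = M * (4 * (primorial v * (U X + 1))) := by ring
      _ ≤ X := this
  obtain ⟨pos, hp1, hp2, hp3⟩ := hPOSK k c d v t X M (U X) a8 hMX
  -- each window is good with a large probability
  have hq : ∀ i < M, ENNReal.ofReal (Real.exp (-(r * Real.log X))) ≤
      P {ω | ht c d A ω (pos i) (U X) ∈ G X} := by
    intro i hi
    obtain ⟨p1, p2⟩ := hp2 i hi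
    have p3 : pos i ≤ 2 * X := by omega
    refine a1 (pos i) p1 p2 ?_ ?_
    · obtain ⟨l1, l2⟩ := log_range a12 p1 p3
      have h1 := (a2 (pos i) p1).1 (U X) v (a4 _ p1 p3).1 (a4 _ p1 p3).2 (a5 _ p1 p3).1 (a5 _ p1 p3).2
      have h2 : DS c d v (pos i) (U X) = DS c d v t (U X) := by
        unfold DS; rw [hp3 i (U X)]
      rw [h2] at h1
      exact est a11 l1 l2 hC hσ hη h1 (a7 _ p1 p3) hDt he1 he2
    · intro j _
      have := (a2 (pos i + j + 1) (by omega)).2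
      linarith
  have hW := hn0 X a10 M (U X) pos (fun _ => (G X)ᶜ) hp1 hp2
  have hsub : P {ω | ¬ ∃ n : ℕ, X ≤ n ∧ n ≤ 2 * X ∧ ht c d A ω n (U X) ∈ G X} ≤
      P {ω | ∀ i < M, ht c d A ω (pos i) (U X) ∈ (G X)ᶜ} := by
    refine measure_mono fun ω hω i hi hG => hω ?_
    obtain ⟨p1, p2⟩ := hp2 i hi
    exact ⟨pos i, p1, by omega, hG⟩
  refine hsub.trans ?_
  rw [hW]
  have hq' : ∀ i ∈ Finset.range M, P {ω | ht c d A ω (pos i) (U X) ∈ (G X)ᶜ} ≤
      ENNReal.ofReal (Real.exp (-Real.exp (-(r * Real.log X)))) := by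
    intro i hi
    have h1 := hq i (Finset.mem_range.1 hi)
    have h2 : MeasurableSet {ω | ht c d A ω (pos i) (U X) ∈ G X} :=
      (ht_meas c d hM.meas (pos i) (U X)) (MeasurableSet.of_discrete)
    have h3 : {ω | ht c d A ω (pos i) (U X) ∈ (G X)ᶜ} = {ω | ht c d A ω (pos i) (U X) ∈ G X}ᶜ := rfl
    rw [h3, prob_compl_eq_one_sub h2]
    calc 1 - P {ω | ht c d A ω (pos i) (U X) ∈ G X} ≤
        1 - ENNReal.ofReal (Real.exp (-(r * Real.log X))) := tsub_le_tsub_left h1 _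
      _ = ENNReal.ofReal (1 - Real.exp (-(r * Real.log X))) := by
          rw [ENNReal.ofReal_sub _ (Real.exp_pos _).le, ENNReal.ofReal_one]
      _ ≤ _ := by
          apply ENNReal.ofReal_le_ofReal
          have := Real.add_one_le_exp (-Real.exp (-(r * Real.log X)))
          linarith
  refine (Finset.prod_le_prod' hq').trans ?_
  rw [Finset.prod_const, Finset.card_range, ← ENNReal.ofReal_pow (Real.exp_pos _).le]
  apply ENNReal.ofReal_le_ofReal
  rw [← Real.exp_nat_mul]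
  calc Real.exp (M * -Real.exp (-(r * Real.log X))) ≤ Real.exp (Real.log ε) := by
        rw [Real.exp_le_exp]
        linarith
    _ = ε := Real.exp_log hε

/-- the null set argument -/
lemma core2 (hWND : S_WND) (hEXPW : S_EXPW) (hEXWK : S_EXWK) (hPOSK : S_POSK) (hM : GMod P A z)
    {k : ℕ} {c d : Fin k → ℕ} (hS : Sys c d) {C σ : ℝ} (hC : 0 < C) (hσ : 0 ≤ σ) {U : ℕ → ℕ}
    (hU : Tendsto (fun n : ℕ => (U n : ℝ) / Real.log n ^ (k + 1)) atTop (𝓝 C))
    (hfr : (∀ ε : ℝ, 0 < ε → ∃ᶠ w : ℕ in atTop, |hik c d w - σ| ≤ ε) ∨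
      (∀ ε : ℝ, 0 < ε → ∃ᶠ w : ℕ in atTop, |lok c d w - σ| ≤ ε))
    {G : ℕ → Set ℕ} {r η : ℝ} (hr : r < 1) (hη : 0 < η)
    (hgood : ∀ᶠ X : ℕ in atTop, ∀ n : ℕ, X ≤ n → n + U X ≤ 2 * X →
      |(∑ j ∈ Finset.range (U X), (P (Hit c d A (n + j + 1))).toReal) - C * σ * Real.log X| ≤
        η * Real.log X →
      (∀ j < U X, (P (Hit c d A (n + j + 1))).toReal ≤ η) →
      ENNReal.ofReal (Real.exp (-(r * Real.log X))) ≤ P {ω | ht c d A ω n (U X) ∈ G X}) :
    ∀ᵐ ω ∂P, ∃ᶠ X : ℕ in atTop, ∃ n : ℕ, X ≤ n ∧ n ≤ 2 * X ∧ ht c d A ω n (U X) ∈ G X := by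
  obtain ⟨c0, e, hc, he, hcore⟩ := core hWND hEXPW hEXWK hPOSK hM hS hC hσ hU hr hη hgood
  have hfr' : ∃ᶠ w : ℕ in atTop, |hik c d w - σ| ≤ e ∨ |lok c d w - σ| ≤ e := by
    rcases hfr with h | h
    · exact (h e he).mono fun w hw => Or.inl hw
    · exact (h e he).mono fun w hw => Or.inr hw
  have hnull : ∀ m : ℕ, P {ω | ∀ X : ℕ, m ≤ X → ¬ ∃ n : ℕ, X ≤ n ∧ n ≤ 2 * X ∧
      ht c d A ω n (U X) ∈ G X} = 0 := by
    intro m
    refine le_antisymm (ENNReal.le_of_forall_pos_le_add fun ε hε _ => ?_) zero_le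
    rw [zero_add]
    have hev := hcore ε (by exact_mod_cast hε)
    have hXX := (XX_tendsto hc).eventually_ge_atTop m
    obtain ⟨w, hw1, hw2, hw3⟩ := (hfr'.and_eventually (hev.and hXX)).exists
    have h1 := hw2 hw1
    rw [ENNReal.ofReal_coe_nnreal] at h1
    refine le_trans (measure_mono fun ω hω => ?_) h1
    exact hω (XX c0 w) hw3
  have h2 : P (⋃ m : ℕ, {ω | ∀ X : ℕ, m ≤ X → ¬ ∃ n : ℕ, X ≤ n ∧ n ≤ 2 * X ∧
      ht c d A ω n (U X) ∈ G X}) = 0 := measure_iUnion_null hnull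
  show P {ω | ¬ ∃ᶠ X : ℕ in atTop, ∃ n : ℕ, X ≤ n ∧ n ≤ 2 * X ∧ ht c d A ω n (U X) ∈ G X} = 0
  refine measure_mono_null (fun ω hω => ?_) h2
  rw [Set.mem_ofPred_eq, not_frequently] at hω
  obtain ⟨m, hm⟩ := eventually_atTop.1 hω
  exact Set.mem_iUnion.2 ⟨m, fun X hX => hm X hX⟩

/-- the window as a finite set -/
def win (n U : ℕ) : Finset ℕ := (Finset.range U).image (fun j => n + j + 1)

lemma win_inj (n : ℕ) : Function.Injective (fun j : ℕ => n + j + 1) := fun a b h => by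
  simp only at h; omega

lemma win_sum (n U : ℕ) (f : ℕ → ℝ) : ∑ m ∈ win n U, f m = ∑ j ∈ Finset.range U, f (n + j + 1) := by
  unfold win
  rw [Finset.sum_image fun a _ b _ h => win_inj n h]

lemma mem_win {n U m : ℕ} : m ∈ win n U ↔ ∃ j < U, n + j + 1 = m := by
  simp [win]

lemma NN_win {k : ℕ} (c d : Fin k → ℕ) (n U : ℕ) (ω : Ω) :
    NN (win n U) (Hit c d A) ω = ht c d A ω n U := by
  classical
  unfold NN ht win
  rw [Finset.filter_image, Finset.card_image_of_injective _ (win_inj n)]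

lemma win_indep (hIND : S_IND) (hM : GMod P A z) {k : ℕ} {c d : Fin k → ℕ} (hS : Sys c d) :
    ∃ n0 : ℕ, ∀ X : ℕ, n0 ≤ X → ∀ n U : ℕ, X ≤ n → n + U ≤ 2 * X →
      iIndepSet (fun m : (win n U) => Hit c d A m) P := by
  obtain ⟨n0, -, h⟩ := hIND Ω P A z hM k c d hS
  refine ⟨n0, fun X hX n U h1 h2 => ?_⟩
  have hind := h X hX
  have hmem : ∀ m : (win n U), X < (m : ℕ) ∧ (m : ℕ) ≤ 2 * X := by
    intro m
    obtain ⟨j, hj, hm⟩ := mem_win.1 m.2
    omega
  have hg : Function.Injective (fun m : (win n U) => (⟨(m : ℕ), hmem m⟩ : {m : ℕ // X < m ∧ m ≤ 2 * X})) := by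
    intro a b hab
    exact Subtype.ext (by simpa using hab)
  rw [iIndepSet_iff_iIndep] at hind ⊢
  exact hind.precomp hg

end meas

end GEXaux

open GEXaux in
theorem gex : S_WND → S_IND → S_EXPW → S_EXWK → S_POSK → S_LDL → S_GEX := by
  intro hWND hIND hEXPW hEXWK hPOSK hLDL Ω _ P A z hM k c d hS C σ hC hσ U hU hfr
  obtain ⟨n0, hind⟩ := win_indep hIND hM hS
  have hP := hM.prob
  have hHm : ∀ m, MeasurableSet (Hit c d A m) := fun m => hit_meas c d hM.meas m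
  constructor
  · intro t δ htt hδ hlt
    obtain ⟨δ', hδ'0, hδ'δ, hδ'1⟩ : ∃ δ' : ℝ, 0 < δ' ∧ δ' ≤ δ ∧
        C * σ * ((1 + t) * Real.log (1 + t) - t) + δ' * |Real.log (1 + t)| < 1 := by
      obtain ⟨g, hg⟩ : ∃ g : ℝ, g = 1 - C * σ * ((1 + t) * Real.log (1 + t) - t) := ⟨_, rfl⟩
      have hg0 : 0 < g := by linarith
      have hK : 0 < |Real.log (1 + t)| + 1 := by positivity
      refine ⟨min δ (g / (2 * (|Real.log (1 + t)| + 1))), lt_min hδ (by positivity),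
        min_le_left _ _, ?_⟩
      have h1 : min δ (g / (2 * (|Real.log (1 + t)| + 1))) * |Real.log (1 + t)| ≤
          g / (2 * (|Real.log (1 + t)| + 1)) * (|Real.log (1 + t)| + 1) :=
        mul_le_mul (min_le_right _ _) (by linarith) (abs_nonneg _) (by positivity)
      have h2 : g / (2 * (|Real.log (1 + t)| + 1)) * (|Real.log (1 + t)| + 1) = g / 2 := by
        field_simp
      linarith
    obtain ⟨κ, hκ⟩ : ∃ κ : ℝ, κ = (1 - (C * σ * ((1 + t) * Real.log (1 + t) - t) +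
      δ' * |Real.log (1 + t)|)) / 2 := ⟨_, rfl⟩
    have hκ0 : 0 < κ := by rw [hκ]; linarith
    obtain ⟨η, L0, hη, hL⟩ := hLDL (C * σ) t δ' κ (by positivity) htt hδ'0 hκ0
    have hr : C * σ * ((1 + t) * Real.log (1 + t) - t) + δ' * |Real.log (1 + t)| + κ < 1 := by
      rw [hκ]; linarith
    have h := core2 hWND hEXPW hEXWK hPOSK hM hS hC hσ hU hfr
      (G := fun X => {N : ℕ | |(N : ℝ) - (1 + t) * (C * σ) * Real.log X| ≤ δ' * Real.log X}) hr hη
      (by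
        filter_upwards [tlog.eventually_ge_atTop L0, eventually_ge_atTop n0] with X hX1 hX2 n hn1 hn2
          h1 h2
        have h3 := (hL (Real.log X) hX1 Ω P hP (win n (U X)) (Hit c d A) hHm
          (hind X hX2 n (U X) hn1 hn2) (by rw [win_sum]; exact h1) (by
            intro m hm
            obtain ⟨j, hj, rfl⟩ := mem_win.1 hm
            exact h2 j hj)).1
        rw [ENNReal.ofReal_le_iff_le_toReal (measure_ne_top _ _)]
        simp only [NN_win] at h3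
        exact h3)
    filter_upwards [h] with ω hω
    refine (hω.and_eventually (tlog.eventually_ge_atTop 1)).mono ?_
    rintro X ⟨⟨n, hn1, hn2, hn3⟩, hX⟩
    refine ⟨n, hn1, hn2, ?_⟩
    have hX0 : 0 < Real.log X := by linarith
    have hn3' : |(ht c d A ω n (U X) : ℝ) - (1 + t) * (C * σ) * Real.log X| ≤ δ' * Real.log X := hn3
    have e1 : (ht c d A ω n (U X) : ℝ) / Real.log X - (1 + t) * (C * σ) =
        ((ht c d A ω n (U X) : ℝ) - (1 + t) * (C * σ) * Real.log X) / Real.log X := by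
      field_simp
    rw [e1, abs_div, abs_of_pos hX0, div_le_iff₀ hX0]
    exact hn3'.trans (mul_le_mul_of_nonneg_right hδ'δ hX0.le)
  · intro hlt
    obtain ⟨κ, hκ⟩ : ∃ κ : ℝ, κ = (1 - C * σ) / 2 := ⟨_, rfl⟩
    have hκ0 : 0 < κ := by rw [hκ]; linarith
    obtain ⟨η, L0, hη, hL⟩ := hLDL (C * σ) 0 1 κ (by positivity) (by norm_num) one_pos hκ0
    have hr : C * σ + κ < 1 := by rw [hκ]; linarith
    have h := core2 hWND hEXPW hEXWK hPOSK hM hS hC hσ hU hfr
      (G := fun X => {N : ℕ | N = 0}) hr hη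
      (by
        filter_upwards [tlog.eventually_ge_atTop L0, eventually_ge_atTop n0] with X hX1 hX2 n hn1 hn2
          h1 h2
        have h3 := (hL (Real.log X) hX1 Ω P hP (win n (U X)) (Hit c d A) hHm
          (hind X hX2 n (U X) hn1 hn2) (by rw [win_sum]; exact h1) (by
            intro m hm
            obtain ⟨j, hj, rfl⟩ := mem_win.1 hm
            exact h2 j hj)).2
        rw [ENNReal.ofReal_le_iff_le_toReal (measure_ne_top _ _)]
        simp only [NN_win] at h3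
        exact h3)
    exact h

end Pool.Agent.H50.GW
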