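import Pool.Agent.H50.GW.Stm

/-! GW-GUP (helper19): the upper and lower limits (Borel-Cantelli part). -/

set_option autoImplicit false

open MeasureTheory Filter ProbabilityTheory
open scoped Topology ENNReal

namespace Pool.Agent.H50.GW

open Pool.Agent.H50.BF

namespace GUPx

variable {Ω : Type} [MeasurableSpace Ω] {P : Measure Ω} {A : ℕ → Set Ω} {z : ℕ → ℕ}
  {k : ℕ} {c d : Fin k → ℕ}

omit [MeasurableSpace Ω] in
lemma ht_eq (ω : Ω) (n U : ℕ) :
    ht c d A ω n U = NN (Finset.Ioc n (n + U)) (Hit c d A) ω := by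
  classical
  unfold ht NN
  refine Finset.card_bij (fun j _ => n + j + 1) ?_ ?_ ?_
  · intro j hj
    rw [Finset.mem_filter, Finset.mem_range] at hj
    rw [Finset.mem_filter, Finset.mem_Ioc]
    exact ⟨⟨by omega, by omega⟩, hj.2⟩
  · intro a _ b _ h
    omega
  · intro m hm
    rw [Finset.mem_filter, Finset.mem_Ioc] at hm
    refine ⟨m - n - 1, ?_, by omega⟩
    rw [Finset.mem_filter, Finset.mem_range, show n + (m - n - 1) + 1 = m by omega]
    exact ⟨by omega, hm.2⟩

lemma sum_eq (f : ℕ → ℝ) (n U : ℕ) :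
    ∑ m ∈ Finset.Ioc n (n + U), f m = ∑ j ∈ Finset.range U, f (n + j + 1) := by
  symm
  refine Finset.sum_bij (fun j _ => n + j + 1) ?_ ?_ ?_ ?_
  · intro j hj
    rw [Finset.mem_range] at hj
    rw [Finset.mem_Ioc]
    omega
  · intro a _ b _ h
    omega
  · intro m hm
    rw [Finset.mem_Ioc] at hm
    exact ⟨m - n - 1, by rw [Finset.mem_range]; omega, by omega⟩
  · intro a _
    rfl

lemma indS {X U : ℕ}
    (h : iIndepSet (fun m : {m : ℕ // X < m ∧ m ≤ 2 * X} => Hit c d A m) P) (hU : U ≤ X) :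
    iIndepSet (fun m : (Finset.Ioc X (X + U)) => Hit c d A m) P := by
  rw [iIndepSet_iff_iIndep] at h ⊢
  let g : (Finset.Ioc X (X + U)) → {m : ℕ // X < m ∧ m ≤ 2 * X} := fun m =>
    ⟨m.1, (Finset.mem_Ioc.1 m.2).1, by have := (Finset.mem_Ioc.1 m.2).2; omega⟩
  have hg : Function.Injective g := by
    intro a b hab
    have := congrArg (fun x : {m : ℕ // X < m ∧ m ≤ 2 * X} => x.1) hab
    exact Subtype.ext this
  exact iIndep.precomp hg h

lemma MM_nonneg (v : ℕ) : 0 ≤ MM v := by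
  refine Finset.prod_nonneg (fun p hp => ?_)
  rw [Finset.mem_filter] at hp
  have h1 : (1 : ℝ) ≤ p := by exact_mod_cast hp.2.one_lt.le
  have h2 : (p : ℝ)⁻¹ ≤ 1 := inv_le_one_of_one_le₀ h1
  exact inv_nonneg.2 (by linarith)

lemma DS_nonneg (v n U : ℕ) : 0 ≤ DS c d v n U := by
  unfold DS
  have := MM_nonneg v
  positivity

lemma hit_meas (hG : GMod P A z) (m : ℕ) : MeasurableSet (Hit c d A m) :=
  MeasurableSet.iInter (fun _ => hG.meas _)

lemma log_tend : Tendsto (fun n : ℕ => Real.log n) atTop atTop :=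
  Real.tendsto_log_atTop.comp tendsto_natCast_atTop_atTop

/-- all the asymptotic facts -/
lemma ev (hEX : S_EXPW) (hED : S_EXDK) (hG : GMod P A z) (hS : Sys c d) {C : ℝ} (hC : 0 < C)
    {U : ℕ → ℕ} (hU : Tendsto (fun n : ℕ => (U n : ℝ) / Real.log n ^ (k + 1)) atTop (𝓝 C))
    {ε : ℝ} (hε : 0 < ε) : ∀ᶠ n : ℕ in atTop, 1 ≤ Real.log n ∧ U n ≤ n ∧
      |(U n : ℝ) / Real.log n ^ (k + 1) - C| ≤ ε ∧
      ∃ D : ℝ, 0 ≤ D ∧ |(∑ j ∈ Finset.range (U n), (P (Hit c d A (n + j + 1))).toReal) / Real.log n -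
        ((U n : ℝ) / Real.log n ^ (k + 1)) * D| ≤ ε ∧
        lok c d (rt k (U n)) - ε ≤ D ∧ D ≤ hik c d (rt k (U n)) + ε := by
  set C' : ℝ := max 1 (max (2 * C) (2 / C)) with hC'
  have hC'1 : 1 ≤ C' := le_max_left _ _
  have hC'2 : 2 * C ≤ C' := (le_max_left _ _).trans (le_max_right _ _)
  have hC'3 : 2 / C ≤ C' := (le_max_right _ _).trans (le_max_right _ _)
  obtain ⟨η1, hη1, hη1', h1⟩ := hEX Ω P A z hG k c d hS C' ε hC'1 hε
  obtain ⟨η2, hη2, hη2', h2⟩ := hED k c d hS C' ε hC'1 hε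
  have hpow : ∀ η : ℝ, 0 < η → ∀ᶠ n : ℕ in atTop, Real.log n + 1 ≤ Real.log n ^ (1 + η) := by
    intro η hη
    have h3 : ∀ᶠ x : ℝ in atTop, x + 1 ≤ x ^ (1 + η) := by
      filter_upwards [(tendsto_rpow_atTop hη).eventually_ge_atTop 2, eventually_ge_atTop (1 : ℝ)]
        with x hx hx1
      rw [Real.rpow_add (by linarith), Real.rpow_one]
      nlinarith
    exact log_tend.eventually h3
  have hlo : ∀ᶠ n : ℕ in atTop, Real.log n ^ (k + 1) ≤ n / C' := by
    have h3 := (Real.isLittleO_pow_log_id_atTop (n := k + 1)).bound (show (0 : ℝ) < 1 / C' by positivity)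
    have h4 := tendsto_natCast_atTop_atTop (R := ℝ) |>.eventually h3
    filter_upwards [h4, log_tend.eventually_ge_atTop 1] with n hn hn1
    simp only [id] at hn
    rw [Real.norm_of_nonneg (by positivity), Real.norm_of_nonneg (Nat.cast_nonneg n)] at hn
    calc _ ≤ _ := hn
      _ = _ := by ring
  filter_upwards [h1, h2, hpow η1 hη1, hpow η2 hη2, hlo, log_tend.eventually_ge_atTop 1,
    (Metric.tendsto_nhds.1 hU ε hε), (Metric.tendsto_nhds.1 hU (C / 2) (by positivity))]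
    with n a1 a2 a3 a4 a5 a6 a7 a8
  set L := Real.log (n : ℝ) with hL
  have hLp : 0 < L ^ (k + 1) := by positivity
  rw [Real.dist_eq] at a7 a8
  rw [abs_lt] at a8
  have hUlo : L ^ (k + 1) / C' ≤ U n := by
    have e1 : C / 2 ≤ (U n : ℝ) / L ^ (k + 1) := by linarith
    rw [le_div_iff₀ hLp] at e1
    rw [div_le_iff₀ (by linarith)]
    have e2 : 2 ≤ C' * C := by rwa [div_le_iff₀ hC] at hC'3
    have e3 : C / 2 * L ^ (k + 1) * C' ≤ U n * C' := mul_le_mul_of_nonneg_right e1 (by linarith)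
    nlinarith
  have hUhi : (U n : ℝ) ≤ C' * L ^ (k + 1) := by
    have e1 : (U n : ℝ) / L ^ (k + 1) ≤ 2 * C := by linarith
    rw [div_le_iff₀ hLp] at e1
    nlinarith
  have hv1 : L ≤ (⌈L⌉₊ : ℝ) := Nat.le_ceil L
  have hv2 : (⌈L⌉₊ : ℝ) ≤ L + 1 := (Nat.ceil_lt_add_one (by linarith)).le
  have hlow : ∀ η : ℝ, 0 < η → L ^ (1 - η) ≤ (⌈L⌉₊ : ℝ) := by
    intro η hη
    refine le_trans ?_ hv1
    calc L ^ (1 - η) ≤ L ^ (1 : ℝ) := Real.rpow_le_rpow_of_exponent_le a6 (by linarith)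
      _ = L := Real.rpow_one L
  refine ⟨a6, ?_, a7.le, DS c d ⌈L⌉₊ n (U n), DS_nonneg _ _ _, ?_, ?_⟩
  · have : (U n : ℝ) ≤ n := by
      refine hUhi.trans ?_
      rw [le_div_iff₀ (by linarith)] at a5
      linarith
    exact_mod_cast this
  · exact a1.1 (U n) ⌈L⌉₊ hUlo hUhi (hlow η1 hη1) (hv2.trans a3)
  · exact a2 n (U n) ⌈L⌉₊ hUlo hUhi (hlow η2 hη2) (hv2.trans a4)

lemma rt_tend {C : ℝ} (hC : 0 < C)
    {U : ℕ → ℕ} (hU : Tendsto (fun n : ℕ => (U n : ℝ) / Real.log n ^ (k + 1)) atTop (𝓝 C)) :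
    Tendsto (fun n => rt k (U n)) atTop atTop := by
  have h1 : Tendsto (fun n : ℕ => (U n : ℝ)) atTop atTop := by
    have h2 : Tendsto (fun n : ℕ => Real.log n ^ (k + 1)) atTop atTop :=
      (tendsto_pow_atTop (by omega)).comp log_tend
    have h3 := Filter.Tendsto.pos_mul_atTop hC hU h2
    refine h3.congr' ?_
    filter_upwards [log_tend.eventually_ge_atTop 1] with n hn
    have : Real.log (n : ℝ) ^ (k + 1) ≠ 0 := by positivity
    field_simp
  unfold rt
  exact tendsto_nat_floor_atTop.comp ((tendsto_rpow_atTop (by positivity)).comp h1)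

lemma bc {s : ℕ → Set Ω} {δ : ℝ} (hδ : 0 < δ) (h : ∀ᶠ n : ℕ in atTop,
    P (s n) ≤ ENNReal.ofReal (Real.exp (-((1 + δ) * Real.log n)))) :
    ∀ᵐ ω ∂P, ∀ᶠ n in atTop, ω ∉ s n := by
  obtain ⟨N, hN⟩ := eventually_atTop.1 (h.and (eventually_ge_atTop 1))
  have h1 : ∀ n, P (s (n + N)) ≤ ENNReal.ofReal (((n + N : ℕ) : ℝ) ^ (-(1 + δ))) := by
    intro n
    obtain ⟨h2, h3⟩ := hN (n + N) (by omega)
    refine h2.trans (le_of_eq ?_)
    have h4 : (0 : ℝ) < ((n + N : ℕ) : ℝ) := by exact_mod_cast h3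
    rw [Real.rpow_def_of_pos h4]
    congr 2
    ring
  have hsum : Summable (fun n : ℕ => ((n : ℕ) : ℝ) ^ (-(1 + δ))) :=
    Real.summable_nat_rpow.2 (by linarith)
  have hsum' : Summable (fun n : ℕ => ((n + N : ℕ) : ℝ) ^ (-(1 + δ))) :=
    (summable_nat_add_iff N).2 hsum
  have h5 : ∑' n, P (s (n + N)) ≠ ∞ := by
    refine ne_of_lt (lt_of_le_of_lt (ENNReal.tsum_le_tsum h1) ?_)
    rw [← ENNReal.ofReal_tsum_of_nonneg (fun n => by positivity) hsum']
    exact ENNReal.ofReal_lt_top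
  filter_upwards [ae_eventually_notMem h5] with ω hω
  obtain ⟨M, hM⟩ := eventually_atTop.1 hω
  refine eventually_atTop.2 ⟨M + N, fun n hn => ?_⟩
  have := hM (n - N) (by omega)
  rwa [Nat.sub_add_cancel (by omega)] at this

end GUPx

open GUPx in
theorem gup : S_IND → S_EXPW → S_EXDK → S_LDU → S_GUP := by
  intro hIND hEX hED hLDU Ω _ P A z hG k c d hS C t u σ hC ht hσ hu U hU
  obtain ⟨n0, -, hind⟩ := hIND Ω P A z hG k c d hS
  set δ : ℝ := u * Real.log (1 + t) - t * (C * σ) - 1 with hδ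
  have hδ0 : 0 < δ := by linarith
  have hrt := rt_tend hC hU
  constructor
  · intro ht0 hhi
    set ε1 : ℝ := δ / (2 * t) with hε1
    have hε10 : 0 < ε1 := by positivity
    set ε : ℝ := min 1 (ε1 / (2 * C + σ + 3)) with hε
    have hε0 : 0 < ε := lt_min one_pos (by positivity)
    have hε1' : ε ≤ 1 := min_le_left _ _
    have hε2 : ε * (2 * C + σ + 3) ≤ ε1 := by
      have : ε ≤ ε1 / (2 * C + σ + 3) := min_le_right _ _
      rwa [le_div_iff₀ (by positivity)] at this
    have key : ∀ᵐ ω ∂P, ∀ᶠ n : ℕ in atTop,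
        ω ∉ {ω | u * Real.log n ≤ (NN (Finset.Ioc n (n + U n)) (Hit c d A) ω : ℝ)} := by
      refine bc (δ := δ / 2) (by positivity) ?_
      filter_upwards [ev hEX hED hG hS hC hU hε0, hrt.eventually (hhi ε hε0), eventually_ge_atTop n0]
        with n b1 b2 b3
      obtain ⟨c1, c2, c3, D, c4, c5, -, c6⟩ := b1
      have h1 := (hLDU Ω P hG.prob (Finset.Ioc n (n + U n)) (Hit c d A) (fun m => hit_meas hG m)
        (indS (hind n b3) c2) t (u * Real.log n) ht).1 ht0
      refine h1.trans (ENNReal.ofReal_le_ofReal (Real.exp_le_exp.2 ?_))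
      rw [sum_eq (fun m => (P (Hit c d A m)).toReal)]
      set E := ∑ j ∈ Finset.range (U n), (P (Hit c d A (n + j + 1))).toReal with hE
      set L := Real.log (n : ℝ) with hL
      have hL0 : 0 < L := by linarith
      rw [abs_le] at c3 c5
      set R := (U n : ℝ) / L ^ (k + 1) with hR
      have hR0 : 0 ≤ R := by positivity
      have e1 : R * D ≤ (C + ε) * (σ + 2 * ε) := by
        calc R * D ≤ R * (σ + 2 * ε) := mul_le_mul_of_nonneg_left (by linarith) hR0
          _ ≤ _ := mul_le_mul_of_nonneg_right (by linarith) (by linarith)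
      have e2 : E / L ≤ C * σ + ε1 := by nlinarith
      rw [div_le_iff₀ hL0] at e2
      have e3 : t * E ≤ t * ((C * σ + ε1) * L) := mul_le_mul_of_nonneg_left e2 ht0.le
      have e4 : t * ε1 = δ / 2 := by
        rw [hε1]
        field_simp
      have e5 : t * ((C * σ + ε1) * L) = t * (C * σ) * L + δ / 2 * L := by
        rw [← e4]
        ring
      have e6 : u * L * Real.log (1 + t) = (1 + δ + t * (C * σ)) * L := by
        rw [hδ]
        ring
      rw [e6]
      linarith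
    filter_upwards [key] with ω hω
    filter_upwards [hω] with n hn
    rw [ht_eq]
    exact not_le.1 hn
  · intro ht0 hlo
    set ε1 : ℝ := δ / (2 * (-t)) with hε1
    have hε10 : 0 < ε1 := div_pos hδ0 (by linarith)
    set ε : ℝ := min 1 (ε1 / (2 * C + σ + 3)) with hε
    have hε0 : 0 < ε := lt_min one_pos (by positivity)
    have hε1' : ε ≤ 1 := min_le_left _ _
    have hε2 : ε * (2 * C + σ + 3) ≤ ε1 := by
      have : ε ≤ ε1 / (2 * C + σ + 3) := min_le_right _ _
      rwa [le_div_iff₀ (by positivity)] at this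
    have key : ∀ᵐ ω ∂P, ∀ᶠ n : ℕ in atTop,
        ω ∉ {ω | (NN (Finset.Ioc n (n + U n)) (Hit c d A) ω : ℝ) ≤ u * Real.log n} := by
      refine bc (δ := δ / 2) (by positivity) ?_
      filter_upwards [ev hEX hED hG hS hC hU hε0, hrt.eventually (hlo ε hε0), eventually_ge_atTop n0]
        with n b1 b2 b3
      obtain ⟨c1, c2, c3, D, c4, c5, c6, -⟩ := b1
      have h1 := (hLDU Ω P hG.prob (Finset.Ioc n (n + U n)) (Hit c d A) (fun m => hit_meas hG m)
        (indS (hind n b3) c2) t (u * Real.log n) ht).2 ht0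
      refine h1.trans (ENNReal.ofReal_le_ofReal (Real.exp_le_exp.2 ?_))
      rw [sum_eq (fun m => (P (Hit c d A m)).toReal)]
      set E := ∑ j ∈ Finset.range (U n), (P (Hit c d A (n + j + 1))).toReal with hE
      set L := Real.log (n : ℝ) with hL
      have hL0 : 0 < L := by linarith
      rw [abs_le] at c3 c5
      set R := (U n : ℝ) / L ^ (k + 1) with hR
      have hR0 : 0 ≤ R := by positivity
      have e0 : R * (σ - 2 * ε) ≤ R * D := mul_le_mul_of_nonneg_left (by linarith) hR0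
      have e0' : (C - ε) * σ ≤ R * σ := mul_le_mul_of_nonneg_right (by linarith) hσ
      have e0'' : R * (2 * ε) ≤ (C + ε) * (2 * ε) :=
        mul_le_mul_of_nonneg_right (by linarith) (by linarith)
      have e2 : C * σ - ε1 ≤ E / L := by nlinarith
      rw [le_div_iff₀ hL0] at e2
      have e3 : t * E ≤ t * ((C * σ - ε1) * L) := mul_le_mul_of_nonpos_left e2 ht0.le
      have e4 : t * ε1 = -(δ / 2) := by
        rw [hε1]
        have : t ≠ 0 := ht0.ne
        field_simp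
      have e5 : t * ((C * σ - ε1) * L) = t * (C * σ) * L + δ / 2 * L := by
        have : t * ((C * σ - ε1) * L) = t * (C * σ) * L - t * ε1 * L := by ring
        rw [this, e4]
        ring
      have e6 : u * L * Real.log (1 + t) = (1 + δ + t * (C * σ)) * L := by
        rw [hδ]
        ring
      rw [e6]
      linarith
    filter_upwards [key] with ω hω
    filter_upwards [hω] with n hn
    rw [ht_eq]
    exact not_le.1 hn

end Pool.Agent.H50.GW
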