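import Pool.Agent.H50.GW.Stm
import Pool.Agent.H50.G.S.H373R2.T7.Fund

set_option autoImplicit false

open MeasureTheory Filter
open scoped Topology ENNReal

namespace Pool.Agent.H50.GW

theorem fnd : S_FND := by
  classical
  intro c hc ε hε
  obtain ⟨K, x0, hK, h⟩ := Pool.Agent.H373R2.T7.sys_fund c hc ε hε
  refine ⟨K, x0, hK, fun x y hy hyx Q hQ hn X => ?_⟩
  have h1 : Pool.Agent.H373R2.T7.PerB Q c := ⟨hQ, fun p hp => by
    unfold Pool.Agent.H373R2.T7.nuB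
    convert hn p hp using 2⟩
  have h2 := h x y hy hyx Q h1 X
  have hpz : Pool.Agent.H373R2.T7.pz y = (Finset.Icc 1 y).filter Nat.Prime := by
    ext p
    simp only [Pool.Agent.H373R2.T7.mem_pz, Finset.mem_filter, Finset.mem_Icc]
    constructor
    · rintro ⟨h3, h4⟩
      exact ⟨⟨h4.one_lt.le, h3⟩, h4⟩
    · rintro ⟨⟨_, h3⟩, h4⟩
      exact ⟨h3, h4⟩
  rw [hpz] at h2
  have h3 : ∀ (i1 : DecidablePred fun n : ℕ => ∀ p ∈ (Finset.Icc 1 y).filter Nat.Prime, ¬ Q p n)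
      (i2 : DecidablePred fun n : ℕ => ∀ p : ℕ, p.Prime → p ≤ y → ¬ Q p n),
      (@Finset.filter _ (fun n : ℕ => ∀ p ∈ (Finset.Icc 1 y).filter Nat.Prime, ¬ Q p n) i1 (Finset.Icc 1 X)) =
      (@Finset.filter _ (fun n : ℕ => ∀ p : ℕ, p.Prime → p ≤ y → ¬ Q p n) i2 (Finset.Icc 1 X)) := by
    intro i1 i2
    ext n
    simp only [Finset.mem_filter, Finset.mem_Icc]
    refine and_congr_right fun _ => ?_
    constructor
    · intro h4 p hp hpy
      exact h4 p ⟨⟨hp.one_lt.le, hpy⟩, hp⟩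
    · intro h4 p hp
      exact h4 p hp.2 hp.1.2
  rw [h3 _ (fun n => Classical.propDecidable _)] at h2
  exact h2

end Pool.Agent.H50.GW
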