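import Pool.Agent.H50.GW.Stm
import Pool.Agent.H50.BF.BT

set_option autoImplicit false

open MeasureTheory Filter ProbabilityTheory
open scoped Topology ENNReal

namespace Pool.Agent.H50.GW

open Pool.Agent.H50.BF

namespace GXMaux

open BTaux

lemma MM_le (v : ℕ) (hv : 1 ≤ v) : MM v ≤ v := by
  induction v, hv using Nat.le_induction with
  | base =>
    have h : (Finset.Icc 1 1).filter Nat.Prime = (∅ : Finset ℕ) := by decide
    unfold MM
    rw [h]
    simp
  | succ v hv ih =>
    have hv0 : (0 : ℝ) < v := by exact_mod_cast hv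
    have he : Finset.Icc 1 (v + 1) = insert (v + 1) (Finset.Icc 1 v) := by
      ext x
      simp only [Finset.mem_insert, Finset.mem_Icc]
      omega
    unfold MM
    rw [he, Finset.filter_insert]
    split_ifs with h
    · rw [Finset.prod_insert (by simp)]
      have h1 : (1 - ((v + 1 : ℕ) : ℝ)⁻¹)⁻¹ = ((v + 1 : ℕ) : ℝ) / v := by
        push_cast
        have h2 : (1 : ℝ) - ((v : ℝ) + 1)⁻¹ = v / (v + 1) := by
          field_simp
          ring
        rw [h2, inv_div]
      rw [h1]
      calc ((v + 1 : ℕ) : ℝ) / v * ∏ x ∈ (Finset.Icc 1 v).filter Nat.Prime, (1 - (x : ℝ)⁻¹)⁻¹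
          ≤ ((v + 1 : ℕ) : ℝ) / v * v := mul_le_mul_of_nonneg_left ih (by positivity)
        _ = ((v + 1 : ℕ) : ℝ) := by field_simp
    · refine ih.trans ?_
      push_cast
      linarith

/-- the level -/
noncomputable def z (n : ℕ) : ℕ := ⌊Real.log n⌋₊

/-- the probabilities -/
noncomputable def q (n : ℕ) : ℝ := min 1 (MM (z n) / Real.log n)

lemma q_nonneg (n : ℕ) : 0 ≤ q n := by
  unfold q
  exact le_min zero_le_one (div_nonneg (MM_pos _).le (Real.log_natCast_nonneg n))

lemma q_le (n : ℕ) : q n ≤ 1 := min_le_left _ _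

/-- the distribution of one coordinate -/
noncomputable def mu (n : ℕ) : Measure Bool :=
  ENNReal.ofReal (q n) • Measure.dirac true + ENNReal.ofReal (1 - q n) • Measure.dirac false

instance (n : ℕ) : IsProbabilityMeasure (mu n) := by
  constructor
  unfold mu
  rw [Measure.add_apply, Measure.smul_apply, Measure.smul_apply, measure_univ, measure_univ,
    smul_eq_mul, smul_eq_mul, mul_one, mul_one, ← ENNReal.ofReal_add (q_nonneg n)
      (sub_nonneg.2 (q_le n)), add_sub_cancel, ENNReal.ofReal_one]

lemma mu_true (n : ℕ) : mu n {true} = ENNReal.ofReal (q n) := by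
  unfold mu
  rw [Measure.add_apply, Measure.smul_apply, Measure.smul_apply,
    Measure.dirac_apply' _ (MeasurableSet.of_discrete), Measure.dirac_apply' _ (MeasurableSet.of_discrete)]
  simp

open Classical in
/-- the set of allowed values -/
noncomputable def BB (n : ℕ) : Set Bool := if Rou (z n) n then {true} else ∅

/-- the events -/
noncomputable def AA (n : ℕ) : Set (ℕ → Bool) := (fun ω => ω n) ⁻¹' BB n

lemma AA_meas (n : ℕ) : MeasurableSet (AA n) :=
  (measurable_pi_apply n) (MeasurableSet.of_discrete)

lemma log_ratio : Tendsto (fun x : ℝ => Real.log (⌊x⌋₊ : ℝ) / Real.log x) atTop (𝓝 1) := by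
  have h1 : Tendsto (fun x : ℝ => (⌊x⌋₊ : ℝ) / x) atTop (𝓝 1) := tendsto_nat_floor_div_atTop
  have h2 : Tendsto (fun x : ℝ => Real.log ((⌊x⌋₊ : ℝ) / x)) atTop (𝓝 0) := by
    have := (Real.continuousAt_log one_ne_zero).tendsto.comp h1
    rw [Real.log_one] at this
    exact this
  have h3 : Tendsto (fun x : ℝ => Real.log ((⌊x⌋₊ : ℝ) / x) / Real.log x) atTop (𝓝 0) :=
    h2.div_atTop Real.tendsto_log_atTop
  have h4 : Tendsto (fun x : ℝ => 1 + Real.log ((⌊x⌋₊ : ℝ) / x) / Real.log x) atTop (𝓝 1) := by
    simpa using h3.const_add 1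
  refine h4.congr' ?_
  filter_upwards [eventually_ge_atTop 2] with x hx
  have hl : 0 < Real.log x := Real.log_pos (by linarith)
  have hf : (0 : ℝ) < (⌊x⌋₊ : ℝ) := by
    have : 1 ≤ ⌊x⌋₊ := Nat.le_floor (by push_cast; linarith)
    exact_mod_cast this
  rw [Real.log_div hf.ne' (by linarith)]
  field_simp
  ring

end GXMaux

open GXMaux BTaux in
theorem gxm : S_GXM := by
  refine ⟨ℕ → Bool, inferInstance, Measure.infinitePi mu, AA, z, ?_⟩
  have hlog : Tendsto (fun n : ℕ => Real.log n) atTop atTop :=
    Real.tendsto_log_atTop.comp tendsto_natCast_atTop_atTop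
  refine ⟨inferInstance, AA_meas, ?_, ?_, ?_, ?_, ?_⟩
  · rw [iIndepSet_iff_meas_biInter AA_meas]
    intro s
    have h := iIndepFun_infinitePi (P := mu) (X := fun _ x => x) (fun _ => measurable_id)
    exact h.measure_inter_preimage_eq_mul s (sets := BB) (fun _ _ => MeasurableSet.of_discrete)
  · intro n hn
    unfold AA BB
    rw [if_neg hn, Set.preimage_empty]
  · intro m n hmn
    unfold z
    apply Nat.floor_mono
    rcases Nat.eq_zero_or_pos m with h | h
    · subst h
      rw [Nat.cast_zero, Real.log_zero]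
      exact Real.log_natCast_nonneg n
    · exact Real.log_le_log (by exact_mod_cast h) (by exact_mod_cast hmn)
  · exact log_ratio.comp hlog
  · refine tendsto_const_nhds.congr' ?_
    rw [Filter.EventuallyEq, eventually_inf_principal]
    filter_upwards [hlog.eventually_ge_atTop 1] with n hn hr
    have hr' : Rou (z n) n := hr
    have hz : 1 ≤ z n := Nat.le_floor (by push_cast; linarith)
    have hM : MM (z n) ≤ Real.log n := (MM_le _ hz).trans (Nat.floor_le (by linarith))
    have hM0 := MM_pos (z n)
    have hq : q n = MM (z n) / Real.log n := by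
      unfold q
      apply min_eq_right
      rw [div_le_one (by linarith)]
      exact hM
    have hP : Measure.infinitePi mu (AA n) = ENNReal.ofReal (q n) := by
      unfold AA BB
      rw [if_pos hr', ← Measure.map_apply (measurable_pi_apply n) (MeasurableSet.of_discrete),
        Measure.infinitePi_map_eval, mu_true]
    rw [hP, ENNReal.toReal_ofReal (q_nonneg n), hq]
    field_simp

end Pool.Agent.H50.GW
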