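import Pool.Agent.H50.GW.Stm

/-! # GW-LDL: lower bounds for the probabilities (helper94) -/

set_option autoImplicit false

open MeasureTheory Filter ProbabilityTheory
open scoped Topology ENNReal

namespace Pool.Agent.H50.GW

namespace LDL

lemma log_low {x : ℝ} (hx : |x| ≤ 1 / 2) : x - 2 * x ^ 2 ≤ Real.log (1 + x) := by
  have h1 : |(-x)| < 1 := by rw [abs_neg]; linarith
  have h2 := Real.abs_log_sub_add_sum_range_le h1 1
  simp only [Finset.sum_range_one, abs_neg, sub_neg_eq_add] at h2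
  norm_num at h2
  have h3 : |x| ^ 2 / (1 - |x|) ≤ 2 * x ^ 2 := by
    rw [div_le_iff₀ (by linarith), ← sq_abs x]
    nlinarith [abs_nonneg x, sq_nonneg |x|]
  rw [sq_abs] at h3
  have h4 := (abs_le.1 h2).1
  linarith

lemma prod_up {S : Finset ℕ} {p : ℕ → ℝ} {x : ℝ} (h : ∀ m ∈ S, 0 ≤ 1 + x * p m) :
    ∏ m ∈ S, (1 + x * p m) ≤ Real.exp (x * ∑ m ∈ S, p m) := by
  rw [Finset.mul_sum, Real.exp_sum]
  exact Finset.prod_le_prod h (fun m _ => by linarith [Real.add_one_le_exp (x * p m)])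

lemma prod_low {S : Finset ℕ} {p : ℕ → ℝ} {x η : ℝ} (h0 : ∀ m ∈ S, 0 ≤ p m)
    (h : ∀ m ∈ S, p m ≤ η) (hx : |x| * η ≤ 1 / 2) :
    Real.exp (x * ∑ m ∈ S, p m - 2 * x ^ 2 * η * ∑ m ∈ S, p m) ≤ ∏ m ∈ S, (1 + x * p m) := by
  have e : x * ∑ m ∈ S, p m - 2 * x ^ 2 * η * ∑ m ∈ S, p m =
      ∑ m ∈ S, (x * p m - 2 * x ^ 2 * η * p m) := by
    rw [Finset.mul_sum, Finset.mul_sum, ← Finset.sum_sub_distrib]
  rw [e, Real.exp_sum]
  refine Finset.prod_le_prod (fun m _ => (Real.exp_pos _).le) (fun m hm => ?_)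
  have h1 : |x * p m| ≤ 1 / 2 := by
    rw [abs_mul, abs_of_nonneg (h0 m hm)]
    exact le_trans (mul_le_mul_of_nonneg_left (h m hm) (abs_nonneg x)) hx
  have h2 : 0 < 1 + x * p m := by
    have := (abs_le.1 h1).1
    linarith
  rw [← Real.exp_log h2]
  apply Real.exp_le_exp.2
  refine le_trans ?_ (log_low h1)
  have h3 : 2 * (x * p m) ^ 2 ≤ 2 * x ^ 2 * η * p m := by
    have h5 : (x * p m) ^ 2 = x ^ 2 * (p m * p m) := by ring
    have h4 : p m * p m ≤ η * p m := mul_le_mul_of_nonneg_right (h m hm) (h0 m hm)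
    have h6 : x ^ 2 * (p m * p m) ≤ x ^ 2 * (η * p m) :=
      mul_le_mul_of_nonneg_left h4 (sq_nonneg x)
    rw [h5]
    linarith
  linarith

lemma numA {t h l δ η L E : ℝ} (_ht : -1 < t) (hh : 0 < h) (hh1 : h ≤ (1 + t) / 4) (hl : 0 ≤ l)
    (hδ : 0 < δ) (hhδ : 16 * l * h ≤ δ) (hη : 0 < η) (hE : |E - l * L| ≤ η * L) (hL : 0 < L)
    (he : h * η + 2 * t ^ 2 * η * (l + η) ≤ δ * (h / (1 + t)) / 8)
    (hlog : Real.log 4 ≤ δ * (h / (1 + t)) / 8 * L) :
    Real.exp ((t + h) * E) * ((1 + t) / (1 + (t + h))) ^ (((1 + t) * l + δ) * L) ≤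
      (1 / 4) * Real.exp (t * E - 2 * t ^ 2 * η * E) ∧
    Real.exp ((t - h) * E) * ((1 + t) / (1 + (t - h))) ^ (((1 + t) * l - δ) * L) ≤
      (1 / 4) * Real.exp (t * E - 2 * t ^ 2 * η * E) := by
  obtain ⟨s, hs⟩ : ∃ s, s = 1 + t := ⟨_, rfl⟩
  have hs0 : 0 < s := by linarith
  obtain ⟨y, hy⟩ : ∃ y, y = h / s := ⟨_, rfl⟩
  have hy0 : 0 < y := by rw [hy]; positivity
  have hys : s * y = h := by rw [hy]; field_simp
  rw [← hs] at hh1 he hlog
  have hy1 : y ≤ 1 / 4 := by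
    rw [hy, div_le_iff₀ hs0]
    linarith
  rw [← hy] at he hlog
  have hx1 := (abs_le.1 hE).1
  have hx2 := (abs_le.1 hE).2
  have e4 : (1 / 4 : ℝ) * Real.exp (t * E - 2 * t ^ 2 * η * E) =
      Real.exp (-Real.log 4 + (t * E - 2 * t ^ 2 * η * E)) := by
    rw [Real.exp_add, Real.exp_neg, Real.exp_log (by norm_num)]
    norm_num
  have hq : 2 * t ^ 2 * η * E ≤ 2 * t ^ 2 * η * (l + η) * L := by
    have : E ≤ (l + η) * L := by linarith
    have h0 : 0 ≤ 2 * t ^ 2 * η := by positivity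
    calc 2 * t ^ 2 * η * E ≤ 2 * t ^ 2 * η * ((l + η) * L) := mul_le_mul_of_nonneg_left this h0
      _ = _ := by ring
  have he' : (h * η + 2 * t ^ 2 * η * (l + η)) * L ≤ δ * y / 8 * L := by gcongr
  have hμy : 2 * l * h * y ≤ δ * y / 8 := by
    have : 2 * l * h ≤ δ / 8 := by linarith
    calc 2 * l * h * y ≤ δ / 8 * y := by gcongr
      _ = _ := by ring
  have hδyL : 0 < δ * y * L := by positivity
  constructor
  · rw [e4]
    have e3 : (1 + t) / (1 + (t + h)) = (1 + y)⁻¹ := by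
      have h' : 1 + (t + h) = s + h := by rw [hs]; ring
      rw [h', ← hs, hy]
      field_simp
    have h2 : ((1 + t) / (1 + (t + h))) ^ (((1 + t) * l + δ) * L) =
        Real.exp (-(Real.log (1 + y) * ((s * l + δ) * L))) := by
      rw [e3, Real.rpow_def_of_pos (by positivity), Real.log_inv, hs]
      congr 1
      ring
    rw [h2, ← Real.exp_add]
    apply Real.exp_le_exp.2
    have h3 : y - 2 * y ^ 2 ≤ Real.log (1 + y) := log_low (by rw [abs_of_pos hy0]; linarith)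
    have h4 : h * l - δ * y / 8 + δ * (y / 2) ≤ Real.log (1 + y) * (s * l + δ) := by
      have h5 : (y - 2 * y ^ 2) * (s * l + δ) ≤ Real.log (1 + y) * (s * l + δ) := by gcongr
      refine le_trans ?_ h5
      have e5 : (y - 2 * y ^ 2) * (s * l + δ) = (s * y) * l - 2 * l * (s * y) * y +
        δ * (y - 2 * y ^ 2) := by ring
      rw [e5, hys]
      have h6 : y / 2 ≤ y - 2 * y ^ 2 := by nlinarith
      have h7 : δ * (y / 2) ≤ δ * (y - 2 * y ^ 2) := by gcongr
      linarith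
    have h8 : (h * l - δ * y / 8 + δ * (y / 2)) * L ≤ Real.log (1 + y) * ((s * l + δ) * L) := by
      rw [← mul_assoc]
      gcongr
    have h9 : h * E ≤ h * (l * L + η * L) := by
      gcongr
      linarith
    nlinarith
  · rw [e4]
    have hy2 : 0 < 1 - y := by linarith
    have e3 : (1 + t) / (1 + (t - h)) = (1 - y)⁻¹ := by
      have h' : 1 + (t - h) = s * (1 - y) := by rw [mul_sub, hys, hs]; ring
      rw [h', ← hs]
      field_simp
    have h2 : ((1 + t) / (1 + (t - h))) ^ (((1 + t) * l - δ) * L) =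
        Real.exp (-(Real.log (1 - y) * ((s * l - δ) * L))) := by
      rw [e3, Real.rpow_def_of_pos (by positivity), Real.log_inv, hs]
      congr 1
      ring
    rw [h2, ← Real.exp_add]
    apply Real.exp_le_exp.2
    have h3 : -y - 2 * y ^ 2 ≤ Real.log (1 - y) := by
      have := @log_low (-y) (by rw [abs_neg, abs_of_pos hy0]; linarith)
      have e6 : 1 + -y = 1 - y := by ring
      rw [e6] at this
      nlinarith
    have h3' : Real.log (1 - y) ≤ -y := by
      have := Real.log_le_sub_one_of_pos hy2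
      linarith
    have h4 : -(Real.log (1 - y) * (s * l - δ)) ≤ h * l + δ * y / 8 - δ * y := by
      have h5 : -(Real.log (1 - y)) * (s * l) ≤ (y + 2 * y ^ 2) * (s * l) := by
        have : 0 ≤ s * l := by positivity
        apply mul_le_mul_of_nonneg_right _ this
        linarith
      have h6 : Real.log (1 - y) * δ ≤ -y * δ := mul_le_mul_of_nonneg_right h3' hδ.le
      have e5 : (y + 2 * y ^ 2) * (s * l) = (s * y) * l + 2 * l * (s * y) * y := by ring
      rw [e5, hys] at h5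
      have e6 : -(Real.log (1 - y) * (s * l - δ)) =
        -(Real.log (1 - y)) * (s * l) + Real.log (1 - y) * δ := by ring
      rw [e6]
      linarith
    have h8 : -(Real.log (1 - y) * ((s * l - δ) * L)) ≤ (h * l + δ * y / 8 - δ * y) * L := by
      have e7 : -(Real.log (1 - y) * ((s * l - δ) * L)) = -(Real.log (1 - y) * (s * l - δ)) * L := by
        ring
      rw [e7]
      gcongr
    have h9 : h * (l * L - η * L) ≤ h * E := by
      gcongr
      linarith
    nlinarith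

open Classical in
lemma NN_meas {Ω : Type} [MeasurableSpace Ω] (S : Finset ℕ) (H : ℕ → Set Ω)
    (hH : ∀ m, MeasurableSet (H m)) : Measurable (NN S H) := by
  have e : NN S H = fun ω => ∑ m ∈ S, (if ω ∈ H m then 1 else 0) := by
    funext ω
    unfold NN
    rw [Finset.card_filter]
  rw [e]
  refine Finset.measurable_sum _ fun m _ => ?_
  exact Measurable.ite (hH m) measurable_const measurable_const

lemma pt {s h κ1 κ2 : ℝ} (hs : 0 < s) (hh : 0 < h) (hh1 : h < s) (n : ℕ) :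
    (κ2 < n → s ^ n ≤ (s / (s + h)) ^ κ2 * (s + h) ^ n) ∧
    ((n : ℝ) < κ1 → s ^ n ≤ (s / (s - h)) ^ κ1 * (s - h) ^ n) := by
  constructor
  · intro hn
    have h1 : s ^ n = (s / (s + h)) ^ (n : ℝ) * (s + h) ^ n := by
      rw [Real.rpow_natCast, ← mul_pow]
      congr 1
      field_simp
    rw [h1]
    apply mul_le_mul_of_nonneg_right _ (by positivity)
    apply Real.rpow_le_rpow_of_exponent_ge (by positivity) _ hn.le
    rw [div_le_one (by positivity)]
    linarith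
  · intro hn
    have hsh : 0 < s - h := by linarith
    have h1 : s ^ n = (s / (s - h)) ^ (n : ℝ) * (s - h) ^ n := by
      rw [Real.rpow_natCast, ← mul_pow]
      congr 1
      field_simp
    rw [h1]
    apply mul_le_mul_of_nonneg_right _ (by positivity)
    apply Real.rpow_le_rpow_of_exponent_le _ hn.le
    rw [one_le_div hsh]
    linarith

lemma ptw {s l δ L : ℝ} (hs : 0 < s) (n : ℕ)
    (h : |(n : ℝ) - s * l * L| ≤ δ * L) :
    s ^ n ≤ Real.exp ((l * (s * Real.log s) + δ * |Real.log s|) * L) := by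
  have h1 : s ^ n = Real.exp (Real.log s * n) := by
    rw [mul_comm, Real.exp_nat_mul, Real.exp_log hs]
  rw [h1]
  apply Real.exp_le_exp.2
  have h2 : Real.log s * (n - s * l * L) ≤ |Real.log s| * (δ * L) := by
    calc Real.log s * (n - s * l * L) ≤ |Real.log s * (n - s * l * L)| := le_abs_self _
      _ = |Real.log s| * |(n : ℝ) - s * l * L| := abs_mul _ _
      _ ≤ _ := mul_le_mul_of_nonneg_left h (abs_nonneg _)
  nlinarith

/-- first part -/
lemma part1 (hM : S_MGI) {l t δ κ h η L : ℝ} (hl : 0 ≤ l) (ht : -1 < t) (hδ : 0 < δ)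
    (hh : 0 < h) (hh1 : h ≤ (1 + t) / 4) (hhδ : 16 * l * h ≤ δ) (hη : 0 < η) (hL : 0 < L)
    (he : h * η + 2 * t ^ 2 * η * (l + η) ≤ δ * (h / (1 + t)) / 8)
    (hlog : Real.log 4 ≤ δ * (h / (1 + t)) / 8 * L)
    (htη : |t| * η ≤ 1 / 2) (hκ1 : |t| * η + 2 * t ^ 2 * η * (l + η) ≤ κ / 2)
    (hκ2 : Real.log 2 ≤ κ / 2 * L)
    {Ω : Type} [MeasurableSpace Ω] (P : Measure Ω) [IsProbabilityMeasure P]
    (S : Finset ℕ) (H : ℕ → Set Ω) (hH : ∀ m, MeasurableSet (H m))
    (hi : iIndepSet (fun m : S => H m) P)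
    (hE : |(∑ m ∈ S, (P (H m)).toReal) - l * L| ≤ η * L) (hp : ∀ m ∈ S, (P (H m)).toReal ≤ η) :
    Real.exp (-((l * ((1 + t) * Real.log (1 + t) - t) + δ * |Real.log (1 + t)| + κ) * L)) ≤
      (P {ω | |(NN S H ω : ℝ) - (1 + t) * l * L| ≤ δ * L}).toReal := by
  obtain ⟨E, hEd⟩ : ∃ E, E = ∑ m ∈ S, (P (H m)).toReal := ⟨_, rfl⟩
  rw [← hEd] at hE
  obtain ⟨s, hs⟩ : ∃ s, s = 1 + t := ⟨_, rfl⟩
  have hs0 : 0 < s := by linarith
  have hh2 : h < s := by linarith
  have hp0 : ∀ m ∈ S, 0 ≤ (P (H m)).toReal := fun m _ => ENNReal.toReal_nonneg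
  have hp1 : ∀ m, (P (H m)).toReal ≤ 1 := fun m => by
    have := ENNReal.toReal_mono ENNReal.one_ne_top (prob_le_one (μ := P) (s := H m))
    simpa using this
  obtain ⟨i0, z0⟩ := hM Ω P inferInstance S H hH hi t
  obtain ⟨i1, z1⟩ := hM Ω P inferInstance S H hH hi (t + h)
  obtain ⟨i2, z2⟩ := hM Ω P inferInstance S H hH hi (t - h)
  have u1 : ∏ m ∈ S, (1 + (t + h) * (P (H m)).toReal) ≤ Real.exp ((t + h) * E) := by
    rw [hEd]
    apply prod_up
    intro m hm
    nlinarith [hp0 m hm, hp1 m]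
  have u2 : ∏ m ∈ S, (1 + (t - h) * (P (H m)).toReal) ≤ Real.exp ((t - h) * E) := by
    rw [hEd]
    apply prod_up
    intro m hm
    nlinarith [hp0 m hm, hp1 m]
  have d0 : Real.exp (t * E - 2 * t ^ 2 * η * E) ≤ ∏ m ∈ S, (1 + t * (P (H m)).toReal) := by
    rw [hEd]
    exact prod_low hp0 hp htη
  obtain ⟨nA, nB⟩ := numA ht hh hh1 hl hδ hhδ hη hE hL he hlog
  rw [← z1] at u1
  rw [← z2] at u2
  rw [← z0] at d0
  set W : Set Ω := {ω | |(NN S H ω : ℝ) - (1 + t) * l * L| ≤ δ * L} with hW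
  have hN := NN_meas S H hH
  have hNr : Measurable (fun ω => (NN S H ω : ℝ)) := (measurable_from_nat (f := fun n : ℕ => (n : ℝ))).comp hN
  have hWm : MeasurableSet W := by
    rw [hW]
    exact measurableSet_le ((hNr.sub_const _).abs) measurable_const
  obtain ⟨K, hK⟩ : ∃ K, K = Real.exp ((l * (s * Real.log s) + δ * |Real.log s|) * L) := ⟨_, rfl⟩
  have hK0 : 0 < K := by rw [hK]; exact Real.exp_pos _
  obtain ⟨a, ha⟩ : ∃ a, a = ((1 + t) / (1 + (t + h))) ^ (((1 + t) * l + δ) * L) := ⟨_, rfl⟩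
  obtain ⟨b, hb⟩ : ∃ b, b = ((1 + t) / (1 + (t - h))) ^ (((1 + t) * l - δ) * L) := ⟨_, rfl⟩
  have ha0 : 0 ≤ a := by
    rw [ha]
    apply Real.rpow_nonneg
    apply div_nonneg <;> linarith
  have hb0 : 0 ≤ b := by
    rw [hb]
    apply Real.rpow_nonneg
    apply div_nonneg <;> linarith
  have hpt : ∀ ω, (1 + t) ^ NN S H ω ≤ W.indicator (fun _ => K) ω + a * (1 + (t + h)) ^ NN S H ω +
      b * (1 + (t - h)) ^ NN S H ω := by
    intro ω
    have q1 : 0 ≤ a * (1 + (t + h)) ^ NN S H ω := by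
      apply mul_nonneg ha0
      apply pow_nonneg
      linarith
    have q2 : 0 ≤ b * (1 + (t - h)) ^ NN S H ω := by
      apply mul_nonneg hb0
      apply pow_nonneg
      linarith
    have q3 : 0 ≤ W.indicator (fun _ => K) ω := Set.indicator_nonneg (fun _ _ => hK0.le) ω
    by_cases hw : ω ∈ W
    · rw [Set.indicator_of_mem hw]
      have : (1 + t) ^ NN S H ω ≤ K := by
        rw [hK, ← hs]
        apply ptw hs0
        rw [hs]
        exact hw
      linarith
    · have hw2 : δ * L < |(NN S H ω : ℝ) - (1 + t) * l * L| := not_le.1 hw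
      rcases lt_abs.1 hw2 with h1 | h1
      · have h2 := (pt (κ1 := 0) (κ2 := ((1 + t) * l + δ) * L) hs0 hh hh2 (NN S H ω)).1 (by linarith)
        have e1 : (s / (s + h)) ^ (((1 + t) * l + δ) * L) * (s + h) ^ NN S H ω =
          a * (1 + (t + h)) ^ NN S H ω := by
          rw [ha, hs]
          congr 2 <;> ring
        rw [e1, hs] at h2
        linarith
      · have h2 := (pt (κ2 := 0) (κ1 := ((1 + t) * l - δ) * L) hs0 hh hh2 (NN S H ω)).2 (by linarith)
        have e1 : (s / (s - h)) ^ (((1 + t) * l - δ) * L) * (s - h) ^ NN S H ω =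
          b * (1 + (t - h)) ^ NN S H ω := by
          rw [hb, hs]
          congr 2 <;> ring
        rw [e1, hs] at h2
        linarith
  have iW : Integrable (W.indicator (fun _ => K)) P := (integrable_const K).indicator hWm
  have hint : ∫ ω, (1 + t) ^ NN S H ω ∂P ≤ K * (P W).toReal + a * ∫ ω, (1 + (t + h)) ^ NN S H ω ∂P +
      b * ∫ ω, (1 + (t - h)) ^ NN S H ω ∂P := by
    have e1 : ∫ ω, (W.indicator (fun _ => K) ω + a * (1 + (t + h)) ^ NN S H ω +
      b * (1 + (t - h)) ^ NN S H ω) ∂P = K * (P W).toReal + a * ∫ ω, (1 + (t + h)) ^ NN S H ω ∂P +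
      b * ∫ ω, (1 + (t - h)) ^ NN S H ω ∂P := by
      have iA : Integrable (fun ω => W.indicator (fun _ => K) ω + a * (1 + (t + h)) ^ NN S H ω) P :=
        iW.add (i1.const_mul a)
      have iW' : Integrable (fun ω => W.indicator (fun _ => K) ω) P := iW
      rw [integral_add iA (i2.const_mul b), integral_add iW' (i1.const_mul a),
        integral_const_mul, integral_const_mul, integral_indicator hWm, setIntegral_const, smul_eq_mul,
        mul_comm K]
      rfl
    rw [← e1]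
    exact integral_mono i0 ((iW.add (i1.const_mul a)).add (i2.const_mul b)) hpt
  have v1 : a * ∫ ω, (1 + (t + h)) ^ NN S H ω ∂P ≤ (1 / 4) * ∫ ω, (1 + t) ^ NN S H ω ∂P := by
    calc a * ∫ ω, (1 + (t + h)) ^ NN S H ω ∂P ≤ a * Real.exp ((t + h) * E) :=
          mul_le_mul_of_nonneg_left u1 ha0
      _ = Real.exp ((t + h) * E) * a := mul_comm _ _
      _ ≤ (1 / 4) * Real.exp (t * E - 2 * t ^ 2 * η * E) := by rw [ha]; exact nA
      _ ≤ _ := by gcongr
  have v2 : b * ∫ ω, (1 + (t - h)) ^ NN S H ω ∂P ≤ (1 / 4) * ∫ ω, (1 + t) ^ NN S H ω ∂P := by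
    calc b * ∫ ω, (1 + (t - h)) ^ NN S H ω ∂P ≤ b * Real.exp ((t - h) * E) :=
          mul_le_mul_of_nonneg_left u2 hb0
      _ = Real.exp ((t - h) * E) * b := mul_comm _ _
      _ ≤ (1 / 4) * Real.exp (t * E - 2 * t ^ 2 * η * E) := by rw [hb]; exact nB
      _ ≤ _ := by gcongr
  have v3 : (1 / 2) * Real.exp (t * E - 2 * t ^ 2 * η * E) ≤ K * (P W).toReal := by
    have : (1 / 2) * ∫ ω, (1 + t) ^ NN S H ω ∂P ≤ K * (P W).toReal := by linarith
    refine le_trans ?_ this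
    gcongr
  have v4 : K⁻¹ * ((1 / 2) * Real.exp (t * E - 2 * t ^ 2 * η * E)) ≤ (P W).toReal := by
    rw [inv_mul_le_iff₀ hK0]
    exact v3
  refine le_trans ?_ v4
  have e5 : K⁻¹ * ((1 / 2) * Real.exp (t * E - 2 * t ^ 2 * η * E)) =
      Real.exp (-((l * (s * Real.log s) + δ * |Real.log s|) * L) +
        (-Real.log 2 + (t * E - 2 * t ^ 2 * η * E))) := by
    rw [Real.exp_add, Real.exp_add, Real.exp_neg, Real.exp_neg, Real.exp_log (by norm_num), hK]
    norm_num
  rw [e5, ← hs]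
  apply Real.exp_le_exp.2
  have hx1 := (abs_le.1 hE).1
  have hx2 := (abs_le.1 hE).2
  have w1 : t * (l * L) - |t| * (η * L) ≤ t * E := by
    have : |t * (E - l * L)| ≤ |t| * (η * L) := by
      rw [abs_mul]
      exact mul_le_mul_of_nonneg_left hE (abs_nonneg t)
    have := (abs_le.1 this).1
    linarith
  have w2 : 2 * t ^ 2 * η * E ≤ 2 * t ^ 2 * η * (l + η) * L := by
    have : E ≤ (l + η) * L := by linarith
    have h0 : 0 ≤ 2 * t ^ 2 * η := by positivity
    calc 2 * t ^ 2 * η * E ≤ 2 * t ^ 2 * η * ((l + η) * L) := mul_le_mul_of_nonneg_left this h0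
      _ = _ := by ring
  have w3 : (|t| * η + 2 * t ^ 2 * η * (l + η)) * L ≤ κ / 2 * L := by gcongr
  nlinarith

/-- second part -/
lemma part2 (hM : S_MGI) {l κ η L : ℝ} (_hl : 0 ≤ l) (hη : 0 < η) (hL : 0 < L)
    (hη2 : η ≤ 1 / 2) (hκ : η + 2 * η * (l + η) ≤ κ)
    {Ω : Type} [MeasurableSpace Ω] (P : Measure Ω) [IsProbabilityMeasure P]
    (S : Finset ℕ) (H : ℕ → Set Ω) (hH : ∀ m, MeasurableSet (H m))
    (hi : iIndepSet (fun m : S => H m) P)
    (hE : |(∑ m ∈ S, (P (H m)).toReal) - l * L| ≤ η * L) (hp : ∀ m ∈ S, (P (H m)).toReal ≤ η) :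
    Real.exp (-((l + κ) * L)) ≤ (P {ω | NN S H ω = 0}).toReal := by
  have hp0 : ∀ m ∈ S, 0 ≤ (P (H m)).toReal := fun m _ => ENNReal.toReal_nonneg
  obtain ⟨i0, z0⟩ := hM Ω P inferInstance S H hH hi (-1)
  have d0 := prod_low (x := -1) hp0 hp (by norm_num; linarith)
  rw [← z0] at d0
  have hWm : MeasurableSet {ω | NN S H ω = 0} := (NN_meas S H hH) (measurableSet_singleton 0)
  have e1 : ∫ ω, (1 + (-1 : ℝ)) ^ NN S H ω ∂P = (P {ω | NN S H ω = 0}).toReal := by
    have e2 : (fun ω => (1 + (-1 : ℝ)) ^ NN S H ω) =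
        ({ω | NN S H ω = 0} : Set Ω).indicator (fun _ => (1 : ℝ)) := by
      funext ω
      by_cases hw : NN S H ω = 0
      · rw [Set.indicator_of_mem (by exact hw), hw]
        simp
      · rw [Set.indicator_of_notMem (by exact hw)]
        simp [hw]
    rw [e2, integral_indicator hWm, setIntegral_const, smul_eq_mul, mul_one]
    rfl
  rw [e1] at d0
  refine le_trans ?_ d0
  apply Real.exp_le_exp.2
  have hx2 := (abs_le.1 hE).2
  have w1 : (∑ m ∈ S, (P (H m)).toReal) ≤ (l + η) * L := by linarith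
  have w2 : 2 * η * (∑ m ∈ S, (P (H m)).toReal) ≤ 2 * η * ((l + η) * L) := by gcongr
  have w3 : (η + 2 * η * (l + η)) * L ≤ κ * L := by gcongr
  nlinarith

end LDL

open Pool.Agent.H50.GW.LDL in
theorem ldl : S_MGI → S_LDL := by
  intro hM l t δ κ hl ht hδ hκ
  have hs : 0 < 1 + t := by linarith
  -- choice of h
  obtain ⟨h, hh, hh1, hhδ⟩ : ∃ h : ℝ, 0 < h ∧ h ≤ (1 + t) / 4 ∧ 16 * l * h ≤ δ := by
    refine ⟨min ((1 + t) / 4) (δ / (16 * l + 1)), by positivity, min_le_left _ _, ?_⟩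
    have h1 : min ((1 + t) / 4) (δ / (16 * l + 1)) ≤ δ / (16 * l + 1) := min_le_right _ _
    calc 16 * l * min ((1 + t) / 4) (δ / (16 * l + 1)) ≤ 16 * l * (δ / (16 * l + 1)) := by gcongr
      _ ≤ (16 * l + 1) * (δ / (16 * l + 1)) := by gcongr; linarith
      _ = δ := by field_simp
  -- choice of η
  obtain ⟨A, hA⟩ : ∃ A, A = h + |t| + 2 * t ^ 2 * (l + 1) + 2 * (l + 1) + 1 := ⟨_, rfl⟩
  have hA0 : 0 < A := by rw [hA]; positivity
  obtain ⟨c, hc⟩ : ∃ c, c = min (δ * (h / (1 + t)) / 8) (min (κ / 2) (1 / 2)) := ⟨_, rfl⟩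
  have hc0 : 0 < c := by rw [hc]; positivity
  have hc1 : c ≤ δ * (h / (1 + t)) / 8 := by rw [hc]; exact min_le_left _ _
  have hc2 : c ≤ κ / 2 := by rw [hc]; exact (min_le_right _ _).trans (min_le_left _ _)
  have hc3 : c ≤ 1 / 2 := by rw [hc]; exact (min_le_right _ _).trans (min_le_right _ _)
  obtain ⟨η, hη⟩ : ∃ η, η = c / A := ⟨_, rfl⟩
  have hη0 : 0 < η := by rw [hη]; positivity
  have hAη : A * η = c := by rw [hη]; field_simp
  have hA1 : 1 ≤ A := by
    rw [hA]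
    have : 0 ≤ h + |t| + 2 * t ^ 2 * (l + 1) + 2 * (l + 1) := by positivity
    linarith
  have hη1 : η ≤ 1 / 2 := by
    rw [hη, div_le_iff₀ hA0]
    nlinarith
  have hl1 : 0 ≤ l + 1 := by linarith
  have b1 : 2 * t ^ 2 * η * (l + η) ≤ 2 * t ^ 2 * (l + 1) * η := by
    have : l + η ≤ l + 1 := by linarith
    calc 2 * t ^ 2 * η * (l + η) ≤ 2 * t ^ 2 * η * (l + 1) := by gcongr
      _ = _ := by ring
  have b2 : 2 * η * (l + η) ≤ 2 * (l + 1) * η := by
    have : l + η ≤ l + 1 := by linarith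
    calc 2 * η * (l + η) ≤ 2 * η * (l + 1) := by gcongr
      _ = _ := by ring
  have a1 : 0 ≤ h * η := by positivity
  have a2 : 0 ≤ |t| * η := by positivity
  have a3 : 0 ≤ 2 * t ^ 2 * (l + 1) * η := by positivity
  have a4 : 0 ≤ 2 * (l + 1) * η := by positivity
  have hsum : h * η + |t| * η + 2 * t ^ 2 * (l + 1) * η + 2 * (l + 1) * η + η = c := by
    rw [← hAη, hA]; ring
  have hq : 0 < δ * (h / (1 + t)) / 8 := by positivity
  refine ⟨η, max 1 (max (Real.log 4 / (δ * (h / (1 + t)) / 8)) (Real.log 2 / (κ / 2))), hη0, ?_⟩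
  intro L hL Ω _ P hP S H hH hi hE hp
  have hL1 : 1 ≤ L := (le_max_left _ _).trans hL
  have hL2 : Real.log 4 / (δ * (h / (1 + t)) / 8) ≤ L :=
    ((le_max_left _ _).trans (le_max_right _ _)).trans hL
  have hL3 : Real.log 2 / (κ / 2) ≤ L := ((le_max_right _ _).trans (le_max_right _ _)).trans hL
  rw [div_le_iff₀ hq] at hL2
  rw [div_le_iff₀ (by positivity)] at hL3
  constructor
  · apply part1 hM hl ht hδ hh hh1 hhδ hη0 (by linarith) (by linarith) (by linarith) (by linarith)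
      (by linarith) (by linarith) P S H hH hi hE hp
  · apply part2 hM hl hη0 (by linarith) hη1 (by linarith) P S H hH hi hE hp

end Pool.Agent.H50.GW
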