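import Pool.Agent.H50.GW.Stm

set_option autoImplicit false

open MeasureTheory Filter ProbabilityTheory
open scoped Topology ENNReal

namespace Pool.Agent.H50.GW

theorem LDU.prod_le {Ω : Type} [MeasurableSpace Ω] (P : Measure Ω) [IsProbabilityMeasure P]
    (S : Finset ℕ) (H : ℕ → Set Ω) (t : ℝ) (ht : -1 < t) :
    ∏ m ∈ S, (1 + t * (P (H m)).toReal) ≤ Real.exp (t * ∑ m ∈ S, (P (H m)).toReal) := by
  rw [Finset.mul_sum, Real.exp_sum]
  refine Finset.prod_le_prod (fun m _ => ?_) (fun m _ => ?_)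
  · have h0 : 0 ≤ (P (H m)).toReal := ENNReal.toReal_nonneg
    have h1 : (P (H m)).toReal ≤ 1 := by
      have := (measureReal_le_one (μ := P) (s := H m))
      simpa [Measure.real] using this
    by_cases h : 0 ≤ t
    · have := mul_nonneg h h0
      linarith
    · push Not at h
      nlinarith
  · have := Real.add_one_le_exp (t * (P (H m)).toReal)
    linarith

theorem LDU.mark {Ω : Type} [MeasurableSpace Ω] (P : Measure Ω) [IsProbabilityMeasure P]
    (h : S_MGI) (S : Finset ℕ) (H : ℕ → Set Ω) (hH : ∀ m, MeasurableSet (H m))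
    (hind : iIndepSet (fun m : S => H m) P) (t u : ℝ) (ht : -1 < t) (A : Set Ω)
    (hA : ∀ ω ∈ A, Real.exp (u * Real.log (1 + t)) ≤ (1 + t) ^ NN S H ω) :
    P A ≤ ENNReal.ofReal (Real.exp (-(u * Real.log (1 + t)) + t * ∑ m ∈ S, (P (H m)).toReal)) := by
  obtain ⟨hint, hval⟩ := h Ω P inferInstance S H hH hind t
  have hm := mul_meas_ge_le_integral_of_nonneg (μ := P) (f := fun ω => (1 + t) ^ NN S H ω)
    (Eventually.of_forall fun ω => pow_nonneg (by linarith) _) hint (Real.exp (u * Real.log (1 + t)))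
  have hsub : A ⊆ {ω | Real.exp (u * Real.log (1 + t)) ≤ (1 + t) ^ NN S H ω} := hA
  have h1 : P.real A ≤ P.real {ω | Real.exp (u * Real.log (1 + t)) ≤ (1 + t) ^ NN S H ω} :=
    measureReal_mono hsub
  have hpos : 0 < Real.exp (u * Real.log (1 + t)) := Real.exp_pos _
  have h2 : P.real A ≤ Real.exp (-(u * Real.log (1 + t)) + t * ∑ m ∈ S, (P (H m)).toReal) := by
    rw [Real.exp_add, Real.exp_neg]
    rw [hval] at hm
    have h3 := LDU.prod_le P S H t ht
    rw [← div_eq_inv_mul, le_div_iff₀ hpos]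
    calc P.real A * Real.exp (u * Real.log (1 + t))
        ≤ P.real {ω | Real.exp (u * Real.log (1 + t)) ≤ (1 + t) ^ NN S H ω} *
          Real.exp (u * Real.log (1 + t)) := mul_le_mul_of_nonneg_right h1 hpos.le
      _ = Real.exp (u * Real.log (1 + t)) *
          P.real {ω | Real.exp (u * Real.log (1 + t)) ≤ (1 + t) ^ NN S H ω} := mul_comm _ _
      _ ≤ _ := hm.trans h3
  have h4 : P A = ENNReal.ofReal (P.real A) := by
    rw [Measure.real, ENNReal.ofReal_toReal (measure_ne_top P A)]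
  rw [h4]
  exact ENNReal.ofReal_le_ofReal h2

theorem ldu : S_MGI → S_LDU := by
  intro h Ω _ P hP S H hH hind t u ht
  have hpos : 0 < 1 + t := by linarith
  have key : ∀ ω, (1 + t) ^ NN S H ω = Real.exp ((NN S H ω : ℝ) * Real.log (1 + t)) := by
    intro ω
    rw [mul_comm, Real.exp_mul, Real.exp_log hpos, Real.rpow_natCast]
  refine ⟨fun ht0 => LDU.mark P h S H hH hind t u ht _ fun ω hω => ?_,
    fun ht0 => LDU.mark P h S H hH hind t u ht _ fun ω hω => ?_⟩
  · rw [key]
    have hl : 0 ≤ Real.log (1 + t) := Real.log_nonneg (by linarith)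
    exact Real.exp_le_exp.2 (mul_le_mul_of_nonneg_right hω hl)
  · rw [key]
    have hl : Real.log (1 + t) ≤ 0 := Real.log_nonpos hpos.le (by linarith)
    exact Real.exp_le_exp.2 (mul_le_mul_of_nonpos_right hω hl)

end Pool.Agent.H50.GW
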