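import Pool.Agent.H50.GW.Stm

set_option autoImplicit false

open MeasureTheory Filter ProbabilityTheory
open scoped Topology ENNReal

namespace Pool.Agent.H50.GW

open Classical in
theorem MGI.pow_eq {Ω : Type} (S : Finset ℕ) (H : ℕ → Set Ω) (t : ℝ) (ω : Ω) :
    (1 + t) ^ NN S H ω = ∏ m : S, (1 + t * (H m).indicator (fun _ => (1 : ℝ)) ω) := by
  have h1 : ∏ m : S, (1 + t * (H m).indicator (fun _ => (1 : ℝ)) ω) =
      ∏ m ∈ S, (1 + t * (H m).indicator (fun _ => (1 : ℝ)) ω) :=
    Finset.prod_coe_sort S (fun m => (1 + t * (H m).indicator (fun _ => (1 : ℝ)) ω))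
  rw [h1]
  have h2 : ∀ m ∈ S, (1 + t * (H m).indicator (fun _ => (1 : ℝ)) ω) =
      if ω ∈ H m then (1 + t) else 1 := by
    intro m _
    by_cases h : ω ∈ H m
    · simp [h]
    · simp [h]
  rw [Finset.prod_congr rfl h2, Finset.prod_ite]
  simp [NN]

theorem mgi : S_MGI := by
  classical
  intro Ω _ P hP S H hH hind t
  have hfun : iIndepFun (fun (m : S) => (H m).indicator (fun _ => (1 : ℝ))) P :=
    hind.iIndepFun_indicator
  have hcomp := hfun.comp (fun _ : S => fun x : ℝ => 1 + t * x) (fun _ => by fun_prop)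
  have hm : ∀ m : S, Measurable (fun ω => 1 + t * (H m).indicator (fun _ => (1 : ℝ)) ω) := by
    intro m
    exact ((measurable_const.indicator (hH m)).const_mul t).const_add 1
  constructor
  · have hmeas : Measurable (fun ω => (1 + t) ^ NN S H ω) := by
      simp only [MGI.pow_eq]
      exact Finset.measurable_prod _ (fun m _ => hm m)
    refine Integrable.of_bound hmeas.aestronglyMeasurable ((1 + |t|) ^ S.card) ?_
    refine Eventually.of_forall fun ω => ?_
    rw [norm_pow, Real.norm_eq_abs]
    have h1 : |1 + t| ≤ 1 + |t| := by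
      calc |1 + t| ≤ |1| + |t| := abs_add_le _ _
        _ = 1 + |t| := by simp
    calc |1 + t| ^ NN S H ω ≤ (1 + |t|) ^ NN S H ω := pow_le_pow_left₀ (abs_nonneg _) h1 _
      _ ≤ (1 + |t|) ^ S.card := pow_le_pow_right₀ (by linarith [abs_nonneg t])
          (Finset.card_filter_le _ _)
  · simp only [MGI.pow_eq]
    have key := iIndepFun.integral_fun_prod_eq_prod_integral hcomp
      (fun m => (hm m).aestronglyMeasurable)
    have e1 : (fun ω => ∏ m : S, (1 + t * (H m).indicator (fun _ => (1 : ℝ)) ω)) =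
        fun ω => ∏ m : S, ((fun x : ℝ => 1 + t * x) ∘ (H m).indicator (fun _ => (1 : ℝ))) ω := rfl
    rw [e1]
    refine key.trans ?_
    rw [← Finset.prod_coe_sort S (fun m => 1 + t * (P (H m)).toReal)]
    refine Finset.prod_congr rfl fun m _ => ?_
    have : (∫ ω, ((fun x : ℝ => 1 + t * x) ∘ (H m).indicator (fun _ => (1 : ℝ))) ω ∂P) =
        ∫ ω, (1 + t * (H m).indicator (fun _ => (1 : ℝ)) ω) ∂P := rfl
    rw [this, integral_add (integrable_const _), integral_const, integral_const_mul,
      integral_indicator_const _ (hH m)]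
    · simp [Measure.real]
    · exact ((integrable_const (1 : ℝ)).indicator (hH m)).const_mul t

end Pool.Agent.H50.GW
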