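import Pool.Agent.H50.GW.Stm
import Pool.Agent.H50.BF.BT

set_option autoImplicit false

namespace Pool.Agent.H50.GW

open Finset Filter Pool.Agent.H50.BF
open scoped Topology

namespace BTKaux

/-- `p` divides some value at `m` -/
def Bad {k : ℕ} (c d : Fin k → ℕ) (p m : ℕ) : Prop := ∃ i : Fin k, p ∣ c i * m + d i

lemma bad_congr {k : ℕ} (c d : Fin k → ℕ) {p m m' : ℕ} (h : m % p = m' % p) :
    Bad c d p m ↔ Bad c d p m' := by
  unfold Bad
  refine exists_congr fun i => ?_
  have h1 : m ≡ m' [MOD p] := h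
  have h2 : c i * m + d i ≡ c i * m' + d i [MOD p] := (h1.mul_left _).add_right _
  rw [Nat.dvd_iff_mod_eq_zero, Nat.dvd_iff_mod_eq_zero]
  unfold Nat.ModEq at h2
  rw [h2]

open Classical in
lemma nu_eq {k : ℕ} (c d : Fin k → ℕ) (p : ℕ) :
    nu c d p = ((Finset.range p).filter (fun r => Bad c d p r)).card := by
  unfold nu Bad
  congr

open Classical in
/-- shifts do not change the number of the bad residues -/
lemma nu_shift {k : ℕ} (c d : Fin k → ℕ) (p n : ℕ) :
    ((Finset.range p).filter (fun r => Bad c d p (n + r))).card = nu c d p := by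
  rw [nu_eq]
  have hper : Function.Periodic (fun m => Bad c d p m) p := by
    intro m
    apply propext
    exact bad_congr c d (by simp)
  have h1 := Nat.filter_Ico_card_eq_of_periodic n p (fun m => Bad c d p m) hper
  have h2 := Nat.filter_Ico_card_eq_of_periodic 0 p (fun m => Bad c d p m) hper
  rw [zero_add] at h2
  rw [Finset.range_eq_Ico, h2, ← h1]
  have h3 : Finset.Ico n (n + p) = (Finset.range p).map (addLeftEmbedding n) := by
    rw [Finset.range_eq_Ico, Finset.map_add_left_Ico, add_zero]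
  rw [h3, Finset.filter_map, Finset.card_map, ← Finset.range_eq_Ico]
  congr

lemma card_one {p a n : ℕ} (hp : p.Prime) (b : ℕ) (ha : ¬ p ∣ a) (S : Finset ℕ)
    (hS : ∀ r ∈ S, r < p ∧ p ∣ a * (n + r) + b) : S.card ≤ 1 := by
  rw [Finset.card_le_one]
  intro x hx y hy
  have h1 := hS x hx
  have h2 := hS y hy
  have h3 : a * (n + x) + b ≡ a * (n + y) + b [MOD p] :=
    ((Nat.modEq_zero_iff_dvd.2 h1.2).trans (Nat.modEq_zero_iff_dvd.2 h2.2).symm)
  have h4 : a * (n + x) ≡ a * (n + y) [MOD p] := Nat.ModEq.add_right_cancel' b h3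
  have hc : Nat.gcd p a = 1 := (Nat.Prime.coprime_iff_not_dvd hp).2 ha
  have h5 : n + x ≡ n + y [MOD p] := Nat.ModEq.cancel_left_of_coprime hc h4
  have h6 : x ≡ y [MOD p] := Nat.ModEq.add_left_cancel' n h5
  unfold Nat.ModEq at h6
  rwa [Nat.mod_eq_of_lt h1.1, Nat.mod_eq_of_lt h2.1] at h6

lemma nu_le_k {k : ℕ} (c d : Fin k → ℕ) (hc : ∀ i, 1 ≤ c i) {p : ℕ} (hp : p.Prime)
    (h : ∑ i, c i < p) : nu c d p ≤ k := by
  classical
  rw [nu_eq]
  have hsub : (Finset.range p).filter (fun r => Bad c d p r) ⊆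
      Finset.univ.biUnion (fun i : Fin k => (Finset.range p).filter (fun r => p ∣ c i * r + d i)) := by
    intro r hr
    rw [Finset.mem_filter] at hr
    obtain ⟨hr1, i, hi⟩ := hr
    rw [Finset.mem_biUnion]
    exact ⟨i, Finset.mem_univ _, Finset.mem_filter.2 ⟨hr1, hi⟩⟩
  refine (Finset.card_le_card hsub).trans (Finset.card_biUnion_le.trans ?_)
  calc ∑ i : Fin k, ((Finset.range p).filter (fun r => p ∣ c i * r + d i)).card
      ≤ ∑ _i : Fin k, 1 := by
        apply Finset.sum_le_sum
        intro i _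
        have hi : c i ≤ ∑ i, c i := Finset.single_le_sum (fun _ _ => Nat.zero_le _) (Finset.mem_univ i)
        apply card_one (n := 0) hp (d i) (a := c i)
        · intro hd
          have := Nat.le_of_dvd (hc i) hd
          omega
        · intro r hr
          rw [Finset.mem_filter, Finset.mem_range] at hr
          rw [zero_add]
          exact hr
    _ = k := by simp

lemma nu_le {k : ℕ} (c d : Fin k → ℕ) (hc : ∀ i, 1 ≤ c i) {p : ℕ} (hp : p.Prime) :
    nu c d p ≤ k + ∑ i, c i := by
  by_cases h : ∑ i, c i < p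
  · exact (nu_le_k c d hc hp h).trans (by omega)
  · classical
    rw [nu_eq]
    have := Finset.card_filter_le (Finset.range p) (fun r => Bad c d p r)
    rw [Finset.card_range] at this
    omega

end BTKaux

open BTaux BTKaux

theorem btk : S_BTU → S_SNG → S_BTK := by
  classical
  intro hbtu hsng k c d hS
  obtain ⟨c0, C0, hc0, hsing⟩ := hsng k c d hS
  obtain ⟨C, s0, hC, hs0, hb⟩ := hbtu (k + ∑ i, c i) (by have := hS.one; omega)
  have hC0 : 0 ≤ C0 := hc0.le.trans ((hsing 0).1.trans (hsing 0).2)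
  refine ⟨C * (C0 + 1), s0, by positivity, hs0, fun v n U hU => ?_⟩
  have h1 := hb (fun p j => Bad c d p (n + 1 + j)) (by
    intro p m
    apply bad_congr
    rw [Nat.add_mod, Nat.add_mod (n + 1) (m % p), Nat.mod_mod]) (by
    intro p hp
    have := nu_shift c d p (n + 1)
    rw [show ((Finset.range p).filter (fun r => Bad c d p (n + 1 + r))).card = nu c d p from this]
    exact nu_le c d hS.pos hp) v U hU
  have h2 : sy c d v n U = ((Finset.range U).filter
      (fun j => ∀ p : ℕ, p.Prime → p ≤ v → ¬ Bad c d p (n + 1 + j))).card := by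
    unfold sy Bad Rou
    congr 1
    refine Finset.filter_congr fun j _ => ?_
    constructor
    · rintro h p hp hpv ⟨i, hi⟩
      exact h i p hp hpv (by rwa [show n + j + 1 = n + 1 + j by ring])
    · intro h i p hp hpv hd
      exact h p hp hpv ⟨i, by rwa [show n + 1 + j = n + j + 1 by ring]⟩
  have h3 : (((Finset.range U).filter
      (fun j => ∀ p : ℕ, p.Prime → p ≤ v → ¬ Bad c d p (n + 1 + j))).card : ℝ) ≤
      C * (U * ∏ p ∈ (Finset.Icc 1 v).filter Nat.Prime, (1 - (nu c d p : ℝ) / p)) := by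
    refine le_trans (le_of_eq ?_) (h1.trans (le_of_eq ?_))
    · congr
    · congr 2
      refine Finset.prod_congr rfl fun p _ => ?_
      rw [← nu_shift c d p (n + 1)]
  rw [h2]
  refine h3.trans ?_
  have hM : 0 < MM v ^ k := pow_pos (MM_pos v) k
  have h4 : ∏ p ∈ (Finset.Icc 1 v).filter Nat.Prime, (1 - (nu c d p : ℝ) / p) ≤
      (C0 + 1) / MM v ^ k := by
    rw [le_div_iff₀ hM]
    linarith [(hsing v).2]
  calc C * (U * ∏ p ∈ (Finset.Icc 1 v).filter Nat.Prime, (1 - (nu c d p : ℝ) / p))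
      ≤ C * (U * ((C0 + 1) / MM v ^ k)) := by gcongr
    _ = C * (C0 + 1) * (U / MM v ^ k) := by ring

end Pool.Agent.H50.GW
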