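import Pool.Agent.H50.GW.Stm

/-!
# GW-SNG: the singular series converges (upper and lower bounds)
-/

set_option autoImplicit false

open MeasureTheory Filter ProbabilityTheory
open scoped Topology ENNReal

namespace Pool.Agent.H50.GW

open Pool.Agent.H50.BF

namespace SNGaux

/-- a product over the primes `≤ v` -/
noncomputable def PR (f : ℕ → ℝ) (v : ℕ) : ℝ := ∏ p ∈ (Finset.Icc 1 v).filter Nat.Prime, f p

lemma PR_succ (f : ℕ → ℝ) (v : ℕ) : PR f (v + 1) =
    PR f v * (if (v + 1).Prime then f (v + 1) else 1) := by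
  unfold PR
  have h : Finset.Icc 1 (v + 1) = insert (v + 1) (Finset.Icc 1 v) := by
    ext x; simp only [Finset.mem_insert, Finset.mem_Icc]; omega
  rw [h, Finset.filter_insert]
  by_cases hp : (v + 1).Prime
  · rw [if_pos hp, if_pos hp, Finset.prod_insert (by simp), mul_comm]
  · rw [if_neg hp, if_neg hp, mul_one]

lemma PR_pos (f : ℕ → ℝ) (hf : ∀ p : ℕ, p.Prime → 0 < f p) (v : ℕ) : 0 < PR f v := by
  unfold PR
  exact Finset.prod_pos fun p hp => hf p (Finset.mem_filter.mp hp).2

/-- abstract bounds -/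
lemma bounds (f : ℕ → ℝ) (a : ℝ) (P0 : ℕ) (ha : 0 ≤ a) (hP0 : 2 * a ≤ P0) (hP1 : 1 ≤ P0)
    (hf : ∀ p : ℕ, p.Prime → 0 < f p)
    (hup : ∀ p : ℕ, p.Prime → P0 < p → f p ≤ 1)
    (hlo : ∀ p : ℕ, p.Prime → P0 < p → 1 - a / (p : ℝ) ^ 2 ≤ f p) :
    ∃ c0 C0 : ℝ, 0 < c0 ∧ ∀ v : ℕ, c0 ≤ PR f v ∧ PR f v ≤ C0 := by
  -- upper and lower products
  set g : ℕ → ℝ := fun p => max 1 (f p) with hg
  set h : ℕ → ℝ := fun p => min 1 (f p) with hh
  have hgpos : ∀ p : ℕ, p.Prime → 0 < g p := fun p _ => lt_of_lt_of_le one_pos (le_max_left _ _)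
  have hhpos : ∀ p : ℕ, p.Prime → 0 < h p := fun p hp => lt_min one_pos (hf p hp)
  have hgmono : ∀ v, PR g v ≤ PR g (v + 1) := by
    intro v
    rw [PR_succ]
    have h0 := (PR_pos g hgpos v).le
    split_ifs
    · have : 1 ≤ g (v + 1) := le_max_left _ _
      nlinarith
    · linarith
  have hgmono' : Monotone (PR g) := monotone_nat_of_le_succ hgmono
  have hhanti : ∀ v, PR h (v + 1) ≤ PR h v := by
    intro v
    rw [PR_succ]
    have h0 := (PR_pos h hhpos v).le
    split_ifs
    · have : h (v + 1) ≤ 1 := min_le_left _ _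
      nlinarith
    · linarith
  have hhanti' : Antitone (PR h) := antitone_nat_of_succ_le hhanti
  have hgconst : ∀ v, P0 ≤ v → PR g v ≤ PR g P0 := by
    intro v hv
    induction v, hv using Nat.le_induction with
    | base => exact le_rfl
    | succ v hv ih =>
      rw [PR_succ]
      split_ifs with hp
      · have : g (v + 1) = 1 := max_eq_left (hup _ hp (by omega))
        rw [this, mul_one]; exact ih
      · rw [mul_one]; exact ih
  have hP0r : (1 : ℝ) ≤ P0 := by exact_mod_cast hP1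
  have hhlow : ∀ v, P0 ≤ v → PR h P0 * (1 / 2 + a / v) ≤ PR h v := by
    intro v hv
    induction v, hv using Nat.le_induction with
    | base =>
      have : a / (P0 : ℝ) ≤ 1 / 2 := by
        rw [div_le_iff₀ (by linarith)]; linarith
      have h0 := (PR_pos h hhpos P0).le
      nlinarith
    | succ v hv ih =>
      have hv' : (P0 : ℝ) ≤ v := by exact_mod_cast hv
      have hv0 : (0 : ℝ) < v := by linarith
      have h0 := (PR_pos h hhpos P0).le
      have hav : a / (v : ℝ) ≤ 1 / 2 := by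
        rw [div_le_iff₀ hv0]; linarith
      have hav0 : 0 ≤ a / (v : ℝ) := by positivity
      have hstep : a / ((v + 1 : ℕ) : ℝ) ≤ a / v - a / ((v + 1 : ℕ) : ℝ) ^ 2 := by
        push_cast
        have e : a / v - a / ((v : ℝ) + 1) ^ 2 - a / ((v : ℝ) + 1) = a / (v * ((v : ℝ) + 1) ^ 2) := by
          field_simp
          ring
        have : 0 ≤ a / (v * ((v : ℝ) + 1) ^ 2) := by positivity
        linarith
      have hq0 : 0 ≤ a / ((v + 1 : ℕ) : ℝ) ^ 2 := by positivity
      rw [PR_succ]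
      split_ifs with hp
      · have hl : 1 - a / ((v + 1 : ℕ) : ℝ) ^ 2 ≤ h (v + 1) :=
          le_min (by linarith) (hlo _ hp (by omega))
        have h1 : 0 ≤ PR h P0 * (1 / 2 + a / v) := by positivity
        have hhp := hhpos _ hp
        calc PR h P0 * (1 / 2 + a / ((v + 1 : ℕ) : ℝ))
            ≤ PR h P0 * ((1 / 2 + a / v) * (1 - a / ((v + 1 : ℕ) : ℝ) ^ 2)) := by
              apply mul_le_mul_of_nonneg_left _ h0
              nlinarith
          _ = PR h P0 * (1 / 2 + a / v) * (1 - a / ((v + 1 : ℕ) : ℝ) ^ 2) := by ring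
          _ ≤ PR h P0 * (1 / 2 + a / v) * h (v + 1) := mul_le_mul_of_nonneg_left hl h1
          _ ≤ PR h v * h (v + 1) := mul_le_mul_of_nonneg_right ih hhp.le
      · rw [mul_one]
        refine le_trans ?_ ih
        apply mul_le_mul_of_nonneg_left _ h0
        linarith
  refine ⟨PR h P0 * (1 / 2), PR g P0, mul_pos (PR_pos h hhpos P0) (by norm_num), fun v => ⟨?_, ?_⟩⟩
  · have h1 : PR h v ≤ PR f v := by
      unfold PR
      apply Finset.prod_le_prod
      · intro p hp; exact (hhpos p (Finset.mem_filter.mp hp).2).le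
      · intro p hp; exact min_le_right _ _
    refine le_trans ?_ h1
    have h2 : PR h (max v P0) ≤ PR h v := hhanti' (le_max_left _ _)
    refine le_trans ?_ h2
    refine le_trans ?_ (hhlow _ (le_max_right _ _))
    apply mul_le_mul_of_nonneg_left _ (PR_pos h hhpos P0).le
    have : 0 ≤ a / ((max v P0 : ℕ) : ℝ) := by positivity
    linarith
  · have h1 : PR f v ≤ PR g v := by
      unfold PR
      apply Finset.prod_le_prod
      · intro p hp; exact (hf p (Finset.mem_filter.mp hp).2).le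
      · intro p hp; exact le_max_right _ _
    refine h1.trans ?_
    exact (hgmono' (le_max_left v P0)).trans (hgconst _ (le_max_right _ _))

/-- the local factor for large primes -/
lemma local_fac (k p : ℕ) (hk : 1 ≤ k) (hp : 2 ≤ p) (hkp : 2 * k ≤ p) :
    (1 - (k : ℝ) / p) * ((1 - (p : ℝ)⁻¹)⁻¹) ^ k ≤ 1 ∧
    1 - (k : ℝ) ^ 2 / (p : ℝ) ^ 2 ≤ (1 - (k : ℝ) / p) * ((1 - (p : ℝ)⁻¹)⁻¹) ^ k := by
  have hp2 : (2 : ℝ) ≤ p := by exact_mod_cast hp
  have hp0 : (0 : ℝ) < p := by linarith
  have hkp' : 2 * (k : ℝ) ≤ p := by exact_mod_cast hkp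
  set x : ℝ := (p : ℝ)⁻¹ with hx
  have hx0 : 0 < x := by positivity
  have hx1 : x ≤ 1 / 2 := by
    rw [hx, inv_le_comm₀ hp0 (by norm_num)]
    linarith
  have hkx : (k : ℝ) * x ≤ 1 / 2 := by
    rw [hx, ← div_eq_mul_inv, div_le_iff₀ hp0]; linarith
  have e1 : (k : ℝ) / p = k * x := div_eq_mul_inv _ _
  have e2 : (k : ℝ) ^ 2 / (p : ℝ) ^ 2 = (k * x) ^ 2 := by
    rw [← div_pow, e1]
  rw [e2, e1, inv_pow]
  have hpw : 0 < (1 - x) ^ k := by
    apply pow_pos; linarith
  have hB : 1 + (k : ℝ) * (-x) ≤ (1 + (-x)) ^ k := one_add_mul_le_pow (by linarith) k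
  have hB' : 1 - (k : ℝ) * x ≤ (1 - x) ^ k := by
    have : (1 : ℝ) + (-x) = 1 - x := by ring
    rw [this] at hB
    linarith
  constructor
  · rw [← div_eq_mul_inv, div_le_one hpw]; exact hB'
  · rw [show (1 - (k : ℝ) * x) * ((1 - x) ^ k)⁻¹ = (1 - (k : ℝ) * x) / (1 - x) ^ k from rfl,
      le_div_iff₀ hpw]
    have hC : (1 - x) ^ k * (1 + k * x) ≤ 1 := by
      have h1 : 1 + (k : ℝ) * x ≤ (1 + x) ^ k := one_add_mul_le_pow (by linarith) k
      calc (1 - x) ^ k * (1 + k * x) ≤ (1 - x) ^ k * (1 + x) ^ k :=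
            mul_le_mul_of_nonneg_left h1 hpw.le
        _ = ((1 - x) * (1 + x)) ^ k := (mul_pow _ _ _).symm
        _ ≤ 1 := by
          apply pow_le_one₀
          · apply mul_nonneg <;> linarith
          · nlinarith
    have h2 : 0 ≤ 1 - (k : ℝ) * x := by linarith
    calc (1 - ((k : ℝ) * x) ^ 2) * (1 - x) ^ k
        = (1 - (k : ℝ) * x) * ((1 - x) ^ k * (1 + k * x)) := by ring
      _ ≤ (1 - (k : ℝ) * x) * 1 := mul_le_mul_of_nonneg_left hC h2
      _ = 1 - (k : ℝ) * x := mul_one _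

lemma nu_lt {k : ℕ} (c d : Fin k → ℕ) (hs : Sys c d) (p : ℕ) (hp : p.Prime) : nu c d p < p := by
  classical
  obtain ⟨n, hn⟩ := hs.adm p hp
  unfold nu
  have h1 : n % p ∉ (Finset.range p).filter (fun r => ∃ i : Fin k, p ∣ c i * r + d i) := by
    intro h
    rw [Finset.mem_filter] at h
    obtain ⟨_, i, hi⟩ := h
    apply hn i
    have e : c i * n + d i = c i * (n % p) + d i + p * (c i * (n / p)) := by
      conv_lhs => rw [← Nat.mod_add_div n p]
      ring
    rw [e]
    exact dvd_add hi (dvd_mul_right _ _)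
  have h2 : (Finset.range p).filter (fun r => ∃ i : Fin k, p ∣ c i * r + d i) ⊂ Finset.range p := by
    rw [Finset.ssubset_iff_of_subset (Finset.filter_subset _ _)]
    exact ⟨n % p, Finset.mem_range.mpr (Nat.mod_lt _ hp.pos), h1⟩
  have := Finset.card_lt_card h2
  rwa [Finset.card_range] at this

/-- the bad modulus -/
def DD {k : ℕ} (c d : Fin k → ℕ) : ℕ :=
  (∏ i, c i) * ∏ i, ∏ j, (if i = j then 1 else ((c i * d j : ℤ) - c j * d i).natAbs)

lemma DD_pos {k : ℕ} (c d : Fin k → ℕ) (hs : Sys c d) : 0 < DD c d := by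
  unfold DD
  apply Nat.mul_pos
  · exact Finset.prod_pos fun i _ => hs.pos i
  · apply Finset.prod_pos
    intro i _
    apply Finset.prod_pos
    intro j _
    split_ifs with h
    · exact one_pos
    · rw [Int.natAbs_pos, sub_ne_zero]
      exact_mod_cast hs.ndg i j h

lemma nu_eq {k : ℕ} (c d : Fin k → ℕ) (hs : Sys c d) (p : ℕ) (hp : p.Prime) (hD : DD c d < p) :
    nu c d p = k := by
  classical
  have : Fact p.Prime := ⟨hp⟩
  have hnd : ¬ p ∣ DD c d := fun h => absurd (Nat.le_of_dvd (DD_pos c d hs) h) (by omega)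
  have hc : ∀ i, ((c i : ℕ) : ZMod p) ≠ 0 := by
    intro i h
    rw [ZMod.natCast_eq_zero_iff] at h
    apply hnd
    unfold DD
    exact dvd_mul_of_dvd_left (h.trans (Finset.dvd_prod_of_mem _ (Finset.mem_univ i))) _
  have hdet : ∀ i j, i ≠ j → ((c i : ZMod p) * d j ≠ c j * d i) := by
    intro i j hij h
    apply hnd
    unfold DD
    apply dvd_mul_of_dvd_right
    refine dvd_trans ?_ (Finset.dvd_prod_of_mem _ (Finset.mem_univ i))
    refine dvd_trans ?_ (Finset.dvd_prod_of_mem _ (Finset.mem_univ j))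
    rw [if_neg hij]
    have h1 : (((c i * d j : ℤ) - c j * d i : ℤ) : ZMod p) = 0 := by
      push_cast
      rw [h, sub_self]
    rw [ZMod.intCast_zmod_eq_zero_iff_dvd] at h1
    exact Int.natCast_dvd.mp h1
  set r : Fin k → ℕ := fun i => (-(d i : ZMod p) * ((c i : ZMod p))⁻¹).val with hr
  have hrinj : Function.Injective r := by
    intro i j hij
    by_contra hne
    have h1 : (-(d i : ZMod p) * ((c i : ZMod p))⁻¹) = (-(d j : ZMod p) * ((c j : ZMod p))⁻¹) :=
      ZMod.val_injective p hij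
    apply hdet i j hne
    have hi := hc i
    have hj := hc j
    field_simp at h1
    linear_combination h1
  have himg : (Finset.range p).filter (fun r => ∃ i : Fin k, p ∣ c i * r + d i) =
      Finset.univ.image r := by
    ext x
    rw [Finset.mem_filter, Finset.mem_range, Finset.mem_image]
    constructor
    · rintro ⟨hx, i, hi⟩
      refine ⟨i, Finset.mem_univ _, ?_⟩
      have h1 : ((c i * x + d i : ℕ) : ZMod p) = 0 := (ZMod.natCast_eq_zero_iff _ _).mpr hi
      push_cast at h1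
      have h2 : (x : ZMod p) = -(d i : ZMod p) * ((c i : ZMod p))⁻¹ := by
        rw [eq_mul_inv_iff_mul_eq₀ (hc i)]
        linear_combination h1
      rw [hr]
      simp only
      rw [← h2, ZMod.val_natCast, Nat.mod_eq_of_lt hx]
    · rintro ⟨i, _, hi⟩
      refine ⟨by rw [← hi]; exact ZMod.val_lt _, i, ?_⟩
      rw [← ZMod.natCast_eq_zero_iff, ← hi]
      push_cast
      rw [hr]
      simp only [ZMod.natCast_val, ZMod.cast_id', id]
      have := hc i
      field_simp
      ring
  unfold nu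
  rw [show ((Finset.range p).filter (fun r => ∃ i : Fin k, p ∣ c i * r + d i)).card =
    (Finset.univ.image r).card from by rw [← himg]]
  rw [Finset.card_image_of_injective _ hrinj, Finset.card_univ, Fintype.card_fin]

end SNGaux

open SNGaux in
theorem sng : S_SNG := by
  intro k c d hs
  set f : ℕ → ℝ := fun p => (1 - (nu c d p : ℝ) / p) * ((1 - (p : ℝ)⁻¹)⁻¹) ^ k with hf
  have key : ∀ v : ℕ, (∏ p ∈ (Finset.Icc 1 v).filter Nat.Prime, (1 - (nu c d p : ℝ) / p)) *
      MM v ^ k = PR f v := by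
    intro v
    unfold PR MM
    rw [← Finset.prod_pow, ← Finset.prod_mul_distrib]
  set P0 : ℕ := DD c d + 2 * k ^ 2 + 2 * k + 1 with hP0
  obtain ⟨c0, C0, hc0, hb⟩ := bounds f ((k : ℝ) ^ 2) P0 (by positivity)
    (by rw [hP0]; push_cast; have : (0 : ℝ) ≤ DD c d := by positivity
        have : (0 : ℝ) ≤ k := by positivity
        nlinarith)
    (by omega)
    (by
      intro p hp
      have h1 := nu_lt c d hs p hp
      have hp0 : (0 : ℝ) < p := by exact_mod_cast hp.pos
      have hp1 : (1 : ℝ) < p := by exact_mod_cast hp.one_lt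
      rw [hf]
      simp only
      apply mul_pos
      · rw [sub_pos, div_lt_one hp0]; exact_mod_cast h1
      · apply pow_pos
        rw [inv_pos, sub_pos]
        exact inv_lt_one_of_one_lt₀ hp1)
    (by
      intro p hp hpP
      rw [hf]
      simp only
      rw [nu_eq c d hs p hp (by omega)]
      exact (local_fac k p hs.one hp.two_le (by omega)).1)
    (by
      intro p hp hpP
      rw [hf]
      simp only
      rw [nu_eq c d hs p hp (by omega)]
      exact (local_fac k p hs.one hp.two_le (by omega)).2)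
  refine ⟨c0, C0, hc0, fun v => ?_⟩
  rw [key v]
  exact hb v

end Pool.Agent.H50.GW
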