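import Pool.Agent.H50.GW.StmB
import Pool.Agent.H50.GW.GUP
import Pool.Agent.H50.GW.BTK
import Pool.Agent.H50.GW.SNG

/-! GW-CUB (helper67): long windows in Granville's model. -/

set_option autoImplicit false

open MeasureTheory Filter ProbabilityTheory
open scoped Topology ENNReal

namespace Pool.Agent.H50.GW

open Pool.Agent.H50.BF

namespace CUBx

/-! ## The filter of the pairs `n ≤ N ≤ B n` -/

/-- the filter of the pairs `n ≤ N ≤ B n` -/
def FB (B : ℕ) : Filter (ℕ × ℕ) := (atTop ×ˢ atTop) ⊓ 𝓟 {p | p.1 ≤ p.2 ∧ p.2 ≤ B * p.1}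

lemma fb_ev {B : ℕ} {q : ℕ × ℕ → Prop} (h : ∀ᶠ x in FB B, q x) :
    ∃ n1 : ℕ, ∀ n N, n1 ≤ n → n ≤ N → N ≤ B * n → q (n, N) := by
  unfold FB at h
  rw [eventually_inf_principal, Filter.prod_atTop_atTop_eq, eventually_atTop] at h
  obtain ⟨⟨a, b⟩, h⟩ := h
  exact ⟨max a b, fun n N h1 h2 h3 => h (n, N) ⟨(le_max_left _ _).trans h1,
    (le_max_right _ _).trans (h1.trans h2)⟩ ⟨h2, h3⟩⟩

lemma fb_fst (B : ℕ) : Tendsto Prod.fst (FB B) atTop := tendsto_fst.mono_left inf_le_left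

lemma fb_snd (B : ℕ) : Tendsto Prod.snd (FB B) atTop := tendsto_snd.mono_left inf_le_left

lemma fb_mem (B : ℕ) : ∀ᶠ p in FB B, p.1 ≤ p.2 ∧ p.2 ≤ B * p.1 :=
  mem_inf_of_right (mem_principal_self _)

lemma log_ratio (B : ℕ) :
    Tendsto (fun p : ℕ × ℕ => Real.log p.2 / Real.log p.1) (FB B) (𝓝 1) := by
  have h1 : Tendsto (fun p : ℕ × ℕ => 1 + Real.log B / Real.log p.1) (FB B) (𝓝 (1 + 0)) :=
    tendsto_const_nhds.add (tendsto_const_nhds.div_atTop (GUPx.log_tend.comp (fb_fst B)))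
  rw [add_zero] at h1
  refine tendsto_of_tendsto_of_tendsto_of_le_of_le' tendsto_const_nhds h1 ?_ ?_
  · filter_upwards [fb_mem B, (fb_fst B).eventually_ge_atTop 3] with p hp h3
    have h4 : (3 : ℝ) ≤ p.1 := by exact_mod_cast h3
    have h5 : (p.1 : ℝ) ≤ p.2 := by exact_mod_cast hp.1
    have h6 : 0 < Real.log p.1 := Real.log_pos (by linarith)
    rw [le_div_iff₀ h6, one_mul]
    exact Real.log_le_log (by linarith) h5
  · filter_upwards [fb_mem B, (fb_fst B).eventually_ge_atTop 3] with p hp h3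
    have h4 : (3 : ℝ) ≤ p.1 := by exact_mod_cast h3
    have h5 : (p.1 : ℝ) ≤ p.2 := by exact_mod_cast hp.1
    have h6 : 0 < Real.log p.1 := Real.log_pos (by linarith)
    have h7 : (p.2 : ℝ) ≤ B * p.1 := by exact_mod_cast hp.2
    have hB : (0 : ℝ) < B := by
      by_contra hcon
      have : (B : ℝ) * p.1 ≤ 0 := mul_nonpos_of_nonpos_of_nonneg (not_lt.1 hcon) (by linarith)
      linarith
    have h8 : Real.log p.2 ≤ Real.log B + Real.log p.1 := by
      rw [← Real.log_mul hB.ne' (by linarith)]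
      exact Real.log_le_log (by linarith) h7
    rw [div_le_iff₀ h6]
    have e : (1 + Real.log B / Real.log p.1) * Real.log p.1 = Real.log p.1 + Real.log B := by
      field_simp
    rw [e]
    linarith

lemma ll_tend : Tendsto (fun n : ℕ => Real.log (Real.log n)) atTop atTop :=
  Real.tendsto_log_atTop.comp GUPx.log_tend

lemma ll_ratio (B : ℕ) :
    Tendsto (fun p : ℕ × ℕ => Real.log (Real.log p.2) / Real.log (Real.log p.1)) (FB B) (𝓝 1) := by
  have h1 : Tendsto (fun p : ℕ × ℕ => Real.log (Real.log p.2 / Real.log p.1)) (FB B) (𝓝 (Real.log 1)) :=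
    (Real.continuousAt_log one_ne_zero).tendsto.comp (log_ratio B)
  have h2 : Tendsto (fun p : ℕ × ℕ => 1 + Real.log (Real.log p.2 / Real.log p.1) /
      Real.log (Real.log p.1)) (FB B) (𝓝 (1 + 0)) :=
    tendsto_const_nhds.add (h1.div_atTop (ll_tend.comp (fb_fst B)))
  rw [add_zero] at h2
  refine h2.congr' ?_
  filter_upwards [(GUPx.log_tend.comp (fb_fst B)).eventually_ge_atTop 1,
    (GUPx.log_tend.comp (fb_snd B)).eventually_ge_atTop 1,
    (ll_tend.comp (fb_fst B)).eventually_ge_atTop 1] with p h3 h4 h5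
  simp only [Function.comp] at h3 h4 h5
  rw [Real.log_div (by linarith) (by linarith)]
  field_simp
  ring

/-! ## The levels -/

lemma z_tend {z : ℕ → ℕ}
    (lev : Tendsto (fun n : ℕ => Real.log (z n) / Real.log (Real.log n)) atTop (𝓝 1)) :
    Tendsto z atTop atTop := by
  have h1 : Tendsto (fun n : ℕ => Real.log (z n)) atTop atTop := by
    have h2 := Filter.Tendsto.pos_mul_atTop one_pos lev ll_tend
    refine h2.congr' ?_
    filter_upwards [ll_tend.eventually_ge_atTop 1] with n hn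
    field_simp
  have h3 : Tendsto (fun n : ℕ => (z n : ℝ)) atTop atTop := by
    refine tendsto_atTop_mono (fun n => ?_) h1
    exact (Real.log_le_self (Nat.cast_nonneg _))
  exact tendsto_natCast_atTop_iff.1 h3

lemma mm_ll (hM : S_MERT) {z : ℕ → ℕ}
    (lev : Tendsto (fun n : ℕ => Real.log (z n) / Real.log (Real.log n)) atTop (𝓝 1)) :
    Tendsto (fun n : ℕ => MM (z n) / Real.log (Real.log n)) atTop
      (𝓝 (Real.exp Real.eulerMascheroniConstant)) := by
  have h1 := (hM.comp (z_tend lev)).mul lev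
  rw [mul_one] at h1
  refine h1.congr' ?_
  filter_upwards [(z_tend lev).eventually_ge_atTop 3, ll_tend.eventually_ge_atTop 1] with n h2 h3
  have h4 : (3 : ℝ) ≤ z n := by exact_mod_cast h2
  have h5 : 0 < Real.log (z n) := Real.log_pos (by linarith)
  simp only [Function.comp]
  field_simp

lemma mm_ratio (hM : S_MERT) {z : ℕ → ℕ}
    (lev : Tendsto (fun n : ℕ => Real.log (z n) / Real.log (Real.log n)) atTop (𝓝 1)) (B : ℕ) :
    Tendsto (fun p : ℕ × ℕ => MM (z p.2) / MM (z p.1)) (FB B) (𝓝 1) := by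
  have h1 := mm_ll hM lev
  have hE := Real.exp_pos Real.eulerMascheroniConstant
  have h2 := ((h1.comp (fb_snd B)).mul (ll_ratio B)).mul ((h1.comp (fb_fst B)).inv₀ hE.ne')
  rw [mul_one, mul_inv_cancel₀ hE.ne'] at h2
  refine h2.congr' ?_
  filter_upwards [(ll_tend.comp (fb_fst B)).eventually_ge_atTop 1,
    (ll_tend.comp (fb_snd B)).eventually_ge_atTop 1] with p h3 h4
  simp only [Function.comp] at h3 h4 ⊢
  have h5 := BTaux.MM_pos (z p.1)
  have h6 := BTaux.MM_pos (z p.2)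
  field_simp

lemma prob_ratio (hM : S_MERT) {Ω : Type} [MeasurableSpace Ω] {P : Measure Ω} {A : ℕ → Set Ω}
    {z : ℕ → ℕ} (hG : GMod P A z) (B : ℕ) :
    Tendsto (fun p : ℕ × ℕ => (P (A p.2)).toReal * (Real.log p.1 / MM (z p.1)))
      (FB B ⊓ 𝓟 {p | Rou (z p.2) p.2}) (𝓝 1) := by
  have hs : Tendsto Prod.snd (FB B ⊓ 𝓟 {p : ℕ × ℕ | Rou (z p.2) p.2})
      (atTop ⊓ 𝓟 {n : ℕ | Rou (z n) n}) := by
    refine tendsto_inf.2 ⟨(fb_snd B).mono_left inf_le_left, ?_⟩
    rw [tendsto_principal]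
    exact mem_inf_of_right (mem_principal_self _)
  have h1 := hG.dens.comp hs
  have h2 := ((log_ratio B).inv₀ one_ne_zero).mono_left
    (inf_le_left : FB B ⊓ 𝓟 {p : ℕ × ℕ | Rou (z p.2) p.2} ≤ FB B)
  have h3 := (mm_ratio hM hG.lev B).mono_left
    (inf_le_left : FB B ⊓ 𝓟 {p : ℕ × ℕ | Rou (z p.2) p.2} ≤ FB B)
  have h4 := (h1.mul h2).mul h3
  rw [inv_one, mul_one, mul_one] at h4
  refine h4.congr' ?_
  have e1 := ((GUPx.log_tend.comp (fb_fst B)).eventually_ge_atTop 1).filter_mono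
    (inf_le_left : FB B ⊓ 𝓟 {p : ℕ × ℕ | Rou (z p.2) p.2} ≤ FB B)
  have e2 := ((GUPx.log_tend.comp (fb_snd B)).eventually_ge_atTop 1).filter_mono
    (inf_le_left : FB B ⊓ 𝓟 {p : ℕ × ℕ | Rou (z p.2) p.2} ≤ FB B)
  filter_upwards [e1, e2] with p h5 h6
  simp only [Function.comp] at h5 h6 ⊢
  have h7 := BTaux.MM_pos (z p.1)
  have h8 := BTaux.MM_pos (z p.2)
  field_simp

/-- the probabilities of the events `A N`, `n ≤ N ≤ B n` -/
lemma prob_ev (hM : S_MERT) {Ω : Type} [MeasurableSpace Ω] {P : Measure Ω} {A : ℕ → Set Ω}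
    {z : ℕ → ℕ} (hG : GMod P A z) (B : ℕ) {ε : ℝ} (hε : 0 < ε) :
    ∃ n1 : ℕ, ∀ n N, n1 ≤ n → n ≤ N → N ≤ B * n →
      (P (A N)).toReal * (Real.log n / MM (z n)) ≤ 1 + ε ∧
      (Rou (z N) N → 1 - ε ≤ (P (A N)).toReal * (Real.log n / MM (z n))) := by
  have h1 := (Metric.tendsto_nhds.1 (prob_ratio hM hG B) ε hε)
  rw [eventually_inf_principal] at h1
  obtain ⟨n1, h2⟩ := fb_ev h1
  refine ⟨n1, fun n N h3 h4 h5 => ?_⟩
  have h6 := h2 n N h3 h4 h5
  by_cases hr : Rou (z N) N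
  · have h7 := h6 hr
    simp only [Real.dist_eq] at h7
    rw [abs_lt] at h7
    exact ⟨by linarith, fun _ => by linarith⟩
  · refine ⟨?_, fun h => absurd h hr⟩
    rw [hG.empty N hr]
    simp
    linarith

/-! ## The hits -/

section hits

variable {Ω : Type} [MeasurableSpace Ω] {P : Measure Ω} {A : ℕ → Set Ω} {z : ℕ → ℕ}
  {k : ℕ} {c d : Fin k → ℕ}

/-- the bound for the forms -/
def BB {k : ℕ} (c d : Fin k → ℕ) : ℕ := 2 * (∑ i, c i) + ∑ i, d i

lemma form_le (hS : Sys c d) {n m : ℕ} (h1 : n < m) (h2 : m ≤ 2 * n) (i : Fin k) :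
    n ≤ c i * m + d i ∧ c i * m + d i ≤ BB c d * n := by
  have hc : c i ≤ ∑ i, c i := Finset.single_le_sum (fun _ _ => Nat.zero_le _) (Finset.mem_univ i)
  have hd : d i ≤ ∑ i, d i := Finset.single_le_sum (fun _ _ => Nat.zero_le _) (Finset.mem_univ i)
  have hp := hS.pos i
  have hn : 1 ≤ n := by omega
  constructor
  · nlinarith
  · unfold BB
    have h3 : c i * m ≤ (∑ i, c i) * (2 * n) := Nat.mul_le_mul hc h2
    have h4 : d i ≤ (∑ i, d i) * n := hd.trans (Nat.le_mul_of_pos_right _ hn)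
    calc c i * m + d i ≤ (∑ i, c i) * (2 * n) + (∑ i, d i) * n := Nat.add_le_add h3 h4
      _ = (2 * (∑ i, c i) + ∑ i, d i) * n := by ring

lemma rou_mono {v v' N : ℕ} (h : v ≤ v') (hr : Rou v' N) : Rou v N :=
  fun p hp hpv => hr p hp (hpv.trans h)

open Classical in
/-- the expected number of the hits -/
lemma expect (hM : S_MERT) (hI : S_IND) (hG : GMod P A z) (hS : Sys c d) {ε : ℝ} (hε : 0 < ε)
    (hε1 : ε < 1) : ∀ᶠ n : ℕ in atTop, ∀ U : ℕ, U ≤ n →
    (∑ j ∈ Finset.range U, (P (Hit c d A (n + j + 1))).toReal) * (Real.log n / MM (z n)) ^ k ≤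
      (1 + ε) ^ k * sy c d (z n) n U ∧
    (1 - ε) ^ k * sy c d (z (BB c d * n)) n U ≤
      (∑ j ∈ Finset.range U, (P (Hit c d A (n + j + 1))).toReal) * (Real.log n / MM (z n)) ^ k := by
  obtain ⟨n0, hprod, -⟩ := hI Ω P A z hG k c d hS
  obtain ⟨n1, hev⟩ := prob_ev hM hG (BB c d) hε
  filter_upwards [eventually_ge_atTop (n0 + n1 + 3)] with n hn U hU
  have hr0 : 0 ≤ Real.log n / MM (z n) := by
    have h1 := BTaux.MM_pos (z n)
    have h2 : 0 ≤ Real.log n := Real.log_nonneg (by exact_mod_cast (by omega : 1 ≤ n))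
    positivity
  have key : ∀ j ∈ Finset.range U, (P (Hit c d A (n + j + 1))).toReal *
      (Real.log n / MM (z n)) ^ k = ∏ i, ((P (A (c i * (n + j + 1) + d i))).toReal *
        (Real.log n / MM (z n))) := by
    intro j hj
    rw [hprod _ (by omega), ENNReal.toReal_prod, Finset.prod_mul_distrib, Finset.prod_const,
      Finset.card_univ, Fintype.card_fin]
  have hjm : ∀ j ∈ Finset.range U, n < n + j + 1 ∧ n + j + 1 ≤ 2 * n := by
    intro j hj
    have := Finset.mem_range.1 hj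
    omega
  have hsy : ∀ v : ℕ, (sy c d v n U : ℝ) = ∑ j ∈ Finset.range U,
      (if ∀ i : Fin k, Rou v (c i * (n + j + 1) + d i) then (1 : ℝ) else 0) := by
    intro v
    unfold sy
    rw [Finset.sum_ite, Finset.sum_const_zero, add_zero, Finset.sum_const, nsmul_eq_mul, mul_one]
  constructor
  · rw [Finset.sum_mul, hsy, Finset.mul_sum]
    refine Finset.sum_le_sum fun j hj => ?_
    rw [key j hj]
    obtain ⟨hj1, hj2⟩ := hjm j hj
    by_cases hr : ∀ i : Fin k, Rou (z n) (c i * (n + j + 1) + d i)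
    · rw [if_pos hr, mul_one]
      calc ∏ i, ((P (A (c i * (n + j + 1) + d i))).toReal * (Real.log n / MM (z n)))
          ≤ ∏ _i : Fin k, (1 + ε) := by
            refine Finset.prod_le_prod (fun i _ => mul_nonneg ENNReal.toReal_nonneg hr0) fun i _ => ?_
            obtain ⟨f1, f2⟩ := form_le hS hj1 hj2 i
            exact (hev n _ (by omega) f1 f2).1
        _ = (1 + ε) ^ k := by simp
    · rw [if_neg hr, mul_zero]
      push Not at hr
      obtain ⟨i, hi⟩ := hr
      refine le_of_eq (Finset.prod_eq_zero (Finset.mem_univ i) ?_)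
      obtain ⟨f1, f2⟩ := form_le hS hj1 hj2 i
      rw [hG.empty _ (fun h => hi (rou_mono (hG.mono f1) h))]
      simp
  · rw [Finset.sum_mul, hsy, Finset.mul_sum]
    refine Finset.sum_le_sum fun j hj => ?_
    rw [key j hj]
    obtain ⟨hj1, hj2⟩ := hjm j hj
    by_cases hr : ∀ i : Fin k, Rou (z (BB c d * n)) (c i * (n + j + 1) + d i)
    · rw [if_pos hr, mul_one]
      calc (1 - ε) ^ k = ∏ _i : Fin k, (1 - ε) := by simp
        _ ≤ ∏ i, ((P (A (c i * (n + j + 1) + d i))).toReal * (Real.log n / MM (z n))) := by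
            refine Finset.prod_le_prod (fun i _ => by linarith) fun i _ => ?_
            obtain ⟨f1, f2⟩ := form_le hS hj1 hj2 i
            exact (hev n _ (by omega) f1 f2).2 (rou_mono (hG.mono f2) (hr i))
    · rw [if_neg hr, mul_zero]
      exact Finset.prod_nonneg fun i _ => mul_nonneg ENNReal.toReal_nonneg hr0

end hits

/-! ## The sieve -/

/-- the product -/
noncomputable def WW {k : ℕ} (c d : Fin k → ℕ) (v : ℕ) : ℝ :=
  ∏ p ∈ (Finset.Icc 1 v).filter Nat.Prime, (1 - (nu c d p : ℝ) / p)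

lemma log_small (a : ℕ) {κ C : ℝ} (hκ : 0 < κ) (hC : 0 < C) :
    ∀ᶠ n : ℕ in atTop, Real.log n ^ a ≤ C * (n : ℝ) ^ κ := by
  have h1 := (isLittleO_log_rpow_rpow_atTop (a : ℝ) hκ).bound hC
  have h2 := tendsto_natCast_atTop_atTop (R := ℝ) |>.eventually h1
  filter_upwards [h2, GUPx.log_tend.eventually_ge_atTop 1] with n h3 h4
  rw [Real.rpow_natCast, Real.norm_of_nonneg (by positivity), Real.norm_of_nonneg (by positivity)] at h3
  exact h3

lemma sieve (hF : S_FND) (hSN : S_SNG) (hM : S_MERT) {k : ℕ} {c d : Fin k → ℕ} (hS : Sys c d)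
    {δ κ : ℝ} (hδ : 0 < δ) (hκ : 0 < κ) :
    ∃ v0 : ℕ, ∀ᶠ n : ℕ in atTop, ∀ v U t : ℕ, v0 ≤ v → (v : ℝ) ≤ 4 * Real.log n ^ 2 →
      (n : ℝ) ^ κ ≤ U → (sy c d v t U : ℝ) ≤ (1 + δ) * (U * WW c d v) ∧
      (1 - δ) * (U * WW c d v) ≤ sy c d v t U := by
  classical
  obtain ⟨c0, C0, hc0, hsing⟩ := hSN k c d hS
  obtain ⟨K, x0, hK, hf⟩ := hF (k + ∑ i, c i) (by have := hS.one; omega) (δ / 2) (by positivity)
  have hE := Real.exp_pos Real.eulerMascheroniConstant
  set E := Real.exp Real.eulerMascheroniConstant with hEdef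
  have h1 := hM.eventually_le_const (show Real.exp Real.eulerMascheroniConstant < E + 1 by linarith)
  obtain ⟨v1, hv1⟩ := eventually_atTop.1 h1
  refine ⟨x0 + v1 + 3, ?_⟩
  -- the size of the error
  have hsmall := log_small (2 * (K + k)) hκ
    (show 0 < (δ / 2 * c0) / ((E + 1) ^ k * 4 ^ (K + k)) by positivity)
  filter_upwards [hsmall, GUPx.log_tend.eventually_ge_atTop 1] with n hn hL v U t hv hvL hU
  have hv3 : (3 : ℝ) ≤ v := by exact_mod_cast (by omega : 3 ≤ v)
  have hMv : MM v ≤ (E + 1) * v := by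
    have h2 := hv1 v (by omega)
    have h3 : 0 < Real.log v := Real.log_pos (by linarith)
    rw [div_le_iff₀ h3] at h2
    have h4 : Real.log v ≤ v := Real.log_le_self (by linarith)
    exact h2.trans (mul_le_mul_of_nonneg_left h4 (by linarith))
  have hMpos := BTaux.MM_pos v
  have hW : c0 / ((E + 1) * v) ^ k ≤ WW c d v := by
    rw [div_le_iff₀ (by positivity)]
    refine (hsing v).1.trans ?_
    unfold WW
    refine mul_le_mul_of_nonneg_left (pow_le_pow_left₀ hMpos.le hMv k) ?_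
    have h5 := (hsing v).1
    by_contra hcon
    have : (∏ p ∈ (Finset.Icc 1 v).filter Nat.Prime, (1 - (nu c d p : ℝ) / p)) * MM v ^ k ≤ 0 :=
      mul_nonpos_of_nonpos_of_nonneg (not_le.1 hcon).le (by positivity)
    linarith
  have hW0 : 0 < WW c d v := lt_of_lt_of_le (by positivity) hW
  -- the fundamental lemma
  have h6 := hf (v ^ K) v (by omega) le_rfl (fun p j => BTKaux.Bad c d p (t + j)) (by
    intro p m
    apply BTKaux.bad_congr
    rw [Nat.add_mod, Nat.add_mod t (m % p), Nat.mod_mod]) (by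
    intro p hp
    rw [BTKaux.nu_shift c d p t]
    exact BTKaux.nu_le c d hS.pos hp) U
  have h7 : ((Finset.Icc 1 U).filter (fun m : ℕ => ∀ p : ℕ, p.Prime → p ≤ v →
      ¬ BTKaux.Bad c d p (t + m))).card = sy c d v t U := by
    unfold sy
    symm
    refine Finset.card_bij (fun j _ => j + 1) ?_ ?_ ?_
    · intro j hj
      rw [Finset.mem_filter, Finset.mem_range] at hj
      rw [Finset.mem_filter, Finset.mem_Icc]
      refine ⟨⟨by omega, by omega⟩, ?_⟩
      rintro p hp hpv ⟨i, hi⟩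
      exact hj.2 i p hp hpv (by rwa [show t + j + 1 = t + (j + 1) by ring])
    · intro a _ b _ h
      omega
    · intro m hm
      rw [Finset.mem_filter, Finset.mem_Icc] at hm
      refine ⟨m - 1, ?_, by omega⟩
      rw [Finset.mem_filter, Finset.mem_range]
      refine ⟨by omega, ?_⟩
      intro i p hp hpv hd
      refine hm.2 p hp hpv ⟨i, ?_⟩
      rwa [show t + (m - 1) + 1 = t + m by omega] at hd
  have h8 : ∏ p ∈ (Finset.Icc 1 v).filter Nat.Prime,
      (1 - (((Finset.range p).filter (fun r => BTKaux.Bad c d p (t + r))).card : ℝ) / p) =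
      WW c d v := by
    unfold WW
    refine Finset.prod_congr rfl fun p _ => ?_
    rw [BTKaux.nu_shift c d p t]
  rw [h7, h8] at h6
  have h9 : Real.sqrt ((v ^ K : ℕ) : ℝ) ≤ δ / 2 * (U * WW c d v) := by
    have hv1' : (1 : ℝ) ≤ (v : ℝ) ^ K := one_le_pow₀ (by linarith)
    have e1 : Real.sqrt ((v ^ K : ℕ) : ℝ) ≤ (v : ℝ) ^ K := by
      rw [Nat.cast_pow]
      apply Real.sqrt_le_iff.2
      exact ⟨by positivity, by nlinarith⟩
    refine e1.trans ?_
    have e2 : U * (c0 / ((E + 1) * v) ^ k) ≤ U * WW c d v :=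
      mul_le_mul_of_nonneg_left hW (Nat.cast_nonneg _)
    refine le_trans ?_ (mul_le_mul_of_nonneg_left e2 (by positivity))
    have e3 : (v : ℝ) ^ K * ((E + 1) * v) ^ k ≤ δ / 2 * c0 * U := by
      calc (v : ℝ) ^ K * ((E + 1) * v) ^ k = (E + 1) ^ k * (v : ℝ) ^ (K + k) := by
            rw [mul_pow, pow_add]
            ring
        _ ≤ (E + 1) ^ k * (4 * Real.log n ^ 2) ^ (K + k) := by
            refine mul_le_mul_of_nonneg_left (pow_le_pow_left₀ (by linarith) hvL _) (by positivity)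
        _ = ((E + 1) ^ k * 4 ^ (K + k)) * Real.log n ^ (2 * (K + k)) := by
            rw [mul_pow, ← pow_mul]
            ring
        _ ≤ ((E + 1) ^ k * 4 ^ (K + k)) *
            ((δ / 2 * c0) / ((E + 1) ^ k * 4 ^ (K + k)) * (n : ℝ) ^ κ) :=
            mul_le_mul_of_nonneg_left hn (by positivity)
        _ = δ / 2 * c0 * (n : ℝ) ^ κ := by field_simp
        _ ≤ δ / 2 * c0 * U := mul_le_mul_of_nonneg_left hU (by positivity)
    have e4 : δ / 2 * (U * (c0 / ((E + 1) * v) ^ k)) = δ / 2 * c0 * U / ((E + 1) * v) ^ k := by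
      ring
    rw [e4, le_div_iff₀ (by positivity)]
    exact e3
  rw [abs_le] at h6
  constructor
  · linarith [h6.2]
  · linarith [h6.1]

lemma z_le {z : ℕ → ℕ}
    (lev : Tendsto (fun n : ℕ => Real.log (z n) / Real.log (Real.log n)) atTop (𝓝 1)) :
    ∀ᶠ n : ℕ in atTop, (z n : ℝ) ≤ Real.log n ^ 2 := by
  filter_upwards [lev.eventually_le_const (show (1 : ℝ) < 2 by norm_num),
    ll_tend.eventually_ge_atTop 1, GUPx.log_tend.eventually_ge_atTop 1,
    (z_tend lev).eventually_ge_atTop 1] with n h1 h2 h3 h4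
  rw [div_le_iff₀ (by linarith)] at h1
  have h5 : (1 : ℝ) ≤ z n := by exact_mod_cast h4
  have h6 : Real.log (z n) ≤ Real.log (Real.log n ^ 2) := by
    rw [Real.log_pow]
    push_cast
    exact h1
  exact (Real.log_le_log_iff (by linarith) (by positivity)).1 h6

section main

variable {Ω : Type} [MeasurableSpace Ω] {P : Measure Ω} {A : ℕ → Set Ω} {z : ℕ → ℕ}
  {k : ℕ} {c d : Fin k → ℕ}

/-- the normalised expected number tends to `V`, uniformly -/
lemma mean_lim (hF : S_FND) (hSN : S_SNG) (hM : S_MERT) (hI : S_IND) (hG : GMod P A z)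
    (hS : Sys c d) {V : ℝ} (hV : 0 < V) (hVV : Tendsto (fun v : ℕ => VV c d v) atTop (𝓝 V))
    {κ ε1 : ℝ} (hκ : 0 < κ) (hε1 : 0 < ε1) : ∀ᶠ n : ℕ in atTop, ∀ U : ℕ, (n : ℝ) ^ κ ≤ U → U ≤ n →
    (∑ j ∈ Finset.range U, (P (Hit c d A (n + j + 1))).toReal) ≤ (V + ε1) * (U / Real.log n ^ k) ∧
    (V - ε1) * (U / Real.log n ^ k) ≤
      ∑ j ∈ Finset.range U, (P (Hit c d A (n + j + 1))).toReal := by
  -- the choice of `ε`
  obtain ⟨ε, hε, hεlt, hup, hdn⟩ : ∃ ε : ℝ, 0 < ε ∧ ε < 1 ∧ (1 + ε) ^ (k + 1) * (V + ε) ≤ V + ε1 ∧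
      V - ε1 ≤ (1 - ε) ^ (k + 1) * (V - ε) := by
    have t1 : Tendsto (fun x : ℝ => (1 + x) ^ (k + 1) * (V + x)) (𝓝[>] 0)
        (𝓝 ((1 + 0) ^ (k + 1) * (V + 0))) := by
      have : Continuous (fun x : ℝ => (1 + x) ^ (k + 1) * (V + x)) := by fun_prop
      exact this.continuousAt.tendsto.mono_left nhdsWithin_le_nhds
    have t2 : Tendsto (fun x : ℝ => (1 - x) ^ (k + 1) * (V - x)) (𝓝[>] 0)
        (𝓝 ((1 - 0) ^ (k + 1) * (V - 0))) := by
      have : Continuous (fun x : ℝ => (1 - x) ^ (k + 1) * (V - x)) := by fun_prop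
      exact this.continuousAt.tendsto.mono_left nhdsWithin_le_nhds
    have e1 : ((1 : ℝ) + 0) ^ (k + 1) * (V + 0) < V + ε1 := by simp; exact hε1
    have e2 : V - ε1 < ((1 : ℝ) - 0) ^ (k + 1) * (V - 0) := by simp; exact hε1
    have a1 := t1.eventually_le_const e1
    have a2 := t2.eventually_const_le e2
    have a3 : ∀ᶠ x : ℝ in 𝓝[>] 0, 0 < x := self_mem_nhdsWithin
    have a4 : ∀ᶠ x : ℝ in 𝓝[>] 0, x < 1 :=
      (eventually_lt_nhds (show (0 : ℝ) < 1 by norm_num)).filter_mono nhdsWithin_le_nhds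
    obtain ⟨x, h1, h2, h3, h4⟩ := (a1.and (a2.and (a3.and a4))).exists
    exact ⟨x, h3, h4, h1, h2⟩
  obtain ⟨v0, hsv⟩ := sieve hF hSN hM hS hε hκ
  have hexp := expect hM hI hG hS hε hεlt
  have hz := z_tend hG.lev
  have hBpos : 1 ≤ BB c d := by
    unfold BB
    have h1 := hS.one
    have h2 := hS.pos ⟨0, by omega⟩
    have h3 : c ⟨0, by omega⟩ ≤ ∑ i, c i :=
      Finset.single_le_sum (fun _ _ => Nat.zero_le _) (Finset.mem_univ _)
    omega
  have hBn : Tendsto (fun n : ℕ => BB c d * n) atTop atTop :=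
    tendsto_id.const_mul_atTop' (by omega)
  have hpair : Tendsto (fun n : ℕ => (n, BB c d * n)) atTop (FB (BB c d)) := by
    refine tendsto_inf.2 ⟨tendsto_id.prodMk hBn, ?_⟩
    rw [tendsto_principal]
    filter_upwards with n
    exact ⟨Nat.le_mul_of_pos_left n (by omega), le_rfl⟩
  have hVn : Tendsto (fun n : ℕ => VV c d (z n)) atTop (𝓝 V) := hVV.comp hz
  have hVZ : Tendsto (fun n : ℕ => VV c d (z (BB c d * n)) *
      ((MM (z (BB c d * n)) / MM (z n))⁻¹) ^ k) atTop (𝓝 V) := by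
    have h1 := (hVV.comp (hz.comp hBn)).mul
      ((((mm_ratio hM hG.lev (BB c d)).comp hpair).inv₀ one_ne_zero).pow k)
    rw [inv_one, one_pow, mul_one] at h1
    exact h1
  have hlogB : ∀ᶠ n : ℕ in atTop, Real.log ((BB c d * n : ℕ) : ℝ) ≤ 2 * Real.log n := by
    have h1 := ((log_ratio (BB c d)).comp hpair).eventually_le_const (show (1 : ℝ) < 2 by norm_num)
    filter_upwards [h1, GUPx.log_tend.eventually_ge_atTop 1] with n h2 h3
    simp only [Function.comp] at h2
    rwa [div_le_iff₀ (by linarith)] at h2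
  filter_upwards [hsv, hexp, z_le hG.lev, hBn.eventually (z_le hG.lev), hlogB,
    hVn.eventually_le_const (show V < V + ε by linarith),
    hVZ.eventually_const_le (show V - ε < V by linarith),
    hz.eventually_ge_atTop v0, (hz.comp hBn).eventually_ge_atTop v0,
    GUPx.log_tend.eventually_ge_atTop 1, eventually_ge_atTop 1]
    with n s1 s2 s3 s4 s5 s6 s7 s8 s9 s10 s11 U hU1 hU2
  obtain ⟨L, hL⟩ : ∃ L : ℝ, L = Real.log n := ⟨_, rfl⟩
  rw [← hL] at s1 s2 s3 s5 s10 ⊢
  obtain ⟨Ex, hEx⟩ : ∃ Ex : ℝ, Ex = ∑ j ∈ Finset.range U, (P (Hit c d A (n + j + 1))).toReal :=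
    ⟨_, rfl⟩
  have hL0 : 0 < L := by linarith
  have hMn := BTaux.MM_pos (z n)
  have hMZ := BTaux.MM_pos (z (BB c d * n))
  have s2' := s2 U hU2
  rw [← hEx] at s2' ⊢
  have hzn : (z n : ℝ) ≤ 4 * L ^ 2 := by nlinarith
  have hzZ : (z (BB c d * n) : ℝ) ≤ 4 * L ^ 2 := by
    refine s4.trans ?_
    have h0 : 0 ≤ Real.log ((BB c d * n : ℕ) : ℝ) := Real.log_nonneg (by
      exact_mod_cast Nat.mul_pos (by omega) (by omega))
    nlinarith
  have v1 := s1 (z n) U n s8 hzn hU1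
  have v2 := s1 (z (BB c d * n)) U n s9 hzZ hU1
  have hVn' : VV c d (z n) = WW c d (z n) * MM (z n) ^ k := rfl
  have hVZ' : VV c d (z (BB c d * n)) = WW c d (z (BB c d * n)) * MM (z (BB c d * n)) ^ k := rfl
  have hU0 : (0 : ℝ) ≤ U := Nat.cast_nonneg _
  have hfac : (L / MM (z n)) ^ k * (MM (z n) / L) ^ k = 1 := by
    rw [← mul_pow]
    have : L / MM (z n) * (MM (z n) / L) = 1 := by field_simp
    rw [this, one_pow]
  have hExe : Ex = Ex * (L / MM (z n)) ^ k * (MM (z n) / L) ^ k := by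
    rw [mul_assoc, hfac, mul_one]
  have hq0 : 0 ≤ (MM (z n) / L) ^ k := by positivity
  constructor
  · rw [hExe]
    calc Ex * (L / MM (z n)) ^ k * (MM (z n) / L) ^ k
        ≤ (1 + ε) ^ k * sy c d (z n) n U * (MM (z n) / L) ^ k :=
          mul_le_mul_of_nonneg_right s2'.1 hq0
      _ ≤ (1 + ε) ^ k * ((1 + ε) * (U * WW c d (z n))) * (MM (z n) / L) ^ k := by
          refine mul_le_mul_of_nonneg_right (mul_le_mul_of_nonneg_left v1.1 (by positivity)) hq0
      _ = (1 + ε) ^ (k + 1) * VV c d (z n) * (U / L ^ k) := by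
          rw [hVn', pow_succ, div_pow]
          field_simp
      _ ≤ (1 + ε) ^ (k + 1) * (V + ε) * (U / L ^ k) := by
          refine mul_le_mul_of_nonneg_right (mul_le_mul_of_nonneg_left s6 (by positivity))
            (by positivity)
      _ ≤ (V + ε1) * (U / L ^ k) := mul_le_mul_of_nonneg_right hup (by positivity)
  · rw [hExe]
    have h1e : 0 ≤ 1 - ε := by linarith
    calc (V - ε1) * (U / L ^ k) ≤ (1 - ε) ^ (k + 1) * (V - ε) * (U / L ^ k) :=
          mul_le_mul_of_nonneg_right hdn (by positivity)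
      _ ≤ (1 - ε) ^ (k + 1) * (VV c d (z (BB c d * n)) *
            ((MM (z (BB c d * n)) / MM (z n))⁻¹) ^ k) * (U / L ^ k) := by
          refine mul_le_mul_of_nonneg_right (mul_le_mul_of_nonneg_left s7 (by positivity))
            (by positivity)
      _ = (1 - ε) ^ k * ((1 - ε) * (U * WW c d (z (BB c d * n)))) * (MM (z n) / L) ^ k := by
          rw [hVZ', pow_succ, div_pow, inv_div, div_pow]
          field_simp
      _ ≤ (1 - ε) ^ k * sy c d (z (BB c d * n)) n U * (MM (z n) / L) ^ k := by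
          refine mul_le_mul_of_nonneg_right (mul_le_mul_of_nonneg_left v2.2 (by positivity)) hq0
      _ ≤ Ex * (L / MM (z n)) ^ k * (MM (z n) / L) ^ k :=
          mul_le_mul_of_nonneg_right s2'.2 hq0

/-- the almost sure statement for one `ε` -/
lemma one_eps (hF : S_FND) (hSN : S_SNG) (hM : S_MERT) (hI : S_IND) (hLD : S_LDU) (hG : GMod P A z)
    (hS : Sys c d) {V : ℝ} (hV : 0 < V) (hVV : Tendsto (fun v : ℕ => VV c d v) atTop (𝓝 V))
    {κ ε : ℝ} (hκ : 0 < κ) (hε : 0 < ε) (hεV : ε ≤ V / 2) :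
    ∀ᵐ ω ∂P, ∀ᶠ n : ℕ in atTop, ∀ U : ℕ, (n : ℝ) ^ κ ≤ U → U ≤ n →
      |(ht c d A ω n U : ℝ) * Real.log n ^ k / U - V| ≤ ε := by
  classical
  obtain ⟨n0, -, hind⟩ := hI Ω P A z hG k c d hS
  -- parameters
  obtain ⟨t, ht⟩ : ∃ t : ℝ, t = (ε / 4) / (V + ε / 2) := ⟨_, rfl⟩
  obtain ⟨s, hs⟩ : ∃ s : ℝ, s = (ε / 4) / (V - ε / 2) := ⟨_, rfl⟩
  have hVe : 0 < V - ε / 2 := by linarith
  have ht0 : 0 < t := by rw [ht]; positivity
  have hs0 : 0 < s := by rw [hs]; positivity
  have hs1 : s < 1 := by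
    rw [hs, div_lt_one hVe]
    linarith
  have ht' : t * (V + ε / 2) = ε / 4 := by
    rw [ht]
    exact div_mul_cancel₀ _ (by positivity)
  have hs' : s * (V - ε / 2) = ε / 4 := by
    rw [hs]
    exact div_mul_cancel₀ _ hVe.ne'
  have hη1 : t * (ε / 4) / (1 + t) ≤ (V + ε) * Real.log (1 + t) - t * (V + ε / 2) := by
    have h1 := Real.one_sub_inv_le_log_of_pos (show 0 < 1 + t by linarith)
    have h2 : (V + ε) * (1 - (1 + t)⁻¹) ≤ (V + ε) * Real.log (1 + t) :=
      mul_le_mul_of_nonneg_left h1 (by linarith)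
    have h3 : (V + ε) * (1 - (1 + t)⁻¹) - t * (V + ε / 2) = t * (ε / 4) / (1 + t) := by
      have h0 : (1 + t) ≠ 0 := by positivity
      have h4 : 1 - (1 + t)⁻¹ = t / (1 + t) := by
        field_simp
        ring
      rw [h4, eq_div_iff h0]
      have h5 : ((V + ε) * (t / (1 + t)) - t * (V + ε / 2)) * (1 + t) =
          (V + ε) * t - t * (V + ε / 2) * (1 + t) := by
        rw [sub_mul, mul_assoc (V + ε), div_mul_cancel₀ _ h0]
      rw [h5]
      linear_combination (-t) * ht'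
    linarith
  have hη2 : s * (ε / 4) / (1 - s) ≤ (V - ε) * Real.log (1 - s) + s * (V - ε / 2) := by
    have h1 := Real.one_sub_inv_le_log_of_pos (show 0 < 1 - s by linarith)
    have h2 : (V - ε) * (1 - (1 - s)⁻¹) ≤ (V - ε) * Real.log (1 - s) :=
      mul_le_mul_of_nonneg_left h1 (by linarith)
    have h3 : (V - ε) * (1 - (1 - s)⁻¹) + s * (V - ε / 2) = s * (ε / 4) / (1 - s) := by
      have h0 : (1 - s) ≠ 0 := by linarith
      have h4 : 1 - (1 - s)⁻¹ = -s / (1 - s) := by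
        field_simp
        ring
      rw [h4, eq_div_iff h0]
      have h5 : ((V - ε) * (-s / (1 - s)) + s * (V - ε / 2)) * (1 - s) =
          (V - ε) * (-s) + s * (V - ε / 2) * (1 - s) := by
        rw [add_mul, mul_assoc (V - ε), div_mul_cancel₀ _ h0]
      rw [h5]
      linear_combination (-s) * hs'
    linarith
  obtain ⟨η, hη⟩ : ∃ η : ℝ, η = min (t * (ε / 4) / (1 + t)) (s * (ε / 4) / (1 - s)) := ⟨_, rfl⟩
  have hη0 : 0 < η := by
    rw [hη]
    refine lt_min (by positivity) (div_pos (by positivity) (by linarith))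
  have hηa : η ≤ (V + ε) * Real.log (1 + t) - t * (V + ε / 2) :=
    (hη.le.trans (min_le_left _ _)).trans hη1
  have hηb : η ≤ (V - ε) * Real.log (1 - s) + s * (V - ε / 2) :=
    (hη.le.trans (min_le_right _ _)).trans hη2
  have key : ∀ᵐ ω ∂P, ∀ᶠ n : ℕ in atTop,
      ω ∉ ⋃ U ∈ (Finset.range (n + 1)).filter (fun U : ℕ => (n : ℝ) ^ κ ≤ U),
        ({ω | (V + ε) * (U / Real.log n ^ k) ≤ (NN (Finset.Ioc n (n + U)) (Hit c d A) ω : ℝ)} ∪
         {ω | (NN (Finset.Ioc n (n + U)) (Hit c d A) ω : ℝ) ≤ (V - ε) * (U / Real.log n ^ k)}) := by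
    refine GUPx.bc (δ := 1) one_pos ?_
    filter_upwards [mean_lim hF hSN hM hI hG hS hV hVV hκ (show 0 < ε / 2 by positivity),
      log_small (k + 1) hκ (show 0 < η / 4 by positivity), eventually_ge_atTop (n0 + 4),
      GUPx.log_tend.eventually_ge_atTop 1] with n g1 g2 g3 g4
    obtain ⟨L, hL⟩ : ∃ L : ℝ, L = Real.log n := ⟨_, rfl⟩
    rw [← hL] at g1 g2 g4 ⊢
    have hL0 : 0 < L := by linarith
    have hn4 : (4 : ℝ) ≤ n := by exact_mod_cast (by omega : 4 ≤ n)
    have hone : ∀ U ∈ (Finset.range (n + 1)).filter (fun U : ℕ => (n : ℝ) ^ κ ≤ U),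
        P ({ω | (V + ε) * (U / L ^ k) ≤ (NN (Finset.Ioc n (n + U)) (Hit c d A) ω : ℝ)} ∪
         {ω | (NN (Finset.Ioc n (n + U)) (Hit c d A) ω : ℝ) ≤ (V - ε) * (U / L ^ k)}) ≤
        ENNReal.ofReal (2 * Real.exp (-(4 * L))) := by
      intro U hU
      rw [Finset.mem_filter, Finset.mem_range] at hU
      have hUn : U ≤ n := by omega
      obtain ⟨m1, m2⟩ := g1 U hU.2 hUn
      have hMU : 4 * L ≤ η * (U / L ^ k) := by
        have e1 : 4 * L ^ (k + 1) ≤ η * U := by
          have e2 : η * (n : ℝ) ^ κ ≤ η * U := mul_le_mul_of_nonneg_left hU.2 hη0.le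
          linarith
        have e3 : η * (U / L ^ k) = η * U / L ^ k := by ring
        rw [e3, le_div_iff₀ (by positivity)]
        rw [pow_succ] at e1
        linarith
      have hMU0 : (0 : ℝ) ≤ U / L ^ k := by positivity
      obtain ⟨Mu, hMu⟩ : ∃ Mu : ℝ, Mu = U / L ^ k := ⟨_, rfl⟩
      rw [← hMu] at m1 m2 hMU hMU0 ⊢
      have hiS := GUPx.indS (hind n (by omega)) hUn
      have hsum := GUPx.sum_eq (fun m => (P (Hit c d A m)).toReal) n U
      have hA := (hLD Ω P hG.prob (Finset.Ioc n (n + U)) (Hit c d A)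
        (fun m => GUPx.hit_meas hG m) hiS t ((V + ε) * Mu) (by linarith)).1 ht0
      have hB := (hLD Ω P hG.prob (Finset.Ioc n (n + U)) (Hit c d A)
        (fun m => GUPx.hit_meas hG m) hiS (-s) ((V - ε) * Mu) (by linarith)).2 (by linarith)
      rw [hsum] at hA hB
      have hA' : P {ω | (V + ε) * Mu ≤ (NN (Finset.Ioc n (n + U)) (Hit c d A) ω : ℝ)} ≤
          ENNReal.ofReal (Real.exp (-(4 * L))) := by
        refine hA.trans (ENNReal.ofReal_le_ofReal (Real.exp_le_exp.2 ?_))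
        have e1 := mul_le_mul_of_nonneg_left m1 ht0.le
        have e2 := mul_le_mul_of_nonneg_right hηa hMU0
        have e3 : ((V + ε) * Real.log (1 + t) - t * (V + ε / 2)) * Mu =
          (V + ε) * Mu * Real.log (1 + t) - t * ((V + ε / 2) * Mu) := by ring
        rw [e3] at e2
        linarith
      have hB' : P {ω | (NN (Finset.Ioc n (n + U)) (Hit c d A) ω : ℝ) ≤ (V - ε) * Mu} ≤
          ENNReal.ofReal (Real.exp (-(4 * L))) := by
        refine hB.trans (ENNReal.ofReal_le_ofReal (Real.exp_le_exp.2 ?_))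
        have e1 := mul_le_mul_of_nonneg_left m2 hs0.le
        have e2 := mul_le_mul_of_nonneg_right hηb hMU0
        have e3 : ((V - ε) * Real.log (1 - s) + s * (V - ε / 2)) * Mu =
          (V - ε) * Mu * Real.log (1 - s) + s * ((V - ε / 2) * Mu) := by ring
        rw [e3] at e2
        have e4 : 1 + -s = 1 - s := by ring
        rw [e4]
        linarith
      refine (measure_union_le _ _).trans ((add_le_add hA' hB').trans (le_of_eq ?_))
      rw [← ENNReal.ofReal_add (Real.exp_pos _).le (Real.exp_pos _).le]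
      congr 1
      ring
    refine (measure_biUnion_finset_le _ _).trans ((Finset.sum_le_sum hone).trans ?_)
    rw [Finset.sum_const, nsmul_eq_mul]
    have hcard : ((((Finset.range (n + 1)).filter (fun U : ℕ => (n : ℝ) ^ κ ≤ U)).card : ℕ) : ℝ≥0∞) ≤
        ENNReal.ofReal (n + 1) := by
      have h1 := Finset.card_filter_le (Finset.range (n + 1)) (fun U : ℕ => (n : ℝ) ^ κ ≤ U)
      rw [Finset.card_range] at h1
      have h2 : ENNReal.ofReal ((n : ℝ) + 1) = ((n + 1 : ℕ) : ℝ≥0∞) := by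
        rw [← Nat.cast_succ, ENNReal.ofReal_natCast]
      rw [h2]
      exact_mod_cast h1
    refine (mul_le_mul' hcard le_rfl).trans ?_
    rw [← ENNReal.ofReal_mul (by positivity)]
    refine ENNReal.ofReal_le_ofReal ?_
    have hexpL : Real.exp L = n := by rw [hL, Real.exp_log (by linarith)]
    have e1 : Real.exp (-(4 * L)) = Real.exp (-((1 + 1) * L)) * (Real.exp L ^ 2)⁻¹ := by
      rw [← Real.exp_nat_mul, ← Real.exp_neg, ← Real.exp_add]
      congr 1
      push_cast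
      ring
    rw [e1, hexpL]
    have e2 : 0 < Real.exp (-((1 + 1) * L)) := Real.exp_pos _
    have e3 : ((n : ℝ) + 1) * (2 * (Real.exp (-((1 + 1) * L)) * ((n : ℝ) ^ 2)⁻¹)) =
        Real.exp (-((1 + 1) * L)) * ((2 * ((n : ℝ) + 1)) / (n : ℝ) ^ 2) := by
      field_simp
    rw [e3]
    have e4 : (2 * ((n : ℝ) + 1)) / (n : ℝ) ^ 2 ≤ 1 := by
      rw [div_le_one (by positivity)]
      nlinarith
    calc _ ≤ Real.exp (-((1 + 1) * L)) * 1 := mul_le_mul_of_nonneg_left e4 e2.le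
      _ = _ := mul_one _
  filter_upwards [key] with ω hω
  filter_upwards [hω, GUPx.log_tend.eventually_ge_atTop 1, eventually_ge_atTop 1] with n h1 h2 h3 U hU1 hU2
  obtain ⟨L, hL⟩ : ∃ L : ℝ, L = Real.log n := ⟨_, rfl⟩
  rw [← hL] at h1 h2 ⊢
  have hL0 : 0 < L := by linarith
  have hU0 : (0 : ℝ) < U := by
    refine lt_of_lt_of_le ?_ hU1
    have : (0 : ℝ) < n := by exact_mod_cast h3
    positivity
  simp only [Set.mem_iUnion, Set.mem_union, Set.mem_setOf_eq, not_exists, not_or, not_le] at h1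
  have h4 := h1 U (Finset.mem_filter.2 ⟨Finset.mem_range.2 (by omega), hU1⟩)
  rw [GUPx.ht_eq]
  obtain ⟨X, hX⟩ : ∃ X : ℝ, X = (NN (Finset.Ioc n (n + U)) (Hit c d A) ω : ℝ) := ⟨_, rfl⟩
  rw [← hX] at h4 ⊢
  have hLk : 0 < L ^ k := by positivity
  rw [abs_le]
  have e1 : X * L ^ k / U - V = (X - V * (U / L ^ k)) * (L ^ k / U) := by
    field_simp
  have e2 : (U / L ^ k) * (L ^ k / U) = 1 := by field_simp
  rw [e1]
  constructor
  · have : -ε * (U / L ^ k) ≤ X - V * (U / L ^ k) := by linarith [h4.2]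
    calc -ε = -ε * (U / L ^ k) * (L ^ k / U) := by rw [mul_assoc, e2, mul_one]
      _ ≤ _ := mul_le_mul_of_nonneg_right this (by positivity)
  · have : X - V * (U / L ^ k) ≤ ε * (U / L ^ k) := by linarith [h4.1]
    calc _ ≤ ε * (U / L ^ k) * (L ^ k / U) := mul_le_mul_of_nonneg_right this (by positivity)
      _ = ε := by rw [mul_assoc, e2, mul_one]

end main

end CUBx

open CUBx in
/-- CUB, with the convergence of the truncated singular series as a hypothesis -/
theorem cub : S_FND → S_SNG → S_IND → S_LDU → S_MERT → S_VLM → S_CUB := by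
  intro hF hSN hI hLD hM hVL Ω _ P A z hG k c d hS κ hκ
  obtain ⟨V, hV, hVV⟩ := hVL k c d hS
  have hall : ∀ᵐ ω ∂P, ∀ j : ℕ, ∀ᶠ n : ℕ in atTop, ∀ U : ℕ, (n : ℝ) ^ κ ≤ U → U ≤ n →
      |(ht c d A ω n U : ℝ) * Real.log n ^ k / U - V| ≤ min (V / 2) (1 / ((j : ℝ) + 1)) := by
    rw [ae_all_iff]
    intro j
    exact one_eps hF hSN hM hI hLD hG hS hV hVV hκ (lt_min (by positivity) (by positivity))
      (min_le_left _ _)
  have hVn : Tendsto (fun n : ℕ => VV c d (z n)) atTop (𝓝 V) := hVV.comp (z_tend hG.lev)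
  filter_upwards [hall] with ω hω ε hε
  obtain ⟨j, hj⟩ := exists_nat_one_div_lt (show 0 < ε / 2 by positivity)
  filter_upwards [hω j, Metric.tendsto_nhds.1 hVn (ε / 2) (by positivity)] with n h1 h2 U hU1 hU2
  have h3 := (h1 U hU1 hU2).trans (min_le_right _ _)
  rw [Real.dist_eq] at h2
  have h4 : (ht c d A ω n U : ℝ) * Real.log n ^ k / U - VV c d (z n) =
      ((ht c d A ω n U : ℝ) * Real.log n ^ k / U - V) - (VV c d (z n) - V) := by ring
  rw [h4]
  refine (abs_sub _ _).trans ?_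
  linarith

end Pool.Agent.H50.GW
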