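import Pool.Agent.H50.GW.Stm

/-!
# Project GW, one more stub: long windows in Granville's model
-/

set_option autoImplicit false

open MeasureTheory Filter ProbabilityTheory
open scoped Topology ENNReal

namespace Pool.Agent.H50.GW

open Pool.Agent.H50.BF

/-- the truncated singular series -/
noncomputable def VV {k : ℕ} (c d : Fin k → ℕ) (v : ℕ) : ℝ :=
  (∏ p ∈ (Finset.Icc 1 v).filter Nat.Prime, (1 - (nu c d p : ℝ) / p)) * MM v ^ k

/-- CUB (about 250 lines; uses FND, SNG, IND, LDU, BF.S_MERT).  In windows of length `U ≥ n^κ` the number of hits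
is asymptotic to `𝔖 U / (log n)^k`, almost surely.
Proof.  As in EXPW, `MM (z n') / MM (z n) → 1` and `log n' / log n → 1` uniformly for `n ≤ n' ≤ B n`, so for
`n < m ≤ 2 n` and `m` a candidate (all `c i m + d i` are `Rou (z ..)`) `P (Hit m) (log n / MM (z n))^k` is within `ε'` of `1`,
otherwise `Hit m = ∅`.  So the expectation `E` of `ht n U` lies between `(1 - ε') (MM (z n) / log n)^k sy c d Z n U`,
`Z = z (B n)`, and `(1 + ε') (MM (z n) / log n)^k sy c d (z n) n U`.  `z n, Z ≤ (log n)^2`, `U ≥ n^κ`: by FND (with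
`c = k`, `ε'`, `x = y^K`, `y = z n` or `Z`, system `Q p j = (p ∣ some c i (n + j) + d i)`, number of classes `nu p`)
`sy c d v n U = (1 ± 2 ε') U ∏_{p ≤ v} (1 - nu p / p)` (the term `√x = y^(K/2)` is `≤ ε' U ∏`, by SNG
`∏ ≥ c0 / MM v^k`, `MM v ≤ log n`), `v = z n, Z`; `VV Z / VV (z n) → 1`: `VV` converges... (only needed:
`sy c d Z n U ≥ (1 - ε') ` times the same expression with `z n`; since `∏_{z n < p ≤ Z} (1 - nu p / p) ≥
(MM (z n) / MM Z)^(2k) → 1` for large `n`, because `1 - k/p ≥ (1 - 1/p)^(2k)` for `p ≥ 2k`).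
So `E = (1 ± 10 ε') VV (z n) U / (log n)^k ≥ n^(κ/2)`.  LDU with small `t = ± ε'`-order:
`P (|ht - E| > ε'' E) ≤ 2 exp (-c(ε'') E) ≤ 2 exp (-c n^(κ/2))`; at most `n` values of `U`; Borel-Cantelli. -/
def S_CUB : Prop := ∀ (Ω : Type) [MeasurableSpace Ω] (P : Measure Ω) (A : ℕ → Set Ω) (z : ℕ → ℕ), GMod P A z →
  ∀ (k : ℕ) (c d : Fin k → ℕ), Sys c d → ∀ κ : ℝ, 0 < κ → ∀ᵐ ω ∂P, ∀ ε : ℝ, 0 < ε → ∀ᶠ n : ℕ in atTop,
  ∀ U : ℕ, (n : ℝ) ^ κ ≤ U → U ≤ n →
    |(ht c d A ω n U : ℝ) * Real.log n ^ k / U - VV c d (z n)| ≤ ε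

/-- VLM (about 100 lines; uses SNG).  The truncated singular series converges to a positive limit: for `v < p`, `p`
large the factors are `1 + O(1/p²)` (see SNG), so the logarithms form a Cauchy sequence. -/
def S_VLM : Prop := ∀ (k : ℕ) (c d : Fin k → ℕ), Sys c d → ∃ V : ℝ, 0 < V ∧ Tendsto (fun v : ℕ => VV c d v) atTop (𝓝 V)

end Pool.Agent.H50.GW
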