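import Pool.Agent.H50.GW.FIN
import Pool.Agent.H50.GW.StmB

set_option autoImplicit false

open MeasureTheory Filter ProbabilityTheory
open scoped Topology ENNReal

namespace Pool.Agent.H50.GW

open Pool.Agent.H50.BF Pool.Agent.H50.CW

lemma Rou_iff (w n : ℕ) : (∀ p : ℕ, p.Prime → p ∣ n → w < p) ↔ Rou w n := by
  unfold Rou
  constructor
  · intro h p hp hpw hd
    exact absurd (h p hp hd) (not_lt.2 hpw)
  · intro h p hp hd
    by_contra hcon
    push Not at hcon
    exact h p hp hcon hd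

/-- `∏_{p ≤ y} (1 - 1/p)` -/
noncomputable def mert1 (y : ℕ) : ℝ := ∏ p ∈ (Finset.Icc 1 y).filter Nat.Prime, (1 - (p : ℝ)⁻¹)

lemma mert1_MM (w : ℕ) : mert1 w = (MM w)⁻¹ := by
  unfold mert1 MM
  rw [Finset.prod_inv_distrib, inv_inv]

lemma sy_ncard {k : ℕ} (c d : Fin k → ℕ) (v n U : ℕ) :
    sy c d v n U = Set.ncard {m : ℕ | (∀ i, Rou v (c i * m + d i)) ∧ n < m ∧ m ≤ n + U} := by
  classical
  have h : {m : ℕ | (∀ i, Rou v (c i * m + d i)) ∧ n < m ∧ m ≤ n + U} =
      (((Finset.range U).filter (fun j => ∀ i : Fin k, Rou v (c i * (n + j + 1) + d i))).image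
        (fun j => n + j + 1) : Finset ℕ) := by
    ext m
    simp only [Set.mem_ofPred_eq, Finset.coe_image, Set.mem_image, Finset.mem_coe, Finset.mem_filter, Finset.mem_range]
    constructor
    · rintro ⟨h3, h1, h2⟩
      refine ⟨m - n - 1, ⟨by omega, ?_⟩, by omega⟩
      rw [show n + (m - n - 1) + 1 = m by omega]
      exact h3
    · rintro ⟨j, ⟨h1, h2⟩, rfl⟩
      exact ⟨h2, by omega, by omega⟩
  rw [h, Set.ncard_coe_finset, Finset.card_image_of_injective _ (fun x y h => by simpa using h)]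
  unfold sy
  congr

/-- the density of a pattern -/
noncomputable def gd {k : ℕ} (c d : Fin k → ℕ) (w t : ℕ) : ℝ :=
  (Set.ncard {m : ℕ | (∀ i, Rou w (c i * m + d i)) ∧ t < m ∧ m ≤ t + w ^ (k + 1)} : ℝ) /
    ((w : ℝ) ^ (k + 1) * mert1 w ^ k)

lemma gd_DS {k : ℕ} (c d : Fin k → ℕ) (w t : ℕ) : gd c d w t = DS c d w t (w ^ (k + 1)) := by
  unfold gd DS
  rw [← sy_ncard, mert1_MM, inv_pow, ← div_div, div_inv_eq_mul]
  push_cast
  ring

lemma liminf_gd {k : ℕ} (c d : Fin k → ℕ) :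
    liminf (fun w : ℕ => ⨅ t : ℕ, ENNReal.ofReal (gd c d w t)) atTop = slk c d := by
  unfold slk
  congr 1
  funext w
  have h : lok c d w = ⨅ t : ℕ, gd c d w t := by
    unfold lok
    exact iInf_congr fun t => (gd_DS c d w t).symm
  rw [h]
  refine (Monotone.map_ciInf_of_continuousAt ENNReal.continuous_ofReal.continuousAt
    (fun _ _ h => ENNReal.ofReal_le_ofReal h) ?_).symm
  rw [show gd c d w = fun t => DS c d w t (w ^ (k + 1)) from funext (gd_DS c d w)]
  exact bddBk c d w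

lemma limsup_gd {k : ℕ} (c d : Fin k → ℕ) :
    limsup (fun w : ℕ => ⨆ t : ℕ, ENNReal.ofReal (gd c d w t)) atTop = shk c d := by
  unfold shk
  congr 1
  funext w
  have h : hik c d w = ⨆ t : ℕ, gd c d w t := by
    unfold hik
    exact iSup_congr fun t => (gd_DS c d w t).symm
  rw [h]
  refine (Monotone.map_ciSup_of_continuousAt ENNReal.continuous_ofReal.continuousAt
    (fun _ _ h => ENNReal.ofReal_le_ofReal h) ?_).symm
  rw [show gd c d w = fun t => DS c d w t (w ^ (k + 1)) from funext (gd_DS c d w)]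
  exact bddAk c d w

lemma dn_pos {l : ℝ} (hl : 1 < l) : 0 < dn l := by
  have h1 : Tendsto (fun u : ℝ => u * Real.log u - u * Real.log l - u + l) (𝓝 0) (𝓝 (0 * Real.log 0 - 0 * Real.log l - 0 + l)) := by
    have : Continuous fun u : ℝ => u * Real.log u - u * Real.log l - u + l :=
      ((Real.continuous_mul_log.sub (continuous_id.mul continuous_const)).sub continuous_id).add continuous_const
    exact this.tendsto 0
  have h2 : ∀ᶠ u : ℝ in 𝓝 0, 1 < u * Real.log u - u * Real.log l - u + l :=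
    h1.eventually (lt_mem_nhds (by simpa using hl))
  obtain ⟨r, hr, h3⟩ := Metric.eventually_nhds_iff.1 h2
  have h4 : r ≤ dn l := by
    refine le_csInf ⟨l, by linarith, ?_⟩ ?_
    · rw [div_self (by linarith), Real.log_one]
      linarith
    · rintro u ⟨hu0, hu1⟩
      by_contra hur
      push Not at hur
      have h5 := @h3 u (by rw [Real.dist_eq, sub_zero, abs_of_nonneg hu0]; exact hur)
      rcases hu0.eq_or_lt with h | h
      · rw [← h] at hu1
        simp at hu1
        linarith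
      · rw [Real.log_div h.ne' (by linarith)] at hu1
        linarith
  linarith

lemma ev_pos {f : ℝ → ℕ} {l : ℝ} (hl : 1 < l)
    (h : liminf (fun x : ℝ => ENNReal.ofReal (f x / Real.log x)) atTop = ENNReal.ofReal (dn l)) :
    ∀ᶠ x : ℝ in atTop, 0 < f x := by
  have h4 : (0 : ℝ≥0∞) < liminf (fun x : ℝ => ENNReal.ofReal (f x / Real.log x)) atTop := by
    rw [h]
    exact ENNReal.ofReal_pos.2 (dn_pos hl)
  filter_upwards [eventually_lt_of_lt_liminf h4 (by isBoundedDefault)] with x hx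
  by_contra hcon
  have h6 : f x = 0 := by omega
  rw [h6] at hx
  simp at hx

/-- the statement for a system, with an arbitrary counting function which agrees with `cntk` -/
theorem general' (hgup : S_GUP) (hgex : S_GEX) (hrate : S_RATE) (hhbk : S_HBK) {k : ℕ} {c d : Fin k → ℕ} (hs : Sys c d) :
    0 < shk c d ∧ shk c d < ∞ ∧ slk c d ≤ shk c d ∧
    ∀ (Ω : Type) [MeasurableSpace Ω] (P : Measure Ω) (A : ℕ → Set Ω) (z : ℕ → ℕ), GMod P A z →
    ∀ C : ℝ, 0 < C → ∀ᵐ ω ∂P,
      limsup (fun x : ℝ => ENNReal.ofReal (cntk c d {m | ω ∈ A m} x (C * Real.log x ^ (k + 1)) / Real.log x)) atTop =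
        ENNReal.ofReal (up (C * (shk c d).toReal)) ∧
      liminf (fun x : ℝ => ENNReal.ofReal (cntk c d {m | ω ∈ A m} x (C * Real.log x ^ (k + 1)) / Real.log x)) atTop =
        ENNReal.ofReal (dn (C * (slk c d).toReal)) ∧
      (C * (slk c d).toReal < 1 →
        ∃ᶠ x : ℝ in atTop, cntk c d {m | ω ∈ A m} x (C * Real.log x ^ (k + 1)) = 0) ∧
      (1 < C * (slk c d).toReal →
        ∀ᶠ x : ℝ in atTop, 0 < cntk c d {m | ω ∈ A m} x (C * Real.log x ^ (k + 1))) := by
  obtain ⟨h0, h1, h2, h3⟩ := general hgup hgex hrate hhbk hs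
  refine ⟨h0, h1, h2, fun Ω _ P A z hA C hC => ?_⟩
  filter_upwards [h3 Ω P A z hA C hC] with ω hω
  exact ⟨hω.1, hω.2.1, hω.2.2, fun h => ev_pos h hω.2.1⟩

end Pool.Agent.H50.GW
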