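import Pool.Agent.H50.GW.StmB
import Pool.Agent.H50.GW.SNG

/-!
# GW-VLM: the truncated singular series converges to a positive limit (helper75)
-/

set_option autoImplicit false

open MeasureTheory Filter ProbabilityTheory
open scoped Topology ENNReal

namespace Pool.Agent.H50.GW

open Pool.Agent.H50.BF

open SNGaux in
theorem vlm : S_SNG → S_VLM := by
  intro hS k c d hs
  obtain ⟨c0, C0, hc0, hb⟩ := hS k c d hs
  obtain ⟨f, hf⟩ : ∃ f : ℕ → ℝ, f = fun p => (1 - (nu c d p : ℝ) / p) * ((1 - (p : ℝ)⁻¹)⁻¹) ^ k := ⟨_, rfl⟩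
  have key : ∀ v : ℕ, VV c d v = PR f v := by
    intro v
    unfold VV PR MM
    rw [hf, ← Finset.prod_pow, ← Finset.prod_mul_distrib]
  obtain ⟨P0, hP0⟩ : ∃ P0 : ℕ, P0 = DD c d + 2 * k := ⟨_, rfl⟩
  have hle : ∀ p : ℕ, p.Prime → P0 < p → f p ≤ 1 := by
    intro p hp hpP
    rw [hf]
    simp only
    rw [nu_eq c d hs p hp (by omega)]
    exact (local_fac k p hs.one hp.two_le (by omega)).1
  have hlow : ∀ v, c0 ≤ PR f v := fun v => by rw [← key]; exact (hb v).1
  have hanti : Antitone (fun v => PR f (v + P0)) := by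
    refine antitone_nat_of_succ_le fun v => ?_
    have h1 : v + 1 + P0 = (v + P0) + 1 := by ring
    rw [h1, PR_succ]
    have h0 : 0 ≤ PR f (v + P0) := hc0.le.trans (hlow _)
    split_ifs with hp
    · by_cases hv : 0 < v + 1
      · have := hle _ hp (by omega)
        nlinarith
      · omega
    · rw [mul_one]
  have hbdd : BddBelow (Set.range fun v => PR f (v + P0)) := ⟨c0, by
    rintro _ ⟨v, rfl⟩
    exact hlow _⟩
  have ht := tendsto_atTop_ciInf hanti hbdd
  refine ⟨⨅ v, PR f (v + P0), lt_of_lt_of_le hc0 (le_ciInf fun v => hlow _), ?_⟩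
  have h2 : (fun v : ℕ => VV c d v) = PR f := funext key
  rw [h2]
  exact (tendsto_add_atTop_iff_nat P0).1 ht

end Pool.Agent.H50.GW
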