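import Pool.Agent.H50.GW.Stm

set_option autoImplicit false

open MeasureTheory Filter ProbabilityTheory
open scoped Topology ENNReal

namespace Pool.Agent.H50.GW

open Pool.Agent.H50.BF

namespace APK

theorem dvd_mod (q a b c : ℕ) : q ∣ c * (a % q) + b ↔ q ∣ c * a + b :=
  (((Nat.ModEq.mul_left c (Nat.mod_modEq a q)).add_right b).dvd_iff dvd_rfl)

theorem MM_pos (v : ℕ) : 0 < MM v := by
  unfold MM
  refine Finset.prod_pos fun p hp => ?_
  have hp2 : 2 ≤ p := (Finset.mem_filter.1 hp).2.two_le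
  have : (p : ℝ)⁻¹ ≤ 2⁻¹ := inv_anti₀ (by norm_num) (by exact_mod_cast hp2)
  refine inv_pos.2 ?_
  norm_num at this ⊢
  linarith

theorem nu_le {k : ℕ} (c d : Fin k → ℕ) (hc : ∀ i, 1 ≤ c i) (q : ℕ) (hq : q.Prime) :
    nu c d q ≤ k + ∑ i, c i := by
  classical
  unfold nu
  by_cases hle : q ≤ ∑ i, c i
  · calc _ ≤ (Finset.range q).card := Finset.card_filter_le _ _
      _ = q := Finset.card_range q
      _ ≤ _ := by omega
  · push Not at hle
    have hsub : (Finset.range q).filter (fun r => ∃ i : Fin k, q ∣ c i * r + d i) ⊆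
        (Finset.univ : Finset (Fin k)).biUnion
          (fun i => (Finset.range q).filter (fun r => q ∣ c i * r + d i)) := by
      intro r hr
      obtain ⟨h1, i, hi⟩ := Finset.mem_filter.1 hr
      exact Finset.mem_biUnion.2 ⟨i, Finset.mem_univ i, Finset.mem_filter.2 ⟨h1, hi⟩⟩
    have hone : ∀ i ∈ (Finset.univ : Finset (Fin k)),
        ((Finset.range q).filter (fun r => q ∣ c i * r + d i)).card ≤ 1 := by
      intro i _
      refine Finset.card_le_one.2 ?_
      intro a ha b hb
      obtain ⟨ha1, ha2⟩ := Finset.mem_filter.1 ha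
      obtain ⟨hb1, hb2⟩ := Finset.mem_filter.1 hb
      rw [Finset.mem_range] at ha1 hb1
      have hci : c i ≤ ∑ i, c i := Finset.single_le_sum (fun _ _ => Nat.zero_le _) (Finset.mem_univ i)
      have hcop : Nat.gcd q (c i) = 1 := by
        refine (Nat.Prime.coprime_iff_not_dvd hq).2 fun hd => ?_
        have := Nat.le_of_dvd (hc i) hd
        omega
      have h3 : c i * a + d i ≡ c i * b + d i [MOD q] :=
        ((Nat.modEq_zero_iff_dvd.2 ha2).trans (Nat.modEq_zero_iff_dvd.2 hb2).symm)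
      have h4 : c i * a ≡ c i * b [MOD q] := Nat.ModEq.add_right_cancel' _ h3
      have h5 : a ≡ b [MOD q] := Nat.ModEq.cancel_left_of_coprime hcop h4
      exact Nat.ModEq.eq_of_lt_of_lt h5 ha1 hb1
    calc _ ≤ _ := Finset.card_le_card hsub
      _ ≤ (Finset.univ : Finset (Fin k)).card * 1 := Finset.card_biUnion_le_card_mul _ _ _ hone
      _ ≤ _ := by simp

theorem card_eq {k : ℕ} (c d : Fin k → ℕ) (m p q : ℕ) (hq : q.Prime)
    (hcop : Nat.gcd q p = 1) (Q : ℕ → Prop) [DecidablePred Q]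
    (hQ : ∀ r, Q r ↔ ∃ i, q ∣ c i * (m + p * r) + d i) :
    ((Finset.range q).filter (fun r => Q r)).card = nu c d q := by
  classical
  have hinj : Set.InjOn (fun r => (m + p * r) % q) ((Finset.range q : Finset ℕ) : Set ℕ) := by
    intro a ha b hb hab
    have ha' : a < q := by simpa using ha
    have hb' : b < q := by simpa using hb
    have h1 : m + p * a ≡ m + p * b [MOD q] := hab
    have h2 : p * a ≡ p * b [MOD q] := Nat.ModEq.add_left_cancel' _ h1
    have h3 : a ≡ b [MOD q] := Nat.ModEq.cancel_left_of_coprime hcop h2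
    exact Nat.ModEq.eq_of_lt_of_lt h3 ha' hb'
  have himg : (Finset.range q).image (fun r => (m + p * r) % q) = Finset.range q := by
    refine Finset.eq_of_subset_of_card_le ?_ ?_
    · intro x hx
      obtain ⟨r, _, rfl⟩ := Finset.mem_image.1 hx
      exact Finset.mem_range.2 (Nat.mod_lt _ hq.pos)
    · rw [Finset.card_image_of_injOn hinj]
  unfold nu
  rw [← himg]
  simp only [himg]
  have h2 : (Finset.range q).filter (fun r => ∃ i : Fin k, q ∣ c i * r + d i) =
      ((Finset.range q).filter (fun r => Q r)).image (fun r => (m + p * r) % q) := by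
    conv_lhs => rw [← himg]
    rw [Finset.filter_image]
    congr 1
    refine Finset.filter_congr fun r _ => ?_
    rw [hQ]
    exact exists_congr fun i => dvd_mod q (m + p * r) (d i) (c i)
  rw [h2, Finset.card_image_of_injOn]
  exact hinj.mono (Finset.coe_subset.2 (Finset.filter_subset _ _))

end APK

theorem apk : S_BTU → S_SNG → S_APK := by
  classical
  intro hB hN k c d hS
  obtain ⟨C1, s0, hC1, hs0, hB⟩ := hB (k + ∑ i, c i) (by have := hS.one; omega)
  obtain ⟨c0, C0, hc0, hN⟩ := hN k c d hS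
  have hC0 : 0 < C0 := lt_of_lt_of_le hc0 ((hN 0).1.trans (hN 0).2)
  refine ⟨C1 * C0, s0, mul_pos hC1 hC0, hs0, ?_⟩
  intro v n U p r hp hvp hU
  have hMM : 0 < MM v ^ k := pow_pos (APK.MM_pos v) k
  have hRHS : 0 ≤ C1 * C0 * ((((U / p : ℕ) : ℝ) + 1) / MM v ^ k) := by positivity
  rcases Finset.eq_empty_or_nonempty ((Finset.range U).filter (fun j =>
    (∀ i : Fin k, Rou v (c i * (n + j + 1) + d i)) ∧ (n + j + 1) % p = r)) with hemp | hne
  · rw [hemp]
    simpa using hRHS
  obtain ⟨j0, hj0, hmin⟩ : ∃ j0 ∈ (Finset.range U).filter (fun j =>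
      (∀ i : Fin k, Rou v (c i * (n + j + 1) + d i)) ∧ (n + j + 1) % p = r),
      ∀ j ∈ (Finset.range U).filter (fun j =>
      (∀ i : Fin k, Rou v (c i * (n + j + 1) + d i)) ∧ (n + j + 1) % p = r), j0 ≤ j :=
    ⟨_, Finset.min'_mem _ hne, fun j hj => Finset.min'_le _ j hj⟩
  obtain ⟨_, _, hj0r⟩ := Finset.mem_filter.1 hj0
  obtain ⟨Q, hQdef⟩ : ∃ Q : ℕ → ℕ → Prop, ∀ q l, Q q l ↔ (q.Prime ∧ q ≤ v ∧
    ∃ i, q ∣ c i * ((n + j0 + 1) + p * l) + d i) := ⟨_, fun _ _ => Iff.rfl⟩
  have hper : ∀ q l, Q q l ↔ Q q (l % q) := by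
    intro q l
    simp only [hQdef]
    refine and_congr_right fun _ => and_congr_right fun _ => exists_congr fun i => ?_
    have : c i * ((n + j0 + 1) + p * l) + d i ≡ c i * ((n + j0 + 1) + p * (l % q)) + d i [MOD q] :=
      (Nat.ModEq.mul_left _ (Nat.ModEq.add_left _ (Nat.ModEq.mul_left _
        (Nat.mod_modEq l q).symm))).add_right _
    exact this.dvd_iff dvd_rfl
  have hcard : ∀ q : ℕ, q.Prime → q ≤ v → ((Finset.range q).filter (fun r => Q q r)).card =
      nu c d q := by
    intro q hq hqv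
    refine APK.card_eq c d (n + j0 + 1) p q hq ?_ (Q q) ?_
    · exact (Nat.coprime_primes hq hp).2 (by omega)
    · intro r
      simp only [hQdef, hq, hqv, true_and]
  have hcle : ∀ q : ℕ, q.Prime → ((Finset.range q).filter (fun r => Q q r)).card ≤
      k + ∑ i, c i := by
    intro q hq
    by_cases hqv : q ≤ v
    · rw [hcard q hq hqv]
      exact APK.nu_le c d hS.pos q hq
    · have : (Finset.range q).filter (fun r => Q q r) = ∅ := by
        refine Finset.filter_eq_empty_iff.2 fun r _ h => hqv ((hQdef _ _).1 h).2.1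
      rw [this]
      simp
  have hmain := hB Q hper hcle v (U / p + 1) (by
    push_cast
    linarith)
  have hprod : ∏ q ∈ (Finset.Icc 1 v).filter Nat.Prime,
      (1 - (((Finset.range q).filter (fun r => Q q r)).card : ℝ) / q) =
      ∏ q ∈ (Finset.Icc 1 v).filter Nat.Prime, (1 - (nu c d q : ℝ) / q) := by
    refine Finset.prod_congr rfl fun q hq => ?_
    obtain ⟨hq1, hq2⟩ := Finset.mem_filter.1 hq
    rw [hcard q hq2 (Finset.mem_Icc.1 hq1).2]
  rw [hprod] at hmain
  have hsub : (Finset.range U).filter (fun j =>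
      (∀ i : Fin k, Rou v (c i * (n + j + 1) + d i)) ∧ (n + j + 1) % p = r) ⊆
      ((Finset.range (U / p + 1)).filter (fun j => ∀ q : ℕ, q.Prime → q ≤ v → ¬ Q q j)).image
        (fun l => j0 + p * l) := by
    intro j hj
    have hjm := hmin j hj
    obtain ⟨hjU, hjR, hjr⟩ := Finset.mem_filter.1 hj
    rw [Finset.mem_range] at hjU
    have h1 : n + j0 + 1 ≡ n + j + 1 [MOD p] := by
      rw [Nat.ModEq, hj0r, hjr]
    have h2 : p ∣ (n + j + 1) - (n + j0 + 1) := (Nat.modEq_iff_dvd' (by omega)).1 h1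
    obtain ⟨l, hl⟩ := h2
    have hjl : j = j0 + p * l := by omega
    refine Finset.mem_image.2 ⟨l, Finset.mem_filter.2 ⟨?_, ?_⟩, hjl.symm⟩
    · rw [Finset.mem_range]
      have : l ≤ U / p := by
        rw [Nat.le_div_iff_mul_le hp.pos]
        nlinarith
      omega
    · intro q hq hqv hQ
      obtain ⟨_, _, i, hi⟩ := (hQdef _ _).1 hQ
      refine hjR i q hq hqv ?_
      have : n + j + 1 = (n + j0 + 1) + p * l := by omega
      rw [this]
      exact hi
  have hle : (((Finset.range U).filter (fun j =>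
      (∀ i : Fin k, Rou v (c i * (n + j + 1) + d i)) ∧ (n + j + 1) % p = r)).card : ℝ) ≤
      (((Finset.range (U / p + 1)).filter
        (fun j => ∀ q : ℕ, q.Prime → q ≤ v → ¬ Q q j)).card : ℝ) := by
    exact_mod_cast (Finset.card_le_card hsub).trans Finset.card_image_le
  refine hle.trans (hmain.trans ?_)
  have h5 := (hN v).2
  rw [← le_div_iff₀ hMM] at h5
  have hJ : (0 : ℝ) ≤ ((U / p + 1 : ℕ) : ℝ) := by positivity
  calc C1 * (((U / p + 1 : ℕ) : ℝ) * ∏ q ∈ (Finset.Icc 1 v).filter Nat.Prime,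
      (1 - (nu c d q : ℝ) / q)) ≤ C1 * (((U / p + 1 : ℕ) : ℝ) * (C0 / MM v ^ k)) := by
        gcongr
    _ = _ := by push_cast; ring

end Pool.Agent.H50.GW
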