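import Pool.Agent.H50.GW.Stm

/-!
# GW-BTU: the upper bound sieve, uniform over all systems of at most `k` classes
-/

set_option autoImplicit false

open MeasureTheory Filter ProbabilityTheory
open scoped Topology ENNReal

namespace Pool.Agent.H50.GW

open Pool.Agent.H50.BF

namespace BTUaux

/-- the product of the local factors over the primes `≤ v` -/
noncomputable def PP (w : ℕ → ℕ) (v : ℕ) : ℝ :=
  ∏ p ∈ (Finset.Icc 1 v).filter Nat.Prime, (1 - (w p : ℝ) / p)

lemma PP_zero (w : ℕ → ℕ) : PP w 0 = 1 := by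
  simp [PP]

lemma PP_succ (w : ℕ → ℕ) (v : ℕ) : PP w (v + 1) =
    PP w v * (if (v + 1).Prime then (1 - (w (v + 1) : ℝ) / ((v + 1 : ℕ) : ℝ)) else 1) := by
  unfold PP
  have h : Finset.Icc 1 (v + 1) = insert (v + 1) (Finset.Icc 1 v) := by
    ext x; simp only [Finset.mem_insert, Finset.mem_Icc]; omega
  rw [h, Finset.filter_insert]
  by_cases hp : (v + 1).Prime
  · rw [if_pos hp, if_pos hp, Finset.prod_insert (by simp), mul_comm]
  · rw [if_neg hp, if_neg hp, mul_one]

lemma factor_low (k p w : ℕ) (hk : 1 ≤ k) (hp : 2 ≤ p) (hw : w ≤ k) (hwp : w + 1 ≤ p) :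
    (if p ≤ 2 * k then (1 / (2 * (k : ℝ))) else 1) * (((p : ℝ) - 1) / p) ^ (2 * k) ≤
      1 - (w : ℝ) / p := by
  have hp0 : (0 : ℝ) < p := by positivity
  have hp2 : (2 : ℝ) ≤ p := by exact_mod_cast hp
  have hk0 : (1 : ℝ) ≤ k := by exact_mod_cast hk
  have hwk : (w : ℝ) ≤ k := by exact_mod_cast hw
  have hwp' : (w : ℝ) + 1 ≤ p := by exact_mod_cast hwp
  have hb0 : 0 ≤ ((p : ℝ) - 1) / p := div_nonneg (by linarith) hp0.le
  have hb1 : ((p : ℝ) - 1) / p ≤ 1 := by rw [div_le_one hp0]; linarith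
  split_ifs with h
  · have h1 : (((p : ℝ) - 1) / p) ^ (2 * k) ≤ 1 := pow_le_one₀ hb0 hb1
    have h2 : (p : ℝ) ≤ 2 * k := by exact_mod_cast h
    have h3 : 1 / (2 * (k : ℝ)) ≤ 1 / p := one_div_le_one_div_of_le hp0 h2
    have h4 : 1 / (p : ℝ) ≤ 1 - (w : ℝ) / p := by
      rw [div_le_iff₀ hp0, sub_mul, div_mul_cancel₀ _ hp0.ne']; linarith
    calc 1 / (2 * (k : ℝ)) * (((p : ℝ) - 1) / p) ^ (2 * k) ≤ 1 / (2 * (k : ℝ)) * 1 :=
          mul_le_mul_of_nonneg_left h1 (by positivity)
      _ ≤ 1 - (w : ℝ) / p := by linarith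
  · rw [one_mul]
    have h2 : 2 * (k : ℝ) ≤ p := by
      have : 2 * k ≤ p := by omega
      exact_mod_cast this
    -- (1-x)^(2k) (1+x)^(2k) ≤ 1
    have hx : ((p : ℝ) - 1) / p = 1 - 1 / p := by field_simp
    have hB : 1 + ((2 * k : ℕ) : ℝ) * (1 / (p : ℝ)) ≤ (1 + 1 / (p : ℝ)) ^ (2 * k) :=
      one_add_mul_le_pow (by have : 0 ≤ 1 / (p : ℝ) := by positivity
                             linarith) _
    have hprod : (1 - 1 / (p : ℝ)) ^ (2 * k) * (1 + 1 / (p : ℝ)) ^ (2 * k) ≤ 1 := by
      rw [← mul_pow]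
      apply pow_le_one₀
      · rw [hx] at hb0
        exact mul_nonneg hb0 (by positivity)
      · have : 0 ≤ (1 / (p : ℝ)) ^ 2 := by positivity
        nlinarith
    rw [hx]
    have hge : (1 - 1 / (p : ℝ)) ^ (2 * k) * (1 + 2 * k / p) ≤ 1 := by
      refine le_trans ?_ hprod
      refine mul_le_mul_of_nonneg_left ?_ (pow_nonneg (by rw [← hx]; exact hb0) _)
      refine le_trans (le_of_eq ?_) hB
      push_cast
      ring
    have hkp : (k : ℝ) / p ≤ 1 / 2 := by
      rw [div_le_iff₀ hp0]; linarith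
    have hkp0 : 0 ≤ (k : ℝ) / p := by positivity
    have hq : 1 ≤ (1 - (k : ℝ) / p) * (1 + 2 * k / p) := by
      have : 2 * (k : ℝ) / p = 2 * (k / p) := by ring
      rw [this]
      nlinarith
    have h5 : (1 - 1 / (p : ℝ)) ^ (2 * k) ≤ 1 - (k : ℝ) / p := by
      have hpos : 0 < 1 + 2 * (k : ℝ) / p := by positivity
      exact le_of_mul_le_mul_right (hge.trans hq) hpos
    refine h5.trans ?_
    have : (w : ℝ) / p ≤ k / p := div_le_div_of_nonneg_right hwk hp0.le
    linarith

lemma PP_low (k : ℕ) (hk : 1 ≤ k) (w : ℕ → ℕ) (v0 : ℕ) (hw : ∀ p : ℕ, p.Prime → w p ≤ k)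
    (hwp : ∀ p : ℕ, p.Prime → p ≤ v0 → w p + 1 ≤ p) : ∀ v : ℕ, 1 ≤ v → v ≤ v0 →
    (1 / (2 * (k : ℝ))) ^ (min v (2 * k)) * (1 / (v : ℝ)) ^ (2 * k) ≤ PP w v := by
  intro v hv
  have hk1 : (1 : ℝ) ≤ k := by exact_mod_cast hk
  have hb : 1 / (2 * (k : ℝ)) ≤ 1 := by rw [div_le_one (by positivity)]; linarith
  have hb0 : 0 ≤ 1 / (2 * (k : ℝ)) := by positivity
  induction v, hv using Nat.le_induction with
  | base =>
    intro _
    have : PP w 1 = 1 := by
      have := PP_succ w 0
      rw [PP_zero, if_neg (by norm_num)] at this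
      simpa using this
    rw [this]
    simp only [Nat.cast_one, div_one, one_pow, mul_one]
    exact pow_le_one₀ hb0 hb
  | succ v hv ih =>
    intro hv0
    have ih' := ih (by omega)
    have hv1 : (1 : ℝ) ≤ v := by exact_mod_cast hv
    have hvpos : (0 : ℝ) < v := by linarith
    rw [PP_succ]
    split_ifs with hp
    · have hf := factor_low k (v + 1) (w (v + 1)) hk hp.two_le (hw _ hp) (hwp _ hp hv0)
      have hX0 : 0 ≤ (if v + 1 ≤ 2 * k then (1 / (2 * (k : ℝ))) else 1) *
          ((((v + 1 : ℕ) : ℝ) - 1) / ((v + 1 : ℕ) : ℝ)) ^ (2 * k) := by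
        refine mul_nonneg ?_ ?_
        · split_ifs <;> positivity
        · apply pow_nonneg
          push_cast
          apply div_nonneg <;> linarith
      refine le_trans ?_ (mul_le_mul ih' hf hX0 (le_trans (by positivity) ih'))
      have e1 : (1 / (v : ℝ)) ^ (2 * k) * ((((v + 1 : ℕ) : ℝ) - 1) / ((v + 1 : ℕ) : ℝ)) ^ (2 * k) =
          (1 / ((v + 1 : ℕ) : ℝ)) ^ (2 * k) := by
        rw [← mul_pow]
        congr 1
        push_cast
        field_simp
        ring
      have e2 : (1 / (2 * (k : ℝ))) ^ (min (v + 1) (2 * k)) ≤ (1 / (2 * (k : ℝ))) ^ (min v (2 * k)) *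
          (if v + 1 ≤ 2 * k then (1 / (2 * (k : ℝ))) else 1) := by
        split_ifs with h
        · rw [min_eq_left h, min_eq_left (by omega), pow_succ]
        · rw [mul_one, min_eq_right (by omega)]
          have : min v (2 * k) = 2 * k := by omega
          rw [this]
      calc (1 / (2 * (k : ℝ))) ^ (min (v + 1) (2 * k)) * (1 / ((v + 1 : ℕ) : ℝ)) ^ (2 * k)
          ≤ ((1 / (2 * (k : ℝ))) ^ (min v (2 * k)) *
            (if v + 1 ≤ 2 * k then (1 / (2 * (k : ℝ))) else 1)) *
            (1 / ((v + 1 : ℕ) : ℝ)) ^ (2 * k) := mul_le_mul_of_nonneg_right e2 (by positivity)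
        _ = (1 / (2 * (k : ℝ))) ^ (min v (2 * k)) * (1 / (v : ℝ)) ^ (2 * k) *
            ((if v + 1 ≤ 2 * k then (1 / (2 * (k : ℝ))) else 1) *
            ((((v + 1 : ℕ) : ℝ) - 1) / ((v + 1 : ℕ) : ℝ)) ^ (2 * k)) := by
            rw [← e1]; ring
        _ ≤ _ := le_refl _
    · rw [mul_one]
      refine le_trans ?_ ih'
      refine mul_le_mul ?_ ?_ (by positivity) (by positivity)
      · exact pow_le_pow_of_le_one hb0 hb (by omega)
      · refine pow_le_pow_left₀ (by positivity) ?_ _
        apply one_div_le_one_div_of_le hvpos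
        push_cast
        linarith

end BTUaux

open BTUaux in
open Classical in
theorem btu : S_FND → S_BTU := by
  intro hF k hk
  obtain ⟨K, x0, hK, hF⟩ := hF k hk 1 one_pos
  set M : ℝ := (2 * (k : ℝ)) ^ (2 * k) with hM
  have hk1 : (1 : ℝ) ≤ k := by exact_mod_cast hk
  have hMpos : 0 < M := by positivity
  have hM1 : 1 ≤ M := one_le_pow₀ (by linarith)
  set C : ℝ := 2 + 2 * M + M * ((x0 : ℝ) + 1) ^ (2 * k) with hC
  refine ⟨C, K + 2 * k, by positivity, by omega, ?_⟩
  intro Q hQ hQc v U hU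
  set w : ℕ → ℕ := fun p => ((Finset.range p).filter (fun r => Q p r)).card with hwdef
  have hwk : ∀ p : ℕ, p.Prime → w p ≤ k := hQc
  have hwp : ∀ p : ℕ, w p ≤ p := by
    intro p
    refine (Finset.card_filter_le _ _).trans ?_
    simp
  set S := (Finset.range U).filter (fun j => ∀ p : ℕ, p.Prime → p ≤ v → ¬ Q p j) with hS
  have hPP : ∏ p ∈ (Finset.Icc 1 v).filter Nat.Prime,
      (1 - (((Finset.range p).filter (fun r => Q p r)).card : ℝ) / p) = PP w v := rfl
  rw [hPP]
  have hPP0 : 0 ≤ PP w v := by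
    unfold PP
    apply Finset.prod_nonneg
    intro p hp
    have hp' := (Finset.mem_filter.mp hp).2
    have hp0 : (0 : ℝ) < p := by exact_mod_cast hp'.pos
    have : (w p : ℝ) ≤ p := by exact_mod_cast hwp p
    rw [sub_nonneg, div_le_one hp0]
    exact this
  by_cases hbad : ∃ p : ℕ, p.Prime ∧ p ≤ v ∧ w p = p
  · obtain ⟨p, hp, hpv, hwpp⟩ := hbad
    have hall : ∀ r < p, Q p r := by
      intro r hr
      have h1 : ((Finset.range p).filter (fun r => Q p r)) = Finset.range p := by
        apply Finset.eq_of_subset_of_card_le (Finset.filter_subset _ _)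
        rw [Finset.card_range]
        exact hwpp.ge
      have := Finset.mem_filter.mp (h1 ▸ Finset.mem_range.mpr hr : r ∈ _)
      exact this.2
    have hS0 : S = ∅ := by
      rw [hS, Finset.filter_eq_empty_iff]
      intro j _ hj
      exact hj p hp hpv ((hQ p j).mpr (hall _ (Nat.mod_lt _ hp.pos)))
    rw [hS0]
    simp only [Finset.card_empty, Nat.cast_zero]
    positivity
  · push Not at hbad
    have hwp1 : ∀ p : ℕ, p.Prime → p ≤ v → w p + 1 ≤ p := by
      intro p hp hpv
      have h1 := hbad p hp hpv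
      have h2 := hwp p
      omega
    -- lower bound for the product
    have hlow : ∀ _ : 1 ≤ v, 1 ≤ M * (v : ℝ) ^ (2 * k) * PP w v := by
      intro hv
      have hv0 : (0 : ℝ) < v := by exact_mod_cast hv
      have h1 := PP_low k hk w v hwk hwp1 v hv le_rfl
      have h2 : (1 / (2 * (k : ℝ))) ^ (2 * k) ≤ (1 / (2 * (k : ℝ))) ^ (min v (2 * k)) := by
        apply pow_le_pow_of_le_one (by positivity) _ (min_le_right _ _)
        rw [div_le_one (by positivity)]; linarith
      have h3 : (1 / (2 * (k : ℝ))) ^ (2 * k) * (1 / (v : ℝ)) ^ (2 * k) ≤ PP w v :=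
        le_trans (mul_le_mul_of_nonneg_right h2 (by positivity)) h1
      calc (1 : ℝ) = M * (v : ℝ) ^ (2 * k) *
            ((1 / (2 * (k : ℝ))) ^ (2 * k) * (1 / (v : ℝ)) ^ (2 * k)) := by
            rw [hM]
            have e1 : (2 * (k : ℝ)) ^ (2 * k) * (1 / (2 * (k : ℝ))) ^ (2 * k) = 1 := by
              rw [← mul_pow, mul_one_div_cancel (by positivity), one_pow]
            have e2 : (v : ℝ) ^ (2 * k) * (1 / (v : ℝ)) ^ (2 * k) = 1 := by
              rw [← mul_pow, mul_one_div_cancel (by positivity), one_pow]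
            calc (1 : ℝ) = ((2 * (k : ℝ)) ^ (2 * k) * (1 / (2 * (k : ℝ))) ^ (2 * k)) *
                  ((v : ℝ) ^ (2 * k) * (1 / (v : ℝ)) ^ (2 * k)) := by rw [e1, e2, one_mul]
              _ = _ := by ring
        _ ≤ _ := mul_le_mul_of_nonneg_left h3 (by positivity)
    have hcardU : (S.card : ℝ) ≤ U := by
      have : S.card ≤ U := (Finset.card_filter_le _ _).trans (by simp)
      exact_mod_cast this
    have hU0 : (0 : ℝ) ≤ U := by positivity
    rcases Nat.lt_or_ge v (max x0 1) with hv | hv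
    · -- small v
      rcases Nat.eq_zero_or_pos v with hv0 | hv0
      · subst hv0
        rw [PP_zero, mul_one]
        refine hcardU.trans ?_
        have : (1 : ℝ) ≤ C := by
          rw [hC]; have : 0 ≤ M * ((x0 : ℝ) + 1) ^ (2 * k) := by positivity
          linarith
        nlinarith
      · have h1 := hlow hv0
        have hvx : (v : ℝ) ≤ (x0 : ℝ) + 1 := by
          have : v ≤ x0 + 1 := by
            rcases le_total x0 1 with h | h
            · rw [max_eq_right h] at hv; omega
            · rw [max_eq_left h] at hv; omega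
          exact_mod_cast this
        have h2 : M * (v : ℝ) ^ (2 * k) * PP w v ≤ M * ((x0 : ℝ) + 1) ^ (2 * k) * PP w v := by
          apply mul_le_mul_of_nonneg_right _ hPP0
          exact mul_le_mul_of_nonneg_left (pow_le_pow_left₀ (by positivity) hvx _) hMpos.le
        have h3 : 1 ≤ C * PP w v := by
          refine (h1.trans h2).trans ?_
          apply mul_le_mul_of_nonneg_right _ hPP0
          rw [hC]; linarith
        calc (S.card : ℝ) ≤ U * 1 := by rw [mul_one]; exact hcardU
          _ ≤ U * (C * PP w v) := mul_le_mul_of_nonneg_left h3 hU0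
          _ = C * (U * PP w v) := by ring
    · have hv1 : 1 ≤ v := le_trans (le_max_right _ _) hv
      have hvx : x0 ≤ v := le_trans (le_max_left _ _) hv
      have h1 := hlow hv1
      have hmain := hF (v ^ K) v hvx le_rfl Q hQ hQc U
      set T := (Finset.Icc 1 U).filter (fun n : ℕ => ∀ p : ℕ, p.Prime → p ≤ v → ¬ Q p n) with hT
      rw [hPP] at hmain
      have hST : (S.card : ℝ) ≤ T.card + 1 := by
        have hsub : S ⊆ insert 0 T := by
          intro j hj
          rw [hS, Finset.mem_filter, Finset.mem_range] at hj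
          rw [Finset.mem_insert, hT, Finset.mem_filter, Finset.mem_Icc]
          rcases Nat.eq_zero_or_pos j with h | h
          · left; exact h
          · right; exact ⟨⟨h, hj.1.le⟩, hj.2⟩
        have := (Finset.card_le_card hsub).trans (Finset.card_insert_le _ _)
        exact_mod_cast this
      have hTle : (T.card : ℝ) ≤ 2 * (U * PP w v) + Real.sqrt ((v ^ K : ℕ) : ℝ) := by
        have := (abs_le.mp hmain).2
        linarith
      have hv1' : (1 : ℝ) ≤ v := by exact_mod_cast hv1
      have hvK : (1 : ℝ) ≤ (v : ℝ) ^ K := one_le_pow₀ hv1'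
      have hsq : Real.sqrt ((v ^ K : ℕ) : ℝ) ≤ (v : ℝ) ^ K := by
        push_cast
        rw [Real.sqrt_le_left (by positivity)]
        nlinarith
      have hUv : (v : ℝ) ^ K * (v : ℝ) ^ (2 * k) ≤ U := by
        rw [← pow_add]
        refine le_trans ?_ hU
        exact pow_le_pow_left₀ (by positivity) (by linarith) _
      have hvKU : (v : ℝ) ^ K ≤ M * (U * PP w v) := by
        calc (v : ℝ) ^ K ≤ (v : ℝ) ^ K * (M * (v : ℝ) ^ (2 * k) * PP w v) := by nlinarith
          _ = M * (((v : ℝ) ^ K * (v : ℝ) ^ (2 * k)) * PP w v) := by ring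
          _ ≤ M * (U * PP w v) := by
            apply mul_le_mul_of_nonneg_left _ hMpos.le
            exact mul_le_mul_of_nonneg_right hUv hPP0
      have hUPP : 0 ≤ U * PP w v := by positivity
      calc (S.card : ℝ) ≤ 2 * (U * PP w v) + (v : ℝ) ^ K + 1 := by linarith
        _ ≤ 2 * (U * PP w v) + 2 * (v : ℝ) ^ K := by linarith
        _ ≤ (2 + 2 * M) * (U * PP w v) := by linarith
        _ ≤ C * (U * PP w v) := by
          apply mul_le_mul_of_nonneg_right _ hUPP
          rw [hC]
          have : 0 ≤ M * ((x0 : ℝ) + 1) ^ (2 * k) := by positivity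
          linarith

end Pool.Agent.H50.GW
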