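import Pool.Agent.H50.GW.EXDK

/-! GW-EXWK (helper39) -/

set_option autoImplicit false

namespace Pool.Agent.H50.GW

open Pool.Agent.H50.BF Filter EXaux
open scoped Topology

theorem exwk : S_TRK → S_SBK → S_EXWK := by
  intro htr hsb k c d hs C ε hC hε
  obtain ⟨C0, hC0, htrans⟩ := htr k c d hs
  obtain ⟨C1, hC1, hsub⟩ := hsb k c d hs
  have hk := hs.one
  set θ : ℝ := min (1 / 2) (ε / (4 * C0)) with hθd
  have hθ : 0 < θ := lt_min (by norm_num) (by positivity)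
  have hθ1 : θ ≤ 1 / 2 := min_le_left _ _
  have hθε : C0 * θ ≤ ε / 4 := by
    calc C0 * θ ≤ C0 * (ε / (4 * C0)) := mul_le_mul_of_nonneg_left (min_le_right _ _) hC0.le
      _ = ε / 4 := by field_simp
  set δ : ℝ := min 1 (ε / (4 * C1)) with hδd
  have hδ : 0 < δ := lt_min (by norm_num) (by positivity)
  have hδ1 : δ ≤ 1 := min_le_left _ _
  have hδε : C1 * δ ≤ ε / 4 := by
    calc C1 * δ ≤ C1 * (ε / (4 * C1)) := mul_le_mul_of_nonneg_left (min_le_right _ _) hC1.le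
      _ = ε / 4 := by field_simp
  set η : ℝ := min (θ / 4) (δ / 2) with hηd
  have hη : 0 < η := lt_min (by positivity) (by positivity)
  have hη4 : η ≤ θ / 4 := min_le_left _ _
  have hηδ : η ≤ δ / 2 := min_le_right _ _
  refine ⟨η, hη, by linarith, ?_⟩
  obtain ⟨N0, hN0⟩ := eventually_atTop.1 (htrans θ hθ hθ1)
  obtain ⟨N1, hN1⟩ := eventually_atTop.1 (hsub δ hδ hδ1)
  filter_upwards [tendsto_log_nat'.eventually (lev' (D := 2 * C) (by linarith) hθ hθ1),
    tendsto_log_nat'.eventually_ge_atTop (2 * C * (N0 + N1 + 1))] with n h2 h3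
  intro w U v hU1 hU2 hUw hv1 hv2
  have hN : (0 : ℝ) ≤ N0 := Nat.cast_nonneg _
  have hN' : (0 : ℝ) ≤ N1 := Nat.cast_nonneg _
  have hC0' : 0 < C := by linarith
  have hL2 : 2 * C ≤ Real.log n := by
    refine le_trans ?_ h3
    have : 0 ≤ 2 * C * (N0 + N1 : ℝ) := by positivity
    linarith
  have hL1 : 1 ≤ Real.log n := by linarith
  set L := Real.log n with hLd
  have hL0 : 0 < L := by linarith
  have hwr : (0 : ℝ) ≤ w := Nat.cast_nonneg w
  have hw0 : (0 : ℝ) ≤ (w : ℝ) ^ (k + 1) := by positivity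
  rw [abs_le] at hUw
  have hη2 : η ≤ 1 / 8 := by linarith
  have hw8 : η * (w : ℝ) ^ (k + 1) ≤ 1 / 8 * (w : ℝ) ^ (k + 1) :=
    mul_le_mul_of_nonneg_right hη2 hw0
  have hUl : (7 / 8 : ℝ) * (w : ℝ) ^ (k + 1) ≤ U := by linarith [hUw.1]
  have hUu : (U : ℝ) ≤ 9 / 8 * (w : ℝ) ^ (k + 1) := by linarith [hUw.2]
  have hCp : 2 * C ≤ (2 * C) ^ (k + 1) := by
    have : 1 ≤ (2 * C) ^ k := one_le_pow₀ (by linarith)
    rw [pow_succ]; nlinarith
  have b5 : L / (2 * C) ≤ w := by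
    have : (L / (2 * C)) ^ (k + 1) ≤ (w : ℝ) ^ (k + 1) := by
      rw [div_pow]
      calc L ^ (k + 1) / (2 * C) ^ (k + 1) ≤ L ^ (k + 1) / (2 * C) :=
            div_le_div_of_nonneg_left (by positivity) (by positivity) hCp
        _ = L ^ (k + 1) / C / 2 := by field_simp
        _ ≤ U / 2 := by linarith
        _ ≤ (w : ℝ) ^ (k + 1) := by linarith
    exact le_of_pow_le_pow_left₀ (by omega) hwr this
  have b6 : (w : ℝ) ≤ 2 * C * L := by
    have : (w : ℝ) ^ (k + 1) ≤ (2 * C * L) ^ (k + 1) := by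
      have e1 : (w : ℝ) ^ (k + 1) ≤ 2 * U := by linarith
      have e2 : (2 : ℝ) * U ≤ 2 * C * L ^ (k + 1) := by linarith
      rw [mul_pow]
      exact (e1.trans e2).trans (mul_le_mul_of_nonneg_right hCp (by positivity))
    exact le_of_pow_le_pow_left₀ (by omega) (by positivity) this
  have hwb : N0 + N1 + 1 ≤ (w : ℝ) := by
    refine le_trans ?_ b5
    rw [le_div_iff₀ (by linarith)]
    linarith
  have hwN : N0 ≤ w := by
    have : (N0 : ℝ) ≤ w := by linarith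
    exact_mod_cast this
  have hwN1 : N1 ≤ w := by
    have : (N1 : ℝ) ≤ w := by linarith
    exact_mod_cast this
  have hw1 : (1 : ℝ) ≤ w := by linarith
  obtain ⟨c1, c2⟩ := h2 w b5 b6
  have hv0 : (w : ℝ) ^ (1 - θ) ≤ v := by
    refine c1.trans (le_trans ?_ hv1)
    exact Real.rpow_le_rpow_of_exponent_le hL1 (by linarith)
  have hv3 : (v : ℝ) ≤ (w : ℝ) ^ (1 + θ) := by
    refine hv2.trans (le_trans ?_ c2)
    exact Real.rpow_le_rpow_of_exponent_le hL1 (by linarith)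
  have hww1 : (w : ℝ) ^ (1 - θ) ≤ w := by
    calc (w : ℝ) ^ (1 - θ) ≤ (w : ℝ) ^ (1 : ℝ) := Real.rpow_le_rpow_of_exponent_le hw1 (by linarith)
      _ = w := Real.rpow_one _
  have hww2 : (w : ℝ) ≤ (w : ℝ) ^ (1 + θ) := by
    calc (w : ℝ) = (w : ℝ) ^ (1 : ℝ) := (Real.rpow_one _).symm
      _ ≤ (w : ℝ) ^ (1 + θ) := Real.rpow_le_rpow_of_exponent_le hw1 (by linarith)
  have hwp : (w : ℝ) ^ 2 ≤ (w : ℝ) ^ (k + 1) := pow_le_pow_right₀ hw1 (by omega)
  have hWc : ((w ^ (k + 1) : ℕ) : ℝ) = (w : ℝ) ^ (k + 1) := by push_cast; ring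
  have hw2p : (0 : ℝ) < (w : ℝ) ^ 2 := by positivity
  have hw2 : (w : ℝ) ^ 2 / 2 ≤ U := by linarith
  have hw2' : (w : ℝ) ^ 2 / 2 ≤ ((w ^ (k + 1) : ℕ) : ℝ) := by
    rw [hWc]; linarith
  have hsq1 : Real.sqrt w ≤ w := by
    rw [Real.sqrt_le_left (by linarith)]
    nlinarith
  have hww3 : (w : ℝ) ≤ (w : ℝ) ^ 2 := by nlinarith
  have hMM := MM_pos' w
  have hU0 : (0 : ℝ) < U := by linarith
  have hmk : ∀ (m U : ℕ), DS c d w m U = (sy c d w m U : ℝ) * (MM w ^ k / U) := by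
    intro m U; unfold DS; rw [mul_div_assoc]
  have key : ∀ m : ℕ, |DS c d v m U - DS c d w m (w ^ (k + 1))| ≤ ε / 2 := by
    intro m
    have h5 := two_lev' (hN0 w hwN) v w m U hv0 hww1 hv3 hww2 hw2
    have h7 : |DS c d w m U - DS c d w m (w ^ (k + 1))| ≤ C1 * δ := by
      rcases le_total (w ^ (k + 1)) U with hUU | hUU
      · have hU' : (U : ℝ) ≤ (1 + δ) * ((w ^ (k + 1) : ℕ) : ℝ) := by
          rw [hWc]
          have : η * (w : ℝ) ^ (k + 1) ≤ δ * (w : ℝ) ^ (k + 1) :=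
            mul_le_mul_of_nonneg_right (by linarith) hw0
          linarith [hUw.2]
        have h6 := hN1 w hwN1 w m (w ^ (k + 1)) U hsq1 hww3 hw2' hUU hU'
        have h62 := h6.2
        rw [hmk] at h62
        rw [hmk, hmk]
        exact dens_close' (U := ((w ^ (k + 1) : ℕ) : ℝ)) (U' := (U : ℝ)) (pow_pos hMM k).le
          (by rw [hWc]; positivity) (by exact_mod_cast hUU) hU' hδ.le (Nat.cast_nonneg _)
          (Nat.cast_le.2 (sy_mono c d w m hUU)) h6.1 h62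
      · have hU' : ((w ^ (k + 1) : ℕ) : ℝ) ≤ (1 + δ) * U := by
          rw [hWc]
          have h9 : (1 - η) * (w : ℝ) ^ (k + 1) ≤ U := by linarith [hUw.1]
          have h10 : (1 : ℝ) ≤ (1 + δ) * (1 - η) := by nlinarith
          calc (w : ℝ) ^ (k + 1) = 1 * (w : ℝ) ^ (k + 1) := (one_mul _).symm
            _ ≤ (1 + δ) * (1 - η) * (w : ℝ) ^ (k + 1) := mul_le_mul_of_nonneg_right h10 hw0
            _ = (1 + δ) * ((1 - η) * (w : ℝ) ^ (k + 1)) := by ring
            _ ≤ (1 + δ) * U := mul_le_mul_of_nonneg_left h9 (by linarith)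
        have h6 := hN1 w hwN1 w m U (w ^ (k + 1)) hsq1 hww3 hw2 hUU hU'
        have h62 := h6.2
        rw [hmk] at h62
        rw [abs_sub_comm, hmk, hmk]
        exact dens_close' (U := (U : ℝ)) (U' := ((w ^ (k + 1) : ℕ) : ℝ)) (pow_pos hMM k).le hU0
          (by exact_mod_cast hUU) hU' hδ.le (Nat.cast_nonneg _)
          (Nat.cast_le.2 (sy_mono c d w m hUU)) h6.1 h62
    have h8 := abs_sub_le (DS c d v m U) (DS c d w m U) (DS c d w m (w ^ (k + 1)))
    linarith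
  constructor
  · obtain ⟨m, hm⟩ : ∃ m : ℕ, hik c d w - ε / 4 < DS c d w m (w ^ (k + 1)) := by
      have : hik c d w - ε / 4 < ⨆ t : ℕ, DS c d w t (w ^ (k + 1)) := by
        change hik c d w - ε / 4 < hik c d w
        linarith
      exact exists_lt_of_lt_ciSup this
    refine ⟨m, ?_⟩
    have h5 := key m
    have h6 := le_hik c d w m
    rw [abs_le] at h5 ⊢
    constructor <;> linarith [h5.1, h5.2]
  · obtain ⟨m, hm⟩ : ∃ m : ℕ, DS c d w m (w ^ (k + 1)) < lok c d w + ε / 4 := by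
      have : (⨅ t : ℕ, DS c d w t (w ^ (k + 1))) < lok c d w + ε / 4 := by
        change lok c d w < lok c d w + ε / 4
        linarith
      exact exists_lt_of_ciInf_lt this
    refine ⟨m, ?_⟩
    have h5 := key m
    have h6 := lok_le c d w m
    rw [abs_le] at h5 ⊢
    constructor <;> linarith [h5.1, h5.2]

end Pool.Agent.H50.GW
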