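import Pool.Agent.H50.GW.Stm

set_option autoImplicit false

open MeasureTheory Filter
open scoped Topology ENNReal

namespace Pool.Agent.H50.GW

open Pool.Agent.H50.BF

namespace POSKaux

lemma rou_shift (v n m : ℕ) (h : ∀ p : ℕ, p.Prime → p ≤ v → n % p = m % p) :
    Rou v n ↔ Rou v m := by
  unfold Rou
  refine forall_congr' fun p => forall_congr' fun hp => forall_congr' fun hpv => ?_
  rw [Nat.dvd_iff_mod_eq_zero, Nat.dvd_iff_mod_eq_zero, h p hp hpv]

lemma prime_dvd_primorial {v p : ℕ} (hp : p.Prime) (hpv : p ≤ v) : p ∣ primorial v := by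
  rw [primorial]
  exact Finset.dvd_prod_of_mem _ (Finset.mem_filter.2 ⟨Finset.mem_range.2 (by omega), hp⟩)

/-- `sy` only depends on the start modulo the primes `≤ v` -/
lemma sy_congr {k : ℕ} (c d : Fin k → ℕ) (v n n' U : ℕ)
    (h : ∀ p : ℕ, p.Prime → p ≤ v → n % p = n' % p) : sy c d v n U = sy c d v n' U := by
  classical
  unfold sy
  congr 1
  refine Finset.filter_congr fun j _ => ?_
  refine forall_congr' fun i => ?_
  apply rou_shift
  intro p hp hpv
  have h1 : n ≡ n' [MOD p] := h p hp hpv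
  exact (((h1.add_right _).add_right _).mul_left _).add_right _

end POSKaux

open POSKaux in
theorem posk : S_POSK := by
  intro k c d v t X M U hX hM
  have hQ : 0 < primorial v := primorial_pos v
  set Q := primorial v with hQd
  -- the first number `≥ X` congruent to `t`
  obtain ⟨n0, hn1, hn2, hn3⟩ : ∃ n0, X ≤ n0 ∧ n0 ≤ X + Q ∧ n0 % Q = t % Q := by
    have ha : t % Q < Q := Nat.mod_lt _ hQ
    have hb : X % Q < Q := Nat.mod_lt _ hQ
    have hc : X = Q * (X / Q) + X % Q := (Nat.div_add_mod X Q).symm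
    by_cases hlt : X % Q ≤ t % Q
    · refine ⟨Q * (X / Q) + t % Q, by omega, by omega, ?_⟩
      rw [Nat.mul_add_mod]; exact Nat.mod_eq_of_lt ha
    · refine ⟨Q * (X / Q + 1) + t % Q, ?_, ?_, ?_⟩
      · rw [Nat.mul_add, Nat.mul_one]; omega
      · rw [Nat.mul_add, Nat.mul_one]; omega
      · rw [Nat.mul_add_mod]; exact Nat.mod_eq_of_lt ha
  refine ⟨fun i => n0 + i * (Q * (U + 1)), ?_, ?_, ?_⟩
  · intro i j hij
    have h1 : i * (Q * (U + 1)) + (Q * (U + 1)) ≤ j * (Q * (U + 1)) := by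
      rw [← Nat.succ_mul]
      exact Nat.mul_le_mul_right _ hij
    have h2 : U + 1 ≤ Q * (U + 1) := Nat.le_mul_of_pos_left _ hQ
    show n0 + _ + U ≤ n0 + _
    omega
  · intro i hi
    have h1 : i * (Q * (U + 1)) + (Q * (U + 1)) ≤ M * (Q * (U + 1)) := by
      rw [← Nat.succ_mul]
      exact Nat.mul_le_mul_right _ hi
    have h2 : U + 1 ≤ Q * (U + 1) := Nat.le_mul_of_pos_left _ hQ
    show X ≤ n0 + _ ∧ n0 + _ + U ≤ 2 * X
    omega
  · intro i U'
    apply sy_congr
    intro p hp hpv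
    obtain ⟨e, he⟩ := prime_dvd_primorial hp hpv
    have h1 : n0 % p = t % p := by
      have h2 : n0 ≡ t [MOD Q] := hn3
      exact h2.of_dvd ⟨e, he⟩
    show (n0 + i * (Q * (U + 1))) % p = t % p
    rw [← h1, hQd, he, show i * (p * e * (U + 1)) = p * (i * e * (U + 1)) by ring,
      Nat.add_mul_mod_self_left]

end Pool.Agent.H50.GW
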