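import Pool.Agent.H50.GW.BTK
import Pool.Agent.H50.GW.POSK

set_option autoImplicit false

namespace Pool.Agent.H50.GW

open Finset Filter Pool.Agent.H50.BF
open scoped Topology

namespace HBKaux

open BTKaux POSKaux

open Classical in
/-- the survivors -/
noncomputable def sur {k : ℕ} (c d : Fin k → ℕ) (v n U : ℕ) : Finset ℕ :=
  (Finset.range U).filter (fun j => ∀ i : Fin k, Rou v (c i * (n + j + 1) + d i))

lemma sy_eq {k : ℕ} (c d : Fin k → ℕ) (v n U : ℕ) : sy c d v n U = (sur c d v n U).card := rfl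

open Classical in
lemma nu_mul {k : ℕ} (c d : Fin k → ℕ) {p Q : ℕ} (hp : p.Prime) (hQ : ¬ p ∣ Q) (a : ℕ) :
    ((Finset.range p).filter (fun l => Bad c d p (a + Q * l))).card = nu c d p := by
  rw [nu_eq]
  set f : ℕ → ℕ := fun l => (a + Q * l) % p with hf
  have hinj : Set.InjOn f (Finset.range p : Set ℕ) := by
    intro x hx y hy h
    rw [Finset.mem_coe, Finset.mem_range] at hx hy
    have h1 : a + Q * x ≡ a + Q * y [MOD p] := h
    have h2 : Q * x ≡ Q * y [MOD p] := Nat.ModEq.add_left_cancel' a h1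
    have hc : Nat.gcd p Q = 1 := (Nat.Prime.coprime_iff_not_dvd hp).2 hQ
    have h3 : x ≡ y [MOD p] := Nat.ModEq.cancel_left_of_coprime hc h2
    unfold Nat.ModEq at h3
    rwa [Nat.mod_eq_of_lt hx, Nat.mod_eq_of_lt hy] at h3
  have him : (Finset.range p).image f = Finset.range p := by
    apply Finset.eq_of_subset_of_card_le
    · intro x hx
      rw [Finset.mem_image] at hx
      obtain ⟨l, _, rfl⟩ := hx
      rw [Finset.mem_range]
      exact Nat.mod_lt _ hp.pos
    · rw [Finset.card_image_of_injOn hinj]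
  conv_rhs => rw [← him]
  rw [Finset.filter_image, Finset.card_image_of_injOn]
  · congr 1
    refine Finset.filter_congr fun l _ => ?_
    exact bad_congr c d (Nat.mod_mod _ _).symm
  · intro x hx y hy h
    rw [Finset.mem_coe, Finset.mem_filter] at hx hy
    exact hinj (Finset.mem_coe.2 hx.1) (Finset.mem_coe.2 hy.1) h

lemma nu_le_p {k : ℕ} (c d : Fin k → ℕ) (p : ℕ) : nu c d p ≤ p := by
  classical
  unfold nu
  refine (Finset.card_filter_le _ _).trans ?_
  rw [Finset.card_range]

lemma rou_succ (w n : ℕ) : Rou (w + 1) n ↔ Rou w n ∧ ((w + 1).Prime → ¬ (w + 1) ∣ n) := by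
  unfold Rou
  constructor
  · intro h
    exact ⟨fun p hp hpw => h p hp (by omega), fun hp => h _ hp le_rfl⟩
  · rintro ⟨h1, h2⟩ p hp hpw
    rcases Nat.lt_or_ge p (w + 1) with h | h
    · exact h1 p hp (by omega)
    · have : p = w + 1 := by omega
      subst this
      exact h2 hp

lemma prod_succ {k : ℕ} (c d : Fin k → ℕ) (w : ℕ) :
    ∏ p ∈ (Finset.Icc 1 (w + 1)).filter Nat.Prime, (1 - (nu c d p : ℝ) / p) =
    (∏ p ∈ (Finset.Icc 1 w).filter Nat.Prime, (1 - (nu c d p : ℝ) / p)) *
      (if (w + 1).Prime then (1 - (nu c d (w + 1) : ℝ) / (w + 1 : ℕ)) else 1) := by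
  have he : Finset.Icc 1 (w + 1) = insert (w + 1) (Finset.Icc 1 w) := by
    ext x
    simp only [Finset.mem_insert, Finset.mem_Icc]
    omega
  rw [he, Finset.filter_insert]
  split_ifs with h
  · rw [Finset.prod_insert (by simp), mul_comm]
  · rw [mul_one]

lemma greedy {k : ℕ} (c d : Fin k → ℕ) (U : ℕ) : ∀ w : ℕ, ∃ t : ℕ,
    (U : ℝ) * ∏ p ∈ (Finset.Icc 1 w).filter Nat.Prime, (1 - (nu c d p : ℝ) / p) ≤
      sy c d w t U := by
  classical
  intro w
  induction w with
  | zero =>
    refine ⟨0, ?_⟩
    have h1 : sy c d 0 0 U = U := by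
      rw [sy_eq]
      unfold sur
      rw [Finset.filter_true_of_mem, Finset.card_range]
      intro j _ i p hp h0
      exact absurd hp.pos (by omega)
    rw [h1]
    simp
  | succ w ih =>
    obtain ⟨t, ht⟩ := ih
    rw [prod_succ]
    by_cases hp : (w + 1).Prime
    · rw [if_pos hp]
      set p := w + 1 with hpd
      have hppos : (0 : ℝ) < p := by exact_mod_cast hp.pos
      set Q := primorial w with hQd
      have hQp : ¬ p ∣ Q := by
        intro hd
        rw [hQd, primorial, Prime.dvd_finsetProd_iff hp.prime] at hd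
        obtain ⟨q, hq, hq'⟩ := hd
        rw [Finset.mem_filter, Finset.mem_range] at hq
        have := Nat.le_of_dvd hq.2.pos hq'
        omega
      set S := sur c d w t U with hS
      have hSl : ∀ l : ℕ, sur c d w (t + Q * l) U = S := by
        intro l
        rw [hS]
        unfold sur
        refine Finset.filter_congr fun j _ => ?_
        refine forall_congr' fun i => ?_
        apply rou_shift
        intro q hq hqw
        obtain ⟨e, he⟩ := prime_dvd_primorial hq hqw
        rw [hQd, he, show c i * (t + q * e * l + j + 1) + d i = c i * (t + j + 1) + d i +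
          q * (c i * e * l) by ring, Nat.add_mul_mod_self_left]
      have hsl : ∀ l : ℕ, sy c d p (t + Q * l) U +
          (S.filter (fun j => Bad c d p (t + j + 1 + Q * l))).card = S.card := by
        intro l
        rw [sy_eq]
        have : sur c d p (t + Q * l) U = S.filter (fun j => ¬ Bad c d p (t + j + 1 + Q * l)) := by
          rw [← hSl l]
          unfold sur
          rw [Finset.filter_filter]
          refine Finset.filter_congr fun j _ => ?_
          rw [hpd]
          constructor
          · intro h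
            refine ⟨fun i => ((rou_succ w _).1 (h i)).1, ?_⟩
            rintro ⟨i, hi⟩
            apply ((rou_succ w _).1 (h i)).2 hp
            rwa [show t + Q * l + j + 1 = t + j + 1 + Q * l by ring]
          · rintro ⟨h1, h2⟩ i
            rw [rou_succ]
            refine ⟨h1 i, fun _ hd => h2 ⟨i, ?_⟩⟩
            rwa [show t + j + 1 + Q * l = t + Q * l + j + 1 by ring]
        rw [this, add_comm]
        exact Finset.card_filter_add_card_filter_not _
      have hsum : ∑ l ∈ Finset.range p, (S.filter (fun j => Bad c d p (t + j + 1 + Q * l))).card =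
          S.card * nu c d p := by
        have h1 : ∀ l, (S.filter (fun j => Bad c d p (t + j + 1 + Q * l))).card =
            ∑ j ∈ S, if Bad c d p (t + j + 1 + Q * l) then 1 else 0 := by
          intro l; rw [Finset.card_filter]
        simp_rw [h1]
        rw [Finset.sum_comm]
        have h2 : ∀ j ∈ S, ∑ l ∈ Finset.range p, (if Bad c d p (t + j + 1 + Q * l) then 1 else 0) =
            nu c d p := by
          intro j _
          rw [← Finset.card_filter, nu_mul c d hp hQp]
        rw [Finset.sum_congr rfl h2, Finset.sum_const, smul_eq_mul]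
      obtain ⟨l, hl, hle⟩ : ∃ l ∈ Finset.range p,
          ((S.filter (fun j => Bad c d p (t + j + 1 + Q * l))).card : ℝ) ≤
            S.card * nu c d p / p := by
        by_contra hcon
        push Not at hcon
        have h1 : ∑ l ∈ Finset.range p, (S.card * nu c d p / p : ℝ) <
            ∑ l ∈ Finset.range p, ((S.filter (fun j => Bad c d p (t + j + 1 + Q * l))).card : ℝ) :=
          Finset.sum_lt_sum_of_nonempty ⟨0, Finset.mem_range.2 hp.pos⟩ hcon
        rw [Finset.sum_const, Finset.card_range, ← Nat.cast_sum, hsum, nsmul_eq_mul,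
          mul_div_cancel₀ _ hppos.ne'] at h1
        push_cast at h1
        exact lt_irrefl _ h1
      refine ⟨t + Q * l, ?_⟩
      have h3 := hsl l
      have h4 : (sy c d p (t + Q * l) U : ℝ) +
          ((S.filter (fun j => Bad c d p (t + j + 1 + Q * l))).card : ℝ) = S.card := by
        exact_mod_cast h3
      have h5 : (nu c d p : ℝ) / p ≤ 1 := by
        rw [div_le_one hppos]
        exact_mod_cast nu_le_p c d p
      rw [sy_eq] at ht
      have h6 := mul_le_mul_of_nonneg_right ht (sub_nonneg.2 h5)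
      calc (U : ℝ) * ((∏ p ∈ (Finset.Icc 1 w).filter Nat.Prime, (1 - (nu c d p : ℝ) / p)) *
            (1 - (nu c d p : ℝ) / p)) ≤ (S.card : ℝ) * (1 - (nu c d p : ℝ) / p) := by
            rw [← mul_assoc]; exact h6
        _ = S.card - S.card * nu c d p / p := by ring
        _ ≤ _ := by linarith
    · rw [if_neg hp, mul_one]
      refine ⟨t, ht.trans (le_of_eq ?_)⟩
      have : sy c d (w + 1) t U = sy c d w t U := by
        unfold sy
        congr 1
        refine Finset.filter_congr fun j _ => ?_
        refine forall_congr' fun i => ?_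
        rw [rou_succ]
        simp [hp]
      rw [this]

end HBKaux

open BTaux HBKaux

theorem hbk : S_SBK → S_SNG → S_HBK := by
  intro hsbk hsng k c d hS
  obtain ⟨c0, C0, hc0, hsing⟩ := hsng k c d hS
  obtain ⟨C, hC, hsb⟩ := hsbk k c d hS
  have hk := hS.one
  refine ⟨c0, C, hc0, ?_⟩
  filter_upwards [hsb 1 one_pos le_rfl, eventually_ge_atTop 1] with w h1 hw
  have hw1 : (1 : ℝ) ≤ w := by exact_mod_cast hw
  have hup : ∀ t : ℕ, DS c d w t (w ^ (k + 1)) ≤ C := by
    intro t
    have h2 : (w : ℝ) ^ 2 ≤ (w : ℝ) ^ (k + 1) := pow_le_pow_right₀ hw1 (by omega)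
    refine (h1 w t (w ^ (k + 1)) (w ^ (k + 1)) ?_ ?_ ?_ le_rfl ?_).2
    · rw [Real.sqrt_le_left (by linarith)]
      nlinarith
    · nlinarith
    · push_cast
      have : (0 : ℝ) ≤ (w : ℝ) ^ 2 := by positivity
      linarith
    · have : (0 : ℝ) ≤ ((w ^ (k + 1) : ℕ) : ℝ) := Nat.cast_nonneg _
      linarith
  have hbdd : BddAbove (Set.range fun t : ℕ => DS c d w t (w ^ (k + 1))) :=
    ⟨C, by rintro _ ⟨t, rfl⟩; exact hup t⟩
  refine ⟨?_, ciSup_le hup⟩
  obtain ⟨t, ht⟩ := greedy c d (w ^ (k + 1)) w
  refine le_trans ?_ (le_ciSup hbdd t)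
  have hU : (0 : ℝ) < ((w ^ (k + 1) : ℕ) : ℝ) := by
    push_cast
    positivity
  have hM : 0 < MM w ^ k := pow_pos (MM_pos w) k
  unfold DS
  rw [le_div_iff₀ hU]
  calc c0 * ((w ^ (k + 1) : ℕ) : ℝ) ≤
      ((∏ p ∈ (Finset.Icc 1 w).filter Nat.Prime, (1 - (nu c d p : ℝ) / p)) * MM w ^ k) *
        ((w ^ (k + 1) : ℕ) : ℝ) := mul_le_mul_of_nonneg_right (hsing w).1 hU.le
    _ = (((w ^ (k + 1) : ℕ) : ℝ) * ∏ p ∈ (Finset.Icc 1 w).filter Nat.Prime,
        (1 - (nu c d p : ℝ) / p)) * MM w ^ k := by ring
    _ ≤ sy c d w t (w ^ (k + 1)) * MM w ^ k := mul_le_mul_of_nonneg_right ht hM.le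

end Pool.Agent.H50.GW
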