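import Pool.Agent.H50.GW.Stm

set_option autoImplicit false

open MeasureTheory Filter ProbabilityTheory
open scoped Topology ENNReal

namespace Pool.Agent.H50.GW

theorem IND.zlarge (z : ℕ → ℕ)
    (lev : Tendsto (fun n : ℕ => Real.log (z n) / Real.log (Real.log n)) atTop (𝓝 1)) :
    ∃ n0 : ℕ, ∀ n : ℕ, n0 ≤ n → 3 ≤ z n := by
  have hll : Tendsto (fun n : ℕ => Real.log (Real.log (n : ℝ))) atTop atTop :=
    Real.tendsto_log_atTop.comp (Real.tendsto_log_atTop.comp tendsto_natCast_atTop_atTop)
  have h1 : ∀ᶠ n : ℕ in atTop, (1 : ℝ) / 2 < Real.log (z n) / Real.log (Real.log n) :=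
    lev.eventually (lt_mem_nhds (by norm_num))
  have h2 : ∀ᶠ n : ℕ in atTop, (4 : ℝ) ≤ Real.log (Real.log n) := hll.eventually_ge_atTop 4
  obtain ⟨n0, hn0⟩ := eventually_atTop.1 (h1.and h2)
  refine ⟨n0, fun n hn => ?_⟩
  obtain ⟨ha, hb⟩ := hn0 n hn
  by_contra hlt
  push Not at hlt
  have hpos : 0 < Real.log (Real.log n) := by linarith
  rw [lt_div_iff₀ hpos] at ha
  have hz : Real.log (z n) ≤ 1 := by
    have hz2 : (z n : ℝ) ≤ 2 := by exact_mod_cast (by omega : z n ≤ 2)
    rcases Nat.eq_zero_or_pos (z n) with h0 | h0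
    · rw [h0]; simp
    · have : Real.log (z n) ≤ (z n : ℝ) - 1 := Real.log_le_sub_one_of_pos (by exact_mod_cast h0)
      linarith
  linarith

theorem IND.prodAux {Ω : Type} [MeasurableSpace Ω] (P : Measure Ω) (A : ℕ → Set Ω)
    (hind : iIndepSet A P) {ι : Type} (s : Finset ι) (f : ι → ℕ)
    (hf : Set.InjOn f s) :
    P (⋂ x ∈ s, A (f x)) = ∏ x ∈ s, P (A (f x)) := by
  classical
  have h1 : (⋂ x ∈ s, A (f x)) = ⋂ N ∈ s.image f, A N := by
    ext ω
    simp
  rw [h1, hind.meas_biInter, Finset.prod_image hf]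

theorem ind : S_IND := by
  classical
  intro Ω _ P A z hG k c d hS
  obtain ⟨n1, hn1⟩ := IND.zlarge z hG.lev
  obtain ⟨n2, hn2⟩ := hS.inj
  obtain ⟨n3, hn3⟩ := hS.col
  have hfirst : ∀ m : ℕ, n2 ≤ m → P (Hit c d A m) = ∏ i, P (A (c i * m + d i)) := by
    intro m hm
    have := IND.prodAux P A hG.indep (Finset.univ : Finset (Fin k)) (fun i => c i * m + d i)
      ((hn2 m hm).injOn)
    simpa [Hit] using this
  refine ⟨n1 + n2 + n3, fun m hm => hfirst m (by omega), fun X hX => ?_⟩
  have hmeas : ∀ m, MeasurableSet (Hit c d A m) := fun m =>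
    MeasurableSet.iInter fun i => hG.meas _
  rw [iIndepSet_iff_meas_biInter (f := fun m : {m : ℕ // X < m ∧ m ≤ 2 * X} => Hit c d A m)
    (fun m => hmeas m)]
  intro s
  by_cases hemp : ∃ m ∈ s, Hit c d A m.1 = ∅
  · obtain ⟨m, hm, hme⟩ := hemp
    have h1 : (⋂ m ∈ s, Hit c d A m.1) = ∅ := by
      refine Set.eq_empty_of_forall_notMem fun ω hω => ?_
      have := Set.mem_iInter₂.1 hω m hm
      rw [hme] at this
      exact this
    rw [h1, measure_empty]
    symm
    refine Finset.prod_eq_zero hm ?_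
    rw [hme, measure_empty]
  · push Not at hemp
    have hrou : ∀ m ∈ s, ∀ i : Fin k, Rou 3 (c i * m.1 + d i) := by
      intro m hm i
      have hne : A (c i * m.1 + d i) ≠ ∅ := by
        intro h0
        have hh := (hemp m hm)
        obtain ⟨ω, hω⟩ := hh
        have := Set.mem_iInter.1 hω i
        rw [h0] at this
        exact this
      have hr : Rou (z (c i * m.1 + d i)) (c i * m.1 + d i) := by
        by_contra hr
        exact hne (hG.empty _ hr)
      have hge : m.1 ≤ c i * m.1 + d i := by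
        have := hS.pos i
        nlinarith [m.2.1]
      have hz : 3 ≤ z (c i * m.1 + d i) := hn1 _ (by have := m.2.1; omega)
      intro p hp hp3
      exact hr p hp (by omega)
    have hinj : Set.InjOn (fun x : {m : ℕ // X < m ∧ m ≤ 2 * X} × Fin k => c x.2 * x.1.1 + d x.2)
        ((s ×ˢ (Finset.univ : Finset (Fin k)) : Finset _) : Set _) := by
      have hno : ∀ m ∈ s, ∀ m' ∈ s, ∀ i j : Fin k, m.1 < m'.1 →
          c i * m.1 + d i ≠ c j * m'.1 + d j := by
        intro m hm m' hm' i j hlt heq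
        obtain ⟨p, hp, hp3, l, hl⟩ := hn3 m.1 m'.1 (by have := m.2.1; omega) hlt
          (by have := m.2.1; have := m'.2.2; omega) i j heq
        rcases hl with hl | hl
        · exact hrou m hm l p hp hp3 hl
        · exact hrou m' hm' l p hp hp3 hl
      rintro ⟨m, i⟩ hx ⟨m', j⟩ hy hxy
      simp only [Finset.coe_product, Finset.coe_univ, Set.mem_prod, Finset.mem_coe,
        Set.mem_univ, and_true] at hx hy
      simp only at hxy
      rcases lt_trichotomy m.1 m'.1 with hlt | heq | hlt
      · exact absurd hxy (hno m hx m' hy i j hlt)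
      · have hmm : m = m' := Subtype.ext heq
        subst hmm
        have := hn2 m.1 (by have := m.2.1; omega) hxy
        rw [this]
      · exact absurd hxy.symm (hno m' hy m hx j i hlt)
    have h1 := IND.prodAux P A hG.indep _ _ hinj
    have h2 : (⋂ x ∈ s ×ˢ (Finset.univ : Finset (Fin k)), A (c x.2 * x.1.1 + d x.2)) =
        ⋂ m ∈ s, Hit c d A m.1 := by
      ext ω
      simp only [Hit, Set.mem_iInter, Finset.mem_product, Finset.mem_univ, and_true, Prod.forall]
      constructor
      · intro h m hm i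
        exact h m i hm
      · intro h m i hm
        exact h m hm i
    rw [h2] at h1
    rw [h1, Finset.prod_product]
    refine Finset.prod_congr rfl fun m hm => ?_
    rw [hfirst m.1 (by have := m.2.1; omega)]

end Pool.Agent.H50.GW
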