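import Pool.Agent.H50.GW.Stm
import Pool.Agent.H50.BF.SUB

set_option autoImplicit false

namespace Pool.Agent.H50.GW

open Finset Filter Pool.Agent.H50.BF
open scoped Topology

namespace SYaux

lemma rou_anti {v v' n : ℕ} (h : v ≤ v') (hr : Rou v' n) : Rou v n :=
  fun p hp hpv => hr p hp (hpv.trans h)

lemma sy_anti {k : ℕ} (c d : Fin k → ℕ) {v v' : ℕ} (h : v ≤ v') (n U : ℕ) :
    sy c d v' n U ≤ sy c d v n U := by
  classical
  unfold sy
  refine card_le_card fun j hj => ?_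
  rw [mem_filter] at hj ⊢
  exact ⟨hj.1, fun i => rou_anti h (hj.2 i)⟩

lemma sy_mono {k : ℕ} (c d : Fin k → ℕ) (v n : ℕ) {U U' : ℕ} (h : U ≤ U') :
    sy c d v n U ≤ sy c d v n U' := by
  classical
  unfold sy
  refine card_le_card fun j hj => ?_
  rw [mem_filter, mem_range] at hj ⊢
  exact ⟨hj.1.trans_le h, hj.2⟩

lemma sy_le {k : ℕ} (c d : Fin k → ℕ) (v n U : ℕ) : sy c d v n U ≤ U := by
  classical
  unfold sy
  refine (card_filter_le _ _).trans ?_
  rw [card_range]

lemma sy_add {k : ℕ} (c d : Fin k → ℕ) (v n U V : ℕ) :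
    sy c d v n (U + V) = sy c d v n U + sy c d v (n + U) V := by
  classical
  unfold sy
  rw [range_add_eq_union, filter_union, card_union_of_disjoint, filter_map, card_map]
  · congr 2
    refine Finset.filter_congr fun j _ => ?_
    simp only [Function.comp, addLeftEmbedding_apply]
    rw [show n + (U + j) + 1 = n + U + j + 1 by ring]
  · refine disjoint_filter_filter ?_
    rw [disjoint_left]
    intro x hx hx'
    rw [mem_range] at hx
    rw [Finset.mem_map] at hx'
    obtain ⟨y, _, rfl⟩ := hx'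
    simp at hx

end SYaux

open BTaux SYaux

theorem sbk : S_BTK → BF.S_MERT → S_SBK := by
  intro hbtk hmert k c d hS
  obtain ⟨C0, s0, hC0, hs0, hbt⟩ := hbtk k c d hS
  have hs0' : (1 : ℝ) ≤ s0 := by exact_mod_cast hs0
  set κ : ℝ := 1 / (2 * s0) with hκd
  have hκ : 0 < κ := by positivity
  have hκ2 : κ ≤ 1 / 2 := by
    rw [hκd]
    exact one_div_le_one_div_of_le (by norm_num) (by linarith)
  have hκs : κ * s0 ≤ 1 / 2 := by
    rw [hκd]
    field_simp
    exact le_rfl
  refine ⟨2 * C0 * (16 / κ) ^ k, by positivity, fun δ hδ hδ1 => ?_⟩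
  have ht : Tendsto (fun w : ℕ => Real.sqrt w) atTop atTop :=
    Real.tendsto_sqrt_atTop.comp tendsto_natCast_atTop_atTop
  filter_upwards [mert_ratio hmert hκ, ht.eventually_ge_atTop (2 ^ (s0 + 1) / δ),
    eventually_ge_atTop 1] with w h1 h2 h3 v n U U' hv1 hv2 hU hUU hU'
  set y := ⌊(w : ℝ) ^ κ⌋₊ with hy
  have hw1 : (1 : ℝ) ≤ w := by exact_mod_cast h3
  have hx1 : 1 ≤ Real.sqrt w := by
    rw [Real.one_le_sqrt]
    exact hw1
  have hxx : Real.sqrt w * Real.sqrt w = w := Real.mul_self_sqrt (by linarith)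
  have hyv : y ≤ v := by
    have h4 : (y : ℝ) ≤ v := by
      calc (y : ℝ) ≤ (w : ℝ) ^ κ := Nat.floor_le (by positivity)
        _ ≤ (w : ℝ) ^ (1 / 2 : ℝ) := Real.rpow_le_rpow_of_exponent_le hw1 hκ2
        _ = Real.sqrt w := (Real.sqrt_eq_rpow _).symm
        _ ≤ v := hv1
    exact_mod_cast h4
  have hMv : MM v ≤ 16 / κ * MM y := (MM_mono (by exact_mod_cast hv2)).trans h1
  have hMv0 := MM_pos v
  have hMy0 := MM_pos y
  have hMvk : MM v ^ k ≤ (16 / κ) ^ k * MM y ^ k := by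
    rw [← mul_pow]
    exact pow_le_pow_left₀ hMv0.le hMv k
  have hpow : ((y : ℝ) + 1) ^ s0 ≤ δ * U := by
    have h4 := BTaux.pow_le hκ hκs h3
    rw [← hy, ← Real.sqrt_eq_rpow] at h4
    have h5 : 2 ^ (s0 + 1) ≤ Real.sqrt w * δ := (div_le_iff₀ hδ).1 h2
    have h6 : 2 ^ s0 * Real.sqrt w ≤ δ * ((w : ℝ) ^ 2 / 2) := by
      rw [pow_succ] at h5
      have h7 : (2 ^ s0 : ℝ) ≤ Real.sqrt w * δ / 2 := by linarith
      have h8 : (w : ℝ) ≤ w ^ 2 := by nlinarith
      calc 2 ^ s0 * Real.sqrt w ≤ Real.sqrt w * δ / 2 * Real.sqrt w :=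
            mul_le_mul_of_nonneg_right h7 (by positivity)
        _ = δ * (Real.sqrt w * Real.sqrt w / 2) := by ring
        _ ≤ δ * ((w : ℝ) ^ 2 / 2) := by
          rw [hxx]
          refine mul_le_mul_of_nonneg_left ?_ hδ.le
          linarith
    exact h4.trans (h6.trans (mul_le_mul_of_nonneg_left hU hδ.le))
  have hU0 : (0 : ℝ) < U := lt_of_lt_of_le (by positivity) hU
  have hδU : 1 ≤ δ * U := (one_le_pow₀ (by linarith [Nat.cast_nonneg (α := ℝ) y])).trans hpow
  have hvk : 0 < MM v ^ k := pow_pos hMv0 k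
  have hyk : 0 < MM y ^ k := pow_pos hMy0 k
  constructor
  · have e1 : (sy c d v n U' : ℝ) - sy c d v n U = sy c d v (n + U) (U' - U) := by
      have := sy_add c d v n U (U' - U)
      rw [Nat.add_sub_cancel' hUU] at this
      rw [this]
      push_cast
      ring
    have h5 : U' - U ≤ ⌈δ * (U : ℝ)⌉₊ := by
      have : ((U' - U : ℕ) : ℝ) ≤ ⌈δ * (U : ℝ)⌉₊ := by
        rw [Nat.cast_sub hUU]
        have := Nat.le_ceil (δ * (U : ℝ))
        linarith
      exact_mod_cast this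
    have h6 : sy c d v (n + U) (U' - U) ≤ sy c d y (n + U) ⌈δ * (U : ℝ)⌉₊ :=
      (sy_mono _ _ _ _ h5).trans (sy_anti _ _ hyv _ _)
    have h7 := hbt y (n + U) ⌈δ * (U : ℝ)⌉₊ (hpow.trans (Nat.le_ceil _))
    have h8 : (⌈δ * (U : ℝ)⌉₊ : ℝ) ≤ 2 * (δ * U) := by
      have := Nat.ceil_lt_add_one (a := δ * (U : ℝ)) (by positivity)
      linarith
    rw [e1]
    calc (sy c d v (n + U) (U' - U) : ℝ) * (MM v ^ k / U)
        ≤ C0 * (2 * (δ * U) / MM y ^ k) * (MM v ^ k / U) := by
          refine mul_le_mul_of_nonneg_right ?_ (by positivity)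
          refine (Nat.cast_le.2 h6).trans (h7.trans ?_)
          gcongr
      _ = C0 * 2 * δ * (MM v ^ k / MM y ^ k) := by
          field_simp
      _ ≤ C0 * 2 * δ * (16 / κ) ^ k := by
          refine mul_le_mul_of_nonneg_left ?_ (by positivity)
          rw [div_le_iff₀ hyk]
          exact hMvk
      _ = 2 * C0 * (16 / κ) ^ k * δ := by ring
  · have h7 := hbt y n U (hpow.trans (by nlinarith))
    unfold DS
    calc (sy c d v n U : ℝ) * MM v ^ k / U = (sy c d v n U : ℝ) * (MM v ^ k / U) := by ring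
      _ ≤ C0 * (U / MM y ^ k) * (MM v ^ k / U) := by
          refine mul_le_mul_of_nonneg_right ?_ (by positivity)
          exact (Nat.cast_le.2 (sy_anti _ _ hyv n U)).trans h7
      _ = C0 * (MM v ^ k / MM y ^ k) := by
          field_simp
      _ ≤ C0 * (16 / κ) ^ k := by
          refine mul_le_mul_of_nonneg_left ?_ hC0.le
          rw [div_le_iff₀ hyk]
          exact hMvk
      _ ≤ 2 * C0 * (16 / κ) ^ k := by
          have : 0 < C0 * (16 / κ) ^ k := by positivity
          linarith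

end Pool.Agent.H50.GW
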