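import Pool.Agent.H50.GW.Stm
import Pool.Agent.H50.BF.TRANS

set_option autoImplicit false

namespace Pool.Agent.H50.GW

open Finset Filter
open scoped Topology
open Pool.Agent.H50.BF Pool.Agent.H50.BF.BTaux

namespace TRKaux

variable {k : ℕ} {c d : Fin k → ℕ}

/-- `sy` is nonincreasing in the level -/
lemma sy_anti {v v' : ℕ} (h : v ≤ v') (n U : ℕ) : sy c d v' n U ≤ sy c d v n U := by
  classical
  unfold sy
  refine card_le_card fun j hj => ?_
  rw [mem_filter] at hj ⊢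
  exact ⟨hj.1, fun i p hp hpv => hj.2 i p hp (hpv.trans h)⟩

/-- a form has only one zero modulo a large prime -/
lemma one_class {p ci di : ℕ} (hp : p.Prime) (h1 : 1 ≤ ci) (h2 : ci < p) :
    ∃ r : ℕ, ∀ m : ℕ, p ∣ ci * m + di → m % p = r := by
  by_cases h : ∃ m0 : ℕ, p ∣ ci * m0 + di
  · obtain ⟨m0, hm0⟩ := h
    refine ⟨m0 % p, fun m hm => ?_⟩
    have hco : Nat.Coprime p ci := by
      rw [hp.coprime_iff_not_dvd]
      intro hd
      exact absurd (Nat.le_of_dvd (by omega) hd) (by omega)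
    have h3 : ci * m + di ≡ ci * m0 + di [MOD p] :=
      ((Nat.modEq_zero_iff_dvd.2 hm).trans (Nat.modEq_zero_iff_dvd.2 hm0).symm)
    have h4 : ci * m ≡ ci * m0 [MOD p] := Nat.ModEq.add_right_cancel' di h3
    exact Nat.ModEq.cancel_left_of_coprime hco h4
  · push Not at h
    exact ⟨0, fun m hm => absurd hm (h m)⟩

open Classical in
/-- the survivors removed by the primes in `(v, v']` -/
lemma sy_drop {y v v' : ℕ} (hyv : y ≤ v) (hc : ∀ i, 1 ≤ c i) (hcv : ∀ i, c i ≤ v) (n U : ℕ) :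
    ∃ r : ℕ → Fin k → ℕ, sy c d v n U ≤ sy c d v' n U + ∑ p ∈ (Ioc v v').filter Nat.Prime,
      ∑ i : Fin k, Finset.card (Finset.filter (fun j =>
        (∀ i : Fin k, Rou y (c i * (n + j + 1) + d i)) ∧ (n + j + 1) % p = r p i)
          (Finset.range U)) := by
  have hr : ∀ (p : ℕ) (i : Fin k), ∃ r : ℕ, p.Prime → v < p →
      ∀ m : ℕ, p ∣ c i * m + d i → m % p = r := by
    intro p i
    by_cases hp : p.Prime ∧ v < p
    · obtain ⟨r, hr⟩ := one_class (di := d i) hp.1 (hc i) ((hcv i).trans_lt hp.2)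
      exact ⟨r, fun _ _ => hr⟩
    · exact ⟨0, fun h1 h2 => absurd ⟨h1, h2⟩ hp⟩
  choose r hr using hr
  refine ⟨r, ?_⟩
  refine le_trans (card_le_card (t := ((range U).filter (fun j =>
      ∀ i : Fin k, Rou v' (c i * (n + j + 1) + d i))) ∪
    ((Ioc v v').filter Nat.Prime).biUnion (fun p => (univ : Finset (Fin k)).biUnion fun i =>
      Finset.filter (fun j => (∀ i : Fin k, Rou y (c i * (n + j + 1) + d i)) ∧
        (n + j + 1) % p = r p i) (Finset.range U))) ?_) ((card_union_le _ _).trans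
          (Nat.add_le_add_left (card_biUnion_le.trans (sum_le_sum fun p _ => card_biUnion_le)) _))
  intro j hj
  rw [mem_filter] at hj
  by_cases h : ∀ i : Fin k, Rou v' (c i * (n + j + 1) + d i)
  · exact mem_union_left _ (mem_filter.2 ⟨hj.1, h⟩)
  · push Not at h
    obtain ⟨i, hi⟩ := h
    unfold Rou at hi
    push Not at hi
    obtain ⟨p, hp, hpv, hpd⟩ := hi
    have hvp : v < p := by
      by_contra hle
      exact hj.2 i p hp (by omega) hpd
    refine mem_union_right _ (mem_biUnion.2 ⟨p, mem_filter.2 ⟨mem_Ioc.2 ⟨hvp, hpv⟩, hp⟩,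
      mem_biUnion.2 ⟨i, mem_univ _, mem_filter.2 ⟨hj.1,
        fun i' q hq hqy => hj.2 i' q hq (hqy.trans hyv), hr p i hp hvp _ hpd⟩⟩⟩)

/-- `(1 + x)^k ≤ 1 + k A^k x` for `1 + x ≤ A` -/
lemma pow_one_add {x A : ℝ} (hx : 0 ≤ x) (hA : 1 + x ≤ A) (k : ℕ) :
    (1 + x) ^ k ≤ 1 + k * A ^ k * x := by
  have hA1 : 1 ≤ A := by linarith
  induction k with
  | zero => simp
  | succ k ih =>
    have h1 : (0 : ℝ) ≤ k * A ^ k * x := by positivity
    have h2 : (1 : ℝ) ≤ A ^ (k + 1) := one_le_pow₀ hA1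
    calc (1 + x) ^ (k + 1) = (1 + x) ^ k * (1 + x) := pow_succ _ _
      _ ≤ (1 + k * A ^ k * x) * (1 + x) := mul_le_mul_of_nonneg_right ih (by linarith)
      _ = 1 + x + k * A ^ k * x * (1 + x) := by ring
      _ ≤ 1 + A ^ (k + 1) * x + k * A ^ k * x * A := by
        refine add_le_add (add_le_add_right ?_ _) (mul_le_mul_of_nonneg_left hA h1)
        nlinarith
      _ = 1 + ((k + 1 : ℕ) : ℝ) * A ^ (k + 1) * x := by
        push_cast
        ring

end TRKaux

open TRKaux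

theorem trk : S_APK → S_BTK → BF.S_MERT → S_TRK := by
  classical
  intro hAPK hBTK hmert k c d hS
  obtain ⟨CA, s1, hCA, hs1, hap⟩ := hAPK k c d hS
  obtain ⟨CB, s0, hCB, hs0, hbt⟩ := hBTK k c d hS
  have hs0' : (1 : ℝ) ≤ s0 := by exact_mod_cast hs0
  have hs1' : (1 : ℝ) ≤ s1 := by exact_mod_cast hs1
  have hk1 : (1 : ℝ) ≤ k := by exact_mod_cast hS.one
  set κ : ℝ := 1 / (4 * (s0 + s1)) with hκd
  have hκ : 0 < κ := by positivity
  have hκ2 : κ ≤ 1 / 2 := by
    rw [hκd]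
    exact one_div_le_one_div_of_le (by norm_num) (by linarith)
  have hκ0 : κ * s0 ≤ 1 / 4 := by
    rw [hκd, div_mul_eq_mul_div, div_le_div_iff₀ (by positivity) (by norm_num)]
    linarith
  have hκ1 : κ * s1 ≤ 1 / 4 := by
    rw [hκd, div_mul_eq_mul_div, div_le_div_iff₀ (by positivity) (by norm_num)]
    linarith
  set R : ℝ := (16 / κ) ^ k with hR
  have hR0 : 0 < R := by positivity
  set G : ℝ := k * (7 / 2) ^ k * 5 with hG
  have hG0 : 0 < G := by positivity
  refine ⟨R * (6 * (k * CA) + G * CB), by positivity, fun η hη hη1 => ?_⟩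
  have ht : Tendsto (fun w : ℕ => (w : ℝ) ^ (1 / 4 : ℝ)) atTop atTop :=
    (tendsto_rpow_atTop (by norm_num)).comp tendsto_natCast_atTop_atTop
  have hcs0 : (0 : ℝ) ≤ ∑ i, (c i : ℝ) := sum_nonneg fun i _ => Nat.cast_nonneg _
  filter_upwards [mert_ratio hmert hκ, mert_eta hmert hη hη1,
    ht.eventually_ge_atTop (2 ^ (s0 + 1) + 2 ^ (s1 + 1) + 2 + 2 / η + ∑ i, (c i : ℝ)),
    eventually_ge_atTop 1] with w h1 h2 h3 h4 v v' n U hv hvv hv' hU
  set y := ⌊(w : ℝ) ^ κ⌋₊ with hy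
  set x : ℝ := (w : ℝ) ^ (1 / 4 : ℝ) with hx
  have hw1 : (1 : ℝ) ≤ w := by exact_mod_cast h4
  have hw0 : (0 : ℝ) ≤ w := by linarith
  have hx4 : ∀ k : ℕ, x ^ k = (w : ℝ) ^ ((k : ℝ) / 4) := by
    intro k
    rw [hx, ← Real.rpow_natCast, ← Real.rpow_mul hw0]
    congr 1
    ring
  have hx8 : x ^ 8 = (w : ℝ) ^ 2 := by
    rw [hx4]
    norm_num
  have hx6 : (w : ℝ) ^ (1 + η) ≤ x ^ 6 := by
    rw [hx4]
    exact Real.rpow_le_rpow_of_exponent_le hw1 (by push_cast; linarith)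
  have hx2 : x ^ 2 ≤ (w : ℝ) ^ (1 - η) := by
    rw [hx4]
    exact Real.rpow_le_rpow_of_exponent_le hw1 (by push_cast; linarith)
  have hp0 : (0 : ℝ) < 2 ^ (s0 + 1) := by positivity
  have hp1 : (0 : ℝ) < 2 ^ (s1 + 1) := by positivity
  have hp2 : (0 : ℝ) < 2 / η := by positivity
  have hxge : 2 < x := by linarith
  have hxs0 : 2 * 2 ^ s0 + 2 ≤ x := by
    rw [pow_succ] at h3
    linarith
  have hxs1 : 2 * 2 ^ s1 + 2 ≤ x := by
    rw [pow_succ, pow_succ] at h3
    have : (0 : ℝ) < 2 ^ s0 := by positivity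
    linarith
  have hxη : 2 / η ≤ x := by linarith
  have hxc : ∑ i, (c i : ℝ) ≤ x := by linarith
  have hyw : ((y : ℝ) + 1) ^ s0 ≤ 2 ^ s0 * x := pow_le hκ hκ0 h4
  have hyw1 : ((y : ℝ) + 1) ^ s1 ≤ 2 ^ s1 * x := pow_le hκ hκ1 h4
  have hyv : y ≤ v := by
    have h5 : (y : ℝ) ≤ v := by
      calc (y : ℝ) ≤ (w : ℝ) ^ κ := Nat.floor_le (by positivity)
        _ ≤ (w : ℝ) ^ (1 / 2 : ℝ) := Real.rpow_le_rpow_of_exponent_le hw1 hκ2
        _ = x ^ 2 := by
          rw [hx4]
          norm_num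
        _ ≤ v := hx2.trans hv
    exact_mod_cast h5
  have hcv : ∀ i, c i ≤ v := by
    intro i
    have h5 : (c i : ℝ) ≤ v := by
      calc (c i : ℝ) ≤ ∑ i, (c i : ℝ) :=
            single_le_sum (f := fun i => (c i : ℝ)) (fun i _ => Nat.cast_nonneg _) (mem_univ i)
        _ ≤ x := hxc
        _ ≤ x ^ 2 := by nlinarith
        _ ≤ v := hx2.trans hv
    exact_mod_cast h5
  have hMv0 := MM_pos v
  have hMy0 := MM_pos y
  have hMv : MM v ≤ 16 / κ * MM y := by
    refine (MM_mono ?_).trans h1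
    have h5 : (v : ℝ) ≤ (w : ℝ) ^ 2 := by
      calc (v : ℝ) ≤ v' := by exact_mod_cast hvv
        _ ≤ x ^ 6 := hv'.trans hx6
        _ ≤ x ^ 8 := pow_le_pow_right₀ (by linarith) (by norm_num)
        _ = (w : ℝ) ^ 2 := hx8
    exact_mod_cast h5
  have hMv' : MM v' ≤ (1 + 5 * η) * MM v := h2 v v' hv hvv hv'
  have hMmono : MM v ≤ MM v' := MM_mono hvv
  have hMvk : MM v' ^ k ≤ (1 + G * η) * MM v ^ k := by
    have h5 : MM v' ^ k ≤ ((1 + 5 * η) * MM v) ^ k :=
      pow_le_pow_left₀ (MM_pos v').le hMv' k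
    have h6 : (1 + 5 * η) ^ k ≤ 1 + G * η := by
      have h7 := pow_one_add (x := 5 * η) (A := 7 / 2) (by linarith) (by linarith) k
      calc (1 + 5 * η) ^ k ≤ 1 + k * (7 / 2) ^ k * (5 * η) := h7
        _ = 1 + G * η := by
          rw [hG]
          ring
    calc MM v' ^ k ≤ ((1 + 5 * η) * MM v) ^ k := h5
      _ = (1 + 5 * η) ^ k * MM v ^ k := mul_pow _ _ _
      _ ≤ (1 + G * η) * MM v ^ k := mul_le_mul_of_nonneg_right h6 (by positivity)
  have hMkmono : MM v ^ k ≤ MM v' ^ k := pow_le_pow_left₀ hMv0.le hMmono k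
  have hU' : x ^ 8 / 2 ≤ U := by
    rw [hx8]
    exact hU
  have hx1 : (1 : ℝ) ≤ x := by linarith
  have hU0 : (0 : ℝ) < U := lt_of_lt_of_le (by positivity) hU'
  have hratio : MM v ^ k / MM y ^ k ≤ R := by
    rw [← div_pow, hR]
    refine pow_le_pow_left₀ (by positivity) ?_ k
    rw [div_le_iff₀ hMy0]
    exact hMv
  have hratio0 : 0 ≤ MM v ^ k / MM y ^ k := by positivity
  -- the bound for the survivors of level `v'`
  have hbU : ((y : ℝ) + 1) ^ s0 ≤ U := by
    refine hyw.trans (le_trans ?_ hU')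
    have h5 : x ^ 2 ≤ x ^ 8 := pow_le_pow_right₀ hx1 (by norm_num)
    nlinarith
  have hsv' : (sy c d v' n U : ℝ) ≤ CB * (U / MM y ^ k) :=
    (Nat.cast_le.2 (sy_anti (hyv.trans hvv) n U)).trans (hbt y n U hbU)
  -- the bound for the removed survivors
  have hsum : ∑ p ∈ (Ioc v v').filter Nat.Prime, (p : ℝ)⁻¹ ≤ 5 * η := by
    have h5 := MM_sum v' hvv
    have h6 : MM v * (1 + ∑ p ∈ (Ioc v v').filter Nat.Prime, (p : ℝ)⁻¹) ≤ MM v * (1 + 5 * η) :=
      h5.trans (by linarith)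
    have h7 := le_of_mul_le_mul_left h6 hMv0
    linarith
  have hdrop : (sy c d v n U : ℝ) - sy c d v' n U ≤ k * CA / MM y ^ k * (U * (6 * η)) := by
    obtain ⟨r, h5⟩ := sy_drop (d := d) (v' := v') hyv hS.pos hcv n U
    have h6 : (sy c d v n U : ℝ) ≤ sy c d v' n U + ∑ p ∈ (Ioc v v').filter Nat.Prime,
        k * CA / MM y ^ k * (U * (p : ℝ)⁻¹ + 1) := by
      refine (Nat.cast_le.2 h5).trans ?_
      push_cast
      refine add_le_add_right (sum_le_sum fun p hp => ?_) _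
      rw [mem_filter, mem_Ioc] at hp
      have hpp : (0 : ℝ) < p := by exact_mod_cast hp.2.pos
      have hdiv : ((U / p : ℕ) : ℝ) ≤ (U : ℝ) / p := Nat.cast_div_le
      have hdiv2 : (U : ℝ) / p - 1 ≤ ((U / p : ℕ) : ℝ) := by
        have h7 : U < p * (U / p + 1) := Nat.lt_mul_div_succ U hp.2.pos
        have h8 : (U : ℝ) < p * ((U / p : ℕ) + 1) := by exact_mod_cast h7
        rw [sub_le_iff_le_add, div_le_iff₀ hpp]
        linarith
      have hpx : (p : ℝ) ≤ x ^ 6 := by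
        have : (p : ℝ) ≤ v' := by exact_mod_cast hp.1.2
        exact this.trans (hv'.trans hx6)
      have h7 : x ^ 2 / 2 ≤ (U : ℝ) / p := by
        rw [le_div_iff₀ hpp]
        calc x ^ 2 / 2 * p ≤ x ^ 2 / 2 * x ^ 6 :=
              mul_le_mul_of_nonneg_left hpx (by positivity)
          _ = x ^ 8 / 2 := by ring
          _ ≤ U := hU'
      have h8 : ((y : ℝ) + 1) ^ s1 ≤ ((U / p : ℕ) : ℝ) := by
        refine hyw1.trans (le_trans ?_ hdiv2)
        nlinarith
      have h9 : ∀ i ∈ (univ : Finset (Fin k)), ((Finset.card (Finset.filter (fun j =>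
          (∀ i : Fin k, Rou y (c i * (n + j + 1) + d i)) ∧ (n + j + 1) % p = r p i)
            (Finset.range U)) : ℕ) : ℝ) ≤ CA / MM y ^ k * (U * (p : ℝ)⁻¹ + 1) := by
        intro i _
        refine (hap y n U p (r p i) hp.2 (by omega) h8).trans ?_
        rw [div_mul_eq_mul_div, mul_div_assoc]
        refine mul_le_mul_of_nonneg_left ?_ hCA.le
        refine div_le_div_of_nonneg_right ?_ (by positivity)
        rw [← div_eq_mul_inv]
        linarith
      refine (sum_le_sum h9).trans ?_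
      rw [sum_const, card_univ, Fintype.card_fin, nsmul_eq_mul]
      refine le_of_eq ?_
      ring
    rw [← mul_sum, sum_add_distrib, ← mul_sum, sum_const, nsmul_eq_mul, mul_one] at h6
    have h7 : (((Ioc v v').filter Nat.Prime).card : ℝ) ≤ U * η := by
      have h8 : ((Ioc v v').filter Nat.Prime).card ≤ v' := by
        refine (card_filter_le _ _).trans ?_
        rw [Nat.card_Ioc]
        omega
      have h9 : (((Ioc v v').filter Nat.Prime).card : ℝ) ≤ v' := by exact_mod_cast h8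
      refine h9.trans ((hv'.trans hx6).trans ?_)
      have h10 : 2 ≤ x * η := (div_le_iff₀ hη).1 hxη
      have h11 : x ^ 6 ≤ x ^ 7 := pow_le_pow_right₀ hx1 (by norm_num)
      calc x ^ 6 ≤ x ^ 7 := h11
        _ = x ^ 7 * 2 / 2 := by ring
        _ ≤ x ^ 7 * (x * η) / 2 := by
          refine div_le_div_of_nonneg_right (mul_le_mul_of_nonneg_left h10 (by positivity))
            (by norm_num)
        _ = x ^ 8 / 2 * η := by ring
        _ ≤ U * η := mul_le_mul_of_nonneg_right hU' hη.le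
    have h8 : k * CA / MM y ^ k * (U * ∑ p ∈ (Ioc v v').filter Nat.Prime, (p : ℝ)⁻¹ +
        ((Ioc v v').filter Nat.Prime).card) ≤ k * CA / MM y ^ k * (U * (6 * η)) := by
      refine mul_le_mul_of_nonneg_left ?_ (by positivity)
      have := mul_le_mul_of_nonneg_left hsum hU0.le
      linarith
    linarith
  have hd0 : (sy c d v' n U : ℝ) ≤ sy c d v n U := by exact_mod_cast sy_anti hvv n U
  have e : DS c d v n U - DS c d v' n U =
      ((sy c d v n U : ℝ) - sy c d v' n U) * (MM v ^ k / U) -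
        sy c d v' n U * ((MM v' ^ k - MM v ^ k) / U) := by
    unfold DS
    ring
  have hA0 : 0 ≤ ((sy c d v n U : ℝ) - sy c d v' n U) * (MM v ^ k / U) :=
    mul_nonneg (by linarith) (by positivity)
  have hB0 : 0 ≤ (sy c d v' n U : ℝ) * ((MM v' ^ k - MM v ^ k) / U) :=
    mul_nonneg (Nat.cast_nonneg _) (div_nonneg (by linarith) hU0.le)
  have hA : ((sy c d v n U : ℝ) - sy c d v' n U) * (MM v ^ k / U) ≤ R * (6 * (k * CA)) * η := by
    calc ((sy c d v n U : ℝ) - sy c d v' n U) * (MM v ^ k / U)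
        ≤ k * CA / MM y ^ k * (U * (6 * η)) * (MM v ^ k / U) :=
          mul_le_mul_of_nonneg_right hdrop (by positivity)
      _ = MM v ^ k / MM y ^ k * (6 * (k * CA) * η) := by
          field_simp
      _ ≤ R * (6 * (k * CA) * η) := mul_le_mul_of_nonneg_right hratio (by positivity)
      _ = _ := by ring
  have hB : (sy c d v' n U : ℝ) * ((MM v' ^ k - MM v ^ k) / U) ≤ R * (G * CB) * η := by
    have h5 : (MM v' ^ k - MM v ^ k) / U ≤ G * η * MM v ^ k / U := by
      refine div_le_div_of_nonneg_right ?_ hU0.le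
      linarith
    calc (sy c d v' n U : ℝ) * ((MM v' ^ k - MM v ^ k) / U)
        ≤ CB * (U / MM y ^ k) * (G * η * MM v ^ k / U) :=
          mul_le_mul hsv' h5 (div_nonneg (by linarith) hU0.le) (by positivity)
      _ = MM v ^ k / MM y ^ k * (G * CB * η) := by
          field_simp
      _ ≤ R * (G * CB * η) := mul_le_mul_of_nonneg_right hratio (by positivity)
      _ = _ := by ring
  rw [e]
  have e2 : R * (6 * (k * CA) + G * CB) * η = R * (6 * (k * CA)) * η + R * (G * CB) * η := by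
    ring
  rw [e2, abs_le]
  have hA1 : 0 ≤ R * (6 * (k * CA)) * η := by positivity
  have hB1 : 0 ≤ R * (G * CB) * η := by positivity
  constructor <;> linarith

end Pool.Agent.H50.GW
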