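import Pool.Agent.H50.GW.SNG
import Pool.Agent.H50.GW.BTU
import Pool.Agent.H50.GW.BTK
import Pool.Agent.H50.GW.APK
import Pool.Agent.H50.GW.TRK
import Pool.Agent.H50.GW.SBK
import Pool.Agent.H50.GW.HBK
import Pool.Agent.H50.GW.EXDK
import Pool.Agent.H50.GW.EXWK
import Pool.Agent.H50.GW.POSK
import Pool.Agent.H50.GW.GXM
import Pool.Agent.H50.GW.IND
import Pool.Agent.H50.GW.EXPW
import Pool.Agent.H50.GW.MGI
import Pool.Agent.H50.GW.LDU
import Pool.Agent.H50.GW.LDL
import Pool.Agent.H50.GW.WND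
import Pool.Agent.H50.GW.GUP
import Pool.Agent.H50.GW.GEX
import Pool.Agent.H50.GW.FND
import Pool.Agent.H50.BF.LIB
import Pool.Agent.H50.CW.RATE

set_option autoImplicit false

namespace Pool.Agent.H50.GW

lemma btu' : S_BTU := btu fnd
lemma btk' : S_BTK := btk btu' sng
lemma apk' : S_APK := apk btu' sng
lemma trk' : S_TRK := trk apk' btk' BF.mert
lemma sbk' : S_SBK := sbk btk' BF.mert
lemma hbk' : S_HBK := hbk sbk' sng
lemma exdk' : S_EXDK := exdk trk' sbk'
lemma exwk' : S_EXWK := exwk trk' sbk'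
lemma expw' : S_EXPW := expw ind trk' sbk' BF.mert
lemma ldu' : S_LDU := ldu mgi
lemma ldl' : S_LDL := ldl mgi
lemma wnd' : S_WND := wnd ind
lemma gup' : S_GUP := gup ind expw' exdk' ldu'
lemma gex' : S_GEX := gex wnd' ind expw' exwk' posk ldl'

end Pool.Agent.H50.GW
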