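import Pool.Agent.H50.GW.Stm
import Pool.Agent.H50.CW.FINB

set_option autoImplicit false

open MeasureTheory Filter ProbabilityTheory
open scoped Topology ENNReal

namespace Pool.Agent.H50.GW

open Pool.Agent.H50.BF Pool.Agent.H50.CW

variable {k : ℕ} (c d : Fin k → ℕ)

/-! ## The extremal densities -/

lemma DS_nonneg (v n U : ℕ) : 0 ≤ DS c d v n U := by
  have := MM_pos' v
  unfold DS
  positivity

lemma sy_le (v n U : ℕ) : sy c d v n U ≤ U := by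
  classical
  unfold sy
  exact (Finset.card_filter_le _ _).trans (by rw [Finset.card_range])

lemma DS_le (v n U : ℕ) : DS c d v n U ≤ (U : ℝ) * MM v ^ k / U := by
  have h1 := MM_pos' v
  have h : (sy c d v n U : ℝ) ≤ (U : ℝ) := by exact_mod_cast sy_le c d v n U
  unfold DS
  gcongr

lemma bddBk (w : ℕ) : BddBelow (Set.range fun t : ℕ => DS c d w t (w ^ (k + 1))) :=
  ⟨0, by rintro _ ⟨t, rfl⟩; exact DS_nonneg c d w t _⟩

lemma bddAk (w : ℕ) : BddAbove (Set.range fun t : ℕ => DS c d w t (w ^ (k + 1))) :=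
  ⟨_, by rintro _ ⟨t, rfl⟩; exact DS_le c d w t _⟩

lemma lok_nonneg (w : ℕ) : 0 ≤ lok c d w := le_ciInf fun t => DS_nonneg c d w t _
lemma lok_le_hik (w : ℕ) : lok c d w ≤ hik c d w := (ciInf_le (bddBk c d w) 0).trans (le_ciSup (bddAk c d w) 0)
lemma hik_nonneg (w : ℕ) : 0 ≤ hik c d w := (lok_nonneg c d w).trans (lok_le_hik c d w)

/-- the lower extremal density -/
noncomputable def slk : ℝ≥0∞ := liminf (fun w : ℕ => ENNReal.ofReal (lok c d w)) atTop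
/-- the upper extremal density -/
noncomputable def shk : ℝ≥0∞ := limsup (fun w : ℕ => ENNReal.ofReal (hik c d w)) atTop

lemma slk_le_shk : slk c d ≤ shk c d :=
  (liminf_le_liminf (Eventually.of_forall fun w => ENNReal.ofReal_le_ofReal (lok_le_hik c d w))).trans
    liminf_le_limsup

lemma hik_facts {c0 B : ℝ} (hc0 : 0 < c0) (hB : ∀ᶠ w : ℕ in atTop, c0 ≤ hik c d w ∧ hik c d w ≤ B) :
    0 < shk c d ∧ shk c d < ∞ ∧
    (∀ ε : ℝ, 0 < ε → ∀ᶠ w : ℕ in atTop, hik c d w ≤ (shk c d).toReal + ε) ∧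
    (∀ ε : ℝ, 0 < ε → ∃ᶠ w : ℕ in atTop, |hik c d w - (shk c d).toReal| ≤ ε) := by
  have h1 : shk c d ≤ ENNReal.ofReal B := by
    refine limsup_le_of_le (by isBoundedDefault) ?_
    filter_upwards [hB] with w hw
    exact ENNReal.ofReal_le_ofReal hw.2
  have h0 : 0 < shk c d := by
    refine lt_of_lt_of_le (ENNReal.ofReal_pos.2 hc0) ?_
    refine le_limsup_of_frequently_le (Eventually.frequently ?_) (by isBoundedDefault)
    filter_upwards [hB] with w hw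
    exact ENNReal.ofReal_le_ofReal hw.1
  have h2 : shk c d < ∞ := h1.trans_lt ENNReal.ofReal_lt_top
  have h3 : ∀ ε : ℝ, 0 < ε → ∀ᶠ w : ℕ in atTop, hik c d w ≤ (shk c d).toReal + ε := by
    intro ε hε
    have h4 : shk c d < shk c d + ENNReal.ofReal ε :=
      ENNReal.lt_add_right h2.ne (by simpa using hε)
    filter_upwards [eventually_lt_of_limsup_lt (show limsup (fun w : ℕ => ENNReal.ofReal (hik c d w)) atTop <
      shk c d + ENNReal.ofReal ε from h4) (by isBoundedDefault)] with w hw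
    have h5 := (ENNReal.ofReal_le_iff_le_toReal (by simp [h2.ne])).1 hw.le
    rwa [ENNReal.toReal_add h2.ne ENNReal.ofReal_ne_top, ENNReal.toReal_ofReal hε.le] at h5
  refine ⟨h0, h2, h3, fun ε hε => ?_⟩
  have h6 : ∃ᶠ w : ℕ in atTop, (shk c d).toReal - ε ≤ hik c d w := by
    by_cases h0 : (shk c d).toReal - ε < 0
    · exact Eventually.frequently (Eventually.of_forall fun w => h0.le.trans (hik_nonneg c d w))
    · push Not at h0
      have h7 : ENNReal.ofReal ((shk c d).toReal - ε) < limsup (fun w : ℕ => ENNReal.ofReal (hik c d w)) atTop := by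
        change ENNReal.ofReal ((shk c d).toReal - ε) < shk c d
        rw [ENNReal.ofReal_lt_iff_lt_toReal h0 h2.ne]
        linarith
      refine (frequently_lt_of_lt_limsup (by isBoundedDefault) h7).mono fun w hw => ?_
      exact (ENNReal.ofReal_lt_ofReal_iff_of_nonneg h0).1 hw |>.le
  refine (h6.and_eventually (h3 ε hε)).mono fun w hw => ?_
  rw [abs_le]
  constructor <;> linarith [hw.1, hw.2]

lemma lok_facts (h2 : slk c d < ∞) :
    (∀ ε : ℝ, 0 < ε → ∀ᶠ w : ℕ in atTop, (slk c d).toReal - ε ≤ lok c d w) ∧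
    (∀ ε : ℝ, 0 < ε → ∃ᶠ w : ℕ in atTop, |lok c d w - (slk c d).toReal| ≤ ε) := by
  have h3 : ∀ ε : ℝ, 0 < ε → ∀ᶠ w : ℕ in atTop, (slk c d).toReal - ε ≤ lok c d w := by
    intro ε hε
    by_cases h0 : (slk c d).toReal - ε < 0
    · exact Eventually.of_forall fun w => h0.le.trans (lok_nonneg c d w)
    · push Not at h0
      have h7 : ENNReal.ofReal ((slk c d).toReal - ε) < liminf (fun w : ℕ => ENNReal.ofReal (lok c d w)) atTop := by
        change ENNReal.ofReal ((slk c d).toReal - ε) < slk c d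
        rw [ENNReal.ofReal_lt_iff_lt_toReal h0 h2.ne]
        linarith
      filter_upwards [eventually_lt_of_lt_liminf h7 (by isBoundedDefault)] with w hw
      exact (ENNReal.ofReal_lt_ofReal_iff_of_nonneg h0).1 hw |>.le
  refine ⟨h3, fun ε hε => ?_⟩
  have h4 : slk c d < slk c d + ENNReal.ofReal ε :=
    ENNReal.lt_add_right h2.ne (by simpa using hε)
  have h6 : ∃ᶠ w : ℕ in atTop, lok c d w ≤ (slk c d).toReal + ε := by
    refine (frequently_lt_of_liminf_lt (by isBoundedDefault) (show liminf (fun w : ℕ => ENNReal.ofReal (lok c d w)) atTop <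
      slk c d + ENNReal.ofReal ε from h4)).mono fun w hw => ?_
    have h5 := (ENNReal.ofReal_le_iff_le_toReal (by simp [h2.ne])).1 hw.le
    rwa [ENNReal.toReal_add h2.ne ENNReal.ofReal_ne_top, ENNReal.toReal_ofReal hε.le] at h5
  refine (h6.and_eventually (h3 ε hε)).mono fun w hw => ?_
  rw [abs_le]
  constructor <;> linarith [hw.1, hw.2]

/-! ## Windows -/

/-- the number of the `m` in the open interval `(x, x + y)` with all `c i * m + d i` in `S` -/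
noncomputable def cntk (S : Set ℕ) (x y : ℝ) : ℕ :=
  Set.ncard {m : ℕ | (∀ i, c i * m + d i ∈ S) ∧ x < m ∧ (m : ℝ) < x + y}

variable {Ω : Type}

lemma ht_ncard (A : ℕ → Set Ω) (ω : Ω) (n U : ℕ) :
    ht c d A ω n U = Set.ncard {m : ℕ | (∀ i, ω ∈ A (c i * m + d i)) ∧ n < m ∧ m ≤ n + U} := by
  classical
  have h : {m : ℕ | (∀ i, ω ∈ A (c i * m + d i)) ∧ n < m ∧ m ≤ n + U} =
      (((Finset.range U).filter (fun j => ω ∈ Hit c d A (n + j + 1))).image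
        (fun j => n + j + 1) : Finset ℕ) := by
    ext m
    simp only [Set.mem_ofPred_eq, Finset.coe_image, Set.mem_image, Finset.mem_coe, Finset.mem_filter, Finset.mem_range,
      Hit, Set.mem_iInter]
    constructor
    · rintro ⟨h3, h1, h2⟩
      refine ⟨m - n - 1, ⟨by omega, ?_⟩, by omega⟩
      rw [show n + (m - n - 1) + 1 = m by omega]
      exact h3
    · rintro ⟨j, ⟨h1, h2⟩, rfl⟩
      exact ⟨h2, by omega, by omega⟩
  rw [h, Set.ncard_coe_finset, Finset.card_image_of_injective _ (fun x y h => by simpa using h)]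
  unfold ht
  congr

lemma cntk_le (A : ℕ → Set Ω) (ω : Ω) {x y : ℝ} {n U : ℕ} (h1 : (n : ℝ) ≤ x)
    (h2 : x + y ≤ n + U) : cntk c d {m | ω ∈ A m} x y ≤ ht c d A ω n U := by
  rw [ht_ncard]
  refine Set.ncard_le_ncard ?_ ((Set.finite_Iic (n + U)).subset fun m hm => hm.2.2)
  rintro m ⟨hm1, hm2, hm3⟩
  have h3 : n < m := by
    have : (n : ℝ) < m := by linarith
    exact_mod_cast this
  refine ⟨hm1, h3, ?_⟩
  have : (m : ℝ) ≤ ((n + U : ℕ) : ℝ) := by push_cast; linarith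
  exact_mod_cast this

lemma le_cntk (A : ℕ → Set Ω) (ω : Ω) {x y : ℝ} {n U : ℕ} (h1 : x < (n : ℝ) + 1)
    (h2 : (n : ℝ) + U < x + y) : ht c d A ω n U ≤ cntk c d {m | ω ∈ A m} x y := by
  rw [ht_ncard]
  refine Set.ncard_le_ncard ?_ ?_
  · rintro m ⟨hm1, hm2, hm3⟩
    refine ⟨hm1, ?_, ?_⟩
    · have : ((n + 1 : ℕ) : ℝ) ≤ m := by exact_mod_cast hm2
      push_cast at this
      linarith
    · have : (m : ℝ) ≤ ((n + U : ℕ) : ℝ) := by exact_mod_cast hm3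
      push_cast at this
      linarith
  · refine (Set.finite_Iic ⌈x + y⌉₊).subset fun m hm => ?_
    exact_mod_cast (hm.2.2.le.trans (Nat.le_ceil _))

lemma lim_Uk (k : ℕ) {g U : ℕ → ℕ} {C : ℝ} (h : ∀ᶠ n : ℕ in atTop, n ≤ g n ∧ g n ≤ 5 * n)
    (hU : ∀ᶠ n : ℕ in atTop, |(U n : ℝ) - C * Real.log (g n) ^ (k + 1)| ≤ 3) :
    Tendsto (fun n : ℕ => (U n : ℝ) / Real.log n ^ (k + 1)) atTop (𝓝 C) := by
  have h1 : Tendsto (fun n : ℕ => C * (Real.log (g n) / Real.log n) ^ (k + 1)) atTop (𝓝 (C * 1 ^ (k + 1))) :=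
    ((log_ratio h).pow (k + 1)).const_mul C
  have h2 : Tendsto (fun n : ℕ => ((U n : ℝ) - C * Real.log (g n) ^ (k + 1)) / Real.log n ^ (k + 1)) atTop (𝓝 0) := by
    have h3 : Tendsto (fun n : ℕ => (3 : ℝ) / Real.log n ^ (k + 1)) atTop (𝓝 0) :=
      tendsto_const_nhds.div_atTop ((tendsto_pow_atTop (by omega)).comp tlog)
    refine squeeze_zero_norm' ?_ h3
    filter_upwards [hU, eventually_ge_atTop 2] with n hn hn2
    have h4 := Real.log_nonneg (show (1 : ℝ) ≤ n by exact_mod_cast (show 1 ≤ n by omega))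
    rw [Real.norm_eq_abs, abs_div, abs_of_nonneg (pow_nonneg h4 (k + 1))]
    gcongr
  have h4 := h1.add h2
  rw [one_pow, mul_one, add_zero] at h4
  refine h4.congr' ?_
  filter_upwards [eventually_ge_atTop 2] with n hn
  have h3 : (1 : ℝ) < n := by exact_mod_cast hn
  have h5 := (Real.log_pos h3).ne'
  have h6 : Real.log (n : ℝ) ^ (k + 1) ≠ 0 := pow_ne_zero _ h5
  rw [div_pow]
  field_simp
  ring

lemma log_pow_le {x y : ℝ} (k : ℕ) (hx : 1 ≤ x) (hxy : x ≤ y) : Real.log x ^ (k + 1) ≤ Real.log y ^ (k + 1) := by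
  have h1 := Real.log_nonneg hx
  have h2 := Real.log_le_log (by linarith) hxy
  exact pow_le_pow_left₀ h1 h2 _

section main

variable [MeasurableSpace Ω] {P : Measure Ω} {A : ℕ → Set Ω} {z : ℕ → ℕ} {C : ℝ} {c d}

/-- upper bound for the upper limit -/
lemma partA (hgup : S_GUP) (hrate : S_RATE) (hA : GMod P A z) (hs : Sys c d) (hC : 0 < C) {σ : ℝ} (hσ : 0 < σ)
    (hhi : ∀ ε : ℝ, 0 < ε → ∀ᶠ w : ℕ in atTop, hik c d w ≤ σ + ε) :
    ∀ᵐ ω ∂P, ∀ j : ℕ, ∀ᶠ x : ℝ in atTop,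
      (cntk c d {m | ω ∈ A m} x (C * Real.log x ^ (k + 1)) : ℝ) / Real.log x ≤ up (C * σ) + 1 / ((j : ℝ) + 1) := by
  rw [ae_all_iff]
  intro j
  have hj : (0 : ℝ) < 1 / ((j : ℝ) + 1) := by positivity
  obtain ⟨t, ht', h1⟩ := hrate.1 (C * σ) (up (C * σ) + 1 / ((j : ℝ) + 1)) (by positivity) (by linarith)
  have hup0 : 0 ≤ up (C * σ) + 1 / ((j : ℝ) + 1) := by
    have := hrate.2.2.2.2.2.2.2 (C * σ) (by positivity)
    have : 0 < C * σ := by positivity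
    linarith
  have hg : ∀ᶠ n : ℕ in atTop, n ≤ (fun n : ℕ => n + 1) n ∧ (fun n : ℕ => n + 1) n ≤ 5 * n := by
    filter_upwards [eventually_ge_atTop 1] with n hn
    constructor
    · simp
    · show n + 1 ≤ 5 * n
      omega
  have hU : Tendsto (fun n : ℕ => ((⌈C * Real.log ((n + 1 : ℕ) : ℝ) ^ (k + 1)⌉₊ + 1 : ℕ) : ℝ) / Real.log n ^ (k + 1)) atTop (𝓝 C) := by
    refine lim_Uk k hg (Eventually.of_forall fun n => ?_)
    have h0 : 0 ≤ Real.log ((n + 1 : ℕ) : ℝ) := Real.log_nonneg (by push_cast; linarith [Nat.cast_nonneg (α := ℝ) n])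
    have h2 := Nat.ceil_lt_add_one (show 0 ≤ C * Real.log ((n + 1 : ℕ) : ℝ) ^ (k + 1) by positivity)
    have h3 := Nat.le_ceil (C * Real.log ((n + 1 : ℕ) : ℝ) ^ (k + 1))
    rw [abs_le]
    push_cast at h2 h3 ⊢
    constructor <;> linarith
  have h2 := (hgup Ω P A z hA k c d hs C t _ σ hC (by linarith) hσ.le h1 _ hU).1 ht' hhi
  filter_upwards [h2] with ω hω
  filter_upwards [floor_tend.eventually hω, eventually_ge_atTop 2] with x hx hx2
  have h4 := Real.log_pos (show (1 : ℝ) < x by linarith)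
  have h5 : (1 : ℝ) ≤ (⌊x⌋₊ : ℕ) := by
    have : 1 ≤ ⌊x⌋₊ := Nat.le_floor (by push_cast; linarith)
    exact_mod_cast this
  have h6 := Nat.lt_floor_add_one x
  have h7 := Nat.floor_le (show 0 ≤ x by linarith)
  have h8 : cntk c d {m | ω ∈ A m} x (C * Real.log x ^ (k + 1)) ≤
      ht c d A ω ⌊x⌋₊ (⌈C * Real.log ((⌊x⌋₊ + 1 : ℕ) : ℝ) ^ (k + 1)⌉₊ + 1) := by
    refine cntk_le c d A ω h7 ?_
    have h9 := Nat.le_ceil (C * Real.log ((⌊x⌋₊ + 1 : ℕ) : ℝ) ^ (k + 1))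
    have h10 : C * Real.log x ^ (k + 1) ≤ C * Real.log ((⌊x⌋₊ + 1 : ℕ) : ℝ) ^ (k + 1) := by
      refine mul_le_mul_of_nonneg_left (log_pow_le k (by linarith) ?_) hC.le
      push_cast
      linarith
    push_cast at h9 h10 ⊢
    linarith
  have h9 : (cntk c d {m | ω ∈ A m} x (C * Real.log x ^ (k + 1)) : ℝ) ≤
      ht c d A ω ⌊x⌋₊ (⌈C * Real.log ((⌊x⌋₊ + 1 : ℕ) : ℝ) ^ (k + 1)⌉₊ + 1) := by exact_mod_cast h8
  rw [div_le_iff₀ h4]
  refine h9.trans (hx.le.trans ?_)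
  exact mul_le_mul_of_nonneg_left (Real.log_le_log (by linarith) h7) hup0

/-- lower bound for the lower limit -/
lemma partB (hgup : S_GUP) (hrate : S_RATE) (hA : GMod P A z) (hs : Sys c d) (hC : 0 < C) {σ : ℝ} (hσ : 0 ≤ σ)
    (hlo : ∀ ε : ℝ, 0 < ε → ∀ᶠ w : ℕ in atTop, σ - ε ≤ lok c d w) :
    ∀ᵐ ω ∂P, ∀ j : ℕ, ∀ᶠ x : ℝ in atTop,
      dn (C * σ) - 1 / ((j : ℝ) + 1) ≤ (cntk c d {m | ω ∈ A m} x (C * Real.log x ^ (k + 1)) : ℝ) / Real.log x := by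
  rw [ae_all_iff]
  intro j
  by_cases h0 : dn (C * σ) - 1 / ((j : ℝ) + 1) ≤ 0
  · refine Eventually.of_forall fun ω => ?_
    filter_upwards [eventually_ge_atTop 2] with x hx
    exact h0.trans (div_nonneg (Nat.cast_nonneg _) (Real.log_nonneg (by linarith)))
  push Not at h0
  set u : ℝ := dn (C * σ) - 1 / ((j : ℝ) + 2) with hu
  have hj1 : (1 : ℝ) / ((j : ℝ) + 2) < 1 / ((j : ℝ) + 1) :=
    one_div_lt_one_div_of_lt (by positivity) (by linarith)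
  have hj2 : (0 : ℝ) < 1 / ((j : ℝ) + 2) := by positivity
  have hu1 : dn (C * σ) - 1 / ((j : ℝ) + 1) < u := by rw [hu]; linarith
  have hu0 : 0 < u := by linarith
  have hu2 : u < dn (C * σ) := by rw [hu]; linarith
  have hl : 0 < C * σ := by
    rcases hσ.lt_or_eq with h | h
    · positivity
    · exfalso
      rw [← h, mul_zero, hrate.2.2.2.2.2.1 0 le_rfl zero_le_one] at hu2
      linarith
  obtain ⟨t, ht1, ht', h1⟩ := hrate.2.2.1 (C * σ) u hl hu0.le hu2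
  have hg : ∀ᶠ n : ℕ in atTop, n ≤ (fun n : ℕ => n) n ∧ (fun n : ℕ => n) n ≤ 5 * n :=
    Eventually.of_forall fun n => ⟨le_rfl, by show n ≤ 5 * n; omega⟩
  have hU : Tendsto (fun n : ℕ => ((⌊C * Real.log (n : ℝ) ^ (k + 1)⌋₊ - 1 : ℕ) : ℝ) / Real.log n ^ (k + 1)) atTop (𝓝 C) := by
    refine lim_Uk k (g := fun n => n) hg (Eventually.of_forall fun n => ?_)
    have h0 : 0 ≤ Real.log (n : ℝ) := Real.log_natCast_nonneg n
    have h2 := Nat.lt_floor_add_one (C * Real.log (n : ℝ) ^ (k + 1))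
    have h3 := Nat.floor_le (show 0 ≤ C * Real.log (n : ℝ) ^ (k + 1) by positivity)
    have h4 : ((⌊C * Real.log (n : ℝ) ^ (k + 1)⌋₊ - 1 : ℕ) : ℝ) ≤ ⌊C * Real.log (n : ℝ) ^ (k + 1)⌋₊ := by
      exact_mod_cast Nat.sub_le _ _
    have h5 : (⌊C * Real.log (n : ℝ) ^ (k + 1)⌋₊ : ℝ) ≤ ((⌊C * Real.log (n : ℝ) ^ (k + 1)⌋₊ - 1 : ℕ) : ℝ) + 1 := by
      have : ⌊C * Real.log (n : ℝ) ^ (k + 1)⌋₊ ≤ (⌊C * Real.log (n : ℝ) ^ (k + 1)⌋₊ - 1) + 1 := by omega
      exact_mod_cast this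
    rw [abs_le]
    constructor <;> linarith
  have h2 := (hgup Ω P A z hA k c d hs C t _ σ hC ht1 hσ h1 _ hU).2 ht' hlo
  filter_upwards [h2] with ω hω
  have h10 : ∀ᶠ x : ℝ in atTop, dn (C * σ) - 1 / ((j : ℝ) + 1) ≤ u * (Real.log (⌊x⌋₊ : ℕ) / Real.log x) := by
    have h11 : Tendsto (fun x : ℝ => u * (Real.log (⌊x⌋₊ : ℕ) / Real.log x)) atTop (𝓝 (u * 1)) :=
      floor_log.const_mul u
    rw [mul_one] at h11
    exact (h11.eventually (lt_mem_nhds hu1)).mono fun x hx => hx.le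
  filter_upwards [floor_tend.eventually hω, eventually_ge_atTop 3, h10,
    floor_tend.eventually (tlog.eventually_gt_atTop 0)] with x hx hx2 h13 h15
  have h4 := Real.log_pos (show (1 : ℝ) < x by linarith)
  have h5 : (1 : ℝ) ≤ (⌊x⌋₊ : ℕ) := by
    have : 1 ≤ ⌊x⌋₊ := Nat.le_floor (by push_cast; linarith)
    exact_mod_cast this
  have h6 := Nat.lt_floor_add_one x
  have h7 := Nat.floor_le (show 0 ≤ x by linarith)
  have h8 : ht c d A ω ⌊x⌋₊ (⌊C * Real.log (⌊x⌋₊ : ℝ) ^ (k + 1)⌋₊ - 1) ≤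
      cntk c d {m | ω ∈ A m} x (C * Real.log x ^ (k + 1)) := by
    by_cases hf : ⌊C * Real.log (⌊x⌋₊ : ℝ) ^ (k + 1)⌋₊ = 0
    · rw [hf]
      simp [ht]
    refine le_cntk c d A ω h6 ?_
    have h9 := Nat.floor_le (show 0 ≤ C * Real.log (⌊x⌋₊ : ℝ) ^ (k + 1) by positivity)
    have h10 : C * Real.log (⌊x⌋₊ : ℝ) ^ (k + 1) ≤ C * Real.log x ^ (k + 1) :=
      mul_le_mul_of_nonneg_left (log_pow_le k h5 h7) hC.le
    rw [Nat.cast_sub (by omega)]
    push_cast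
    linarith
  have h9 : (ht c d A ω ⌊x⌋₊ (⌊C * Real.log (⌊x⌋₊ : ℝ) ^ (k + 1)⌋₊ - 1) : ℝ) ≤
      cntk c d {m | ω ∈ A m} x (C * Real.log x ^ (k + 1)) := by exact_mod_cast h8
  refine h13.trans ?_
  rw [← mul_div_assoc]
  gcongr
  linarith

/-- lower bound for the upper limit -/
lemma partC (hgex : S_GEX) (hrate : S_RATE) (hA : GMod P A z) (hs : Sys c d) (hC : 0 < C) {σ : ℝ} (hσ : 0 < σ)
    (hhi : ∀ ε : ℝ, 0 < ε → ∃ᶠ w : ℕ in atTop, |hik c d w - σ| ≤ ε) :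
    ∀ᵐ ω ∂P, ∀ j : ℕ, ∃ᶠ x : ℝ in atTop,
      up (C * σ) - 1 / ((j : ℝ) + 1) ≤ (cntk c d {m | ω ∈ A m} x (C * Real.log x ^ (k + 1)) : ℝ) / Real.log x := by
  rw [ae_all_iff]
  intro j
  have hj1 : (1 : ℝ) / ((j : ℝ) + 2) < 1 / ((j : ℝ) + 1) :=
    one_div_lt_one_div_of_lt (by positivity) (by linarith)
  have hj2 : (0 : ℝ) < 1 / ((j : ℝ) + 2) := by positivity
  obtain ⟨t, ht', h1, h2⟩ := hrate.2.1 (C * σ) (up (C * σ) - 1 / ((j : ℝ) + 2)) (by positivity) (by linarith)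
  set δ : ℝ := (1 / ((j : ℝ) + 1) - 1 / ((j : ℝ) + 2)) / 2 with hδ
  have hδ0 : 0 < δ := by rw [hδ]; linarith
  have hg : ∀ᶠ n : ℕ in atTop, n ≤ (fun n : ℕ => n) n ∧ (fun n : ℕ => n) n ≤ 5 * n :=
    Eventually.of_forall fun n => ⟨le_rfl, by show n ≤ 5 * n; omega⟩
  have hg3 : ∀ᶠ n : ℕ in atTop, n ≤ (fun n : ℕ => 3 * n) n ∧ (fun n : ℕ => 3 * n) n ≤ 5 * n :=
    Eventually.of_forall fun n => ⟨by show n ≤ 3 * n; omega, by show 3 * n ≤ 5 * n; omega⟩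
  have hU : Tendsto (fun n : ℕ => ((⌊C * Real.log (n : ℝ) ^ (k + 1)⌋₊ - 1 : ℕ) : ℝ) / Real.log n ^ (k + 1)) atTop (𝓝 C) := by
    refine lim_Uk k (g := fun n => n) hg (Eventually.of_forall fun n => ?_)
    have h0 : 0 ≤ Real.log (n : ℝ) := Real.log_natCast_nonneg n
    have h2 := Nat.lt_floor_add_one (C * Real.log (n : ℝ) ^ (k + 1))
    have h3 := Nat.floor_le (show 0 ≤ C * Real.log (n : ℝ) ^ (k + 1) by positivity)
    have h4 : ((⌊C * Real.log (n : ℝ) ^ (k + 1)⌋₊ - 1 : ℕ) : ℝ) ≤ ⌊C * Real.log (n : ℝ) ^ (k + 1)⌋₊ := by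
      exact_mod_cast Nat.sub_le _ _
    have h5 : (⌊C * Real.log (n : ℝ) ^ (k + 1)⌋₊ : ℝ) ≤ ((⌊C * Real.log (n : ℝ) ^ (k + 1)⌋₊ - 1 : ℕ) : ℝ) + 1 := by
      have : ⌊C * Real.log (n : ℝ) ^ (k + 1)⌋₊ ≤ (⌊C * Real.log (n : ℝ) ^ (k + 1)⌋₊ - 1) + 1 := by omega
      exact_mod_cast this
    rw [abs_le]
    constructor <;> linarith
  have h3 := (hgex Ω P A z hA k c d hs C σ hC hσ.le _ hU (Or.inl hhi)).1 t δ (by linarith) hδ0 h2
  filter_upwards [h3] with ω hω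
  set v : ℝ := (1 + t) * (C * σ) - δ with hv
  have hv1 : up (C * σ) - 1 / ((j : ℝ) + 1) < v := by rw [hv]; linarith
  have h16 : ∀ᶠ X : ℕ in atTop, up (C * σ) - 1 / ((j : ℝ) + 1) ≤ v * (Real.log X / Real.log (3 * X : ℕ)) := by
    have h17 : Tendsto (fun X : ℕ => v * (Real.log X / Real.log (3 * X : ℕ))) atTop (𝓝 (v * 1⁻¹)) := by
      refine ((log_ratio hg3).inv₀ one_ne_zero).const_mul v |>.congr fun n => ?_
      rw [inv_div]
    rw [inv_one, mul_one] at h17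
    exact (h17.eventually (lt_mem_nhds hv1)).mono fun x hx => hx.le
  rw [frequently_atTop]
  intro b
  obtain ⟨X, ⟨n, hn1, hn2, hn3⟩, hX2, hX3, hX4⟩ := (hω.and_eventually
    (h16.and ((eventually_ge_atTop 3).and (eventually_ge_atTop ⌈b⌉₊)))).exists
  refine ⟨n, ?_, ?_⟩
  · calc b ≤ ⌈b⌉₊ := Nat.le_ceil b
      _ ≤ X := by exact_mod_cast hX4
      _ ≤ n := by exact_mod_cast hn1
  · have h4 : (1 : ℝ) < X := by exact_mod_cast (show 1 < X by omega)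
    have h4' : (X : ℝ) ≤ n := by exact_mod_cast hn1
    have h5 := Real.log_pos h4
    have h6 := Real.log_pos (show (1 : ℝ) < n by linarith)
    have h6' : Real.log X ≤ Real.log n := Real.log_le_log (by linarith) h4'
    have h7 : Real.log n ≤ Real.log (3 * X : ℕ) := Real.log_le_log (by linarith) (by exact_mod_cast (by omega : n ≤ 3 * X))
    have h8 : ht c d A ω n (⌊C * Real.log (X : ℝ) ^ (k + 1)⌋₊ - 1) ≤
        cntk c d {m | ω ∈ A m} n (C * Real.log n ^ (k + 1)) := by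
      by_cases hf : ⌊C * Real.log (X : ℝ) ^ (k + 1)⌋₊ = 0
      · rw [hf]
        simp [ht]
      refine le_cntk c d A ω (by linarith) ?_
      have h9 := Nat.floor_le (show 0 ≤ C * Real.log (X : ℝ) ^ (k + 1) by positivity)
      have h10 : C * Real.log (X : ℝ) ^ (k + 1) ≤ C * Real.log n ^ (k + 1) :=
        mul_le_mul_of_nonneg_left (log_pow_le k h4.le h4') hC.le
      rw [Nat.cast_sub (by omega)]
      push_cast
      linarith
    have h9 : (ht c d A ω n (⌊C * Real.log (X : ℝ) ^ (k + 1)⌋₊ - 1) : ℝ) ≤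
        cntk c d {m | ω ∈ A m} n (C * Real.log n ^ (k + 1)) := by exact_mod_cast h8
    have h10 : v ≤ (ht c d A ω n (⌊C * Real.log (X : ℝ) ^ (k + 1)⌋₊ - 1) : ℝ) / Real.log X := by
      have := (abs_le.1 hn3).1
      rw [hv]
      linarith
    by_cases hv0 : v ≤ 0
    · exact (hv1.le.trans hv0).trans (div_nonneg (Nat.cast_nonneg _) h6.le)
    push Not at hv0
    refine hX2.trans ?_
    calc v * (Real.log X / Real.log (3 * X : ℕ)) ≤ v * (Real.log X / Real.log n) := by gcongr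
      _ ≤ (ht c d A ω n (⌊C * Real.log (X : ℝ) ^ (k + 1)⌋₊ - 1) : ℝ) / Real.log X *
          (Real.log X / Real.log n) := by gcongr
      _ = (ht c d A ω n (⌊C * Real.log (X : ℝ) ^ (k + 1)⌋₊ - 1) : ℝ) / Real.log n := by
          field_simp
      _ ≤ _ := by gcongr

lemma hU4 (k : ℕ) {C : ℝ} (hC : 0 < C) :
    Tendsto (fun n : ℕ => ((⌈C * Real.log ((2 * n : ℕ) : ℝ) ^ (k + 1)⌉₊ + 1 : ℕ) : ℝ) / Real.log n ^ (k + 1)) atTop (𝓝 C) := by
  have hg3 : ∀ᶠ n : ℕ in atTop, n ≤ (fun n : ℕ => 2 * n) n ∧ (fun n : ℕ => 2 * n) n ≤ 5 * n :=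
    Eventually.of_forall fun n => ⟨by show n ≤ 2 * n; omega, by show 2 * n ≤ 5 * n; omega⟩
  refine lim_Uk k hg3 (Eventually.of_forall fun n => ?_)
  have h0 : 0 ≤ Real.log ((2 * n : ℕ) : ℝ) := Real.log_natCast_nonneg _
  have h2 := Nat.ceil_lt_add_one (show 0 ≤ C * Real.log ((2 * n : ℕ) : ℝ) ^ (k + 1) by positivity)
  have h3 := Nat.le_ceil (C * Real.log ((2 * n : ℕ) : ℝ) ^ (k + 1))
  rw [abs_le]
  push_cast at h2 h3 ⊢
  constructor <;> linarith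

omit [MeasurableSpace Ω] in
lemma cnt_le_ht (A : ℕ → Set Ω) (ω : Ω) (hC : 0 < C) {X n : ℕ} (hX3 : 3 ≤ X) (hn1 : X ≤ n) (hn2 : n ≤ 2 * X) :
    cntk c d {m | ω ∈ A m} n (C * Real.log n ^ (k + 1)) ≤
      ht c d A ω n (⌈C * Real.log ((2 * X : ℕ) : ℝ) ^ (k + 1)⌉₊ + 1) := by
  have h4 : (1 : ℝ) < X := by exact_mod_cast (show 1 < X by omega)
  have h4' : (X : ℝ) ≤ n := by exact_mod_cast hn1
  have h4'' : (n : ℝ) ≤ ((2 * X : ℕ) : ℝ) := by exact_mod_cast hn2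
  refine cntk_le c d A ω le_rfl ?_
  have h9 := Nat.le_ceil (C * Real.log ((2 * X : ℕ) : ℝ) ^ (k + 1))
  have h10 : C * Real.log (n : ℝ) ^ (k + 1) ≤ C * Real.log ((2 * X : ℕ) : ℝ) ^ (k + 1) :=
    mul_le_mul_of_nonneg_left (log_pow_le k (by linarith) h4'') hC.le
  push_cast at h9 h10 ⊢
  linarith

/-- upper bound for the lower limit -/
lemma partD (hgex : S_GEX) (hrate : S_RATE) (hA : GMod P A z) (hs : Sys c d) (hC : 0 < C) {σ : ℝ} (hσ : 0 ≤ σ)
    (hlo : ∀ ε : ℝ, 0 < ε → ∃ᶠ w : ℕ in atTop, |lok c d w - σ| ≤ ε) :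
    ∀ᵐ ω ∂P, ∀ j : ℕ, ∃ᶠ x : ℝ in atTop,
      (cntk c d {m | ω ∈ A m} x (C * Real.log x ^ (k + 1)) : ℝ) / Real.log x ≤ dn (C * σ) + 1 / ((j : ℝ) + 1) := by
  rw [ae_all_iff]
  intro j
  have hj1 : (1 : ℝ) / ((j : ℝ) + 2) < 1 / ((j : ℝ) + 1) :=
    one_div_lt_one_div_of_lt (by positivity) (by linarith)
  have hj2 : (0 : ℝ) < 1 / ((j : ℝ) + 2) := by positivity
  obtain ⟨t, ht1, ht', h1, h2⟩ := hrate.2.2.2.1 (C * σ) (dn (C * σ) + 1 / ((j : ℝ) + 2)) (by positivity) (by linarith)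
  set δ : ℝ := (1 / ((j : ℝ) + 1) - 1 / ((j : ℝ) + 2)) / 2 with hδ
  have hδ0 : 0 < δ := by rw [hδ]; linarith
  have hdn0 := hrate.2.2.2.2.2.2.1 (C * σ) (by positivity)
  have h3 := (hgex Ω P A z hA k c d hs C σ hC hσ _ (hU4 k hC) (Or.inr hlo)).1 t δ ht1 hδ0 h2
  filter_upwards [h3] with ω hω
  rw [frequently_atTop]
  intro b
  obtain ⟨X, ⟨n, hn1, hn2, hn3⟩, hX3, hX4⟩ := (hω.and_eventually
    ((eventually_ge_atTop 3).and (eventually_ge_atTop ⌈b⌉₊))).exists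
  refine ⟨n, ?_, ?_⟩
  · calc b ≤ ⌈b⌉₊ := Nat.le_ceil b
      _ ≤ X := by exact_mod_cast hX4
      _ ≤ n := by exact_mod_cast hn1
  · have h4 : (1 : ℝ) < X := by exact_mod_cast (show 1 < X by omega)
    have h4' : (X : ℝ) ≤ n := by exact_mod_cast hn1
    have h5 := Real.log_pos h4
    have h6 := Real.log_pos (show (1 : ℝ) < n by linarith)
    have h6' : Real.log X ≤ Real.log n := Real.log_le_log (by linarith) h4'
    have h9 : (cntk c d {m | ω ∈ A m} n (C * Real.log n ^ (k + 1)) : ℝ) ≤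
        ht c d A ω n (⌈C * Real.log ((2 * X : ℕ) : ℝ) ^ (k + 1)⌉₊ + 1) := by
      exact_mod_cast cnt_le_ht A ω hC hX3 hn1 hn2
    have h10 : (ht c d A ω n (⌈C * Real.log ((2 * X : ℕ) : ℝ) ^ (k + 1)⌉₊ + 1) : ℝ) / Real.log X ≤
        dn (C * σ) + 1 / ((j : ℝ) + 1) := by
      have := (abs_le.1 hn3).2
      linarith
    rw [div_le_iff₀ h5] at h10
    rw [div_le_iff₀ h6]
    refine h9.trans (h10.trans ?_)
    gcongr

/-- empty windows -/
lemma partE (hgex : S_GEX) (hA : GMod P A z) (hs : Sys c d) (hC : 0 < C) {σ : ℝ} (hσ : 0 ≤ σ) (h1 : C * σ < 1)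
    (hlo : ∀ ε : ℝ, 0 < ε → ∃ᶠ w : ℕ in atTop, |lok c d w - σ| ≤ ε) :
    ∀ᵐ ω ∂P, ∃ᶠ x : ℝ in atTop, cntk c d {m | ω ∈ A m} x (C * Real.log x ^ (k + 1)) = 0 := by
  have h3 := (hgex Ω P A z hA k c d hs C σ hC hσ _ (hU4 k hC) (Or.inr hlo)).2 h1
  filter_upwards [h3] with ω hω
  rw [frequently_atTop]
  intro b
  obtain ⟨X, ⟨n, hn1, hn2, hn3⟩, hX3, hX4⟩ := (hω.and_eventually
    ((eventually_ge_atTop 3).and (eventually_ge_atTop ⌈b⌉₊))).exists
  refine ⟨n, ?_, ?_⟩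
  · calc b ≤ ⌈b⌉₊ := Nat.le_ceil b
      _ ≤ X := by exact_mod_cast hX4
      _ ≤ n := by exact_mod_cast hn1
  · have h9 := cnt_le_ht (c := c) (d := d) A ω hC hX3 hn1 hn2
    omega

/-- the theorem for patterns of linear forms -/
theorem general (hgup : S_GUP) (hgex : S_GEX) (hrate : S_RATE) (hhbk : S_HBK) (hs : Sys c d) :
    0 < shk c d ∧ shk c d < ∞ ∧ slk c d ≤ shk c d ∧
    ∀ (Ω : Type) [MeasurableSpace Ω] (P : Measure Ω) (A : ℕ → Set Ω) (z : ℕ → ℕ), GMod P A z →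
    ∀ C : ℝ, 0 < C → ∀ᵐ ω ∂P,
      limsup (fun x : ℝ => ENNReal.ofReal (cntk c d {m | ω ∈ A m} x (C * Real.log x ^ (k + 1)) / Real.log x)) atTop =
        ENNReal.ofReal (up (C * (shk c d).toReal)) ∧
      liminf (fun x : ℝ => ENNReal.ofReal (cntk c d {m | ω ∈ A m} x (C * Real.log x ^ (k + 1)) / Real.log x)) atTop =
        ENNReal.ofReal (dn (C * (slk c d).toReal)) ∧
      (C * (slk c d).toReal < 1 →
        ∃ᶠ x : ℝ in atTop, cntk c d {m | ω ∈ A m} x (C * Real.log x ^ (k + 1)) = 0) := by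
  obtain ⟨c0, B, hc0, hB⟩ := hhbk k c d hs
  obtain ⟨h0, h2, hhi1, hhi2⟩ := hik_facts c d hc0 hB
  have h2' : slk c d < ∞ := (slk_le_shk c d).trans_lt h2
  obtain ⟨hlo1, hlo2⟩ := lok_facts c d h2'
  have hσ : 0 < (shk c d).toReal := ENNReal.toReal_pos h0.ne' h2.ne
  refine ⟨h0, h2, slk_le_shk c d, ?_⟩
  intro Ω _ P A z hA C hC
  have hE : ∀ᵐ ω ∂P, C * (slk c d).toReal < 1 →
        ∃ᶠ x : ℝ in atTop, cntk c d {m | ω ∈ A m} x (C * Real.log x ^ (k + 1)) = 0 := by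
    by_cases h1 : C * (slk c d).toReal < 1
    · filter_upwards [partE hgex hA hs hC ENNReal.toReal_nonneg h1 hlo2] with ω hω _
      exact hω
    · exact Eventually.of_forall fun ω h => absurd h h1
  filter_upwards [partA hgup hrate hA hs hC hσ hhi1,
    partB hgup hrate hA hs hC ENNReal.toReal_nonneg hlo1,
    partC hgex hrate hA hs hC hσ hhi2,
    partD hgex hrate hA hs hC ENNReal.toReal_nonneg hlo2, hE] with ω hA hB hC' hD hE
  have hup0 : 0 ≤ up (C * (shk c d).toReal) :=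
    (by positivity : 0 ≤ C * (shk c d).toReal).trans (hrate.2.2.2.2.2.2.2 _ (by positivity))
  have hdn0 : 0 ≤ dn (C * (slk c d).toReal) := hrate.2.2.2.2.2.2.1 _ (by positivity)
  exact ⟨le_antisymm (limsup_le_of hup0 hA) (le_limsup_of hC'),
    le_antisymm (liminf_le_of hdn0 hD) (le_liminf_of hB), hE⟩

end main

end Pool.Agent.H50.GW
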