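import Pool.Agent.H50.CW.Stm

/-!
# Project GW: critical windows in Granville's model, for patterns of linear forms

Granville's model: independent events `A n`; `A n` is empty if `n` has a prime factor `≤ z n`, where
`log (z n) ~ log log n`, and `P (A n) ~ ∏_{p ≤ z n} (1 - 1/p)⁻¹ / log n` for the other `n`.
A pattern is a system of `k` linear forms `c i * m + d i` (one form: primes; `m, m + 2`: twin primes;
`2^i (m + 1) - 1`, `i < k`: Cunningham chains).  `m` is a hit if all `c i * m + d i` are chosen.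
Goal: for every `C > 0`, almost surely the number of hits in `(x, x + C (log x)^(k+1)]` divided by
`log x` has the upper limit `up (C σ⁺)` and the lower limit `dn (C σ⁻)` (`up`, `dn` as in CW), where
`σ⁺`, `σ⁻` are the extremal densities of the `k`-dimensional interval sieve for intervals of length
`w^(k+1)` and primes up to `w`; and there are empty windows for arbitrarily large `x` if `C σ⁻ < 1`.
Three hand-ins: MP_45ff98_nt, MP_d610d0_nt, MP_c77da8_nt.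

Every stub `S_X` comes with its proof.  To prove `S_X`: file `Pool/Agent/H50/GW/X.lean`,
`import Pool.Agent.H50.GW.Stm`, namespace `Pool.Agent.H50.GW`, theorem `x : (used stubs) → S_X`
(lower case name; the used stubs are hypotheses).  Keep helper lemmas in a private sub-namespace.
Many stubs are the `k`-dimensional versions of proved stubs of BF / CW: adapt those files.
-/

set_option autoImplicit false

open MeasureTheory Filter ProbabilityTheory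
open scoped Topology ENNReal

namespace Pool.Agent.H50.GW

open Pool.Agent.H50.BF

/-- `n` has no prime factor `≤ v` -/
def Rou (v n : ℕ) : Prop := ∀ p : ℕ, p.Prime → p ≤ v → ¬ p ∣ n

open Classical in
/-- the number of the `m` with `n < m ≤ n + U` such that no `c i * m + d i` has a prime factor `≤ v` -/
noncomputable def sy {k : ℕ} (c d : Fin k → ℕ) (v n U : ℕ) : ℕ :=
  ((Finset.range U).filter (fun j => ∀ i : Fin k, Rou v (c i * (n + j + 1) + d i))).card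

/-- the normalised density -/
noncomputable def DS {k : ℕ} (c d : Fin k → ℕ) (v n U : ℕ) : ℝ := (sy c d v n U : ℝ) * MM v ^ k / U

open Classical in
/-- the number of the residues `r` modulo `p` such that `p` divides some `c i * r + d i` -/
noncomputable def nu {k : ℕ} (c d : Fin k → ℕ) (p : ℕ) : ℕ :=
  ((Finset.range p).filter (fun r => ∃ i : Fin k, p ∣ c i * r + d i)).card

/-- admissible systems of different forms without collisions: two candidates `m < m' ≤ 2 m` have no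
common value, unless one of the values is divisible by `2` or `3` -/
structure Sys {k : ℕ} (c d : Fin k → ℕ) : Prop where
  one : 1 ≤ k
  pos : ∀ i, 1 ≤ c i
  adm : ∀ p : ℕ, p.Prime → ∃ n : ℕ, ∀ i, ¬ p ∣ c i * n + d i
  ndg : ∀ i j, i ≠ j → c i * d j ≠ c j * d i
  inj : ∃ n0 : ℕ, ∀ m : ℕ, n0 ≤ m → Function.Injective (fun i => c i * m + d i)
  col : ∃ n0 : ℕ, ∀ m m' : ℕ, n0 ≤ m → m < m' → m' ≤ 2 * m → ∀ i j, c i * m + d i = c j * m' + d j →
    ∃ p : ℕ, p.Prime ∧ p ≤ 3 ∧ ∃ l, p ∣ c l * m + d l ∨ p ∣ c l * m' + d l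

/-! ## The sieve (deterministic) -/

/-- SNG (about 120 lines; uses BF.S_MERT only if wanted).  The singular series converges: upper and lower bounds.
Proof.  For the primes `p` which do not divide `D = ∏ c i ∏_{i≠j} |c i d j - c j d i|` (`≠ 0`) one has
`nu p = k`; for all `p` `nu p ≤ p - 1` (`adm`) and `nu p ≤ k` if `p` does not divide the `c i`... in any case
for `p > max c i` `nu p ≤ k`.  The factors are `(1 - nu p / p) (1 - 1/p)^(-k) > 0`; for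
`p > D`, `p ≥ 2 k`, each is `1 + O(1/p²)` (between `1 - C/p²` and `1 + C/p²`, `C` depends on `k`), and
`∑ 1/p²` converges; finitely many other factors. -/
def S_SNG : Prop := ∀ (k : ℕ) (c d : Fin k → ℕ), Sys c d → ∃ c0 C0 : ℝ, 0 < c0 ∧ ∀ v : ℕ,
  c0 ≤ (∏ p ∈ (Finset.Icc 1 v).filter Nat.Prime, (1 - (nu c d p : ℝ) / p)) * MM v ^ k ∧
  (∏ p ∈ (Finset.Icc 1 v).filter Nat.Prime, (1 - (nu c d p : ℝ) / p)) * MM v ^ k ≤ C0

open Classical in
/-- BTU (about 150 lines).  Upper bound sieve, uniform over all systems of at most `k` classes.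
Proof: library `Pool.Agent.H373R2.T7.sys_fund` (module `Pool.Graph.R_seed8.H373R2.T7.Fund`, c = k, ε = 1;
helper50 provides a vendored copy, take the statement of `sys_fund` as a hypothesis `S_FND` below).
If some `#{r < p : Q p r} = p` (`p ≤ v`) the set is empty.  Otherwise the product is at least
`∏_{p ≤ 2k} 1/p ∏_{2k < p ≤ v} (1 - k/p) ≥ c v^(-2k)`-order (`1 - x ≥ exp (-2x)` for `x ≤ 1/2`, `∑_{p ≤ v} 1/p ≤ 1 + log v`),
so `√U ≤ U × product` if `U ≥ (v + 1)^(4k + 6)`, `v` large; for small `v` enlarge `C`. -/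
def S_BTU : Prop := ∀ k : ℕ, 1 ≤ k → ∃ (C : ℝ) (s0 : ℕ), 0 < C ∧ 1 ≤ s0 ∧ ∀ Q : ℕ → ℕ → Prop,
  (∀ p n, Q p n ↔ Q p (n % p)) → (∀ p : ℕ, p.Prime → ((Finset.range p).filter (fun r => Q p r)).card ≤ k) →
  ∀ v U : ℕ, ((v : ℝ) + 1) ^ s0 ≤ U →
    (((Finset.range U).filter (fun j => ∀ p : ℕ, p.Prime → p ≤ v → ¬ Q p j)).card : ℝ) ≤
      C * (U * ∏ p ∈ (Finset.Icc 1 v).filter Nat.Prime,
        (1 - (((Finset.range p).filter (fun r => Q p r)).card : ℝ) / p))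

open Classical in
/-- the fundamental lemma for systems (the library's `sys_fund`, helper50 supplies it) -/
def S_FND : Prop := ∀ c : ℕ, 1 ≤ c → ∀ ε : ℝ, 0 < ε → ∃ K x0 : ℕ, 1 ≤ K ∧ ∀ x y : ℕ, x0 ≤ y → y ^ K ≤ x →
  ∀ Q : ℕ → ℕ → Prop, (∀ p n, Q p n ↔ Q p (n % p)) →
    (∀ p : ℕ, p.Prime → ((Finset.range p).filter (fun r => Q p r)).card ≤ c) → ∀ X : ℕ,
    |(((Finset.Icc 1 X).filter (fun n : ℕ => ∀ p : ℕ, p.Prime → p ≤ y → ¬ Q p n)).card : ℝ) -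
      X * ∏ p ∈ (Finset.Icc 1 y).filter Nat.Prime,
        (1 - (((Finset.range p).filter (fun r => Q p r)).card : ℝ) / p)| ≤
    ε * (X * ∏ p ∈ (Finset.Icc 1 y).filter Nat.Prime,
        (1 - (((Finset.range p).filter (fun r => Q p r)).card : ℝ) / p)) + Real.sqrt x

/-- BTK (about 80 lines; uses BTU, SNG).  `Q p j`: `p` divides some `c i (n + j + 1) + d i` (this is
periodic; the number of classes is `nu p`).  For the few primes with `nu p > k` (divisors of the `c i`)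
replace `k` by `K = max k (max of nu p)`: use BTU for `K`. -/
def S_BTK : Prop := ∀ (k : ℕ) (c d : Fin k → ℕ), Sys c d → ∃ (C : ℝ) (s0 : ℕ), 0 < C ∧ 1 ≤ s0 ∧
  ∀ v n U : ℕ, ((v : ℝ) + 1) ^ s0 ≤ U → (sy c d v n U : ℝ) ≤ C * (U / MM v ^ k)

open Classical in
/-- APK (about 120 lines; uses BTU, SNG).  Survivors in a residue class modulo a prime `p > v`: the `j`
with `(n + j + 1) % p = r` are `j0 + p l`, `l < J ≤ U / p + 1`, and multiplication by `p` permutes the residues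
modulo the primes `q ≤ v`.  Compare `Pool/Agent/H50/BF/AP.lean`. -/
def S_APK : Prop := ∀ (k : ℕ) (c d : Fin k → ℕ), Sys c d → ∃ (C : ℝ) (s0 : ℕ), 0 < C ∧ 1 ≤ s0 ∧
  ∀ v n U p r : ℕ, p.Prime → v < p → ((v : ℝ) + 1) ^ s0 ≤ (U / p : ℕ) →
  (((Finset.range U).filter (fun j => (∀ i : Fin k, Rou v (c i * (n + j + 1) + d i)) ∧
    (n + j + 1) % p = r)).card : ℝ) ≤ C * (((U / p : ℕ) + 1) / MM v ^ k)

/-- TRK (about 250 lines; uses APK, BTK, BF.S_MERT).  As BF.S_TRANS (`Pool/Agent/H50/BF/TRANS.lean`): for a prime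
`p > v ≥ max c i` each form gives one class modulo `p`, so the primes `v < p ≤ v'` remove at most
`∑_p k C (U / p + 1) / MM y ^ k`. -/
def S_TRK : Prop := ∀ (k : ℕ) (c d : Fin k → ℕ), Sys c d → ∃ C : ℝ, 0 < C ∧ ∀ η : ℝ, 0 < η → η ≤ 1 / 2 →
  ∀ᶠ w : ℕ in atTop, ∀ v v' n U : ℕ, (w : ℝ) ^ (1 - η) ≤ v → v ≤ v' → (v' : ℝ) ≤ (w : ℝ) ^ (1 + η) →
    (w : ℝ) ^ 2 / 2 ≤ U → |DS c d v n U - DS c d v' n U| ≤ C * η

/-- SBK (about 150 lines; uses BTK, BF.S_MERT).  As BF.S_SUB (`Pool/Agent/H50/BF/SUB.lean`). -/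
def S_SBK : Prop := ∀ (k : ℕ) (c d : Fin k → ℕ), Sys c d → ∃ C : ℝ, 0 < C ∧ ∀ δ : ℝ, 0 < δ → δ ≤ 1 →
  ∀ᶠ w : ℕ in atTop, ∀ v n U U' : ℕ, Real.sqrt w ≤ v → (v : ℝ) ≤ (w : ℝ) ^ 2 → (w : ℝ) ^ 2 / 2 ≤ U →
    U ≤ U' → (U' : ℝ) ≤ (1 + δ) * U →
    ((sy c d v n U' : ℝ) - sy c d v n U) * (MM v ^ k / U) ≤ C * δ ∧ DS c d v n U ≤ C

/-- the sparsest interval of length `w^(k+1)` for the sieve of level `w` -/
noncomputable def lok {k : ℕ} (c d : Fin k → ℕ) (w : ℕ) : ℝ := ⨅ t : ℕ, DS c d w t (w ^ (k + 1))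

/-- the densest interval of length `w^(k+1)` for the sieve of level `w` -/
noncomputable def hik {k : ℕ} (c d : Fin k → ℕ) (w : ℕ) : ℝ := ⨆ t : ℕ, DS c d w t (w ^ (k + 1))

/-- HBK (about 120 lines; uses SBK, SNG).  Upper bound: SBK (`U = w^(k+1)`), `ciSup_le`.  Lower bound: the
mean of `sy c d w t U` over `t < primorial w` is `U ∏_{p ≤ w} (1 - nu p / p)` (CRT: each `m` runs through all
residues, the number of residues `m` modulo `∏_{p ≤ w} p` without `p ∣ c i m + d i` is `∏ (p - nu p)`),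
so some `t` is at least as large; then SNG. -/
def S_HBK : Prop := ∀ (k : ℕ) (c d : Fin k → ℕ), Sys c d → ∃ c0 B : ℝ, 0 < c0 ∧ ∀ᶠ w : ℕ in atTop,
  c0 ≤ hik c d w ∧ hik c d w ≤ B

/-- the integer part of the root of order `k + 1` -/
noncomputable def rt (k U : ℕ) : ℕ := ⌊(U : ℝ) ^ ((1 : ℝ) / ((k : ℝ) + 1))⌋₊

/-- EXDK (about 130 lines; uses TRK, SBK).  As CW.S_EXD (`Pool/Agent/H50/CW/EXD.lean`), with `w₀ = rt k U`
(`w₀^(k+1) ≤ U ≤ (1 + δ) w₀^(k+1)` for large `U`). -/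
def S_EXDK : Prop := ∀ (k : ℕ) (c d : Fin k → ℕ), Sys c d → ∀ C ε : ℝ, 1 ≤ C → 0 < ε →
  ∃ η : ℝ, 0 < η ∧ η ≤ 1 / 2 ∧ ∀ᶠ n : ℕ in atTop, ∀ m U v : ℕ,
    Real.log n ^ (k + 1) / C ≤ U → (U : ℝ) ≤ C * Real.log n ^ (k + 1) →
    Real.log n ^ (1 - η) ≤ v → (v : ℝ) ≤ Real.log n ^ (1 + η) →
    lok c d (rt k U) - ε ≤ DS c d v m U ∧ DS c d v m U ≤ hik c d (rt k U) + ε

/-- EXWK (about 120 lines; uses TRK, SBK).  As CW.S_EXW (`Pool/Agent/H50/CW/EXW.lean`). -/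
def S_EXWK : Prop := ∀ (k : ℕ) (c d : Fin k → ℕ), Sys c d → ∀ C ε : ℝ, 1 ≤ C → 0 < ε →
  ∃ η : ℝ, 0 < η ∧ η ≤ 1 / 2 ∧ ∀ᶠ n : ℕ in atTop, ∀ w U v : ℕ,
    Real.log n ^ (k + 1) / C ≤ U → (U : ℝ) ≤ C * Real.log n ^ (k + 1) →
    |(U : ℝ) - (w : ℝ) ^ (k + 1)| ≤ η * (w : ℝ) ^ (k + 1) →
    Real.log n ^ (1 - η) ≤ v → (v : ℝ) ≤ Real.log n ^ (1 + η) →
    (∃ m : ℕ, |DS c d v m U - hik c d w| ≤ ε) ∧ (∃ m : ℕ, |DS c d v m U - lok c d w| ≤ ε)

/-- POSK (about 60 lines).  `pos i = n₀ + i primorial v (U + 1)` with `X ≤ n₀ ≤ X + primorial v`,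
`n₀ ≡ t (mod primorial v)` (compare `Pool/Agent/H50/CW/POS.lean`). -/
def S_POSK : Prop := ∀ (k : ℕ) (c d : Fin k → ℕ) (v t X M U : ℕ), 4 * primorial v ≤ X →
  4 * (M * (primorial v * (U + 1))) ≤ X →
  ∃ pos : ℕ → ℕ, (∀ i j, i < j → pos i + U ≤ pos j) ∧ (∀ i < M, X ≤ pos i ∧ pos i + U ≤ 2 * X) ∧
    (∀ i U', sy c d v (pos i) U' = sy c d v t U')

/-! ## Granville's model -/

/-- Granville's model (independent version) -/
structure GMod {Ω : Type} [MeasurableSpace Ω] (P : Measure Ω) (A : ℕ → Set Ω) (z : ℕ → ℕ) : Prop where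
  prob : IsProbabilityMeasure P
  meas : ∀ n, MeasurableSet (A n)
  indep : iIndepSet A P
  empty : ∀ n, ¬ Rou (z n) n → A n = ∅
  mono : Monotone z
  lev : Tendsto (fun n : ℕ => Real.log (z n) / Real.log (Real.log n)) atTop (𝓝 1)
  dens : Tendsto (fun n : ℕ => (P (A n)).toReal * (Real.log n / MM (z n)))
    (atTop ⊓ 𝓟 {n : ℕ | Rou (z n) n}) (𝓝 1)

/-- `m` is a hit: all `c i * m + d i` are chosen -/
def Hit {Ω : Type} {k : ℕ} (c d : Fin k → ℕ) (A : ℕ → Set Ω) (m : ℕ) : Set Ω := ⋂ i : Fin k, A (c i * m + d i)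

open Classical in
/-- the number of hits in `(n, n + U]` -/
noncomputable def ht {Ω : Type} {k : ℕ} (c d : Fin k → ℕ) (A : ℕ → Set Ω) (ω : Ω) (n U : ℕ) : ℕ :=
  ((Finset.range U).filter (fun j => ω ∈ Hit c d A (n + j + 1))).card

/-- GXM (about 120 lines).  Granville's model exists.  `z n = ⌊log n⌋₊`, `P (A n) = min 1 (MM (z n) / log n)` if
`Rou (z n) n`, `0` otherwise (and for `n < 3`); product measure (`Measure.infinitePi`, compare
`Pool/Agent/H50/BF/EXM.lean`) of two point distributions on `Bool` (`PMF.bernoulli`...) or of uniform ones on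
`[0, 1]`.  `MM (⌊log n⌋₊) / log n → 0` (`MM v ≤ ∏_{2 ≤ j ≤ v} (1 - 1/j)⁻¹ = v`... `≤ v / log n`; if only `≤ 1` is
obtained, `min 1` has to be removed: `MM v = ∏_{p ≤ v} (1 - 1/p)⁻¹ ≤ v` (telescoping) gives `MM (z n) / log n ≤ 1`). -/
def S_GXM : Prop := ∃ (Ω : Type) (_ : MeasurableSpace Ω) (P : Measure Ω) (A : ℕ → Set Ω) (z : ℕ → ℕ), GMod P A z

/-- IND (about 120 lines).  Independence of the hits in `(X, 2X]`.
Proof.  `P (Hit m) = ∏ P (A (c i m + d i))` since the `c i m + d i` are different (`inj`,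
`iIndepSet.meas_biInter` for the image).  For a finite set `T ⊆ (X, 2X]`: if some `Hit m` (`m ∈ T`) is empty,
both sides are `0`.  Otherwise all `c i m + d i` are `Rou (z ..)` with `z .. ≥ 3`, so by `col`
(`m' ≤ 2 X < 2 m`) the sets of values `{c i m + d i}` are disjoint for different `m ∈ T`, and
`P (⋂ Hit m) = ∏_{N ∈ ⋃ values} P (A N) = ∏_m ∏_i P (A (c i m + d i))`.  Use `iIndepSet_iff_meas_biInter`. -/
def S_IND : Prop := ∀ (Ω : Type) [MeasurableSpace Ω] (P : Measure Ω) (A : ℕ → Set Ω) (z : ℕ → ℕ), GMod P A z →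
  ∀ (k : ℕ) (c d : Fin k → ℕ), Sys c d → ∃ n0 : ℕ,
    (∀ m : ℕ, n0 ≤ m → P (Hit c d A m) = ∏ i, P (A (c i * m + d i))) ∧
    ∀ X : ℕ, n0 ≤ X → iIndepSet (fun m : {m : ℕ // X < m ∧ m ≤ 2 * X} => Hit c d A m) P

/-- EXPW (about 200 lines; uses IND, TRK, SBK, BF.S_MERT).  The expected number of hits in a window.
Proof.  `MM (z n) / log log n → e^γ` (MERT, `lev`), so `MM (z n') / MM (z n) → 1` and `log n' / log n → 1` uniformly for
`n ≤ n' ≤ B n` (`B` = a bound for the forms: `c i m + d i ≤ B n` for `m ≤ 2n`); hence for `m` large,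
`n < m ≤ 2 n`, with all `c i m + d i` `Rou (z ..)`: `P (Hit m) (log n / MM (z n))^k` is within `ε'` of `1`, and
otherwise `Hit m = ∅`.  So the sum of the probabilities lies between
`(1 - ε') (MM (z n) / log n)^k sy c d Z n U`, `Z = z (B n)`, and `(1 + ε') (MM (z n) / log n)^k sy c d (z n) n U`; both
`z n` and `Z` are in `[L^(1-η), L^(1+η)]`, so by TRK (and `DS ≤ C` from SBK) both are
`L (U / L^(k+1)) DS c d v n U + O(ε'') L`.  The last part: `P (Hit m) ≤ 2 (MM (z n) / log n)^k → 0`. -/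
def S_EXPW : Prop := ∀ (Ω : Type) [MeasurableSpace Ω] (P : Measure Ω) (A : ℕ → Set Ω) (z : ℕ → ℕ), GMod P A z →
  ∀ (k : ℕ) (c d : Fin k → ℕ), Sys c d → ∀ C ε : ℝ, 1 ≤ C → 0 < ε → ∃ η : ℝ, 0 < η ∧ η ≤ 1 / 2 ∧
  ∀ᶠ n : ℕ in atTop, (∀ U v : ℕ, Real.log n ^ (k + 1) / C ≤ U → (U : ℝ) ≤ C * Real.log n ^ (k + 1) →
    Real.log n ^ (1 - η) ≤ v → (v : ℝ) ≤ Real.log n ^ (1 + η) →
    |(∑ j ∈ Finset.range U, (P (Hit c d A (n + j + 1))).toReal) / Real.log n -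
      (U / Real.log n ^ (k + 1)) * DS c d v n U| ≤ ε) ∧ (P (Hit c d A n)).toReal ≤ ε

open Classical in
/-- the number of the events `H m`, `m ∈ S`, which occur -/
noncomputable def NN {Ω : Type} (S : Finset ℕ) (H : ℕ → Set Ω) (ω : Ω) : ℕ := (S.filter (fun m => ω ∈ H m)).card

/-- MGI (about 60 lines).  `E (1 + t)^N = ∏ (1 + t P (H m))` for independent events (`iIndepSet` ->
`iIndepFun` of the indicators, or by induction / expansion `(1 + t)^N = ∏ (1 + t 1_{H m})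
= ∑_{T ⊆ S} t^|T| 1_{⋂_{m ∈ T} H m}`). -/
def S_MGI : Prop := ∀ (Ω : Type) [MeasurableSpace Ω] (P : Measure Ω), IsProbabilityMeasure P →
  ∀ (S : Finset ℕ) (H : ℕ → Set Ω), (∀ m, MeasurableSet (H m)) → iIndepSet (fun m : S => H m) P → ∀ t : ℝ,
  Integrable (fun ω => (1 + t) ^ NN S H ω) P ∧
  ∫ ω, (1 + t) ^ NN S H ω ∂P = ∏ m ∈ S, (1 + t * (P (H m)).toReal)

/-- LDU (about 60 lines; uses MGI).  Markov and `1 + x ≤ exp x` (`1 + t p ≥ 0` since `t > -1`, `p ≤ 1`). -/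
def S_LDU : Prop := ∀ (Ω : Type) [MeasurableSpace Ω] (P : Measure Ω), IsProbabilityMeasure P →
  ∀ (S : Finset ℕ) (H : ℕ → Set Ω), (∀ m, MeasurableSet (H m)) → iIndepSet (fun m : S => H m) P →
  ∀ t u : ℝ, -1 < t →
  (0 < t → P {ω | u ≤ (NN S H ω : ℝ)} ≤
    ENNReal.ofReal (Real.exp (-(u * Real.log (1 + t)) + t * ∑ m ∈ S, (P (H m)).toReal))) ∧
  (t < 0 → P {ω | (NN S H ω : ℝ) ≤ u} ≤
    ENNReal.ofReal (Real.exp (-(u * Real.log (1 + t)) + t * ∑ m ∈ S, (P (H m)).toReal)))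

/-- LDL (about 250 lines; uses MGI).  Lower bounds for the probabilities.
Proof.  With `η, t₁ < t < t₂` as in `CW.S_NUM` (see its docstring) and `κ₁, κ₂ = ((1+t) l ∓ δ) L`:
`E (1+t)^N 1(N > κ₂) ≤ ((1+t)/(1+t₂))^κ₂ E (1+t₂)^N`, `E (1+t)^N 1(N < κ₁) ≤ ((1+t)/(1+t₁))^κ₁ E (1+t₁)^N`, where
`exp (s E - s² η' E) ≤ ∏ (1 + s p_m) ≤ exp (s E)` for `|s| p_m ≤ 1/2` (`log (1+x) ≥ x - x²`), `E = ∑ p_m`,
`p_m ≤ η'`; both are `≤ (1/4) E (1+t)^N` for large `L`.  So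
`(1/2) exp (t E - t² η' E) ≤ E (1+t)^N 1(κ₁ ≤ N ≤ κ₂) ≤ max ((1+t)^κ₁) ((1+t)^κ₂) P (κ₁ ≤ N ≤ κ₂)`.
Second part: `P (N = 0) = ∏ (1 - p_m) ≥ exp (-E - η' E)` (MGI for `t = -1`). -/
def S_LDL : Prop := ∀ l t δ κ : ℝ, 0 ≤ l → -1 < t → 0 < δ → 0 < κ → ∃ η L0 : ℝ, 0 < η ∧ ∀ L : ℝ, L0 ≤ L →
  ∀ (Ω : Type) [MeasurableSpace Ω] (P : Measure Ω), IsProbabilityMeasure P →
  ∀ (S : Finset ℕ) (H : ℕ → Set Ω), (∀ m, MeasurableSet (H m)) → iIndepSet (fun m : S => H m) P →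
  |(∑ m ∈ S, (P (H m)).toReal) - l * L| ≤ η * L → (∀ m ∈ S, (P (H m)).toReal ≤ η) →
  Real.exp (-((l * ((1 + t) * Real.log (1 + t) - t) + δ * |Real.log (1 + t)| + κ) * L)) ≤
    (P {ω | |(NN S H ω : ℝ) - (1 + t) * l * L| ≤ δ * L}).toReal ∧
  Real.exp (-((l + κ) * L)) ≤ (P {ω | NN S H ω = 0}).toReal

/-- WND (about 120 lines; uses IND).  The numbers of hits in disjoint windows are independent.
Proof.  By IND the indicator functions of the `Hit m`, `X < m ≤ 2X`, are independent (`iIndepSet` ->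
`iIndepFun`), the windows are disjoint: `iIndepFun.finsets_comp` (or directly: the `σ`-algebras), then
`iIndepFun.measure_inter_preimage_eq_mul` for `Finset.range M`. -/
def S_WND : Prop := ∀ (Ω : Type) [MeasurableSpace Ω] (P : Measure Ω) (A : ℕ → Set Ω) (z : ℕ → ℕ), GMod P A z →
  ∀ (k : ℕ) (c d : Fin k → ℕ), Sys c d → ∃ n0 : ℕ, ∀ X : ℕ, n0 ≤ X → ∀ (M U : ℕ) (pos : ℕ → ℕ) (B : ℕ → Set ℕ),
    (∀ i j, i < j → pos i + U ≤ pos j) → (∀ i < M, X ≤ pos i ∧ pos i + U ≤ 2 * X) →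
    P {ω | ∀ i < M, ht c d A ω (pos i) U ∈ B i} =
      ∏ i ∈ Finset.range M, P {ω | ht c d A ω (pos i) U ∈ B i}

/-- GUP (about 200 lines; uses IND, EXPW, EXDK, LDU).
Proof (`0 < t`).  Window `(n, n + U n]`, `U n ≤ n`; the hits in it are independent (IND with `X = n`) and
`∑ P (Hit m) ≤ (U n / L^(k+1)) DS c d v n (U n) L + ε L ≤ (C + ε) (σ + 2 ε) L + ε L` (EXPW, EXDK with `v = ⌈L⌉₊`,
`rt k (U n) → ∞`); LDU: `P (ht ≥ u L) ≤ exp (-(u log (1+t) - t C σ - O(ε)) L) ≤ n^(-1-ε')`; Borel-Cantelli.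
`t < 0` in the same way with the lower bounds. -/
def S_GUP : Prop := ∀ (Ω : Type) [MeasurableSpace Ω] (P : Measure Ω) (A : ℕ → Set Ω) (z : ℕ → ℕ), GMod P A z →
  ∀ (k : ℕ) (c d : Fin k → ℕ), Sys c d → ∀ C t u σ : ℝ, 0 < C → -1 < t → 0 ≤ σ →
  1 < u * Real.log (1 + t) - t * (C * σ) →
  ∀ U : ℕ → ℕ, Tendsto (fun n : ℕ => (U n : ℝ) / Real.log n ^ (k + 1)) atTop (𝓝 C) →
  (0 < t → (∀ ε : ℝ, 0 < ε → ∀ᶠ w : ℕ in atTop, hik c d w ≤ σ + ε) →
    ∀ᵐ ω ∂P, ∀ᶠ n : ℕ in atTop, (ht c d A ω n (U n) : ℝ) < u * Real.log n) ∧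
  (t < 0 → (∀ ε : ℝ, 0 < ε → ∀ᶠ w : ℕ in atTop, σ - ε ≤ lok c d w) →
    ∀ᵐ ω ∂P, ∀ᶠ n : ℕ in atTop, u * Real.log n < (ht c d A ω n (U n) : ℝ))

/-- GEX (about 300 lines; uses WND, IND, EXPW, EXWK, POSK, LDL).
Proof of the first part.  Choose `δ` smaller and `κ` such that `r = C σ ((1+t) log (1+t) - t) + δ |log (1+t)| + κ < 1 - 2κ`;
`η` from LDL with `l = C σ`.  For `w` with `|hik w - σ| ≤ η'` (or `lok`) let `X = ⌈exp (w / C^(1/(k+1)))⌉₊`,
`L = log X`, `U = U X` (`U / w^(k+1) → 1`), `v = ⌊κ' L⌋₊` with `κ'` so small that `4 primorial v ≤ 4^(v+1) ≤ X^κ`; EXWK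
gives `t_w` with `DS c d v t_w U` within `η'` of `hik w` (`lok w`); POSK with `M = ⌊X / (4 primorial v (U + 1))⌋ ≥ X^(1-2κ)`,
windows `(pos i, pos i + U]` with the same `DS c d v`; by EXPW (`n = pos i ∈ [X, 2X]`) the expectations are
`(C σ ± η) L`; LDL: each window is good with probability `≥ X^(-r)`; by WND the probability that none
is good is `≤ (1 - X^(-r))^M ≤ exp (-M X^(-r)) → 0` as `w → ∞`; and the set of the `ω` for which only finitely many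
`X` are good is the increasing union of the sets `no X ≥ m is good`, each of measure `0`
(compare `Pool/Agent/H50/CW/EXI.lean`).  Second part: the same with the second inequality of LDL. -/
def S_GEX : Prop := ∀ (Ω : Type) [MeasurableSpace Ω] (P : Measure Ω) (A : ℕ → Set Ω) (z : ℕ → ℕ), GMod P A z →
  ∀ (k : ℕ) (c d : Fin k → ℕ), Sys c d → ∀ C σ : ℝ, 0 < C → 0 ≤ σ →
  ∀ U : ℕ → ℕ, Tendsto (fun n : ℕ => (U n : ℝ) / Real.log n ^ (k + 1)) atTop (𝓝 C) →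
  ((∀ ε : ℝ, 0 < ε → ∃ᶠ w : ℕ in atTop, |hik c d w - σ| ≤ ε) ∨
    (∀ ε : ℝ, 0 < ε → ∃ᶠ w : ℕ in atTop, |lok c d w - σ| ≤ ε)) →
  (∀ t δ : ℝ, -1 < t → 0 < δ → C * σ * ((1 + t) * Real.log (1 + t) - t) < 1 →
    ∀ᵐ ω ∂P, ∃ᶠ X : ℕ in atTop, ∃ n : ℕ, X ≤ n ∧ n ≤ 2 * X ∧
      |(ht c d A ω n (U X) : ℝ) / Real.log X - (1 + t) * (C * σ)| ≤ δ) ∧
  (C * σ < 1 → ∀ᵐ ω ∂P, ∃ᶠ X : ℕ in atTop, ∃ n : ℕ, X ≤ n ∧ n ≤ 2 * X ∧ ht c d A ω n (U X) = 0)

end Pool.Agent.H50.GW
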