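import Pool.Agent.H50.GW.Stm

/-! # GW-WND: the numbers of hits in disjoint windows are independent (helper94) -/

set_option autoImplicit false

open MeasureTheory Filter ProbabilityTheory
open scoped Topology ENNReal

namespace Pool.Agent.H50.GW

namespace WND

open Classical in
lemma ht_eq {Ω : Type} {k : ℕ} (c d : Fin k → ℕ) (A : ℕ → Set Ω) (ω : Ω) (n U : ℕ) :
    ht c d A ω n U = ∑ m ∈ Finset.Ioc n (n + U), (Hit c d A m).indicator (fun _ => 1) ω := by
  have e : Finset.Ioc n (n + U) = (Finset.range U).image (fun j => n + j + 1) := by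
    ext m
    simp only [Finset.mem_Ioc, Finset.mem_image, Finset.mem_range]
    constructor
    · rintro ⟨h1, h2⟩
      exact ⟨m - n - 1, by omega, by omega⟩
    · rintro ⟨j, h1, h2⟩
      omega
  rw [e, Finset.sum_image (by intro a _ b _ hab; simp only at hab; omega)]
  unfold ht
  rw [Finset.card_filter]
  refine Finset.sum_congr rfl fun j _ => ?_
  simp only [Set.indicator_apply]

/-- events which depend only on finitely many discrete coordinates -/
lemma pre {Ω κ : Type} {F : Ω → κ} {E : Set Ω} (h : ∀ ω ω', F ω = F ω' → ω ∈ E → ω' ∈ E) :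
    F ⁻¹' (F '' E) = E := by
  refine Set.Subset.antisymm ?_ (Set.subset_preimage_image F E)
  rintro ω ⟨ω', h1, h2⟩
  exact h ω' ω h2 h1

end WND

open Classical in
theorem wnd : S_IND → S_WND := by
  intro hI Ω _ P A z hG k c d hs
  obtain ⟨n0, -, hn0⟩ := hI Ω P A z hG k c d hs
  refine ⟨n0, fun X hX M U pos B hpos => ?_⟩
  have hP := hG.prob
  have hind := hn0 X hX
  have hHm : ∀ m : {m : ℕ // X < m ∧ m ≤ 2 * X}, MeasurableSet (Hit c d A m) := fun m =>
    MeasurableSet.iInter fun i => hG.meas _
  have h1 : iIndepFun (fun (m : {m : ℕ // X < m ∧ m ≤ 2 * X}) =>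
      (Hit c d A m).indicator (fun _ => (1 : ℕ))) P := hind.iIndepFun_indicator
  have hf : ∀ m : {m : ℕ // X < m ∧ m ≤ 2 * X}, Measurable ((Hit c d A m).indicator (fun _ => (1 : ℕ))) :=
    fun m => measurable_const.indicator (hHm m)
  induction M with
  | zero =>
    intro _
    simp
  | succ M ih =>
    intro hX2
    have ih' := ih (fun i hi => hX2 i (by omega))
    obtain ⟨hM1, hM2⟩ := hX2 M (by omega)
    let S : Finset {m : ℕ // X < m ∧ m ≤ 2 * X} :=
      (Finset.Ioc X (pos M)).subtype (fun m => X < m ∧ m ≤ 2 * X)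
    let T : Finset {m : ℕ // X < m ∧ m ≤ 2 * X} :=
      (Finset.Ioc (pos M) (pos M + U)).subtype (fun m => X < m ∧ m ≤ 2 * X)
    have hdis : Disjoint S T := by
      rw [Finset.disjoint_left]
      intro a ha hb
      simp only [S, T, Finset.mem_subtype, Finset.mem_Ioc] at ha hb
      omega
    have h2 := h1.indepFun_finset S T hdis hf
    rw [indepFun_iff_measure_inter_preimage_eq_mul] at h2
    set F : Ω → (S → ℕ) := fun a i => (Hit c d A i).indicator (fun _ => (1 : ℕ)) a with hF
    set G : Ω → (T → ℕ) := fun a i => (Hit c d A i).indicator (fun _ => (1 : ℕ)) a with hG'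
    set E1 : Set Ω := {ω | ∀ i < M, ht c d A ω (pos i) U ∈ B i} with hE1
    set E2 : Set Ω := {ω | ht c d A ω (pos M) U ∈ B M} with hE2
    have p1 : F ⁻¹' (F '' E1) = E1 := by
      apply WND.pre
      intro ω ω' hω h i hi
      have e : ht c d A ω' (pos i) U = ht c d A ω (pos i) U := by
        rw [WND.ht_eq, WND.ht_eq]
        refine Finset.sum_congr rfl fun m hm => ?_
        rw [Finset.mem_Ioc] at hm
        have q1 := hX2 i (by omega)
        have q2 := hpos i M hi
        have hmS : (⟨m, by omega, by omega⟩ : {m : ℕ // X < m ∧ m ≤ 2 * X}) ∈ S := by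
          simp only [S, Finset.mem_subtype, Finset.mem_Ioc]
          omega
        have := congrFun hω ⟨⟨m, by omega, by omega⟩, hmS⟩
        exact this.symm
      rw [e]
      exact h i hi
    have p2 : G ⁻¹' (G '' E2) = E2 := by
      apply WND.pre
      intro ω ω' hω h
      have e : ht c d A ω' (pos M) U = ht c d A ω (pos M) U := by
        rw [WND.ht_eq, WND.ht_eq]
        refine Finset.sum_congr rfl fun m hm => ?_
        rw [Finset.mem_Ioc] at hm
        have hmT : (⟨m, by omega, by omega⟩ : {m : ℕ // X < m ∧ m ≤ 2 * X}) ∈ T := by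
          simp only [T, Finset.mem_subtype, Finset.mem_Ioc]
          omega
        have := congrFun hω ⟨⟨m, by omega, by omega⟩, hmT⟩
        exact this.symm
      change ht c d A ω' (pos M) U ∈ B M
      rw [e]
      exact h
    have h3 := h2 (F '' E1) (G '' E2) (Set.to_countable _).measurableSet
      (Set.to_countable _).measurableSet
    rw [p1, p2, ih'] at h3
    rw [Finset.prod_range_succ, ← h3]
    congr 1
    ext ω
    simp only [hE1, hE2, Set.mem_inter_iff, Set.mem_setOf_eq]
    constructor
    · intro h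
      exact ⟨fun i hi => h i (by omega), h M (by omega)⟩
    · rintro ⟨ha, hb⟩ i hi
      rcases Nat.lt_succ_iff_lt_or_eq.1 hi with h | h
      · exact ha i h
      · rw [h]; exact hb

end Pool.Agent.H50.GW
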